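import Pool.Agent.H27.NT.BaseA

/-!
# Regular pairs (job NT-7)
-/

open IsLocalRing

namespace Pool.Agent.H27.NT

universe u

/-- The maximal ideal is not an associated prime of `R/a`. -/
theorem baseC_not_assoc {R : Type u} [CommRing R] [IsDomain R] [IsLocalRing R]
    [IsNoetherianRing R] [IsIntegrallyClosed R] (p : Ideal R) [hpp : p.IsPrime]
    (hp : p ≠ ⊥) (hpm : p ≠ maximalIdeal R) {a : R} (ha : a ≠ 0) (x : R)
    (hx : x ∉ Ideal.span {a}) (hmx : ∀ z ∈ maximalIdeal R, z * x ∈ Ideal.span {a}) : False := by
  -- either `m` is principal or `x / a` is integral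
  by_cases hu : ∃ z ∈ maximalIdeal R, ∃ u : R, IsUnit u ∧ z * x = a * u
  · obtain ⟨t, ht, u, hu, htu⟩ := hu
    -- `m = (t)`
    have hmt : ∀ z ∈ maximalIdeal R, ∃ c, z = c * t := by
      intro z hz
      obtain ⟨w, hw⟩ := Ideal.mem_span_singleton'.mp (hmx z hz)
      obtain ⟨v, hv⟩ := hu
      -- z * x = w * a, t * x = a * u
      have h1 : a * (z * (v : R)) = a * (w * t) := by
        have : (z * x) * t = (t * x) * z := by ring
        rw [← hw, htu, ← hv] at this
        linear_combination -this
      have h2 := mul_left_cancel₀ ha h1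
      refine ⟨w * ((v⁻¹ : Rˣ) : R), ?_⟩
      have h3 : z = z * (v : R) * ((v⁻¹ : Rˣ) : R) := by
        rw [mul_assoc, Units.mul_inv, mul_one]
      rw [h3, h2]
      ring
    have hple : p ≤ maximalIdeal R := IsLocalRing.le_maximalIdeal hpp.ne_top
    have htp : t ∉ p := by
      intro htp
      apply hpm
      refine le_antisymm hple fun z hz => ?_
      obtain ⟨c, rfl⟩ := hmt z hz
      exact p.mul_mem_left _ htp
    apply hp
    refine Submodule.eq_bot_of_le_smul_of_le_jacobson_bot (maximalIdeal R) p
      (IsNoetherian.noetherian p) ?_ (IsLocalRing.maximalIdeal_le_jacobson ⊥)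
    intro z hz
    obtain ⟨c, rfl⟩ := hmt z (hple hz)
    have hc : c ∈ p := (hpp.mem_or_mem hz).resolve_right htp
    rw [mul_comm, ← smul_eq_mul]
    exact Submodule.smul_mem_smul ht hc
  · -- `x / a` maps `m` to `m`
    push Not at hu
    let K := FractionRing R
    let y : K := algebraMap R K x / algebraMap R K a
    have haK : algebraMap R K a ≠ 0 := by
      rw [Ne, IsFractionRing.to_map_eq_zero_iff]
      exact ha
    let N : Submodule R K := Submodule.map (Algebra.linearMap R K) (maximalIdeal R)
    have hm0 : ∃ z ∈ maximalIdeal R, z ≠ 0 := by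
      obtain ⟨z, hz, hz0⟩ := Submodule.exists_mem_ne_zero_of_ne_bot hp
      exact ⟨z, IsLocalRing.le_maximalIdeal hpp.ne_top hz, hz0⟩
    have hN : N ≠ ⊥ := by
      obtain ⟨z, hz, hz0⟩ := hm0
      intro h
      have h1 : algebraMap R K z ∈ N := ⟨z, hz, rfl⟩
      rw [h, Submodule.mem_bot, IsFractionRing.to_map_eq_zero_iff] at h1
      exact hz0 h1
    have hNfg : N.FG := Submodule.FG.map _ (IsNoetherian.noetherian (maximalIdeal R))
    have hint : IsIntegral R y := by
      refine isIntegral_of_smul_mem_submodule (M := K) N hN hNfg y ?_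
      rintro _ ⟨z, hz, rfl⟩
      obtain ⟨w, hw⟩ := Ideal.mem_span_singleton'.mp (hmx z hz)
      refine ⟨w, ?_, ?_⟩
      · by_contra hwm
        have hwu : IsUnit w := by
          by_contra h
          exact hwm ((IsLocalRing.mem_maximalIdeal w).mpr h)
        exact hu z hz w hwu (by rw [← hw, mul_comm])
      · have h1 : algebraMap R K z * algebraMap R K x = algebraMap R K w * algebraMap R K a := by
          rw [← map_mul, ← map_mul, hw]
        change algebraMap R K w = y * algebraMap R K z
        simp only [y]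
        rw [div_mul_eq_mul_div, eq_div_iff haK, ← h1, mul_comm]
    obtain ⟨r, hr⟩ := IsIntegrallyClosed.isIntegral_iff.mp hint
    apply hx
    have h1 : algebraMap R K x = algebraMap R K (r * a) := by
      rw [map_mul, hr]
      simp only [y]
      rw [div_mul_cancel₀ _ haK]
    have h2 : x = r * a := IsFractionRing.injective R K h1
    rw [h2]
    exact Ideal.mul_mem_left _ _ (Ideal.mem_span_singleton_self a)

/-- (job NT-7) Regular pairs deep in the maximal ideal.
Proof. Take `a ∈ m^s`, `a ∉ p`. As `R` is normal of dimension two, `m` is not an associated prime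
of `R/a` (if `m x ⊆ (a)`, `x ∉ (a)`, then `y = x/a` satisfies `m y ⊆ R`; if `m y ⊆ m` then `y` is
integral over `R`, so `y ∈ R`; if `m y = R` then `m` is principal, so `dim R ≤ 1`). By prime
avoidance there is `b ∈ m^s` outside all associated primes of `R/a`, so `b` is regular on `R/a`.
A prime `q ≠ m` containing `a` and `b` has height one, so it is minimal over `a`, so it is an
associated prime of `R/a`, contradiction; use `length_quotient_ne_top`. -/
theorem exists_regular_pair {R : Type u} [CommRing R] [IsDomain R] [IsLocalRing R]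
    [IsNoetherianRing R] [IsIntegrallyClosed R] (h2 : ringKrullDim R ≤ 2) (p : Ideal R) [p.IsPrime]
    (hp : p ≠ ⊥) (hpm : p ≠ maximalIdeal R) (s : ℕ) :
    ∃ a b : R, a ∈ maximalIdeal R ^ s ∧ b ∈ maximalIdeal R ^ s ∧ a ∉ p ∧
      IsSMulRegular (R ⧸ Ideal.span {a}) b ∧ Module.length R (R ⧸ Ideal.span {a, b}) ≠ ⊤ := by
  classical
  have hple : p ≤ maximalIdeal R := IsLocalRing.le_maximalIdeal (Ideal.IsPrime.ne_top inferInstance)
  have hnot : ∀ q : Ideal R, q.IsPrime → q ≠ maximalIdeal R → ¬ maximalIdeal R ^ s ≤ q := by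
    intro q hq hqm hle
    have h1 : maximalIdeal R ≤ q := hq.le_of_pow_le hle
    exact hqm (le_antisymm (IsLocalRing.le_maximalIdeal hq.ne_top) h1)
  obtain ⟨a, ham, hap⟩ := SetLike.not_le_iff_exists.mp (hnot p inferInstance hpm)
  have ha0 : a ≠ 0 := fun h => hap (h ▸ p.zero_mem)
  set Q := R ⧸ Ideal.span {a} with hQ
  have hfin : (associatedPrimes R Q).Finite := associatedPrimes.finite R Q
  have hass : ∀ q ∈ associatedPrimes R Q, q ≠ maximalIdeal R := by
    intro q hq hqm
    rw [AssociatedPrimes.mem_iff, isAssociatedPrime_iff] at hq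
    obtain ⟨hq1, x, hx⟩ := hq
    obtain ⟨x, rfl⟩ := Ideal.Quotient.mk_surjective x
    refine baseC_not_assoc p hp hpm ha0 x ?_ ?_
    · intro hxa
      have h0 : (Ideal.Quotient.mk (Ideal.span {a})) x = 0 := Ideal.Quotient.eq_zero_iff_mem.mpr hxa
      apply hq1.ne_top
      rw [hx, h0]
      simp
    · intro z hz
      rw [← hqm, hx] at hz
      have h1 : z • (Ideal.Quotient.mk (Ideal.span {a})) x = 0 := by
        simpa [Submodule.mem_colon_singleton] using hz
      have h2 : (Ideal.Quotient.mk (Ideal.span {a})) (z * x) = 0 := by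
        rw [map_mul]
        exact h1
      exact Ideal.Quotient.eq_zero_iff_mem.mp h2
  have hb : ∃ b ∈ maximalIdeal R ^ s, ∀ q ∈ associatedPrimes R Q, b ∉ q := by
    by_contra hcon
    push Not at hcon
    have hsub : ((maximalIdeal R ^ s : Ideal R) : Set R) ⊆
        ⋃ i ∈ (↑hfin.toFinset : Set (Ideal R)), (i : Set R) := by
      intro z hz
      obtain ⟨q, hq, hzq⟩ := hcon z hz
      simp only [Set.mem_iUnion]
      exact ⟨q, by simpa using hq, hzq⟩
    obtain ⟨q, hq, hle⟩ := (Ideal.subset_union_prime (f := fun i : Ideal R => i) ⊥ ⊥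
      (fun i hi _ _ => (by
        have : i ∈ associatedPrimes R Q := by simpa using hi
        exact this.1))).mp hsub
    have hq' : q ∈ associatedPrimes R Q := by simpa using hq
    exact hnot q hq'.1 (hass q hq') hle
  obtain ⟨b, hbm, hbq⟩ := hb
  refine ⟨a, b, ham, hbm, hap, ?_, ?_⟩
  · have hun := biUnion_associatedPrimes_eq_zero_divisors R Q
    have hnb : b ∉ { r : R | ∃ x : Q, x ≠ 0 ∧ r • x = 0 } := by
      rw [← hun]
      simp only [Set.mem_iUnion, not_exists]
      intro q hq hb
      exact hbq q hq hb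
    rw [isSMulRegular_iff_right_eq_zero_of_smul]
    intro x hx
    by_contra hx0
    exact hnb ⟨x, hx0, hx⟩
  · apply length_quotient_ne_top
    intro q hq hle
    by_contra hqm
    have haq : a ∈ q := hle (Ideal.subset_span (by simp))
    have hbq' : b ∈ q := hle (Ideal.subset_span (by simp))
    have haq' : Ideal.span {a} ≤ q := by
      rw [Ideal.span_singleton_le_iff_mem]
      exact haq
    obtain ⟨q', hq', hq'q⟩ := Ideal.exists_minimalPrimes_le haq'
    have hq'p : q'.IsPrime := hq'.1.1
    have haq'' : a ∈ q' := hq'.1.2 (Ideal.mem_span_singleton_self a)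
    have hq'0 : q' ≠ ⊥ := by
      intro h
      rw [h] at haq''
      exact ha0 haq''
    rcases eq_or_lt_of_le hq'q with h | h
    · have hann : Module.annihilator R Q = Ideal.span {a} := Ideal.annihilator_quotient
      have hmem : q' ∈ associatedPrimes R Q := by
        apply Module.associatedPrimes.minimalPrimes_annihilator_subset_associatedPrimes R Q
        rw [hann]
        exact hq'
      exact hbq q' hmem (h ▸ hbq')
    · exact hqm (eq_max_of_lt h2 hq'0 h)

/-- The exact sequence of a linear map into a quotient. -/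
theorem baseC_length {R : Type u} [CommRing R] {N : Type u} [AddCommGroup N] [Module R N]
    (I J : Ideal R) (hIJ : I ≤ J) (f : N →ₗ[R] (R ⧸ I))
    (hf : ∀ r : R, r ∈ J ↔ ∃ n, f n = Ideal.Quotient.mk I r) :
    Module.length R (R ⧸ I) = Module.length R (N ⧸ LinearMap.ker f) +
      Module.length R (R ⧸ J) := by
  let g : (R ⧸ I) →ₗ[R] (R ⧸ J) := Submodule.factor hIJ
  let f' : (N ⧸ LinearMap.ker f) →ₗ[R] (R ⧸ I) := (LinearMap.ker f).liftQ f le_rfl
  have hf' : Function.Injective f' := by
    rw [← LinearMap.ker_eq_bot]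
    exact Submodule.ker_liftQ_eq_bot _ _ _ le_rfl
  refine Module.length_eq_add_of_exact f' g hf' (Submodule.factor_surjective hIJ) ?_
  intro x
  obtain ⟨r, rfl⟩ := Ideal.Quotient.mk_surjective x
  have hg : g (Ideal.Quotient.mk I r) = Ideal.Quotient.mk J r := rfl
  rw [hg, Ideal.Quotient.eq_zero_iff_mem, hf r]
  constructor
  · rintro ⟨n, hn⟩
    exact ⟨Submodule.Quotient.mk n, hn⟩
  · rintro ⟨n, hn⟩
    obtain ⟨n, rfl⟩ := Submodule.Quotient.mk_surjective _ n
    exact ⟨n, hn⟩

/-- (job NT-7) Proof. `M/aM → R/aR` is injective as `a` is regular on `R/M`, with cokernel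
`L = R/(M + a)` of finite length. So `b` is regular on `M/aM`, and the snake lemma for
multiplication by `b` gives the exact sequence `0 → ker(b | L) → M/(a,b)M → R/(a,b) → L/bL → 0`
with `length ker(b | L) = length (L/bL)`. -/
theorem symbolic_bound {R : Type u} [CommRing R] [IsDomain R] (M : Ideal R) (a b : R) (ha : a ≠ 0)
    (hM : ∀ x, a * x ∈ M → x ∈ M) (hb : IsSMulRegular (R ⧸ Ideal.span {a}) b)
    (hL : Module.length R (R ⧸ (M ⊔ Ideal.span {a})) ≠ ⊤) :
    RingTheory.Sequence.IsWeaklyRegular M [a, b] ∧
      Module.length R (M ⧸ (Ideal.ofList [a, b] • ⊤ : Submodule R M)) ≤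
        Module.length R (R ⧸ Ideal.span {a, b}) := by
  have hb' : ∀ r, b * r ∈ Ideal.span {a} → r ∈ Ideal.span {a} := by
    intro r hr
    rw [isSMulRegular_iff_right_eq_zero_of_smul] at hb
    have h1 := hb (Ideal.Quotient.mk _ r) (by
      have : (Ideal.Quotient.mk (Ideal.span {a})) (b * r) = 0 := Ideal.Quotient.eq_zero_iff_mem.mpr hr
      rw [map_mul] at this
      exact this)
    exact Ideal.Quotient.eq_zero_iff_mem.mp h1
  constructor
  · refine RingTheory.Sequence.IsWeaklyRegular.cons ?_
      ((RingTheory.Sequence.isWeaklyRegular_singleton_iff _ _).mpr ?_)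
    · rw [isSMulRegular_iff_right_eq_zero_of_smul]
      intro x hx
      have h1 : a * (x : R) = 0 := congrArg Subtype.val hx
      exact Subtype.ext ((mul_eq_zero.mp h1).resolve_left ha)
    · rw [isSMulRegular_iff_right_eq_zero_of_smul]
      intro x hx
      obtain ⟨x, rfl⟩ := Submodule.Quotient.mk_surjective _ x
      rw [← Submodule.Quotient.mk_smul, Submodule.Quotient.mk_eq_zero] at hx
      rw [Submodule.Quotient.mk_eq_zero]
      obtain ⟨y, -, hy⟩ := (Submodule.mem_smul_pointwise_iff_exists _ _ _).mp hx
      have h1 : a * (y : R) = b * (x : R) := congrArg Subtype.val hy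
      have h2 : (x : R) ∈ Ideal.span {a} := by
        apply hb'
        rw [← h1]
        exact Ideal.mul_mem_right _ _ (Ideal.mem_span_singleton_self a)
      obtain ⟨r, hr⟩ := Ideal.mem_span_singleton'.mp h2
      have hrM : r ∈ M := by
        apply hM
        rw [mul_comm, hr]
        exact x.2
      refine (Submodule.mem_smul_pointwise_iff_exists _ _ _).mpr ⟨⟨r, hrM⟩, trivial, ?_⟩
      apply Subtype.ext
      change a * r = x
      rw [mul_comm, hr]
  · -- the ideal `I = b M + (a)`
    set I : Ideal R := Ideal.span {b} * M ⊔ Ideal.span {a} with hI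
    have hI1 : I ≤ M ⊔ Ideal.span {a} := sup_le_sup_right Ideal.mul_le_right _
    have hI2 : I ≤ Ideal.span {a, b} := by
      refine sup_le ?_ (Ideal.span_mono (by simp))
      refine Ideal.mul_le_left.trans (Ideal.span_mono (by simp))
    have hmemI : ∀ z, z ∈ I ↔ ∃ m ∈ M, ∃ r, z = b * m + a * r := by
      intro z
      rw [hI, Submodule.mem_sup]
      constructor
      · rintro ⟨y, hy, w, hw, rfl⟩
        obtain ⟨m, hm, rfl⟩ := Ideal.mem_span_singleton_mul.mp hy
        obtain ⟨r, rfl⟩ := Ideal.mem_span_singleton'.mp hw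
        exact ⟨m, hm, r, by ring⟩
      · rintro ⟨m, hm, r, rfl⟩
        exact ⟨b * m, Ideal.mem_span_singleton_mul.mpr ⟨m, hm, rfl⟩, a * r,
          Ideal.mul_mem_right _ _ (Ideal.mem_span_singleton_self a), rfl⟩
    let f1 : M →ₗ[R] (R ⧸ I) := (Submodule.mkQ I).comp (Submodule.subtype M)
    let f2 : R →ₗ[R] (R ⧸ I) := (Submodule.mkQ I).comp (LinearMap.lsmul R R b)
    have hf1 : ∀ m : M, f1 m = Ideal.Quotient.mk I (m : R) := fun m => rfl
    have hf2 : ∀ r : R, f2 r = Ideal.Quotient.mk I (b * r) := fun r => rfl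
    have e1 := baseC_length I (M ⊔ Ideal.span {a}) hI1 f1 (by
      intro r
      rw [Submodule.mem_sup]
      constructor
      · rintro ⟨m, hm, w, hw, rfl⟩
        refine ⟨⟨m, hm⟩, ?_⟩
        rw [hf1, Ideal.Quotient.eq]
        have : m - (m + w) = -w := by ring
        rw [this]
        exact I.neg_mem ((le_sup_right : Ideal.span {a} ≤ I) hw)
      · rintro ⟨m, hm⟩
        rw [hf1, Ideal.Quotient.eq, hmemI] at hm
        obtain ⟨m', hm', r', hr'⟩ := hm
        refine ⟨m - b * m', M.sub_mem m.2 (M.mul_mem_left _ hm'), -(a * r'),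
          Submodule.neg_mem _ (Ideal.mul_mem_right _ _ (Ideal.mem_span_singleton_self a)), ?_⟩
        linear_combination hr')
    have e2 := baseC_length I (Ideal.span {a, b}) hI2 f2 (by
      intro r
      rw [Ideal.mem_span_pair]
      constructor
      · rintro ⟨x, y, hxy⟩
        refine ⟨y, ?_⟩
        rw [hf2, Ideal.Quotient.eq]
        have : b * y - r = -(x * a) := by rw [← hxy]; ring
        rw [this]
        exact I.neg_mem ((le_sup_right : Ideal.span {a} ≤ I)
          (Ideal.mul_mem_left _ _ (Ideal.mem_span_singleton_self a)))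
      · rintro ⟨y, hy⟩
        rw [hf2, Ideal.Quotient.eq, hmemI] at hy
        obtain ⟨m', hm', r', hr'⟩ := hy
        refine ⟨-r', y - m', ?_⟩
        linear_combination hr')
    have k1 : LinearMap.ker f1 = (Ideal.ofList [a, b] • ⊤ : Submodule R M) := by
      ext m
      rw [LinearMap.mem_ker, hf1, Ideal.Quotient.eq_zero_iff_mem, hmemI]
      constructor
      · rintro ⟨m', hm', r, hr⟩
        have hrM : r ∈ M := by
          apply hM
          have : a * r = m - b * m' := by rw [hr]; ring
          rw [this]
          exact M.sub_mem m.2 (M.mul_mem_left _ hm')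
        have : m = b • (⟨m', hm'⟩ : M) + a • (⟨r, hrM⟩ : M) := by
          apply Subtype.ext
          change (m : R) = b * m' + a * r
          rw [hr]
        rw [this]
        refine Submodule.add_mem _ (Submodule.smul_mem_smul ?_ trivial)
          (Submodule.smul_mem_smul ?_ trivial)
        · exact Ideal.subset_span (by simp)
        · exact Ideal.subset_span (by simp)
      · intro hm
        induction hm using Submodule.smul_induction_on' with
        | smul r hr n _ =>
          have hr' : r ∈ Ideal.span {a, b} := by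
            have : Ideal.ofList [a, b] = Ideal.span {a, b} := by
              rw [Ideal.ofList]
              congr 1
              ext z
              simp
            rwa [this] at hr
          obtain ⟨x, y, rfl⟩ := Ideal.mem_span_pair.mp hr'
          refine ⟨y * n, M.mul_mem_left _ n.2, x * n, ?_⟩
          change (x * a + y * b) * (n : R) = _
          ring
        | add x _ y _ hx hy =>
          obtain ⟨m1, h1, r1, e1⟩ := hx
          obtain ⟨m2, h2, r2, e2⟩ := hy
          refine ⟨m1 + m2, M.add_mem h1 h2, r1 + r2, ?_⟩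
          change (x : R) + y = _
          rw [e1, e2]
          ring
    have k2 : LinearMap.ker f2 = M ⊔ Ideal.span {a} := by
      ext r
      rw [LinearMap.mem_ker, hf2, Ideal.Quotient.eq_zero_iff_mem, hmemI]
      constructor
      · rintro ⟨m', hm', r', hr'⟩
        have h1 : r - m' ∈ Ideal.span {a} := by
          apply hb'
          have : b * (r - m') = a * r' := by linear_combination hr'
          rw [this]
          exact Ideal.mul_mem_right _ _ (Ideal.mem_span_singleton_self a)
        have h2 : r = m' + (r - m') := by ring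
        rw [h2]
        exact Submodule.add_mem_sup hm' h1
      · intro hr
        obtain ⟨m, hm, w, hw, rfl⟩ := Submodule.mem_sup.mp hr
        obtain ⟨r', rfl⟩ := Ideal.mem_span_singleton'.mp hw
        exact ⟨m, hm, b * r', by ring⟩
    rw [k1] at e1
    rw [k2] at e2
    rw [e1, add_comm] at e2
    exact le_of_eq ((WithTop.add_left_inj hL).mp e2)

end Pool.Agent.H27.NT
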