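import Pool.Agent.H27.NT.BaseB
import Pool.Agent.H27.NT.BaseC

/-!
# Two-dimensional normal domains (job NT-8)

Theorem: `TT R` for every Noetherian local normal domain `R` of dimension at most two.

Proof. Let `lam` be tame (with `s`, `C`) and `lam R = 0`. By prime filtrations
(`IsNoetherianRing.induction_on_isQuotientEquivQuotientPrime`) it suffices to show
`lam (R/q) = 0` for all primes `q`. `q = 0`: hypothesis. `q = m ≠ 0`: `AddFn.val_residue`.
Otherwise `q = p` is nonzero and not maximal, all smaller primes are zero and the only larger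
prime is `m` (`eq_max_of_lt`; if `0 < q' < p < m` then `p = m` by that lemma). Take `M i` from
`exists_symbolic` and `a, b` from `exists_regular_pair`.
(1) `lam (M i / M (i+1)) = lam (R/p)`: the map `R/p → M i / M (i+1)`, `r ↦ r x` is well defined
and injective, its cokernel is a finitely generated `R/p`-module killed by some `t ∉ p`, hence of
finite length (`length_ne_top_of_smul` with `I = p + (t)`), so `lam` vanishes on it.
(2) so `lam (R / M r) = r · lam (R/p)`, and `lam (M r) = - r · lam (R/p)`.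
(3) `p^r ≤ M r`, so `R/(M r + a)` has finite length, and `symbolic_bound` and tameness give
`|lam (M r)| ≤ C · length (R/(a,b))` for all `r`. Hence `lam (R/p) = 0`.
-/

open IsLocalRing

namespace Pool.Agent.H27.NT

universe u

namespace NT8

/-- A finitely generated module all of whose elements are killed by elements outside a prime is
killed by an element outside this prime. -/
theorem exists_kill {R : Type u} [CommRing R] (p : Ideal R) [hpp : p.IsPrime] (K : Type u)
    [AddCommGroup K] [Module R K] [Module.Finite R K] (h : ∀ k : K, ∃ t, t ∉ p ∧ t • k = 0) :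
    ∃ t, t ∉ p ∧ ∀ k : K, t • k = 0 := by
  classical
  choose T hT hT0 using h
  obtain ⟨S, hS⟩ := Module.Finite.fg_top (R := R) (M := K)
  refine ⟨∏ y ∈ S, T y, ?_, ?_⟩
  · intro hmem
    obtain ⟨y, _, hy⟩ := (hpp.prod_mem_iff).1 hmem
    exact hT y hy
  · intro k
    have hk : k ∈ Submodule.span R (S : Set K) := by
      rw [hS]
      trivial
    induction hk using Submodule.span_induction with
    | mem y hy =>
      obtain ⟨c, hc⟩ := Finset.dvd_prod_of_mem T (Finset.mem_coe.1 hy)
      rw [hc, mul_comm, mul_smul, hT0, smul_zero]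
    | zero => exact smul_zero _
    | add x y _ _ hx hy => rw [smul_add, hx, hy, add_zero]
    | smul r x _ hx => rw [smul_comm, hx, smul_zero]

variable {R : Type u} [CommRing R] [IsDomain R] [IsLocalRing R] [IsNoetherianRing R]

theorem eq_max {p : Ideal R} [hpp : p.IsPrime] (h2 : ringKrullDim R ≤ 2) (hp : p ≠ ⊥) {q : Ideal R}
    [hq : q.IsPrime] (hle : p ≤ q) {t : R} (ht : t ∉ p) (htq : t ∈ q) : q = maximalIdeal R := by
  refine eq_max_of_lt h2 hp (lt_of_le_of_ne hle ?_)
  rintro rfl
  exact ht htq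

/-- The cokernel of `R/p → M i / M (i+1)` does not contribute. -/
theorem val_layer (h2 : ringKrullDim R ≤ 2) (lam : AddFn R) (p : Ideal R) [hpp : p.IsPrime]
    (hp : p ≠ ⊥) (hf : ¬ IsField R) (M N : Ideal R) (hMN : N ≤ M) (hpM : p * M ≤ N)
    (hsat : ∀ t x, t ∉ p → t * x ∈ N → x ∈ N) (x : R) (hxM : x ∈ M) (hxN : x ∉ N)
    (hx : ∀ y ∈ M, ∃ t, t ∉ p ∧ ∃ r, t * y - r * x ∈ N) :
    lam.val (M ⧸ Submodule.submoduleOf N M) = lam.val (R ⧸ p) := by
  set Q := M ⧸ Submodule.submoduleOf N M with hQ
  let g : R →ₗ[R] Q := LinearMap.toSpanSingleton R Q (Submodule.Quotient.mk ⟨x, hxM⟩)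
  have hg : ∀ r, g r = Submodule.Quotient.mk (⟨r * x, M.mul_mem_left r hxM⟩ : M) := by
    intro r
    show r • (Submodule.Quotient.mk ⟨x, hxM⟩ : Q) = _
    rw [← Submodule.Quotient.mk_smul]
    rfl
  have hg0 : ∀ r, g r = 0 ↔ r * x ∈ N := by
    intro r
    rw [hg, Submodule.Quotient.mk_eq_zero]
    exact Iff.rfl
  have hker : p ≤ LinearMap.ker g := by
    intro r hr
    rw [LinearMap.mem_ker, hg0]
    exact hpM (Ideal.mul_mem_mul hr hxM)
  let φ : (R ⧸ p) →ₗ[R] Q := Submodule.liftQ p g hker
  have hφinj : Function.Injective φ := by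
    rw [← LinearMap.ker_eq_bot]
    refine Submodule.ker_liftQ_eq_bot _ _ _ ?_
    intro r hr
    rw [LinearMap.mem_ker, hg0] at hr
    by_contra hrp
    exact hxN (hsat r x hrp hr)
  have hφr : ∀ r : R, φ (Submodule.Quotient.mk r) = g r := fun r => Submodule.liftQ_apply _ _ _
  have hfin : Module.Finite R Q := inferInstance
  have hadd := lam.add φ (Submodule.mkQ (LinearMap.range φ)) hφinj (Submodule.mkQ_surjective _)
    (LinearMap.exact_map_mkQ_range φ)
  have hpK : ∀ a ∈ p, ∀ k : Q, a • k = 0 := by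
    intro a ha k
    obtain ⟨y, rfl⟩ := Submodule.Quotient.mk_surjective _ k
    rw [← Submodule.Quotient.mk_smul, Submodule.Quotient.mk_eq_zero]
    exact hpM (Ideal.mul_mem_mul ha y.2)
  obtain ⟨t, ht, htK⟩ := exists_kill p (Q ⧸ LinearMap.range φ) (by
    intro k
    obtain ⟨k, rfl⟩ := Submodule.Quotient.mk_surjective _ k
    obtain ⟨y, rfl⟩ := Submodule.Quotient.mk_surjective _ k
    obtain ⟨t, ht, r, hr⟩ := hx y.1 y.2
    refine ⟨t, ht, ?_⟩
    rw [← Submodule.Quotient.mk_smul, Submodule.Quotient.mk_eq_zero]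
    refine ⟨Submodule.Quotient.mk r, ?_⟩
    rw [hφr, hg, ← Submodule.Quotient.mk_smul, Submodule.Quotient.eq]
    show r * x - t * y.1 ∈ N
    have : r * x - t * y.1 = -(t * y.1 - r * x) := by ring
    rw [this]
    exact N.neg_mem hr)
  have hlen : Module.length R (Q ⧸ LinearMap.range φ) ≠ ⊤ := by
    refine length_ne_top_of_smul (p ⊔ Ideal.span {t}) ?_ _ ?_
    · intro q hq hle
      haveI := hq
      exact eq_max h2 hp (le_sup_left.trans hle) ht
        (hle (Ideal.mem_sup_right (Ideal.mem_span_singleton_self t)))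
    · intro a ha
      have hle : p ⊔ Ideal.span {t} ≤ Module.annihilator R (Q ⧸ LinearMap.range φ) := by
        refine sup_le ?_ ?_
        · intro b hb
          rw [Module.mem_annihilator]
          intro k
          obtain ⟨k, rfl⟩ := Submodule.Quotient.mk_surjective _ k
          rw [← Submodule.Quotient.mk_smul, hpK b hb k, Submodule.Quotient.mk_zero]
        · rw [Ideal.span_singleton_le_iff_mem, Module.mem_annihilator]
          exact htK
      exact Module.mem_annihilator.1 (hle ha)
  obtain ⟨c, hc⟩ := ENat.ne_top_iff_exists.1 hlen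
  have h0 := lam.val_finiteLength (Q ⧸ LinearMap.range φ) c hc.symm
  rw [AddFn.val_residue hf lam, mul_zero] at h0
  rw [hadd, h0, add_zero]

theorem eq_zero_of_bdd (v : ℤ) (B : ℕ) (h : ∀ r : ℕ, |(-(r : ℤ)) * v| ≤ B) : v = 0 := by
  by_contra hv
  have h1 := h (B + 1)
  rw [abs_mul, abs_neg] at h1
  have h2 : (1 : ℤ) ≤ |v| := Int.one_le_abs hv
  have h3 : |((B + 1 : ℕ) : ℤ)| = B + 1 := by
    rw [abs_of_nonneg (by positivity)]
    push_cast
    ring
  rw [h3] at h1
  nlinarith

theorem val_prime [IsIntegrallyClosed R] (h2 : ringKrullDim R ≤ 2) (lam : AddFn R) (hl : Tame lam)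
    (h0 : lam.val R = 0) (p : Ideal R) [hpp : p.IsPrime] : lam.val (R ⧸ p) = 0 := by
  by_cases hp : p = ⊥
  · subst hp
    rw [lam.val_congr (Submodule.quotEquivOfEqBot (⊥ : Ideal R) rfl), h0]
  have hf : ¬ IsField R := by
    intro hf
    rw [IsLocalRing.isField_iff_maximalIdeal_eq] at hf
    exact hp (le_bot_iff.1 ((IsLocalRing.le_maximalIdeal hpp.ne_top).trans hf.le))
  by_cases hpm : p = maximalIdeal R
  · subst hpm
    exact AddFn.val_residue hf lam
  obtain ⟨s, C, hT⟩ := hl
  have hp1 : ∀ q : Ideal R, q.IsPrime → q < p → q = ⊥ := by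
    intro q hq hlt
    by_contra hqb
    haveI := hq
    exact hpm (eq_max_of_lt h2 hqb hlt)
  obtain ⟨M, hM0, hdec, hmul, hsat, hx⟩ := exists_symbolic p hp hp1
  obtain ⟨a, b, ha, hb, hap, hreg, hlen⟩ := exists_regular_pair h2 p hp hpm s
  have ha0 : a ≠ 0 := by
    rintro rfl
    exact hap p.zero_mem
  have hpow : ∀ r, p ^ r ≤ M r := by
    intro r
    induction r with
    | zero => rw [hM0]; exact le_top
    | succ r ih =>
      rw [pow_succ, mul_comm]
      exact (Ideal.mul_mono_right ih).trans (hmul r)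
  have hval : ∀ r : ℕ, lam.val (M r) = -(r : ℤ) * lam.val (R ⧸ p) := by
    intro r
    induction r with
    | zero =>
      rw [hM0, lam.val_congr (Submodule.topEquiv : (⊤ : Submodule R R) ≃ₗ[R] R), h0]
      simp
    | succ r ih =>
      obtain ⟨x, hxM, hxN, hx'⟩ := hx r
      have h1 := val_layer h2 lam p hp hf (M r) (M (r + 1)) (hdec r) (hmul r) (hsat (r + 1)) x hxM
        hxN hx'
      have h2 := lam.val_quotient (Submodule.submoduleOf (M (r + 1)) (M r))
      have h3 := lam.val_congr (Submodule.submoduleOfEquivOfLe (hdec r))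
      rw [h3, h1, ih] at h2
      push_cast
      linarith
  obtain ⟨c, hc⟩ := ENat.ne_top_iff_exists.1 hlen
  refine eq_zero_of_bdd _ (C * c) fun r => ?_
  have hL : Module.length R (R ⧸ (M r ⊔ Ideal.span {a})) ≠ ⊤ := by
    refine length_quotient_ne_top _ ?_
    intro q hq hle
    haveI := hq
    exact eq_max h2 hp (hq.le_of_pow_le ((hpow r).trans (le_sup_left.trans hle))) hap
      (hle (Ideal.mem_sup_right (Ideal.mem_span_singleton_self a)))
  obtain ⟨hwr, hbound⟩ := symbolic_bound (M r) a b ha0 (fun x hx => hsat r a x hap hx) hreg hL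
  have h4 := hT (M r) [a, b] c (by
    intro y hy
    rcases List.mem_cons.1 hy with rfl | hy
    · exact ha
    · rw [List.mem_singleton] at hy
      rw [hy]
      exact hb) hwr (hbound.trans hc.symm.le)
  rw [hval] at h4
  push_cast
  exact h4

end NT8

theorem TT_of_normal {R : Type u} [CommRing R] [IsDomain R] [IsLocalRing R] [IsNoetherianRing R]
    [IsIntegrallyClosed R] (h2 : ringKrullDim R ≤ 2) : TT R := by
  intro lam hl h0 M _ _ hM
  induction hM using IsNoetherianRing.induction_on_isQuotientEquivQuotientPrime R with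
  | subsingleton N => exact lam.val_zero N
  | quotient N p e =>
    rw [lam.val_congr e]
    exact NT8.val_prime h2 lam hl h0 p.1
  | exact N₁ N₂ N₃ f g hf hg hfg ih1 ih3 => rw [lam.add f g hf hg hfg, ih1, ih3, add_zero]

end Pool.Agent.H27.NT
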