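import Pool.Agent.H27.NT.Basic

/-!
# Commutative algebra of two-dimensional normal domains (job NT-5)
-/

open IsLocalRing

namespace Pool.Agent.H27.NT

universe u

/-- The quotient is an Artinian ring. -/
theorem baseA_artinian {R : Type u} [CommRing R] [IsLocalRing R] [IsNoetherianRing R]
    (I : Ideal R) (h : ∀ q : Ideal R, q.IsPrime → I ≤ q → q = maximalIdeal R) :
    IsArtinianRing (R ⧸ I) := by
  rw [isArtinianRing_iff_isNoetherianRing_krullDimLE_zero]
  refine ⟨inferInstance, Ring.KrullDimLE.mk₀ fun Q hQ => ?_⟩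
  have hp : (Q.comap (Ideal.Quotient.mk I)).IsPrime := Ideal.comap_isPrime _ _
  have hle : I ≤ Q.comap (Ideal.Quotient.mk I) := by
    intro a ha
    rw [Ideal.mem_comap, Ideal.Quotient.eq_zero_iff_mem.mpr ha]
    exact Q.zero_mem
  have he := h _ hp hle
  have hm : (Q.comap (Ideal.Quotient.mk I)).IsMaximal := by
    rw [he]; infer_instance
  have hs : Function.Surjective (Ideal.Quotient.mk I) := Ideal.Quotient.mk_surjective
  rcases Ideal.map_eq_top_or_isMaximal_of_surjective (Ideal.Quotient.mk I) hs hm with h1 | h1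
  · exfalso
    rw [Ideal.map_comap_of_surjective _ hs] at h1
    exact hQ.ne_top h1
  · rwa [Ideal.map_comap_of_surjective _ hs] at h1

/-- (job NT-5) A quotient of a Noetherian local ring by an ideal whose only prime is the maximal
ideal has finite length. -/
theorem length_quotient_ne_top {R : Type u} [CommRing R] [IsLocalRing R] [IsNoetherianRing R]
    (I : Ideal R) (h : ∀ q : Ideal R, q.IsPrime → I ≤ q → q = maximalIdeal R) :
    Module.length R (R ⧸ I) ≠ ⊤ := by
  have := baseA_artinian I h
  rw [Module.length_eq_of_surjective (R := R ⧸ I) (S := R) (M := R ⧸ I)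
    Ideal.Quotient.mk_surjective]
  exact Module.length_ne_top

/-- (job NT-5) More generally for a finitely generated module killed by such an ideal. -/
theorem length_ne_top_of_smul {R : Type u} [CommRing R] [IsLocalRing R] [IsNoetherianRing R]
    (I : Ideal R) (h : ∀ q : Ideal R, q.IsPrime → I ≤ q → q = maximalIdeal R)
    (M : Type u) [AddCommGroup M] [Module R M] [Module.Finite R M]
    (hM : ∀ a ∈ I, ∀ m : M, a • m = 0) : Module.length R M ≠ ⊤ := by
  obtain ⟨n, f, hf⟩ := Module.Finite.exists_fin' R M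
  -- the quotient map factors through `(R ⧸ I)^n`
  have hlen : Module.length R (Fin n → R ⧸ I) ≠ ⊤ := by
    rw [Module.length_pi_of_fintype]
    intro ht
    rw [ENat.sum_eq_top] at ht
    obtain ⟨i, -, hi⟩ := ht
    exact length_quotient_ne_top I h hi
  let π : (Fin n → R) →ₗ[R] (Fin n → R ⧸ I) :=
    LinearMap.pi fun i => (Submodule.mkQ I).comp (LinearMap.proj i)
  have hπ : Function.Surjective π := by
    intro v
    choose w hw using fun i => Submodule.mkQ_surjective I (v i)
    exact ⟨w, funext fun i => hw i⟩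
  have hker : LinearMap.ker π ≤ LinearMap.ker f := by
    intro v hv
    rw [LinearMap.mem_ker] at hv ⊢
    have hv' : ∀ i, v i ∈ I := by
      intro i
      have := congrFun hv i
      exact (Submodule.Quotient.mk_eq_zero I).mp this
    have hsum : v = ∑ i, v i • Pi.single i (1 : R) := by
      funext j
      simp [Finset.sum_apply, Pi.single_apply]
    rw [hsum, map_sum]
    refine Finset.sum_eq_zero fun i _ => ?_
    rw [map_smul]
    exact hM _ (hv' i) _
  let e := LinearMap.quotKerEquivOfSurjective π hπ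
  let g : (Fin n → R ⧸ I) →ₗ[R] M :=
    ((LinearMap.ker π).liftQ f hker).comp e.symm.toLinearMap
  have hg : Function.Surjective g := by
    intro m
    obtain ⟨v, rfl⟩ := hf m
    refine ⟨e (Submodule.Quotient.mk v), ?_⟩
    simp [g]
  exact ne_top_of_le_ne_top hlen (Module.length_le_of_surjective g hg)

/-- (job NT-5) In dimension at most two there is nothing between a nonzero prime and the maximal
ideal. -/
theorem eq_max_of_lt {R : Type u} [CommRing R] [IsDomain R] [IsLocalRing R]
    (h2 : ringKrullDim R ≤ 2) {p q : Ideal R} [p.IsPrime] [q.IsPrime] (hp : p ≠ ⊥) (hpq : p < q) :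
    q = maximalIdeal R := by
  by_contra hq
  have hqm : q < maximalIdeal R :=
    lt_of_le_of_ne (IsLocalRing.le_maximalIdeal (Ideal.IsPrime.ne_top inferInstance)) hq
  have hbot : (⊥ : Ideal R).IsPrime := Ideal.isPrime_bot
  let a0 : PrimeSpectrum R := ⟨⊥, hbot⟩
  let a1 : PrimeSpectrum R := ⟨p, inferInstance⟩
  let a2 : PrimeSpectrum R := ⟨q, inferInstance⟩
  let a3 : PrimeSpectrum R := ⟨maximalIdeal R, inferInstance⟩
  have h01 : a0 < a1 := (bot_lt_iff_ne_bot.mpr hp : (⊥ : Ideal R) < p)
  have h12 : a1 < a2 := hpq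
  have h23 : a2 < a3 := hqm
  let s : LTSeries (PrimeSpectrum R) :=
    ⟨3, ![a0, a1, a2, a3], by
      intro i
      fin_cases i
      · exact h01
      · exact h12
      · exact h23⟩
  have hs : ((s.length : ℕ) : WithBot ℕ∞) ≤ ringKrullDim R := Order.LTSeries.length_le_krullDim s
  have h3 : ((3 : ℕ) : WithBot ℕ∞) ≤ 2 := le_trans hs h2
  exact absurd h3 (by decide)

/-- (job NT-5) Any additive function vanishes on the residue field of a Noetherian local domain
that is not a field. Proof: let `p` be maximal among the primes `≠ m` and `b ∈ m`, `b ∉ p`;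
`R/(p + b)` has finite length `c > 0`, and `0 → R/p → R/p → R/(p + b) → 0` (multiplication by `b`)
gives `0 = lam (R/(p+b)) = c · lam (R/m)`. -/
theorem AddFn.val_residue {R : Type u} [CommRing R] [IsDomain R] [IsLocalRing R]
    [IsNoetherianRing R] (hf : ¬ IsField R) (lam : AddFn R) :
    lam.val (R ⧸ maximalIdeal R) = 0 := by
  have hne : ({p : Ideal R | p.IsPrime ∧ p ≠ maximalIdeal R}).Nonempty := by
    refine ⟨⊥, Ideal.isPrime_bot, ?_⟩
    intro hb
    exact hf (IsLocalRing.isField_iff_maximalIdeal_eq.mpr hb.symm)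
  obtain ⟨p, ⟨hpp, hpm⟩, hmax⟩ := set_has_maximal_iff_noetherian.mpr
    (inferInstance : IsNoetherian R R) _ hne
  have hple : p < maximalIdeal R :=
    lt_of_le_of_ne (IsLocalRing.le_maximalIdeal hpp.ne_top) hpm
  obtain ⟨b, hbm, hbp⟩ := Set.exists_of_ssubset hple
  set J : Ideal R := p ⊔ Ideal.span {b} with hJ
  have hpJ : p ≤ J := le_sup_left
  have hbJ : b ∈ J := (le_sup_right : Ideal.span {b} ≤ J) (Ideal.mem_span_singleton_self b)
  have hJm : J ≤ maximalIdeal R := by
    refine sup_le hple.le ?_
    rw [Ideal.span_singleton_le_iff_mem]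
    exact hbm
  have hprime : ∀ q : Ideal R, q.IsPrime → J ≤ q → q = maximalIdeal R := by
    intro q hq hJq
    by_contra hqm
    exact hmax q ⟨hq, hqm⟩ (lt_of_le_of_ne (hpJ.trans hJq) (fun he => hbp (he ▸ hJq hbJ)))
  have hfin := length_quotient_ne_top J hprime
  obtain ⟨c, hc⟩ := ENat.ne_top_iff_exists.mp hfin
  have hval := lam.val_finiteLength (R ⧸ J) c hc.symm
  have hc0 : c ≠ 0 := by
    rintro rfl
    have : Module.length R (R ⧸ J) = 0 := by rw [← hc]; rfl
    rw [Module.length_eq_zero_iff] at this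
    have hJt : J = ⊤ := Ideal.Quotient.subsingleton_iff.mp this
    rw [hJt] at hJm
    exact (maximalIdeal.isMaximal R).ne_top (top_le_iff.mp hJm)
  -- exact sequence
  let f : (R ⧸ p) →ₗ[R] (R ⧸ p) := LinearMap.lsmul R (R ⧸ p) b
  let g : (R ⧸ p) →ₗ[R] (R ⧸ J) := Submodule.factor hpJ
  have hfi : Function.Injective f := by
    rw [injective_iff_map_eq_zero]
    intro x hx
    obtain ⟨a, rfl⟩ := Ideal.Quotient.mk_surjective x
    have h1 : (Ideal.Quotient.mk p) (b * a) = 0 := hx
    rw [Ideal.Quotient.eq_zero_iff_mem] at h1 ⊢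
    exact (hpp.mem_or_mem h1).resolve_left hbp
  have hgs : Function.Surjective g := Submodule.factor_surjective hpJ
  have hfg : Function.Exact f g := by
    intro x
    obtain ⟨a, rfl⟩ := Ideal.Quotient.mk_surjective x
    constructor
    · intro hx
      have h1 : (Ideal.Quotient.mk J) a = 0 := hx
      rw [Ideal.Quotient.eq_zero_iff_mem, hJ, Submodule.mem_sup] at h1
      obtain ⟨y, hy, z, hz, hyz⟩ := h1
      obtain ⟨r, rfl⟩ := Ideal.mem_span_singleton'.mp hz
      refine ⟨Ideal.Quotient.mk p r, ?_⟩
      have h2 : (Ideal.Quotient.mk p) (b * r) = (Ideal.Quotient.mk p) a := by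
        rw [Ideal.Quotient.eq, ← hyz]
        have : b * r - (y + r * b) = -y := by ring
        rw [this]
        exact p.neg_mem hy
      exact h2
    · rintro ⟨y, hy⟩
      obtain ⟨r, rfl⟩ := Ideal.Quotient.mk_surjective y
      have h1 : (Ideal.Quotient.mk p) (b * r) = (Ideal.Quotient.mk p) a := hy
      have h2 : (Ideal.Quotient.mk J) a = 0 := by
        rw [Ideal.Quotient.eq] at h1
        rw [Ideal.Quotient.eq_zero_iff_mem]
        have h3 : a = b * r - (b * r - a) := by ring
        rw [h3]
        exact J.sub_mem (J.mul_mem_right _ hbJ) (hpJ h1)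
      exact h2
  have hadd := lam.add f g hfi hgs hfg
  have h0 : lam.val (R ⧸ J) = 0 := by linarith
  rw [h0] at hval
  have hc1 : (c : ℤ) ≠ 0 := by exact_mod_cast hc0
  rcases mul_eq_zero.mp hval.symm with h | h
  · exact absurd h hc1
  · exact h

end Pool.Agent.H27.NT
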