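import Mathlib

/-!
# Symbolic powers (job NT-6)
-/

open IsLocalRing

namespace Pool.Agent.H27.NT

universe u

/-- (job NT-6) The symbolic powers of a height one prime of a normal Noetherian domain.
Proof: `R_p` is a discrete valuation ring; `M i = {x | x ∈ (p R_p)^i}`, i.e. the comap of the
`i`-th power of the maximal ideal; for (5) take `x ∈ p` generating `p R_p` and its powers. -/
theorem exists_symbolic {R : Type u} [CommRing R] [IsDomain R] [IsNoetherianRing R]
    [IsIntegrallyClosed R] (p : Ideal R) [p.IsPrime] (hp : p ≠ ⊥)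
    (hp1 : ∀ q : Ideal R, q.IsPrime → q < p → q = ⊥) :
    ∃ M : ℕ → Ideal R, M 0 = ⊤ ∧ (∀ i, M (i + 1) ≤ M i) ∧ (∀ i, p * M i ≤ M (i + 1)) ∧
      (∀ i t x, t ∉ p → t * x ∈ M i → x ∈ M i) ∧
      ∀ i, ∃ x ∈ M i, x ∉ M (i + 1) ∧ ∀ y ∈ M i, ∃ t, t ∉ p ∧ ∃ r, t * y - r * x ∈ M (i + 1) := by
  set L := Localization.AtPrime p with hL
  have hint : IsIntegrallyClosed L :=
    isIntegrallyClosed_of_isLocalization L p.primeCompl p.primeCompl_le_nonZeroDivisors
  have hnoe : IsNoetherianRing L := IsLocalization.isNoetherianRing p.primeCompl L inferInstance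
  have hinj : Function.Injective (algebraMap R L) :=
    IsLocalization.injective L p.primeCompl_le_nonZeroDivisors
  have hmem : ∀ r : R, algebraMap R L r ∈ maximalIdeal L ↔ r ∈ p := fun r =>
    IsLocalization.AtPrime.to_map_mem_maximal_iff L p r
  -- all nonzero primes of `L` are maximal
  have huniq : ∀ P : Ideal L, P ≠ ⊥ → P.IsPrime → P = maximalIdeal L := by
    intro P hP hPp
    have hc : (P.comap (algebraMap R L)).IsPrime := Ideal.comap_isPrime _ _
    have hle : P.comap (algebraMap R L) ≤ p := by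
      intro r hr
      rw [← hmem r]
      exact le_maximalIdeal hPp.ne_top hr
    have hmap : (P.comap (algebraMap R L)).map (algebraMap R L) = P :=
      IsLocalization.map_under p.primeCompl L P
    rcases hle.lt_or_eq with h | h
    · exfalso
      apply hP
      rw [← hmap, hp1 _ hc h, Ideal.map_bot]
    · rw [← hmap, h]
      exact Localization.AtPrime.map_eq_maximalIdeal
  have hprin : (maximalIdeal L).IsPrincipal := by
    have h34 := (tfae_of_isNoetherianRing_of_isLocalRing_of_isDomain L).out 3 4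
    exact h34.1 ⟨hint, huniq⟩
  obtain ⟨ϖ, hϖ⟩ := hprin
  obtain ⟨a, s, has⟩ := IsLocalization.exists_mk'_eq p.primeCompl ϖ
  have hs : IsUnit (algebraMap R L s) := IsLocalization.map_units L s
  have ha : algebraMap R L a = ϖ * algebraMap R L s := by
    rw [← has, IsLocalization.mk'_spec]
  have hmax : maximalIdeal L = Ideal.span {algebraMap R L a} := by
    rw [ha, Ideal.span_singleton_mul_right_unit hs]
    exact hϖ
  have hpow : ∀ i, maximalIdeal L ^ i = Ideal.span {algebraMap R L a ^ i} := by
    intro i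
    rw [hmax, Ideal.span_singleton_pow]
  have ham : algebraMap R L a ∈ maximalIdeal L := by
    rw [hmax]
    exact Ideal.mem_span_singleton_self _
  have ha0 : algebraMap R L a ≠ 0 := by
    intro h0
    obtain ⟨b, hb, hb0⟩ := Submodule.exists_mem_ne_zero_of_ne_bot hp
    have h1 := (hmem b).2 hb
    rw [hmax, h0, Ideal.span_singleton_eq_bot.2 rfl, Ideal.mem_bot] at h1
    exact hb0 (hinj (by rw [h1, map_zero]))
  refine ⟨fun i => (maximalIdeal L ^ i).comap (algebraMap R L), ?_, ?_, ?_, ?_, ?_⟩
  · simp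
  · intro i
    exact Ideal.comap_mono (Ideal.pow_le_pow_right (Nat.le_succ i))
  · intro i
    rw [Ideal.mul_le]
    intro r hr y hy
    rw [Ideal.mem_comap] at hy ⊢
    rw [map_mul, pow_succ']
    exact Ideal.mul_mem_mul ((hmem r).2 hr) hy
  · intro i t x ht hx
    rw [Ideal.mem_comap] at hx ⊢
    rw [map_mul] at hx
    have hu : IsUnit (algebraMap R L t) := IsLocalization.map_units L (⟨t, ht⟩ : p.primeCompl)
    exact (Ideal.unit_mul_mem_iff_mem _ hu).1 hx
  · intro i
    refine ⟨a ^ i, ?_, ?_, ?_⟩
    · rw [Ideal.mem_comap, hpow, map_pow]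
      exact Ideal.mem_span_singleton_self _
    · rw [Ideal.mem_comap, hpow, map_pow, Ideal.mem_span_singleton]
      rintro ⟨z, hz⟩
      have h1 : algebraMap R L a ^ i * 1 = algebraMap R L a ^ i * (algebraMap R L a * z) := by
        rw [mul_one, ← mul_assoc, ← pow_succ]
        exact hz
      have h2 := mul_left_cancel₀ (pow_ne_zero i ha0) h1
      exact (mem_maximalIdeal _).1 ham (IsUnit.of_mul_eq_one z h2.symm)
    · intro y hy
      rw [Ideal.mem_comap, hpow, Ideal.mem_span_singleton] at hy
      obtain ⟨z, hz⟩ := hy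
      obtain ⟨r, t, hrt⟩ := IsLocalization.exists_mk'_eq p.primeCompl z
      refine ⟨t, t.2, r, ?_⟩
      have h1 : (t : R) * y - r * a ^ i = 0 := by
        apply hinj
        rw [map_sub, map_mul, map_mul, map_pow, hz, map_zero, sub_eq_zero, ← hrt]
        rw [← IsLocalization.mk'_spec L r t]
        ring
      rw [h1]
      exact Ideal.zero_mem _

end Pool.Agent.H27.NT
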