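import Pool.Agent.H27.NT.Defs

/-!
# Basic properties of additive functions (job NT-1)

All proofs: apply `lam.add` to obvious short exact sequences.
* `val_congr`: `0 → 0 → M → N → 0`; `val_zero`: `lam 0 = lam 0 + lam 0`.
* `val_finiteLength`: induction on the length (a module of finite nonzero length has a quotient or
  a submodule isomorphic to the residue field), e.g. via `IsFiniteLength` induction, or with
  `IsNoetherianRing.induction_on_isQuotientEquivQuotientPrime`.
-/

open IsLocalRing

namespace Pool.Agent.H27.NT

universe u

namespace AddFn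

variable {A : Type u} [CommRing A] (lam : AddFn A)

theorem val_zero (M : Type u) [AddCommGroup M] [Module A M] [Subsingleton M] : lam.val M = 0 := by
  have hfin : Module.Finite A M := inferInstance
  have h := lam.add (LinearMap.id : M →ₗ[A] M) (LinearMap.id : M →ₗ[A] M)
    Function.injective_id Function.surjective_id
    (fun x => ⟨fun _ => ⟨x, rfl⟩, fun _ => Subsingleton.elim _ _⟩)
  omega

theorem val_congr {M N : Type u} [AddCommGroup M] [Module A M] [AddCommGroup N] [Module A N]
    [Module.Finite A N] (e : M ≃ₗ[A] N) : lam.val M = lam.val N := by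
  have h := lam.add e.toLinearMap (0 : N →ₗ[A] PUnit.{u + 1}) e.injective
    (fun x => ⟨0, Subsingleton.elim _ _⟩)
    (fun x => ⟨fun _ => e.surjective x, fun _ => rfl⟩)
  rw [h, lam.val_zero PUnit.{u + 1}, add_zero]

theorem val_prod (M N : Type u) [AddCommGroup M] [Module A M] [AddCommGroup N] [Module A N]
    [Module.Finite A M] [Module.Finite A N] : lam.val (M × N) = lam.val M + lam.val N :=
  lam.add (LinearMap.inl A M N) (LinearMap.snd A M N) LinearMap.inl_injective
    LinearMap.snd_surjective Function.Exact.inl_snd

theorem val_pi (M : Type u) [AddCommGroup M] [Module A M] [Module.Finite A M] (n : ℕ) :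
    lam.val (Fin n → M) = n * lam.val M := by
  induction n with
  | zero => rw [lam.val_zero]; simp
  | succ n ih =>
    have e : (M × (Fin n → M)) ≃ₗ[A] (Fin (n + 1) → M) :=
      Fin.consLinearEquiv A (fun _ : Fin (n + 1) => M)
    rw [← lam.val_congr e, lam.val_prod, ih]
    push_cast
    ring

theorem val_quotient {M : Type u} [AddCommGroup M] [Module A M] [Module.Finite A M]
    (N : Submodule A M) : lam.val M = lam.val N + lam.val (M ⧸ N) :=
  lam.add N.subtype N.mkQ N.subtype_injective N.mkQ_surjective
    (LinearMap.exact_subtype_mkQ N)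

/-- A finitely generated projective module over a local ring is free, so `lam` vanishes on it if
it vanishes on `A`. -/
theorem val_projective [IsLocalRing A] (h : lam.val A = 0) (M : Type u) [AddCommGroup M]
    [Module A M] [Module.Finite A M] [Module.Projective A M] : lam.val M = 0 := by
  have hfree : Module.Free A M := Module.free_of_flat_of_isLocalRing
  let b := Module.finBasis A M
  have e : M ≃ₗ[A] (Fin (Module.finrank A M) → A) := b.equivFun
  rw [lam.val_congr e, lam.val_pi, h, mul_zero]

theorem val_finiteLength_aux [IsNoetherianRing A] [IsLocalRing A] (M : Type u) [AddCommGroup M]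
    [Module A M] (hM : IsFiniteLength A M) : ∀ (c : ℕ), Module.length A M = c →
    lam.val M = c * lam.val (A ⧸ maximalIdeal A) := by
  induction hM with
  | of_subsingleton =>
    intro c h
    rw [Module.length_eq_zero] at h
    have hc : c = 0 := by exact_mod_cast h.symm
    rw [lam.val_zero, hc]; simp
  | @of_simple_quotient M _ _ N hs hN ih =>
    intro c h
    have hM' : IsFiniteLength A M := IsFiniteLength.of_simple_quotient hN
    have hfin : Module.Finite A M := by
      rw [isFiniteLength_iff_isNoetherian_isArtinian] at hM'
      obtain ⟨h1, _⟩ := hM'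
      infer_instance
    have hadd := Module.length_eq_add_of_exact N.subtype N.mkQ N.subtype_injective
      N.mkQ_surjective (LinearMap.exact_subtype_mkQ N)
    rw [h, Module.length_eq_one A (M ⧸ N)] at hadd
    obtain ⟨d, hd⟩ : ∃ d : ℕ, Module.length A N = d := by
      have := Module.length_ne_top_iff.mpr hN
      exact ⟨_, (ENat.natCast_toNat this).symm⟩
    rw [hd] at hadd
    have hc : c = d + 1 := by exact_mod_cast hadd
    obtain ⟨I, hI, ⟨e⟩⟩ := isSimpleModule_iff_quot_maximal.mp hs
    have hI' : I = maximalIdeal A := IsLocalRing.eq_maximalIdeal hI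
    subst hI'
    rw [lam.val_quotient N, ih d hd, lam.val_congr e, hc]
    push_cast
    ring

theorem val_finiteLength [IsNoetherianRing A] [IsLocalRing A] (M : Type u) [AddCommGroup M]
    [Module A M] [Module.Finite A M] (c : ℕ) (h : Module.length A M = c) :
    lam.val M = c * lam.val (A ⧸ maximalIdeal A) := by
  have hM : IsFiniteLength A M := by
    rw [← Module.length_ne_top_iff, h]
    exact ENat.natCast_ne_top c
  exact lam.val_finiteLength_aux M hM c h

/-- Integral combination of two additive functions. -/
def comb (a b : ℤ) (mu : AddFn A) : AddFn A where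
  val M _ _ := a * lam.val M + b * mu.val M
  add f g hf hg h := by
    rw [lam.add f g hf hg h, mu.add f g hf hg h]
    ring

end AddFn

theorem Tame.comb {A : Type u} [CommRing A] [IsLocalRing A] {lam mu : AddFn A} (h : Tame lam)
    (h' : Tame mu) (a b : ℤ) : Tame (lam.comb a b mu) := by
  obtain ⟨s, C, hC⟩ := h
  obtain ⟨s', C', hC'⟩ := h'
  refine ⟨max s s', a.natAbs * C + b.natAbs * C', ?_⟩
  intro M _ _ _ t c ht hreg hlen
  have h1 := hC M t c (fun x hx => Ideal.pow_le_pow_right (le_max_left s s') (ht x hx)) hreg hlen
  have h2 := hC' M t c (fun x hx => Ideal.pow_le_pow_right (le_max_right s s') (ht x hx)) hreg hlen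
  have e : (lam.comb a b mu).val M = a * lam.val M + b * mu.val M := rfl
  rw [e]
  calc |a * lam.val M + b * mu.val M| ≤ |a * lam.val M| + |b * mu.val M| := abs_add_le _ _
    _ = |a| * |lam.val M| + |b| * |mu.val M| := by rw [abs_mul, abs_mul]
    _ ≤ |a| * (C * c) + |b| * (C' * c) := by gcongr
    _ = ((a.natAbs * C + b.natAbs * C' : ℕ) : ℤ) * c := by
      push_cast
      ring

/-- Pulling back an additive function along a ring isomorphism. -/
def AddFn.pullEquiv {A B : Type u} [CommRing A] [CommRing B] (e : A ≃+* B) (lam : AddFn B) :
    AddFn A where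
  val M _ _ := @AddFn.val B _ lam M _ (Module.compHom M (e.symm : B →+* A))
  add := by
    intro M N K _ _ _ _ _ _ hfin f g hf hg h
    letI iM : Module B M := Module.compHom M (e.symm : B →+* A)
    letI iN : Module B N := Module.compHom N (e.symm : B →+* A)
    letI iK : Module B K := Module.compHom K (e.symm : B →+* A)
    letI : Algebra B A := (e.symm : B →+* A).toAlgebra
    haveI : IsScalarTower B A N := ⟨fun b a n => by
      change ((e.symm b) * a) • n = (e.symm b) • (a • n)
      rw [mul_smul]⟩
    haveI : Module.Finite B A := Module.Finite.of_surjective (Algebra.linearMap B A)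
      (fun a => ⟨e a, e.symm_apply_apply a⟩)
    haveI : Module.Finite B N := Module.Finite.trans A N
    let f' : M →ₗ[B] N := { toFun := f, map_add' := f.map_add,
                            map_smul' := fun b m => f.map_smul (e.symm b) m }
    let g' : N →ₗ[B] K := { toFun := g, map_add' := g.map_add,
                            map_smul' := fun b m => g.map_smul (e.symm b) m }
    exact lam.add f' g' hf hg h

theorem Tame.pullEquiv {A B : Type u} [CommRing A] [CommRing B] [IsLocalRing A] [IsLocalRing B]
    (e : A ≃+* B) {lam : AddFn B} (h : Tame lam) : Tame (lam.pullEquiv e) := by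
  obtain ⟨s, C, hC⟩ := h
  refine ⟨s, C, ?_⟩
  intro M _ _ hfin t c ht hreg hlen
  letI iM : Module B M := Module.compHom M (e.symm : B →+* A)
  letI : Algebra B A := (e.symm : B →+* A).toAlgebra
  haveI : IsScalarTower B A M := ⟨fun b a n => by
    change ((e.symm b) * a) • n = (e.symm b) • (a • n)
    rw [mul_smul]⟩
  have hsurj : Function.Surjective (algebraMap B A) := fun a => ⟨e a, e.symm_apply_apply a⟩
  haveI : Module.Finite B A := Module.Finite.of_surjective (Algebra.linearMap B A) hsurj
  haveI : Module.Finite B M := Module.Finite.trans A M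
  have hmap : (t.map e).map (algebraMap B A) = t := by
    rw [List.map_map]
    conv_rhs => rw [← List.map_id t]
    apply List.map_congr_left
    intro a _
    exact e.symm_apply_apply a
  refine hC M (t.map e) c ?_ ?_ ?_
  · intro b hb
    obtain ⟨a, ha, rfl⟩ := List.mem_map.mp hb
    have h1 : e a ∈ Ideal.map e (maximalIdeal A ^ s) := Ideal.mem_map_of_mem e (ht a ha)
    rw [Ideal.map_pow] at h1
    refine Ideal.pow_right_mono ?_ s h1
    rw [Ideal.map_le_iff_le_comap]
    intro x hx
    rw [Ideal.mem_comap, mem_maximalIdeal, mem_nonunits_iff]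
    rw [mem_maximalIdeal, mem_nonunits_iff] at hx
    intro hu
    exact hx ((MulEquiv.isUnit_map e).mp hu)
  · refine (AddEquiv.isWeaklyRegular_congr (e := AddEquiv.refl M) (as := t) (bs := t.map e)
      ?_).mp hreg
    rw [List.forall₂_map_right_iff]
    refine List.forall₂_same.mpr fun a _ x => ?_
    change a • x = (e.symm (e a)) • x
    rw [e.symm_apply_apply]
  · have hI : ((Ideal.ofList (t.map e)).map (algebraMap B A) • (⊤ : Submodule A M)).restrictScalars B
        = Ideal.ofList (t.map e) • (⊤ : Submodule B M) := by
      rw [Ideal.smul_restrictScalars]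
      rfl
    rw [Ideal.map_ofList, hmap] at hI
    have hl := Module.length_eq_of_surjective (R := A) (S := B)
      (M := M ⧸ (Ideal.ofList t • ⊤ : Submodule A M)) hsurj
    rw [← hI]
    rw [LinearEquiv.length_eq (Submodule.Quotient.restrictScalarsEquiv B
      (Ideal.ofList t • ⊤ : Submodule A M))]
    rw [hl]
    exact hlen

/-- `TT` is invariant under ring isomorphisms. (Restrict scalars along `e`.) -/
theorem TT.of_ringEquiv {A B : Type u} [CommRing A] [IsLocalRing A] [CommRing B] [IsLocalRing B]
    [IsNoetherianRing A] (e : A ≃+* B) (h : TT A) : TT B := by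
  intro lam hlam h0 M _ _ hfin
  have hA : (lam.pullEquiv e).val A = 0 := by
    letI iA : Module B A := Module.compHom A (e.symm : B →+* A)
    let e' : A ≃ₗ[B] B :=
      { toFun := e
        map_add' := e.map_add
        map_smul' := fun b a => by
          change e (e.symm b * a) = b * e a
          rw [map_mul, e.apply_symm_apply]
        invFun := e.symm
        left_inv := e.symm_apply_apply
        right_inv := e.apply_symm_apply }
    exact (lam.val_congr e').trans h0
  letI iM : Module A M := Module.compHom M (e : A →+* B)
  letI : Algebra A B := (e : A →+* B).toAlgebra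
  haveI : IsScalarTower A B M := ⟨fun b a n => by
    change ((e b) * a) • n = (e b) • (a • n)
    rw [mul_smul]⟩
  haveI : Module.Finite A B := Module.Finite.of_surjective (Algebra.linearMap A B) e.surjective
  haveI : Module.Finite A M := Module.Finite.trans B M
  have hM := h (lam.pullEquiv e) (hlam.pullEquiv e) hA M
  have hmod : Module.compHom M (e.symm : B →+* A) = ‹Module B M› := by
    refine Module.ext' _ _ fun b m => ?_
    change (e (e.symm b)) • m = b • m
    rw [e.apply_symm_apply]
  have key : (lam.pullEquiv e).val M = lam.val M := by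
    change @AddFn.val B _ lam M _ (Module.compHom M (e.symm : B →+* A)) = _
    rw [hmod]
  rw [← key]
  exact hM

end Pool.Agent.H27.NT
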