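import Pool.Agent.H27.NT.Homot

/-!
# Additivity of the Euler characteristic (job NT-4)
-/

open IsLocalRing

namespace Pool.Agent.H27.NT

universe u

variable {A : Type u} [CommRing A]

private theorem chib_len_quot [IsLocalRing A] [IsNoetherianRing A] (s : ℕ) :
    Module.length A (A ⧸ (maximalIdeal A ^ s)) ≠ ⊤ := by
  rcases subsingleton_or_nontrivial (A ⧸ (maximalIdeal A ^ s)) with h | h
  · rw [Module.length_eq_zero]
    exact ENat.zero_ne_top
  · have hs := Ideal.Quotient.mk_surjective (I := maximalIdeal A ^ s)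
    have : IsLocalRing (A ⧸ (maximalIdeal A ^ s)) := IsLocalRing.of_surjective' _ hs
    have hn : IsNilpotent (maximalIdeal (A ⧸ (maximalIdeal A ^ s))) := by
      refine ⟨s, ?_⟩
      have h1 : maximalIdeal (A ⧸ (maximalIdeal A ^ s)) ≤
          (maximalIdeal A).map (Ideal.Quotient.mk (maximalIdeal A ^ s)) := by
        intro x hx
        obtain ⟨a, rfl⟩ := hs x
        apply Ideal.mem_map_of_mem
        rw [mem_maximalIdeal] at hx ⊢
        intro ha
        exact hx (ha.map _)
      have h2 := Ideal.pow_right_mono h1 s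
      rw [← Ideal.map_pow, Ideal.map_quotient_self] at h2
      exact le_bot_iff.mp h2
    have : IsArtinianRing (A ⧸ (maximalIdeal A ^ s)) :=
      (isArtinianRing_iff_isNilpotent_maximalIdeal _).mpr hn
    rw [Module.length_eq_of_surjective (R := A ⧸ (maximalIdeal A ^ s)) (by exact hs)]
    exact Module.length_ne_top

private theorem chib_fin_len [IsLocalRing A] [IsNoetherianRing A] (s : ℕ) (N : Type u)
    [AddCommGroup N] [Module A N] [Module.Finite A N]
    (h : ∀ a ∈ maximalIdeal A ^ s, ∀ x : N, a • x = 0) : Module.length A N ≠ ⊤ := by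
  obtain ⟨n, f, hf⟩ := Module.Finite.exists_fin' A N
  -- the induced map from `(A / I)^n`
  let q : (Fin n → A) →ₗ[A] (Fin n → A ⧸ (maximalIdeal A ^ s)) :=
    ((maximalIdeal A ^ s).mkQ).compLeft (Fin n)
  have hq : Function.Surjective q := by
    intro v
    choose w hw using fun i => Ideal.Quotient.mk_surjective (v i)
    exact ⟨w, funext hw⟩
  have hk : LinearMap.ker q ≤ LinearMap.ker f := by
    intro v hv
    rw [LinearMap.mem_ker] at hv ⊢
    have h1 : ∀ i, v i ∈ maximalIdeal A ^ s := by
      intro i
      have := congrFun hv i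
      exact Ideal.Quotient.eq_zero_iff_mem.mp this
    have h2 : v = ∑ i, v i • (Pi.single i (1 : A) : Fin n → A) := by
      funext j
      simp [Finset.sum_apply, Pi.single_apply]
    rw [h2, map_sum]
    apply Finset.sum_eq_zero
    intro i _
    rw [map_smul]
    exact h _ (h1 i) _
  let g : (Fin n → A ⧸ (maximalIdeal A ^ s)) →ₗ[A] N :=
    ((LinearMap.ker q).liftQ f hk).comp (q.quotKerEquivOfSurjective hq).symm.toLinearMap
  have hg : Function.Surjective g := by
    intro x
    obtain ⟨v, rfl⟩ := hf x
    refine ⟨q v, ?_⟩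
    have : (q.quotKerEquivOfSurjective hq).symm (q v) = Submodule.Quotient.mk v := by
      rw [LinearEquiv.symm_apply_eq]
      rfl
    simp only [g, LinearMap.comp_apply, LinearEquiv.coe_coe, this]
    rfl
  have h3 := Module.length_le_of_surjective g hg
  have h4 : Module.length A (Fin n → A ⧸ (maximalIdeal A ^ s)) ≠ ⊤ := by
    rw [Module.length_pi]
    rw [ENat.card_eq_coe_fintype_card]
    exact WithTop.mul_ne_top (ENat.natCast_ne_top _) (chib_len_quot s)
  exact ne_top_of_le_ne_top h4 h3

/-- (job NT-4) For a finitely generated module the homology of `F ⊗ M` has finite length: it is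
finitely generated and killed by a power of the maximal ideal. -/
theorem length_H_ne_top [IsLocalRing A] [IsNoetherianRing A] (F : Cx A) (hF : F.HFin)
    (M : Type u) [AddCommGroup M] [Module A M] [Module.Finite A M] (i : ℕ) :
    Module.length A (F.H M i) ≠ ⊤ := by
  obtain ⟨s, hs⟩ := exists_nullH F hF
  apply chib_fin_len s
  intro a ha x
  obtain ⟨z, rfl⟩ := Submodule.Quotient.mk_surjective _ x
  rw [← Submodule.Quotient.mk_smul, Submodule.Quotient.mk_eq_zero, Submodule.mem_comap]
  exact (hs a ha).smul_mem M i z.1 z.2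

private theorem chib_len_ker_range {X Y : Type u} [AddCommGroup X] [Module A X] [AddCommGroup Y]
    [Module A Y] (p : X →ₗ[A] Y) : Module.length A X =
      Module.length A (LinearMap.ker p) + Module.length A (LinearMap.range p) := by
  apply Module.length_eq_add_of_exact (LinearMap.ker p).subtype p.rangeRestrict
    (Submodule.subtype_injective _) p.surjective_rangeRestrict
  intro x
  constructor
  · intro h
    have : p x = 0 := congrArg Subtype.val h
    exact ⟨⟨x, this⟩, rfl⟩
  · rintro ⟨y, rfl⟩
    exact Subtype.ext y.2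

private theorem chib_len_range_coker {X Y : Type u} [AddCommGroup X] [Module A X] [AddCommGroup Y]
    [Module A Y] (p : X →ₗ[A] Y) : Module.length A Y =
      Module.length A (LinearMap.range p) + Module.length A (Y ⧸ LinearMap.range p) := by
  apply Module.length_eq_add_of_exact (LinearMap.range p).subtype (LinearMap.range p).mkQ
    (Submodule.subtype_injective _) (Submodule.mkQ_surjective _)
  intro x
  rw [Submodule.mkQ_apply, Submodule.Quotient.mk_eq_zero]
  constructor
  · intro h
    exact ⟨⟨x, h⟩, rfl⟩
  · rintro ⟨y, rfl⟩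
    exact y.2

private theorem chib_len_eq_of_ker {T X Y : Type u} [AddCommGroup T] [Module A T] [AddCommGroup X]
    [Module A X] [AddCommGroup Y] [Module A Y] (p : T →ₗ[A] X) (q : T →ₗ[A] Y)
    (hp : Function.Surjective p) (hq : Function.Surjective q)
    (h : LinearMap.ker p = LinearMap.ker q) : Module.length A X = Module.length A Y := by
  rw [← (p.quotKerEquivOfSurjective hp).length_eq, ← (q.quotKerEquivOfSurjective hq).length_eq, h]

section maps

variable (F : Cx A) {M N : Type u} [AddCommGroup M] [Module A M] [AddCommGroup N] [Module A N]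
  (f : M →ₗ[A] N)

private theorem chib_act (i : ℕ) (v : Fin (F.rk (i + 1)) → M) :
    F.act N i (fun k => f (v k)) = fun j => f (F.act M i v j) := by
  funext j
  simp [Cx.act]

private theorem chib_cyc (i : ℕ) (v : Fin (F.rk i) → M) (hv : v ∈ F.cyc M i) :
    (fun k => f (v k)) ∈ F.cyc N i := by
  cases i with
  | zero => exact Submodule.mem_top
  | succ i =>
    change F.act N i _ = 0
    have : F.act M i v = 0 := hv
    rw [chib_act, this]
    funext j
    simp

private theorem chib_bd (i : ℕ) (v : Fin (F.rk i) → M) (hv : v ∈ F.bd M i) :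
    (fun k => f (v k)) ∈ F.bd N i := by
  obtain ⟨w, rfl⟩ := hv
  exact ⟨fun k => f (w k), chib_act F f i w⟩

private theorem chib_dd (i : ℕ) (v : Fin (F.rk (i + 2)) → M) :
    F.act M i (F.act M (i + 1) v) = 0 := by
  funext j
  simp only [Cx.act, LinearMap.coe_mk, AddHom.coe_mk, Finset.smul_sum, Pi.zero_apply]
  rw [Finset.sum_comm]
  apply Finset.sum_eq_zero
  intro k _
  have h1 : ∀ l, F.d i j l • F.d (i + 1) l k • v k = (F.d i j l * F.d (i + 1) l k) • v k :=
    fun l => (mul_smul _ _ _).symm
  simp only [h1]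
  rw [← Finset.sum_smul]
  have h2 : ∑ l, F.d i j l * F.d (i + 1) l k = 0 := by
    have := congrFun (congrFun (F.dd i) j) k
    rw [Matrix.mul_apply] at this
    simpa using this
  rw [h2, zero_smul]

private theorem chib_bd_cyc (i : ℕ) (v : Fin (F.rk i) → M) (hv : v ∈ F.bd M i) :
    v ∈ F.cyc M i := by
  cases i with
  | zero => exact Submodule.mem_top
  | succ i =>
    obtain ⟨w, rfl⟩ := hv
    exact chib_dd F i w

/-- the map on cycles -/
private def chib_cmap (i : ℕ) : F.cyc M i →ₗ[A] F.cyc N i :=
  (f.compLeft (Fin (F.rk i))).restrict (fun v hv => chib_cyc F f i v hv)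

/-- the map on homology -/
private def chib_hmap (i : ℕ) : F.H M i →ₗ[A] F.H N i :=
  Submodule.mapQ _ _ (chib_cmap F f i) (by
    intro v hv
    exact chib_bd F f i v.1 hv)

end maps

section exact

variable (F : Cx A) {M N K : Type u} [AddCommGroup M] [Module A M] [AddCommGroup N] [Module A N]
  [AddCommGroup K] [Module A K] (f : M →ₗ[A] N) (g : N →ₗ[A] K)

/-- lift of a family -/
private theorem chib_lift (h : Function.Exact f g) {n : ℕ} (v : Fin n → N) (hv : ∀ k, g (v k) = 0) :
    ∃ w : Fin n → M, v = fun k => f (w k) := by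
  choose w hw using fun k => (h (v k)).mp (hv k)
  exact ⟨w, funext fun k => (hw k).symm⟩

private theorem chib_cyc_of (hf : Function.Injective f) (i : ℕ) (w : Fin (F.rk i) → M)
    (hw : (fun k => f (w k)) ∈ F.cyc N i) : w ∈ F.cyc M i := by
  cases i with
  | zero => exact Submodule.mem_top
  | succ i =>
    change F.act M i w = 0
    have h1 : F.act N i (fun k => f (w k)) = 0 := hw
    rw [chib_act] at h1
    funext j
    have h2 := congrFun h1 j
    exact hf (by rw [h2]; simp)

private theorem chib_ker_eq_range (hf : Function.Injective f) (hg : Function.Surjective g)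
    (h : Function.Exact f g) (i : ℕ) :
    LinearMap.ker (chib_hmap F g i) = LinearMap.range (chib_hmap F f i) := by
  ext x
  obtain ⟨z, rfl⟩ := Submodule.Quotient.mk_surjective _ x
  constructor
  · intro hx
    have h1 : (Submodule.Quotient.mk (chib_cmap F g i z) : F.H K i) = 0 := hx
    rw [Submodule.Quotient.mk_eq_zero, Submodule.mem_comap] at h1
    obtain ⟨w, hw⟩ := h1
    choose y hy using fun k => hg (w k)
    have hwy : w = fun k => g (y k) := funext fun k => (hy k).symm
    rw [hwy, chib_act] at hw
    have h2 : ∀ k, g ((z.1 - F.act N i y) k) = 0 := by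
      intro k
      have h3 := congrFun hw k
      have h4 : ((F.cyc K i).subtype (chib_cmap F g i z)) k = g (z.1 k) := rfl
      rw [h4] at h3
      rw [Pi.sub_apply, map_sub, ← h3, sub_self]
    obtain ⟨x, hx⟩ := chib_lift f g h _ h2
    have h5 : F.act N i y ∈ F.bd N i := ⟨y, rfl⟩
    have h6 : x ∈ F.cyc M i := by
      apply chib_cyc_of F f hf
      rw [← hx]
      exact Submodule.sub_mem _ z.2 (chib_bd_cyc F i _ h5)
    refine ⟨Submodule.Quotient.mk ⟨x, h6⟩, ?_⟩
    have h7 : chib_hmap F f i (Submodule.Quotient.mk ⟨x, h6⟩) =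
        Submodule.Quotient.mk (chib_cmap F f i ⟨x, h6⟩) := rfl
    rw [h7]
    symm
    rw [Submodule.Quotient.eq, Submodule.mem_comap]
    have h8 : (F.cyc N i).subtype (z - chib_cmap F f i ⟨x, h6⟩) = F.act N i y := by
      rw [map_sub]
      have h9 : (F.cyc N i).subtype (chib_cmap F f i ⟨x, h6⟩) = fun k => f (x k) := rfl
      rw [h9, ← hx]
      have h10 : (F.cyc N i).subtype z = z.1 := rfl
      rw [h10, sub_sub_cancel]
    rw [h8]
    exact h5
  · rintro ⟨y, hy⟩
    obtain ⟨v, rfl⟩ := Submodule.Quotient.mk_surjective _ y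
    rw [← hy, LinearMap.mem_ker]
    have h1 : chib_hmap F g i (chib_hmap F f i (Submodule.Quotient.mk v)) =
        Submodule.Quotient.mk (chib_cmap F g i (chib_cmap F f i v)) := rfl
    rw [h1]
    have h2 : chib_cmap F g i (chib_cmap F f i v) = 0 := by
      apply Subtype.ext
      funext k
      exact (h _).mpr ⟨v.1 k, rfl⟩
    rw [h2, Submodule.Quotient.mk_zero]

/-- pairs `(x, y)` with `f x = ∂ y` -/
private def chib_T (i : ℕ) : Submodule A ((Fin (F.rk i) → M) × (Fin (F.rk (i + 1)) → N)) where
  carrier := {p | (fun k => f (p.1 k)) = F.act N i p.2}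
  add_mem' := by
    intro p q hp hq
    simp only [Set.mem_ofPred_eq, Prod.fst_add, Prod.snd_add, map_add, Pi.add_apply] at hp hq ⊢
    rw [← hp, ← hq]
    rfl
  zero_mem' := by
    simp only [Set.mem_ofPred_eq, Prod.fst_zero, Prod.snd_zero, map_zero, Pi.zero_apply]
    rfl
  smul_mem' := by
    intro a p hp
    simp only [Set.mem_ofPred_eq, Prod.smul_fst, Prod.smul_snd, map_smul, Pi.smul_apply] at hp ⊢
    rw [← hp]
    rfl

private theorem chib_T_cyc (hf : Function.Injective f) (i : ℕ) (p : chib_T F f i) :
    p.1.1 ∈ F.cyc M i := by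
  apply chib_cyc_of F f hf
  have := p.2
  change (fun k => f (p.1.1 k)) = F.act N i p.1.2 at this
  rw [this]
  exact chib_bd_cyc F i _ ⟨_, rfl⟩

private theorem chib_T_cyc' (h : Function.Exact f g) (i : ℕ) (p : chib_T F f i) :
    (fun k => g (p.1.2 k)) ∈ F.cyc K (i + 1) := by
  change F.act K i _ = 0
  rw [chib_act]
  have h1 := p.2
  change (fun k => f (p.1.1 k)) = F.act N i p.1.2 at h1
  rw [← h1]
  funext j
  exact (h _).mpr ⟨_, rfl⟩

private theorem chib_connect (hf : Function.Injective f) (hg : Function.Surjective g)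
    (h : Function.Exact f g) (i : ℕ) :
    Module.length A (LinearMap.ker (chib_hmap F f i)) =
      Module.length A (F.H K (i + 1) ⧸ LinearMap.range (chib_hmap F g (i + 1))) := by
  let a1 : chib_T F f i →ₗ[A] F.cyc M i :=
    LinearMap.codRestrict _ ((LinearMap.fst A _ _).comp (chib_T F f i).subtype)
      (fun p => chib_T_cyc F f hf i p)
  let a2 : chib_T F f i →ₗ[A] F.H M i := (Submodule.mkQ _).comp a1
  have ha2 : ∀ p, a2 p ∈ LinearMap.ker (chib_hmap F f i) := by
    intro p
    rw [LinearMap.mem_ker]
    have h1 : chib_hmap F f i (a2 p) = Submodule.Quotient.mk (chib_cmap F f i (a1 p)) := rfl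
    rw [h1, Submodule.Quotient.mk_eq_zero, Submodule.mem_comap]
    exact ⟨p.1.2, (show (fun k => f (p.1.1 k)) = F.act N i p.1.2 from p.2).symm⟩
  let a3 : chib_T F f i →ₗ[A] LinearMap.ker (chib_hmap F f i) := LinearMap.codRestrict _ a2 ha2
  let b1 : chib_T F f i →ₗ[A] F.cyc K (i + 1) :=
    LinearMap.codRestrict _ ((g.compLeft (Fin (F.rk (i + 1)))).comp
      ((LinearMap.snd A _ _).comp (chib_T F f i).subtype)) (fun p => chib_T_cyc' F f g h i p)
  let b3 : chib_T F f i →ₗ[A] (F.H K (i + 1) ⧸ LinearMap.range (chib_hmap F g (i + 1))) :=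
    (Submodule.mkQ _).comp ((Submodule.mkQ _).comp b1)
  apply chib_len_eq_of_ker a3 b3
  · -- surjectivity of a3
    rintro ⟨x, hx⟩
    obtain ⟨z, rfl⟩ := Submodule.Quotient.mk_surjective _ x
    have h1 : (Submodule.Quotient.mk (chib_cmap F f i z) : F.H N i) = 0 := hx
    rw [Submodule.Quotient.mk_eq_zero, Submodule.mem_comap] at h1
    obtain ⟨y, hy⟩ := h1
    refine ⟨⟨(z.1, y), hy.symm⟩, ?_⟩
    apply Subtype.ext
    rfl
  · -- surjectivity of b3
    intro x
    obtain ⟨x', rfl⟩ := Submodule.Quotient.mk_surjective _ x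
    obtain ⟨z, rfl⟩ := Submodule.Quotient.mk_surjective _ x'
    choose y hy using fun k => hg (z.1 k)
    have hz : F.act K i z.1 = 0 := z.2
    have hzy : z.1 = fun k => g (y k) := funext fun k => (hy k).symm
    have h2 : ∀ k, g (F.act N i y k) = 0 := by
      intro k
      have h3 := congrFun hz k
      rw [hzy, chib_act] at h3
      exact h3
    obtain ⟨x, hx⟩ := chib_lift f g h _ h2
    refine ⟨⟨(x, y), hx.symm⟩, ?_⟩
    have h4 : b1 ⟨(x, y), hx.symm⟩ = z := by
      apply Subtype.ext
      exact hzy.symm
    change Submodule.Quotient.mk (Submodule.Quotient.mk (b1 ⟨(x, y), hx.symm⟩)) = _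
    rw [h4]
  · -- kernels
    ext p
    rw [LinearMap.mem_ker, LinearMap.mem_ker]
    have hp : (fun k => f (p.1.1 k)) = F.act N i p.1.2 := p.2
    constructor
    · intro h1
      have h2 : (Submodule.Quotient.mk (a1 p) : F.H M i) = 0 := congrArg Subtype.val h1
      rw [Submodule.Quotient.mk_eq_zero, Submodule.mem_comap] at h2
      obtain ⟨w, hw⟩ := h2
      have hw' : F.act M i w = p.1.1 := hw
      change (Submodule.Quotient.mk (Submodule.Quotient.mk (b1 p)) :
        F.H K (i + 1) ⧸ LinearMap.range (chib_hmap F g (i + 1))) = 0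
      rw [Submodule.Quotient.mk_eq_zero]
      have h3 : p.1.2 - (fun k => f (w k)) ∈ F.cyc N (i + 1) := by
        change F.act N i _ = 0
        rw [map_sub, chib_act, hw', ← hp, sub_self]
      refine ⟨Submodule.Quotient.mk ⟨_, h3⟩, ?_⟩
      change (Submodule.Quotient.mk (chib_cmap F g (i + 1) ⟨_, h3⟩) : F.H K (i + 1)) = _
      congr 1
      apply Subtype.ext
      funext k
      change g (p.1.2 k - f (w k)) = g (p.1.2 k)
      rw [map_sub, (h _).mpr ⟨w k, rfl⟩, sub_zero]
    · intro h1
      have h2 : (Submodule.Quotient.mk (Submodule.Quotient.mk (b1 p)) :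
        F.H K (i + 1) ⧸ LinearMap.range (chib_hmap F g (i + 1))) = 0 := h1
      rw [Submodule.Quotient.mk_eq_zero] at h2
      obtain ⟨x, hx⟩ := h2
      obtain ⟨z, rfl⟩ := Submodule.Quotient.mk_surjective _ x
      have h3 : (Submodule.Quotient.mk (chib_cmap F g (i + 1) z) : F.H K (i + 1)) =
        Submodule.Quotient.mk (b1 p) := hx
      rw [eq_comm, Submodule.Quotient.eq, Submodule.mem_comap] at h3
      obtain ⟨u, hu⟩ := h3
      choose u' hu' using fun k => hg (u k)
      have huu : u = fun k => g (u' k) := funext fun k => (hu' k).symm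
      rw [huu, chib_act] at hu
      have h4 : ∀ k, g ((p.1.2 - z.1 - F.act N (i + 1) u') k) = 0 := by
        intro k
        have h5 := congrFun hu k
        have h6 : ((F.cyc K (i + 1)).subtype (b1 p - chib_cmap F g (i + 1) z)) k =
          g (p.1.2 k) - g (z.1 k) := rfl
        rw [h6] at h5
        rw [Pi.sub_apply, Pi.sub_apply, map_sub, map_sub, ← h5, sub_self]
      obtain ⟨w, hw⟩ := chib_lift f g h _ h4
      have hz : F.act N i z.1 = 0 := z.2
      have h7 : F.act N i p.1.2 = F.act N i (fun k => f (w k)) := by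
        rw [← hw, map_sub, map_sub, hz, chib_dd, sub_zero, sub_zero]
      rw [← hp, chib_act] at h7
      have h8 : p.1.1 = F.act M i w := by
        funext k
        exact hf (congrFun h7 k)
      apply Subtype.ext
      change (Submodule.Quotient.mk (a1 p) : F.H M i) = 0
      rw [Submodule.Quotient.mk_eq_zero, Submodule.mem_comap]
      exact ⟨w, h8.symm⟩

private theorem chib_surj_zero (hg : Function.Surjective g) :
    LinearMap.range (chib_hmap F g 0) = ⊤ := by
  rw [LinearMap.range_eq_top]
  intro x
  obtain ⟨z, rfl⟩ := Submodule.Quotient.mk_surjective _ x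
  choose y hy using fun k => hg (z.1 k)
  refine ⟨Submodule.Quotient.mk ⟨y, Submodule.mem_top⟩, ?_⟩
  change (Submodule.Quotient.mk (chib_cmap F g 0 ⟨y, Submodule.mem_top⟩) : F.H K 0) = _
  congr 1
  apply Subtype.ext
  funext k
  exact hy k

end exact

private theorem chib_tele (k c : ℕ → ℤ) (h0 : c 0 = 0) (h1 : ∀ i, c (i + 1) = k i) (n : ℕ) :
    ∑ i ∈ Finset.range (n + 1), (-1) ^ i * (k i + c i) = (-1) ^ n * k n := by
  induction n with
  | zero => simp [h0]
  | succ n ih =>
    rw [Finset.sum_range_succ, ih, h1, pow_succ]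
    ring

/-- (job NT-4) Additivity of the Euler characteristic: `0 → F ⊗ M → F ⊗ N → F ⊗ K → 0` is an exact
sequence of complexes. Elementary proof: the long exact sequence, or: for each `i` put
`c_i = length` of the image of the connecting map `H_i(F ⊗ K) → H_(i-1)(F ⊗ M)`; then
`length H_i(N) = length H_i(M) - c_(i+1) + length H_i(K) - c_i`, with `c_0 = c_len = 0`, and the
alternating sum telescopes. -/
theorem chi_add [IsLocalRing A] [IsNoetherianRing A] (F : Cx A) (hF : F.HFin)
    {M N K : Type u} [AddCommGroup M] [Module A M] [AddCommGroup N] [Module A N]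
    [AddCommGroup K] [Module A K] [Module.Finite A N] (f : M →ₗ[A] N) (g : N →ₗ[A] K)
    (hf : Function.Injective f) (hg : Function.Surjective g) (h : Function.Exact f g) :
    F.chi N = F.chi M + F.chi K := by
  have : Module.Finite A M := Module.Finite.of_injective f hf
  have : Module.Finite A K := Module.Finite.of_surjective g hg
  set kk : ℕ → ℕ∞ := fun i => Module.length A (LinearMap.ker (chib_hmap F f i)) with hkk
  set cc : ℕ → ℕ∞ := fun i =>
    Module.length A (F.H K i ⧸ LinearMap.range (chib_hmap F g i)) with hcc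
  have hM := fun i => length_H_ne_top F hF M i
  have hN := fun i => length_H_ne_top F hF N i
  have hK := fun i => length_H_ne_top F hF K i
  have e1 : ∀ i, Module.length A (F.H M i) = kk i +
      Module.length A (LinearMap.range (chib_hmap F f i)) := fun i => chib_len_ker_range _
  have e2 : ∀ i, Module.length A (F.H N i) = Module.length A (LinearMap.range (chib_hmap F f i)) +
      Module.length A (LinearMap.range (chib_hmap F g i)) := by
    intro i
    rw [chib_len_ker_range (chib_hmap F g i), chib_ker_eq_range F f g hf hg h i]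
  have e3 : ∀ i, Module.length A (F.H K i) =
      Module.length A (LinearMap.range (chib_hmap F g i)) + cc i :=
    fun i => chib_len_range_coker _
  have e4 : ∀ i, cc (i + 1) = kk i := fun i => (chib_connect F f g hf hg h i).symm
  have e5 : cc 0 = 0 := by
    simp only [hcc]
    rw [chib_surj_zero F g hg, Module.length_eq_zero_iff]
    exact Submodule.Quotient.subsingleton_iff.mpr rfl
  have e6 : ∀ i, ((Module.length A (F.H N i)).toNat : ℤ) = (Module.length A (F.H M i)).toNat +
      (Module.length A (F.H K i)).toNat - ((kk i).toNat + (cc i).toNat) := by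
    intro i
    have a1 := e1 i
    have a2 := e2 i
    have a3 := e3 i
    have b1 := hM i
    have b2 := hN i
    have b3 := hK i
    rw [a1] at b1
    rw [a3] at b3
    obtain ⟨c1, c2⟩ := WithTop.add_ne_top.mp b1
    obtain ⟨c3, c4⟩ := WithTop.add_ne_top.mp b3
    rw [a1, a2, a3, ENat.toNat_add c1 c2, ENat.toNat_add c2 c3, ENat.toNat_add c3 c4]
    push_cast
    ring
  unfold Cx.chi
  rcases Nat.eq_zero_or_pos F.len with hl | hl
  · simp [hl]
  obtain ⟨n, hn⟩ : ∃ n, F.len = n + 1 := ⟨F.len - 1, by omega⟩
  rw [hn, ← Finset.sum_add_distrib]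
  have e7 : (kk n).toNat = 0 := by
    have h1 : cc (n + 1) = 0 := by
      have h2 : F.rk (n + 1) = 0 := F.bdd _ (by omega)
      simp only [hcc]
      rw [Module.length_eq_zero_iff]
      have : Subsingleton (Fin (F.rk (n + 1)) → K) := by
        rw [h2]; infer_instance
      have : Subsingleton (F.cyc K (n + 1)) := inferInstance
      have : Subsingleton (F.H K (n + 1)) :=
        (Submodule.Quotient.mk_surjective _).subsingleton
      exact (Submodule.Quotient.mk_surjective _).subsingleton
    rw [← e4 n, h1]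
    rfl
  have e8 := chib_tele (fun i => ((kk i).toNat : ℤ)) (fun i => ((cc i).toNat : ℤ)) (by simp [e5])
    (fun i => by simp [e4]) n
  simp only [e7, Nat.cast_zero, mul_zero] at e8
  rw [← sub_eq_zero, ← Finset.sum_sub_distrib, ← neg_eq_zero, ← Finset.sum_neg_distrib, ← e8]
  apply Finset.sum_congr rfl
  intro i _
  rw [e6 i]
  ring

end Pool.Agent.H27.NT
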