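import Pool.Agent.H27.NT.ChiA
import Pool.Agent.H27.NT.ChiB

/-!
# The Euler characteristic is additive and tame (job NT-33)
-/

open IsLocalRing

namespace Pool.Agent.H27.NT

universe u

variable {A : Type u} [CommRing A]

/-- The additive function `χ_F`. -/
noncomputable def chiFn [IsLocalRing A] [IsNoetherianRing A] (F : Cx A) (hF : F.HFin) :
    AddFn A where
  val M _ _ := F.chi M
  add f g hf hg h := chi_add F hF f g hf hg h

/-- (job NT-33) `χ_F` is tame: take `s` from `exists_nullH` and `C = ∑ rk_i`, use `length_H_le`. -/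
theorem tame_chiFn [IsLocalRing A] [IsNoetherianRing A] (F : Cx A) (hF : F.HFin) :
    Tame (chiFn F hF) := by
  obtain ⟨s, hs⟩ := exists_nullH F hF
  refine ⟨s, ∑ i ∈ Finset.range F.len, F.rk i, ?_⟩
  intro M _ _ _ t c ht hreg hlen
  show |F.chi M| ≤ _
  have hle : ∀ i, ((Module.length A (F.H M i)).toNat : ℤ) ≤ (F.rk i : ℤ) * c := by
    intro i
    have h1 := length_H_le F s (fun a ha M _ _ i z hz => (hs a ha).smul_mem M i z hz) M t ht hreg i
    have h2 : Module.length A (F.H M i) ≤ ((F.rk i * c : ℕ) : ℕ∞) := by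
      refine h1.trans ?_
      rw [Nat.cast_mul]
      exact mul_le_mul_right hlen _
    have h3 : (Module.length A (F.H M i)).toNat ≤ F.rk i * c := ENat.toNat_le_of_le_natCast h2
    exact_mod_cast h3
  unfold Cx.chi
  refine (Finset.abs_sum_le_sum_abs _ _).trans ?_
  rw [Nat.cast_sum, Finset.sum_mul]
  refine Finset.sum_le_sum fun i _ => ?_
  rw [abs_mul, abs_pow, abs_neg, abs_one, one_pow, one_mul, abs_of_nonneg (Int.natCast_nonneg _)]
  exact hle i

end Pool.Agent.H27.NT
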