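import Pool.Agent.H27.NT.Defs

/-!
# Lengths of homology modulo regular sequences (job NT-3)
-/

open IsLocalRing
open scoped Pointwise

namespace Pool.Agent.H27.NT

universe u

variable {A : Type u} [CommRing A]

theorem act_apply (F : Cx A) (M : Type u) [AddCommGroup M] [Module A M] (i : ℕ)
    (v : Fin (F.rk (i + 1)) → M) (j : Fin (F.rk i)) : F.act M i v j = ∑ k, F.d i j k • v k := rfl

theorem act_act (F : Cx A) (M : Type u) [AddCommGroup M] [Module A M] (i : ℕ)
    (v : Fin (F.rk (i + 2)) → M) : F.act M i (F.act M (i + 1) v) = 0 := by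
  funext j
  simp only [act_apply, Finset.smul_sum, smul_smul, Pi.zero_apply]
  rw [Finset.sum_comm]
  have h : ∀ k, ∑ l, (F.d i j l * F.d (i + 1) l k) • v k = 0 := by
    intro k
    have h1 : ∑ l, F.d i j l * F.d (i + 1) l k = 0 := by
      have h2 := congrFun (congrFun (F.dd i) j) k
      rwa [Matrix.mul_apply] at h2
    rw [← Finset.sum_smul, h1, zero_smul]
  exact Finset.sum_eq_zero fun k _ => h k

theorem act_nat (F : Cx A) {M N : Type u} [AddCommGroup M] [Module A M] [AddCommGroup N]
    [Module A N] (f : M →ₗ[A] N) (i : ℕ) (v : Fin (F.rk (i + 1)) → M) :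
    f.compLeft (Fin (F.rk i)) (F.act M i v) = F.act N i (f.compLeft (Fin (F.rk (i + 1))) v) := by
  funext j
  simp [act_apply, LinearMap.compLeft]

theorem cyc_nat (F : Cx A) {M N : Type u} [AddCommGroup M] [Module A M] [AddCommGroup N]
    [Module A N] (f : M →ₗ[A] N) (i : ℕ) (v : Fin (F.rk i) → M) (hv : v ∈ F.cyc M i) :
    f.compLeft (Fin (F.rk i)) v ∈ F.cyc N i := by
  cases i with
  | zero => exact Submodule.mem_top
  | succ i =>
    change F.act N i _ = 0
    have hv' : F.act M i v = 0 := hv
    rw [← act_nat, hv', map_zero]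

/-- The core: a cycle whose image modulo `a` is a boundary is a boundary. -/
theorem bd_of_quot (F : Cx A) (M : Type u) [AddCommGroup M] [Module A M] (a : A)
    (ha : ∀ (i : ℕ) (z : Fin (F.rk i) → M), z ∈ F.cyc M i → a • z ∈ F.bd M i)
    (hreg : IsSMulRegular M a) (i : ℕ) (z : Fin (F.rk i) → M) (hz : z ∈ F.cyc M i)
    (hb : ((Submodule.mkQ (a • ⊤ : Submodule A M)).compLeft (Fin (F.rk i)) z) ∈
      F.bd (QuotSMulTop a M) i) : z ∈ F.bd M i := by
  obtain ⟨y', hy'⟩ := hb
  have hsurj : ∀ k, ∃ m : M, Submodule.mkQ (a • ⊤ : Submodule A M) m = y' k :=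
    fun k => Submodule.mkQ_surjective _ (y' k)
  choose y hy using hsurj
  have hyy : y' = (Submodule.mkQ (a • ⊤ : Submodule A M)).compLeft (Fin (F.rk (i + 1))) y := by
    funext k
    exact (hy k).symm
  rw [hyy, ← act_nat] at hy'
  have hx : ∀ j, ∃ x : M, z j - F.act M i y j = a • x := by
    intro j
    have h1 := congrFun hy' j
    have h2 : Submodule.mkQ (a • ⊤ : Submodule A M) (F.act M i y j) =
        Submodule.mkQ (a • ⊤ : Submodule A M) (z j) := h1
    have h3 : z j - F.act M i y j ∈ (a • ⊤ : Submodule A M) := by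
      rw [← Submodule.Quotient.mk_eq_zero, Submodule.Quotient.mk_sub, sub_eq_zero]
      exact h2.symm
    obtain ⟨x, _, hx⟩ := (Submodule.mem_smul_pointwise_iff_exists _ _ _).1 h3
    exact ⟨x, hx.symm⟩
  choose x hx using hx
  have hzx : z = F.act M i y + a • x := by
    funext j
    have := hx j
    rw [Pi.add_apply, Pi.smul_apply, ← this]
    abel
  have hxc : x ∈ F.cyc M i := by
    cases i with
    | zero => exact Submodule.mem_top
    | succ i =>
      change F.act M i x = 0
      have hz' : F.act M i z = 0 := hz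
      rw [hzx, map_add, act_act, zero_add, map_smul] at hz'
      funext j
      have h4 : a • (F.act M i x j) = a • (0 : M) := by
        rw [smul_zero]
        exact congrFun hz' j
      exact hreg h4
  rw [hzx]
  exact Submodule.add_mem _ ⟨y, rfl⟩ (ha i x hxc)

/-- The induced map on homology modulo a regular element is injective. -/
theorem length_H_quot (F : Cx A) (M : Type u) [AddCommGroup M] [Module A M] (a : A)
    (ha : ∀ (i : ℕ) (z : Fin (F.rk i) → M), z ∈ F.cyc M i → a • z ∈ F.bd M i)
    (hreg : IsSMulRegular M a) (i : ℕ) :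
    Module.length A (F.H M i) ≤ Module.length A (F.H (QuotSMulTop a M) i) := by
  let π := (Submodule.mkQ (a • ⊤ : Submodule A M))
  let f : F.cyc M i →ₗ[A] F.cyc (QuotSMulTop a M) i :=
    LinearMap.restrict (π.compLeft (Fin (F.rk i))) (fun v hv => cyc_nat F π i v hv)
  let g : F.H M i →ₗ[A] F.H (QuotSMulTop a M) i :=
    Submodule.mapQ _ _ f (by
      rintro ⟨z, hz⟩ ⟨y, hy⟩
      refine ⟨π.compLeft (Fin (F.rk (i + 1))) y, ?_⟩
      rw [← act_nat, hy]
      rfl)
  refine Module.length_le_of_injective g ?_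
  rw [← LinearMap.ker_eq_bot, LinearMap.ker_eq_bot']
  intro z hz
  obtain ⟨z, rfl⟩ := Submodule.mkQ_surjective _ z
  have h1 : f z ∈ (F.bd (QuotSMulTop a M) i).comap (F.cyc (QuotSMulTop a M) i).subtype := by
    rw [← Submodule.Quotient.mk_eq_zero]
    exact hz
  have h2 := bd_of_quot F M a ha hreg i z.1 z.2 h1
  change Submodule.Quotient.mk z = 0
  rw [Submodule.Quotient.mk_eq_zero]
  exact h2

/-- (job NT-3) If every element of `m^s` kills the homology of `F ⊗ M'` for all `M'`, `t` is a
weakly `M`-regular sequence in `m^s`, then the length of `H_i(F ⊗ M)` is at most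
`rk_i · length (M / tM)`.

Proof. Induction on `t` (use `RingTheory.Sequence.isWeaklyRegular_cons_iff`). `t = []`:
`H_i(F ⊗ M)` is a subquotient of `M^(rk i)`. `t = a :: t'`: the map
`H_i(F ⊗ M) → H_i(F ⊗ M/aM)` is injective: if `z` is a cycle and `z = ∂ y + a x`, then
`a ∂ x = 0`, so `∂ x = 0` as `a` is `M`-regular, so `a x` is a boundary, hence so is `z`. -/
theorem length_H_le [IsLocalRing A] (F : Cx A) (s : ℕ)
    (hs : ∀ a ∈ maximalIdeal A ^ s, ∀ (M : Type u) [AddCommGroup M] [Module A M] (i : ℕ)
      (z : Fin (F.rk i) → M), z ∈ F.cyc M i → a • z ∈ F.bd M i)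
    (M : Type u) [AddCommGroup M] [Module A M] (t : List A)
    (ht : ∀ a ∈ t, a ∈ maximalIdeal A ^ s) (hreg : RingTheory.Sequence.IsWeaklyRegular M t)
    (i : ℕ) :
    Module.length A (F.H M i) ≤
      F.rk i * Module.length A (M ⧸ (Ideal.ofList t • ⊤ : Submodule A M)) := by
  induction t generalizing M with
  | nil =>
    have e : (M ⧸ (Ideal.ofList ([] : List A) • ⊤ : Submodule A M)) ≃ₗ[A] M :=
      Submodule.quotEquivOfEqBot _ (by simp)
    rw [e.length_eq]
    calc Module.length A (F.H M i) ≤ Module.length A (F.cyc M i) :=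
          Module.length_le_of_surjective (Submodule.mkQ _) (Submodule.mkQ_surjective _)
      _ ≤ Module.length A (Fin (F.rk i) → M) :=
          Module.length_le_of_injective (F.cyc M i).subtype (Submodule.injective_subtype _)
      _ = F.rk i * Module.length A M := by
          rw [Module.length_pi_of_fintype]
          simp
  | cons a t ih =>
    rw [RingTheory.Sequence.isWeaklyRegular_cons_iff] at hreg
    have h1 := length_H_quot F M a (fun i z hz => hs a (ht a List.mem_cons_self) M i z hz) hreg.1 i
    have h2 := ih (QuotSMulTop a M) (fun b hb => ht b (List.mem_cons_of_mem _ hb)) hreg.2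
    have e := Submodule.quotOfListConsSMulTopEquivQuotSMulTopInner M a t
    rw [e.length_eq]
    exact h1.trans h2

end Pool.Agent.H27.NT
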