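import Pool.Agent.H27.NT.Defs

/-!
# Passing to the completion (job NT-28)

`A` Noetherian local, `B` a Noetherian local ring, flat over `A` with `m_A B = m_B` and
`A/m_A = B/m_B`, i.e. length preserving: this is used for `B` the completion of `A`.
-/

open IsLocalRing TensorProduct

namespace Pool.Agent.H27.NT

universe u

/-- Base change of a complex. -/
def Cx.map {A B : Type u} [CommRing A] [CommRing B] (F : Cx A) (φ : A →+* B) : Cx B where
  len := F.len
  rk := F.rk
  d i := (F.d i).map φ
  dd i := by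
    rw [← Matrix.map_mul, F.dd]
    ext
    simp
  bdd := F.bdd

section

variable {A B : Type u} [CommRing A] [IsLocalRing A] [IsNoetherianRing A] [CommRing B]
  [IsLocalRing B] [IsNoetherianRing B] [Algebra A B] [Module.Flat A B]

/-- The chains commute with base change. -/
noncomputable def piE (A B : Type u) [CommRing A] [CommRing B] [Algebra A B] (F : Cx A)
    (M : Type u) [AddCommGroup M] [Module A M] (i : ℕ) :
    B ⊗[A] (Fin (F.rk i) → M) ≃ₗ[B] (Fin ((F.map (algebraMap A B)).rk i) → B ⊗[A] M) :=
  TensorProduct.piRight A B B (fun _ : Fin (F.rk i) => M)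

omit [IsLocalRing A] [IsNoetherianRing A] [IsLocalRing B] [IsNoetherianRing B]
  [Module.Flat A B] in
theorem piE_tmul (F : Cx A) (M : Type u) [AddCommGroup M] [Module A M] (i : ℕ) (b : B)
    (v : Fin (F.rk i) → M) (j : Fin (F.rk i)) :
    piE A B F M i (b ⊗ₜ[A] v) j = b ⊗ₜ[A] v j := rfl

omit [IsLocalRing A] [IsNoetherianRing A] [IsLocalRing B] [IsNoetherianRing B]
  [Module.Flat A B] in
/-- `act` commutes with base change. -/
theorem act_piRight (F : Cx A) (M : Type u) [AddCommGroup M] [Module A M] (i : ℕ)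
    (x : B ⊗[A] (Fin (F.rk (i + 1)) → M)) :
    (F.map (algebraMap A B)).act (B ⊗[A] M) i (piE A B F M (i + 1) x) =
      piE A B F M i ((F.act M i).baseChange B x) := by
  induction x using TensorProduct.induction_on with
  | zero => rw [map_zero, map_zero, map_zero, map_zero]
  | add x y hx hy => rw [map_add, map_add, hx, hy, map_add, map_add]
  | tmul b v =>
    funext j
    rw [LinearMap.baseChange_tmul]
    have h1 : ∀ k : Fin (F.rk (i + 1)), (algebraMap A B (F.d i j k)) • (b ⊗ₜ[A] v k) =
        b ⊗ₜ[A] (F.d i j k • v k) := by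
      intro k
      rw [algebraMap_smul, ← TensorProduct.tmul_smul]
    have h2 : b ⊗ₜ[A] (∑ k, F.d i j k • v k) = ∑ k, b ⊗ₜ[A] (F.d i j k • v k) :=
      TensorProduct.tmul_sum _ _ _
    refine (Finset.sum_congr rfl fun k _ => h1 k).trans h2.symm

omit [IsLocalRing A] [IsNoetherianRing A] in
theorem bd_le_cyc (F : Cx A) (M : Type u) [AddCommGroup M] [Module A M] (i : ℕ) :
    F.bd M i ≤ F.cyc M i := by
  cases i with
  | zero => exact le_top
  | succ i =>
    rintro _ ⟨v, rfl⟩
    change F.act M i (F.act M (i + 1) v) = 0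
    funext j
    change ∑ k, F.d i j k • (∑ l, F.d (i + 1) k l • v l) = 0
    have h : ∀ l, ∑ k, F.d i j k * F.d (i + 1) k l = 0 := by
      intro l
      have := congrFun (congrFun (F.dd i) j) l
      rw [Matrix.mul_apply] at this
      exact this
    calc ∑ k, F.d i j k • (∑ l, F.d (i + 1) k l • v l)
        = ∑ k, ∑ l, (F.d i j k * F.d (i + 1) k l) • v l := by
          refine Finset.sum_congr rfl fun k _ => ?_
          rw [Finset.smul_sum]
          exact Finset.sum_congr rfl fun l _ => (mul_smul _ _ _).symm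
      _ = ∑ l, (∑ k, F.d i j k * F.d (i + 1) k l) • v l := by
          rw [Finset.sum_comm]
          exact Finset.sum_congr rfl fun l _ => (Finset.sum_smul).symm
      _ = 0 := by
          refine Finset.sum_eq_zero fun l _ => ?_
          rw [h l, zero_smul]

omit [IsLocalRing A] [IsNoetherianRing A] [IsLocalRing B] [IsNoetherianRing B] in
/-- The cycles commute with flat base change. -/
theorem range_cyc (F : Cx A) (M : Type u) [AddCommGroup M] [Module A M] (i : ℕ)
    (y : Fin ((F.map (algebraMap A B)).rk i) → B ⊗[A] M) :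
    y ∈ (F.map (algebraMap A B)).cyc (B ⊗[A] M) i ↔
      ∃ z, piE A B F M i ((F.cyc M i).subtype.baseChange B z) = y := by
  cases i with
  | zero =>
    refine ⟨fun _ => ?_, fun _ => trivial⟩
    have h1 : Function.Surjective (((F.cyc M 0).subtype).lTensor B) :=
      LinearMap.lTensor_surjective B (fun x => ⟨⟨x, trivial⟩, rfl⟩)
    obtain ⟨x, hx⟩ := (piE A B F M 0).surjective y
    obtain ⟨z, hz⟩ := h1 x
    refine ⟨z, ?_⟩
    rw [LinearMap.baseChange_eq_ltensor, hz]
    exact hx
  | succ i =>
    have hex : Function.Exact ((F.cyc M (i + 1)).subtype.lTensor B) ((F.act M i).lTensor B) :=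
      Module.Flat.lTensor_exact B (LinearMap.exact_subtype_ker_map (F.act M i))
    obtain ⟨x, rfl⟩ := (piE A B F M (i + 1)).surjective y
    have hact := act_piRight (B := B) F M i x
    have hmem : piE A B F M (i + 1) x ∈ (F.map (algebraMap A B)).cyc (B ⊗[A] M) (i + 1) ↔
        (F.map (algebraMap A B)).act (B ⊗[A] M) i (piE A B F M (i + 1) x) = 0 := Iff.rfl
    rw [hmem, hact]
    constructor
    · intro hx
      have h0 : (F.act M i).baseChange B x = 0 :=
        (piE A B F M i).injective (by rw [hx, map_zero])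
      obtain ⟨z, hz⟩ := (hex x).1 h0
      refine ⟨z, ?_⟩
      rw [LinearMap.baseChange_eq_ltensor, hz]
    · rintro ⟨z, hz⟩
      have hz' : (F.cyc M (i + 1)).subtype.baseChange B z = x :=
        (piE A B F M (i + 1)).injective hz
      have h0 : (F.act M i).baseChange B x = 0 := by
        rw [LinearMap.baseChange_eq_ltensor]
        exact (hex x).2 ⟨z, hz'⟩
      rw [h0, map_zero]

/-- (job NT-28) `H_i(F_B ⊗_B (B ⊗_A M)) = B ⊗_A H_i(F ⊗ M)` by flatness. -/
theorem nonempty_H_equiv (F : Cx A) (M : Type u) [AddCommGroup M] [Module A M] (i : ℕ) :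
    Nonempty ((F.map (algebraMap A B)).H (B ⊗[A] M) i ≃ₗ[B] B ⊗[A] F.H M i) := by
  set e := piE A B F M i with he
  set Z := F.cyc M i with hZ
  -- the embedding of `B ⊗ Z` in the chains over `B`
  set ψ : B ⊗[A] Z →ₗ[B] (Fin ((F.map (algebraMap A B)).rk i) → B ⊗[A] M) :=
    e.toLinearMap ∘ₗ Z.subtype.baseChange B with hψ
  have hψinj : Function.Injective ψ := by
    have h1 : Function.Injective (Z.subtype.lTensor B) :=
      Module.Flat.lTensor_preserves_injective_linearMap _ Z.injective_subtype
    exact e.injective.comp h1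
  have hψran : ∀ x, ψ x ∈ (F.map (algebraMap A B)).cyc (B ⊗[A] M) i := by
    intro x
    rw [range_cyc F M i]
    exact ⟨x, rfl⟩
  set ψ' : B ⊗[A] Z →ₗ[B] (F.map (algebraMap A B)).cyc (B ⊗[A] M) i := ψ.codRestrict _ hψran
    with hψ'
  have hψ'surj : Function.Surjective ψ' := by
    rintro ⟨y, hy⟩
    rw [range_cyc F M i] at hy
    obtain ⟨x, hx⟩ := hy
    exact ⟨x, Subtype.ext hx⟩
  -- the two surjections
  set q : B ⊗[A] Z →ₗ[B] (F.map (algebraMap A B)).H (B ⊗[A] M) i :=
    (Submodule.mkQ _) ∘ₗ ψ' with hq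
  have hqsurj : Function.Surjective q := (Submodule.mkQ_surjective _).comp hψ'surj
  set p : B ⊗[A] Z →ₗ[B] B ⊗[A] F.H M i :=
    (Submodule.mkQ ((F.bd M i).comap (F.cyc M i).subtype)).baseChange B with hp
  have hpsurj : Function.Surjective p :=
    LinearMap.lTensor_surjective B (Submodule.mkQ_surjective _)
  -- the boundaries
  have hf : ∀ v, F.act M i v ∈ Z := fun v => bd_le_cyc F M i ⟨v, rfl⟩
  set f' : (Fin (F.rk (i + 1)) → M) →ₗ[A] Z := (F.act M i).codRestrict Z hf with hf'
  have hex : Function.Exact f' (Submodule.mkQ ((F.bd M i).comap (F.cyc M i).subtype)) := by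
    intro z
    rw [Submodule.mkQ_apply, Submodule.Quotient.mk_eq_zero]
    constructor
    · rintro ⟨v, hv⟩
      exact ⟨v, Subtype.ext hv⟩
    · rintro ⟨v, hv⟩
      exact ⟨v, by rw [← hv]; rfl⟩
  have hexB : Function.Exact (f'.lTensor B)
      ((Submodule.mkQ ((F.bd M i).comap (F.cyc M i).subtype)).lTensor B) :=
    lTensor_exact B hex (Submodule.mkQ_surjective _)
  have hker : LinearMap.ker q = LinearMap.ker p := by
    ext x
    have h1 : x ∈ LinearMap.ker p ↔ x ∈ Set.range (f'.lTensor B) := by
      rw [LinearMap.mem_ker]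
      exact hexB x
    rw [h1, LinearMap.mem_ker]
    have h2 : q x = 0 ↔ ψ x ∈ (F.map (algebraMap A B)).bd (B ⊗[A] M) i := by
      rw [hq, LinearMap.comp_apply, Submodule.mkQ_apply, Submodule.Quotient.mk_eq_zero]
      exact Iff.rfl
    have hcomp : ∀ w : B ⊗[A] (Fin (F.rk (i + 1)) → M),
        ψ (f'.lTensor B w) = e ((F.act M i).baseChange B w) := by
      intro w
      have h3 : Z.subtype.lTensor B (f'.lTensor B w) = (F.act M i).lTensor B w := by
        rw [← LinearMap.comp_apply, ← LinearMap.lTensor_comp]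
        rfl
      change e (Z.subtype.lTensor B (f'.lTensor B w)) = e ((F.act M i).lTensor B w)
      rw [h3]
    rw [h2]
    constructor
    · rintro ⟨v, hv⟩
      obtain ⟨w, rfl⟩ := (piE A B F M (i + 1)).surjective v
      refine ⟨w, hψinj ?_⟩
      rw [hcomp, ← hv]
      exact (act_piRight F M i w).symm
    · rintro ⟨w, rfl⟩
      refine ⟨piE A B F M (i + 1) w, ?_⟩
      rw [hcomp]
      exact act_piRight F M i w
  exact ⟨(q.quotKerEquivOfSurjective hqsurj).symm.trans
    ((Submodule.quotEquivOfEq _ _ hker).trans (p.quotKerEquivOfSurjective hpsurj))⟩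

/-- (job NT-28) If `m_A B = m_B`, then `B ⊗ -` preserves the length: for `M` of finite length by
induction (the residue field `A/m_A` goes to `B/m_A B = B/m_B`). -/
theorem length_baseChange (hm : (maximalIdeal A).map (algebraMap A B) = maximalIdeal B)
    (M : Type u) [AddCommGroup M] [Module A M] (h : Module.length A M ≠ ⊤) :
    Module.length B (B ⊗[A] M) = Module.length A M := by
  have _ := h
  have hloc : IsLocalHom (algebraMap A B) :=
    ((IsLocalRing.local_hom_TFAE (algebraMap A B)).out 0 2).2 hm.le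
  have h1 : Module.length B (B ⧸ maximalIdeal B) = 1 := by
    rw [Module.length_eq_one_iff, isSimpleModule_iff_quot_maximal]
    exact ⟨maximalIdeal B, inferInstance, ⟨LinearEquiv.refl _ _⟩⟩
  rw [IsLocalRing.length_baseChange A B M, hm, h1, mul_one]

end

end Pool.Agent.H27.NT
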