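import Pool.Agent.H27.NT.Basic
import Pool.Agent.H27.NT.Chi
import Pool.Agent.H27.NT.ComplA

/-!
# Passing to the completion (job NT-29)
-/

open IsLocalRing TensorProduct

namespace Pool.Agent.H27.NT

universe u

section congr

variable {R : Type u} [CommRing R] (F : Cx R) {M N : Type u} [AddCommGroup M] [Module R M]
  [AddCommGroup N] [Module R N]

private theorem cmp_act (e : M ≃ₗ[R] N) (i : ℕ) (v : Fin (F.rk (i + 1)) → M) :
    F.act N i (fun k => e (v k)) = fun j => e (F.act M i v j) := by
  funext j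
  simp [Cx.act]

private theorem cmp_cyc (e : M ≃ₗ[R] N) (i : ℕ) (v : Fin (F.rk i) → M) (hv : v ∈ F.cyc M i) :
    (fun k => e (v k)) ∈ F.cyc N i := by
  cases i with
  | zero => exact Submodule.mem_top
  | succ i =>
    change F.act N i _ = 0
    have : F.act M i v = 0 := hv
    rw [cmp_act, this]
    funext j
    simp

private theorem cmp_bd (e : M ≃ₗ[R] N) (i : ℕ) (v : Fin (F.rk i) → M) (hv : v ∈ F.bd M i) :
    (fun k => e (v k)) ∈ F.bd N i := by
  obtain ⟨w, rfl⟩ := hv
  exact ⟨fun k => e (w k), cmp_act F e i w⟩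

/-- the isomorphism on cycles -/
private def cmp_cycE (e : M ≃ₗ[R] N) (i : ℕ) : F.cyc M i ≃ₗ[R] F.cyc N i where
  toFun v := ⟨fun k => e (v.1 k), cmp_cyc F e i v.1 v.2⟩
  invFun v := ⟨fun k => e.symm (v.1 k), cmp_cyc F e.symm i v.1 v.2⟩
  map_add' v w := by
    apply Subtype.ext
    funext k
    simp
  map_smul' a v := by
    apply Subtype.ext
    funext k
    simp
  left_inv v := by
    apply Subtype.ext
    funext k
    simp
  right_inv v := by
    apply Subtype.ext
    funext k
    simp

private theorem cmp_length (e : M ≃ₗ[R] N) (i : ℕ) :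
    Module.length R (F.H M i) = Module.length R (F.H N i) := by
  refine (Submodule.Quotient.equiv _ _ (cmp_cycE F e i) ?_).length_eq
  ext v
  constructor
  · rintro ⟨w, hw, rfl⟩
    exact cmp_bd F e i w.1 hw
  · intro hv
    refine ⟨(cmp_cycE F e i).symm v, ?_, (cmp_cycE F e i).apply_symm_apply v⟩
    exact cmp_bd F e.symm i v.1 hv

end congr

section

variable {A B : Type u} [CommRing A] [IsLocalRing A] [IsNoetherianRing A] [CommRing B]
  [IsLocalRing B] [IsNoetherianRing B] [Algebra A B] [Module.Flat A B]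

private theorem cmp_len_map (hm : (maximalIdeal A).map (algebraMap A B) = maximalIdeal B)
    (F : Cx A) (M : Type u) [AddCommGroup M] [Module A M] (i : ℕ)
    (h : Module.length A (F.H M i) ≠ ⊤) :
    Module.length B ((F.map (algebraMap A B)).H (B ⊗[A] M) i) = Module.length A (F.H M i) := by
  obtain ⟨e⟩ := nonempty_H_equiv (B := B) F M i
  rw [e.length_eq]
  exact length_baseChange hm _ h

/-- (job NT-29) -/
theorem HFin_map (hm : (maximalIdeal A).map (algebraMap A B) = maximalIdeal B) (F : Cx A)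
    (hF : F.HFin) : (F.map (algebraMap A B)).HFin := by
  intro i
  rw [← cmp_length (F.map (algebraMap A B)) (TensorProduct.AlgebraTensorModule.rid A B B) i,
    cmp_len_map hm F A i (hF i)]
  exact hF i

/-- (job NT-29) -/
theorem chi_map (hm : (maximalIdeal A).map (algebraMap A B) = maximalIdeal B) (F : Cx A)
    (hF : F.HFin) (M : Type u) [AddCommGroup M] [Module A M] [Module.Finite A M] :
    (F.map (algebraMap A B)).chi (B ⊗[A] M) = F.chi M := by
  unfold Cx.chi
  refine Finset.sum_congr rfl fun i _ => ?_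
  rw [cmp_len_map hm F M i (length_H_ne_top F hF M i)]

/-- (job NT-29) `chi` is invariant under isomorphism. -/
theorem chi_congr (F : Cx A) {M N : Type u} [AddCommGroup M] [Module A M] [AddCommGroup N]
    [Module A N] (e : M ≃ₗ[A] N) : F.chi M = F.chi N := by
  unfold Cx.chi
  refine Finset.sum_congr rfl fun i _ => ?_
  rw [cmp_length F e i]

private theorem cmp_chi_self (hm : (maximalIdeal A).map (algebraMap A B) = maximalIdeal B)
    (F : Cx A) (hF : F.HFin) : (F.map (algebraMap A B)).chi B = F.chi A := by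
  rw [← chi_map hm F hF A]
  exact (chi_congr _ (TensorProduct.AlgebraTensorModule.rid A B B)).symm

/-- (job NT-29) Apply `TT B` to `χ_{F_B}` and to `χ_{F₀}(A) χ_{F_B} - χ_F(A) χ_{F₀,B}`. -/
theorem chi_eq_zero_of_TT (hm : (maximalIdeal A).map (algebraMap A B) = maximalIdeal B)
    (hB : TT B) (F : Cx A) (hF : F.HFin) (h0 : F.chi A = 0)
    (M : Type u) [AddCommGroup M] [Module A M] [Module.Finite A M] : F.chi M = 0 := by
  have hFB := HFin_map hm F hF
  have h := hB (chiFn _ hFB) (tame_chiFn _ hFB)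
    ((cmp_chi_self hm F hF).trans h0) (B ⊗[A] M)
  rw [← chi_map hm F hF M]
  exact h

/-- (job NT-29) -/
theorem chi_prop_of_TT (hm : (maximalIdeal A).map (algebraMap A B) = maximalIdeal B)
    (hB : TT B) (F₀ F : Cx A) (hF₀ : F₀.HFin) (hF : F.HFin)
    (M : Type u) [AddCommGroup M] [Module A M] [Module.Finite A M] :
    F₀.chi A * F.chi M = F.chi A * F₀.chi M := by
  have hFB := HFin_map hm F hF
  have hFB₀ := HFin_map hm F₀ hF₀
  have h := hB ((chiFn _ hFB).comb (F₀.chi A) (-(F.chi A)) (chiFn _ hFB₀))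
    ((tame_chiFn _ hFB).comb (tame_chiFn _ hFB₀) _ _) (by
      show F₀.chi A * (F.map (algebraMap A B)).chi B +
        -(F.chi A) * (F₀.map (algebraMap A B)).chi B = 0
      rw [cmp_chi_self hm F hF, cmp_chi_self hm F₀ hF₀]
      ring) (B ⊗[A] M)
  change F₀.chi A * (F.map (algebraMap A B)).chi (B ⊗[A] M) +
        -(F.chi A) * (F₀.map (algebraMap A B)).chi (B ⊗[A] M) = 0 at h
  rw [chi_map hm F hF M, chi_map hm F₀ hF₀ M] at h
  linarith

end

end Pool.Agent.H27.NT
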