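import Mathlib

/-!
# The completion (job NT-32)
-/

open IsLocalRing

namespace Pool.Agent.H27.NT

universe u

/-- A ring `B` that is complete for an ideal generated by finitely many elements `b i` and is a
quotient of a Noetherian ring `A` modulo this ideal is Noetherian: it is a quotient of the power
series ring over `A`. -/
theorem noeth_of_complete {A B : Type u} [CommRing A] [CommRing B] [IsNoetherianRing A]
    (φ : A →+* B) (I : Ideal B) [IsAdicComplete I B] {σ : Type u} [Finite σ] (b : σ → B)
    (hb : Ideal.span (Set.range b) = I)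
    (hφ : Function.Surjective ((Ideal.Quotient.mk I).comp φ)) : IsNoetherianRing B := by
  classical
  let ev : MvPolynomial σ A →+* B := MvPolynomial.eval₂Hom φ b
  have hev : ∀ n : ℕ, MvPolynomial.idealOfVars σ A ^ n ≤ (I ^ n).comap ev := by
    intro n
    refine le_trans ?_ (Ideal.le_comap_pow ev n)
    refine Ideal.pow_right_mono ?_ n
    rw [MvPolynomial.idealOfVars, Ideal.span_le]
    rintro _ ⟨i, rfl⟩
    change ev (MvPolynomial.X i) ∈ I
    have : ev (MvPolynomial.X i) = b i := by simp [ev]
    rw [this, ← hb]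
    exact Ideal.subset_span ⟨i, rfl⟩
  let f : (n : ℕ) → MvPowerSeries σ A →+* B ⧸ I ^ n := fun n =>
    (Ideal.quotientMap (I ^ n) ev (hev n)).comp
      (MvPowerSeries.truncTotalAlgHom σ A n).toRingHom
  have hfa : ∀ (n : ℕ) (p : MvPowerSeries σ A),
      f n p = Ideal.Quotient.mk (I ^ n) (ev (MvPowerSeries.truncTotal n p)) := by
    intro n p
    rfl
  have hf : ∀ {m n : ℕ} (hle : m ≤ n), (Ideal.Quotient.factorPow I hle).comp (f n) = f m := by
    intro m n hle
    ext p
    rw [RingHom.comp_apply, hfa, hfa]
    change Ideal.Quotient.mk (I ^ m) (ev (MvPowerSeries.truncTotal n p)) = _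
    rw [Ideal.Quotient.mk_eq_mk_iff_sub_mem, ← map_sub]
    exact hev m (MvPowerSeries.truncTotal_sub_truncTotal_mem_pow_idealOfVars hle le_rfl p)
  let Φ : MvPowerSeries σ A →+* B := IsAdicComplete.liftRingHom I f hf
  have hΦ : ∀ (n : ℕ) (p : MvPowerSeries σ A),
      Ideal.Quotient.mk (I ^ n) (Φ p) = Ideal.Quotient.mk (I ^ n)
        (ev (MvPowerSeries.truncTotal n p)) := by
    intro n p
    rw [← hfa]
    exact IsAdicComplete.mk_liftRingHom I f hf n p
  have hΦpoly : ∀ q : MvPolynomial σ A, Φ (q : MvPowerSeries σ A) = ev q := by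
    intro q
    have h1 : ∀ n : ℕ, Ideal.Quotient.mk (I ^ n) (Φ (q : MvPowerSeries σ A)) =
        Ideal.Quotient.mk (I ^ n) (ev q) := by
      intro n
      rw [hΦ, Ideal.Quotient.mk_eq_mk_iff_sub_mem, ← map_sub]
      refine hev n ?_
      rw [MvPolynomial.mem_pow_idealOfVars_iff']
      intro x h
      rw [MvPolynomial.coeff_sub, sub_eq_zero, MvPowerSeries.coeff_truncTotal _ h,
        MvPolynomial.coeff_coe]
    have h2 : Φ (q : MvPowerSeries σ A) - ev q = 0 := by
      refine IsHausdorff.haus (inferInstance : IsHausdorff I B) _ ?_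
      intro n
      rw [SModEq.zero, smul_eq_mul, Ideal.mul_top, ← Ideal.Quotient.mk_eq_mk_iff_sub_mem]
      exact h1 n
    exact sub_eq_zero.1 h2
  have hmap : (Ideal.span (Set.range (MvPowerSeries.X : σ → MvPowerSeries σ A))).map Φ = I := by
    rw [Ideal.map_span, ← hb]
    congr 1
    rw [← Set.range_comp]
    congr 1
    ext i
    change Φ (MvPowerSeries.X i) = b i
    have := hΦpoly (MvPolynomial.X i)
    rw [MvPolynomial.coe_X] at this
    rw [this]
    simp [ev]
  have hsurj : Function.Surjective Φ := by
    have : IsHausdorff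
        ((Ideal.span (Set.range (MvPowerSeries.X : σ → MvPowerSeries σ A))).map Φ) B := by
      rw [hmap]; infer_instance
    refine surjective_of_mk_map_comp_surjective
      (I := Ideal.span (Set.range (MvPowerSeries.X : σ → MvPowerSeries σ A))) Φ ?_
    rw [hmap]
    intro y
    obtain ⟨a, ha⟩ := hφ y
    refine ⟨((MvPolynomial.C a : MvPolynomial σ A) : MvPowerSeries σ A), ?_⟩
    rw [RingHom.comp_apply, hΦpoly, ← ha]
    simp [ev]
  have : IsNoetherianRing (MvPowerSeries σ A) := inferInstance
  exact isNoetherianRing_of_surjective _ _ Φ hsurj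

/-- (job NT-32) The completion is flat, Noetherian, local, and `m` generates its maximal ideal. -/
theorem completion_facts (A : Type u) [CommRing A] [IsLocalRing A] [IsNoetherianRing A] :
    IsNoetherianRing (AdicCompletion (maximalIdeal A) A) ∧
      Module.Flat A (AdicCompletion (maximalIdeal A) A) ∧
      (maximalIdeal A).map (algebraMap A (AdicCompletion (maximalIdeal A) A)) =
        maximalIdeal (AdicCompletion (maximalIdeal A) A) := by
  classical
  refine ⟨?_, inferInstance, AdicCompletion.maximalIdeal_eq_map.symm⟩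
  obtain ⟨s, hs⟩ := (maximalIdeal A).fg_of_isNoetherianRing
  have hmax : maximalIdeal (AdicCompletion (maximalIdeal A) A) =
      (maximalIdeal A).map (algebraMap A (AdicCompletion (maximalIdeal A) A)) :=
    AdicCompletion.maximalIdeal_eq_map
  refine noeth_of_complete (algebraMap A (AdicCompletion (maximalIdeal A) A))
    (maximalIdeal (AdicCompletion (maximalIdeal A) A)) (σ := (s : Set A))
    (fun i => algebraMap A (AdicCompletion (maximalIdeal A) A) i.1) ?_ ?_
  · have h1 : (maximalIdeal A).map (algebraMap A (AdicCompletion (maximalIdeal A) A)) =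
        (Ideal.span (s : Set A)).map (algebraMap A (AdicCompletion (maximalIdeal A) A)) :=
      congrArg (Ideal.map (algebraMap A (AdicCompletion (maximalIdeal A) A))) hs.symm
    rw [hmax, h1, Ideal.map_span]
    congr 1
    ext x
    simp
  · intro y
    obtain ⟨z, rfl⟩ := Ideal.Quotient.mk_surjective y
    obtain ⟨w, hw⟩ := (AdicCompletion.residueField_map_bijective_of_fg
      (R := A) (maximalIdeal A).fg_of_isNoetherianRing).2 (residue _ z)
    obtain ⟨v, rfl⟩ := residue_surjective w
    exact ⟨v, hw⟩

end Pool.Agent.H27.NT
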