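import Mathlib

/-!
# Definitions for the numerical Grothendieck group project (MP_48f5b7_ag)
-/

open IsLocalRing

namespace Pool.Agent.H27.NT

universe u

/-- An integer valued function on (finitely generated) modules that is additive on short exact
sequences of finitely generated modules. -/
structure AddFn (A : Type u) [CommRing A] where
  /-- the value -/
  val : ∀ (M : Type u) [AddCommGroup M] [Module A M], ℤ
  add : ∀ {M N K : Type u} [AddCommGroup M] [Module A M] [AddCommGroup N] [Module A N]
    [AddCommGroup K] [Module A K] [Module.Finite A N] (f : M →ₗ[A] N) (g : N →ₗ[A] K),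
    Function.Injective f → Function.Surjective g → Function.Exact f g → val N = val M + val K

/-- `lam` is bounded by lengths modulo regular sequences in a power of the maximal ideal. -/
def Tame {A : Type u} [CommRing A] [IsLocalRing A] (lam : AddFn A) : Prop :=
  ∃ s C : ℕ, ∀ (M : Type u) [AddCommGroup M] [Module A M] [Module.Finite A M] (t : List A) (c : ℕ),
    (∀ a ∈ t, a ∈ maximalIdeal A ^ s) → RingTheory.Sequence.IsWeaklyRegular M t →
    Module.length A (M ⧸ (Ideal.ofList t • ⊤ : Submodule A M)) ≤ c → |lam.val M| ≤ C * c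

/-- Every tame additive function that vanishes on `A` vanishes. -/
def TT (A : Type u) [CommRing A] [IsLocalRing A] : Prop :=
  ∀ lam : AddFn A, Tame lam → lam.val A = 0 →
    ∀ (M : Type u) [AddCommGroup M] [Module A M] [Module.Finite A M], lam.val M = 0

/-- Bounded complexes of finitely generated free modules `0 ← F_0 ← F_1 ← ...`, given by
matrices. -/
structure Cx (A : Type u) [CommRing A] where
  /-- all terms in degrees `≥ len` vanish -/
  len : ℕ
  /-- the ranks -/
  rk : ℕ → ℕ
  /-- the differential `F_(i+1) → F_i` -/
  d : ∀ i, Matrix (Fin (rk i)) (Fin (rk (i + 1))) A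
  dd : ∀ i, d i * d (i + 1) = 0
  bdd : ∀ i, len ≤ i → rk i = 0

namespace Cx

variable {A : Type u} [CommRing A] (F : Cx A) (M : Type u) [AddCommGroup M] [Module A M]

/-- The differential of `F ⊗ M`. -/
def act (i : ℕ) : (Fin (F.rk (i + 1)) → M) →ₗ[A] (Fin (F.rk i) → M) where
  toFun v := fun j => ∑ k, F.d i j k • v k
  map_add' v w := by
    funext j
    simp [Finset.sum_add_distrib]
  map_smul' a v := by
    funext j
    simp only [Pi.smul_apply, RingHom.id_apply, Finset.smul_sum]
    exact Finset.sum_congr rfl fun k _ => smul_comm _ _ _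

/-- The cycles of `F ⊗ M` in degree `i`. -/
def cyc : (i : ℕ) → Submodule A (Fin (F.rk i) → M)
  | 0 => ⊤
  | i + 1 => LinearMap.ker (F.act M i)

/-- The boundaries of `F ⊗ M` in degree `i`. -/
def bd (i : ℕ) : Submodule A (Fin (F.rk i) → M) := LinearMap.range (F.act M i)

/-- The homology of `F ⊗ M`. -/
abbrev H (i : ℕ) : Type u := F.cyc M i ⧸ (F.bd M i).comap (F.cyc M i).subtype

/-- All homology modules of `F` have finite length. -/
def HFin : Prop := ∀ i, Module.length A (F.H A i) ≠ ⊤

/-- The Euler characteristic `χ_F(M)`. -/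
noncomputable def chi : ℤ :=
  ∑ i ∈ Finset.range F.len, (-1) ^ i * ((Module.length A (F.H M i)).toNat : ℤ)

end Cx

end Pool.Agent.H27.NT
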