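import Mathlib

/-!
# Dimension of a hypersurface (job NT-31)
-/

open IsLocalRing

namespace Pool.Agent.H27.NT

universe u

/-- (job NT-31) The maximal ideal of `S` is generated by three elements, so `dim S ≤ 3`
(Krull), and `dim S/g < dim S` for `g ≠ 0` in a domain. -/
theorem dim_quotient_le {S : Type u} [CommRing S] [IsDomain S] [IsLocalRing S]
    [IsNoetherianRing S] (s₁ s₂ s₃ : S) (hm : Ideal.span {s₁, s₂, s₃} = maximalIdeal S) (g : S)
    (hg : g ≠ 0) : ringKrullDim (S ⧸ Ideal.span {g}) ≤ 2 := by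
  classical
  have h1 := ringKrullDim_quotient_succ_le_of_nonZeroDivisor (mem_nonZeroDivisors_of_ne_zero hg)
  have h2 : ringKrullDim S ≤ 3 := by
    rw [← IsLocalRing.maximalIdeal_height_eq_ringKrullDim]
    have h3 : (maximalIdeal S).height ≤ 3 := by
      have h4 := Ideal.height_le_spanFinrank (maximalIdeal S) (Ideal.IsPrime.ne_top')
      have h5 : (Submodule.spanFinrank (maximalIdeal S) : ℕ∞) ≤ 3 := by
        rw [← hm]
        refine (Submodule.spanFinrank_span_le_encard _).trans ?_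
        have h6 : (({s₁, s₂, s₃} : Finset S) : Set S) = {s₁, s₂, s₃} := by simp
        rw [← h6, Set.encard_coe_eq_coe_finsetCard]
        have h7 : ({s₁, s₂, s₃} : Finset S).card ≤ 3 := Finset.card_le_three
        exact_mod_cast h7
      exact h4.trans h5
    have h3' : (((maximalIdeal S).height : ℕ∞) : WithBot ℕ∞) ≤ ((3 : ℕ∞) : WithBot ℕ∞) :=
      WithBot.coe_le_coe.2 h3
    exact h3'
  have h3 : ringKrullDim (S ⧸ Ideal.span {g}) + 1 ≤ 3 := h1.trans h2
  by_contra hcon
  rw [not_le] at hcon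
  generalize ringKrullDim (S ⧸ Ideal.span {g}) = d at h3 hcon
  induction d with
  | bot => exact absurd hcon (by simp)
  | coe d =>
    have h4 : (2 : ℕ∞) < d := by
      have : ((2 : ℕ∞) : WithBot ℕ∞) < ((d : ℕ∞) : WithBot ℕ∞) := hcon
      exact WithBot.coe_lt_coe.1 this
    have h5 : d + 1 ≤ (3 : ℕ∞) := by
      have : (((d + 1 : ℕ∞)) : WithBot ℕ∞) ≤ ((3 : ℕ∞) : WithBot ℕ∞) := h3
      exact WithBot.coe_le_coe.1 this
    have h6 : (3 : ℕ∞) ≤ d := by
      have := Order.add_one_le_of_lt h4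
      norm_num at this
      exact this
    have h7 : (3 : ℕ∞) + 1 ≤ 3 := (add_le_add_left h6 1).trans h5
    norm_num at h7

end Pool.Agent.H27.NT
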