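import Pool.Agent.H27.NT.ExplA

/-!
# The explicit Knoerrer splitting, maps (job NT-17)
-/

open IsLocalRing

namespace Pool.Agent.H27.NT

universe u

variable {Q : Type u} [CommRing Q] {m : ℕ} {f : Q} {Φ : Matrix (Fin m) (Fin m) (PowerSeries Q)}

theorem expl_cm_mul {ι κ μ : Type} [Fintype κ] (a : Matrix ι κ Q) (b : Matrix κ μ Q) :
    cm (a * b) = cm a * cm b := by
  rw [cm, cm, cm, Matrix.map_mul]

theorem expl_map_sub {ι κ : Type} (a b : Matrix ι κ (PowerSeries Q)) :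
    (a - b).map (PowerSeries.constantCoeff (R := Q)) =
      a.map (PowerSeries.constantCoeff (R := Q)) - b.map (PowerSeries.constantCoeff (R := Q)) := by
  ext i j
  simp

theorem expl_map_add {ι κ : Type} (a b : Matrix ι κ (PowerSeries Q)) :
    (a + b).map (PowerSeries.constantCoeff (R := Q)) =
      a.map (PowerSeries.constantCoeff (R := Q)) + b.map (PowerSeries.constantCoeff (R := Q)) := by
  ext i j
  simp

theorem expl_map_neg {ι κ : Type} (a : Matrix ι κ (PowerSeries Q)) :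
    (-a).map (PowerSeries.constantCoeff (R := Q)) = -a.map (PowerSeries.constantCoeff (R := Q)) := by
  ext i j
  simp

theorem expl_map_mul {ι κ μ : Type} [Fintype κ] (a : Matrix ι κ (PowerSeries Q))
    (b : Matrix κ μ (PowerSeries Q)) :
    (a * b).map (PowerSeries.constantCoeff (R := Q)) =
      a.map (PowerSeries.constantCoeff (R := Q)) * b.map (PowerSeries.constantCoeff (R := Q)) :=
  Matrix.map_mul

theorem expl_map_cm {ι κ : Type} (a : Matrix ι κ Q) :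
    (cm a).map (PowerSeries.constantCoeff (R := Q)) = a := by
  ext i j
  simp [cm]

theorem expl_map_Xsmul {ι κ : Type} (a : Matrix ι κ (PowerSeries Q)) :
    ((PowerSeries.X : PowerSeries Q) • a).map (PowerSeries.constantCoeff (R := Q)) = 0 := by
  ext i j
  simp

theorem expl_map_one {ι : Type} [DecidableEq ι] :
    (1 : Matrix ι ι (PowerSeries Q)).map (PowerSeries.constantCoeff (R := Q)) = 1 :=
  Matrix.map_one _ (map_zero _) (map_one _)

theorem expl_map_zero {ι κ : Type} :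
    (0 : Matrix ι κ (PowerSeries Q)).map (PowerSeries.constantCoeff (R := Q)) = 0 := by
  ext i j
  simp

theorem expl_mulVec_one_sub {ι κ : Type} [Fintype ι] [DecidableEq ι] [Fintype κ]
    (a : Matrix ι κ (PowerSeries Q)) (b : Matrix κ ι (PowerSeries Q)) (v : ι → PowerSeries Q) :
    (1 - a * b).mulVec v = v - a.mulVec (b.mulVec v) := by
  rw [Matrix.mulVec_mulVec, Matrix.sub_mulVec, Matrix.one_mulVec]

theorem expl_mulVec_aux {ι κ : Type} [Fintype ι] [Fintype κ]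
    (a : Matrix ι κ (PowerSeries Q)) (b : Matrix κ ι (PowerSeries Q)) (D N : Matrix ι ι (PowerSeries Q))
    (v : ι → PowerSeries Q) :
    a.mulVec (b.mulVec v) - D.mulVec v = (a * b - D - N).mulVec v + N.mulVec v := by
  rw [Matrix.mulVec_mulVec, Matrix.sub_mulVec, Matrix.sub_mulVec, sub_add_cancel]

theorem expl_null_comm {ι κ : Type} [Fintype ι] [DecidableEq ι] [Fintype κ] [DecidableEq κ]
    {Φ : Matrix ι ι (PowerSeries Q)} {Ψ : Matrix κ κ (PowerSeries Q)} (h : IsMF f Φ)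
    (h' : IsMF f Ψ) (θ : Matrix κ ι (PowerSeries Q)) :
    (θ * Φ + Ψ * θ - (PowerSeries.X : PowerSeries Q) • θ) * Φ =
      Ψ * (θ * Φ + Ψ * θ - (PowerSeries.X : PowerSeries Q) • θ) := by
  have e1 : θ * Φ * Φ = (PowerSeries.X : PowerSeries Q) • (θ * Φ) +
      (PowerSeries.C f : PowerSeries Q) • θ := by
    rw [Matrix.mul_assoc, h, Matrix.mul_add, Matrix.mul_smul, Matrix.mul_smul, Matrix.mul_one]
  have e2 : Ψ * (Ψ * θ) = (PowerSeries.X : PowerSeries Q) • (Ψ * θ) +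
      (PowerSeries.C f : PowerSeries Q) • θ := by
    rw [← Matrix.mul_assoc, h', Matrix.add_mul, Matrix.smul_mul, Matrix.smul_mul, Matrix.one_mul]
  rw [Matrix.sub_mul, Matrix.add_mul, Matrix.mul_sub, Matrix.mul_add, e1, e2, Matrix.smul_mul,
    Matrix.mul_smul, Matrix.mul_assoc]
  abel

theorem expl_fromBlocks_sub {l m' n o : Type} {α : Type u} [AddCommGroup α] (A A' : Matrix n l α)
    (B B' : Matrix n m' α) (C C' : Matrix o l α) (D D' : Matrix o m' α) :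
    Matrix.fromBlocks A B C D - Matrix.fromBlocks A' B' C' D' =
      Matrix.fromBlocks (A - A') (B - B') (C - C') (D - D') := by
  ext i j
  rcases i with i | i <;> rcases j with j | j <;> rfl

theorem expl_map_rm (Φ : Matrix (Fin m) (Fin m) (PowerSeries Q)) :
    (rm Φ).map (PowerSeries.constantCoeff (R := Q)) = cf 1 Φ := by
  ext i j
  simp only [rm, cf, Matrix.map_apply, ← PowerSeries.coeff_zero_eq_constantCoeff_apply,
    PowerSeries.coeff_mk]

/-- The map `α : v ↦ (R v, (1 - R) v)`. -/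
noncomputable def alM (Φ : Matrix (Fin m) (Fin m) (PowerSeries Q)) :
    Matrix (Fin m ⊕ Fin m) (Fin m) (PowerSeries Q) := Matrix.fromRows (rm Φ) (1 - rm Φ)

/-- The map `β : (a, b) ↦ R a + (1 - R) b`. -/
noncomputable def beM (Φ : Matrix (Fin m) (Fin m) (PowerSeries Q)) :
    Matrix (Fin m) (Fin m ⊕ Fin m) (PowerSeries Q) := Matrix.fromCols (rm Φ) (1 - rm Φ)

/-- (job NT-17) by (I) -/
theorem alM_comm [IsDomain Q] (h : IsMF f Φ) :
    alM Φ * Φ = HB (cf 0 Φ) (cf 0 Φ) * alM Φ := by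
  have h1 := rm_I h
  have h2 := rm_spec (Φ := Φ)
  have e1 : rm Φ * Φ = Φ - cm (cf 0 Φ) * rm Φ := eq_sub_of_add_eq' h1
  have e2 : (PowerSeries.X : PowerSeries Q) • rm Φ = Φ - cm (cf 0 Φ) := eq_sub_of_add_eq' h2.symm
  rw [alM, HB, Matrix.fromRows_mul, Matrix.fromBlocks_mul_fromRows]
  congr 1
  · rw [Matrix.smul_mul, Matrix.one_mul, e1, e2, Matrix.mul_sub, Matrix.mul_one]
    abel
  · rw [Matrix.sub_mul, Matrix.one_mul, e1, Matrix.zero_mul, add_zero]
    abel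

/-- (job NT-17) by (II) -/
theorem beM_comm [IsDomain Q] (h : IsMF f Φ) :
    beM Φ * HB (cf 0 Φ) (cf 0 Φ) = Φ * beM Φ := by
  have h1 := rm_II h
  have h2 := rm_spec (Φ := Φ)
  have e1 : Φ * rm Φ = Φ - rm Φ * cm (cf 0 Φ) := eq_sub_of_add_eq h1
  have e2 : (PowerSeries.X : PowerSeries Q) • rm Φ = Φ - cm (cf 0 Φ) := eq_sub_of_add_eq' h2.symm
  rw [beM, HB, Matrix.mul_fromCols, Matrix.fromCols_mul_fromBlocks]
  congr 1
  · rw [Matrix.mul_smul, Matrix.mul_one, e1, e2, Matrix.sub_mul, Matrix.one_mul]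
    abel
  · rw [Matrix.mul_sub, Matrix.mul_one, e1, Matrix.mul_zero, add_zero]
    abel

/-- (job NT-17) `β α = R² + (1 - R)² = 1 - 2 (R - R²)`; use `rm_kappa` and
`MFM.stNull_of_eq`. -/
theorem stNull_one_sub_beal [IsDomain Q] (h : IsMF f Φ)
    (h' : IsMF f (HB (cf 0 Φ) (cf 0 Φ))) :
    StNull (LinearMap.id - MFM.hom h' h (beM Φ) (beM_comm h) ∘ₗ MFM.hom h h' (alM Φ) (alM_comm h)) := by
  obtain ⟨U, hU⟩ := rm_kappa h
  have e1 : beM Φ * alM Φ = rm Φ * rm Φ + (1 - rm Φ) * (1 - rm Φ) := by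
    rw [beM, alM, Matrix.fromCols_mul_fromRows]
  have e2 : 1 - beM Φ * alM Φ = (rm Φ - rm Φ * rm Φ) + (rm Φ - rm Φ * rm Φ) := by
    rw [e1, Matrix.sub_mul, Matrix.mul_sub, Matrix.mul_sub]
    simp only [Matrix.one_mul, Matrix.mul_one]
    abel
  have hθ : 1 - beM Φ * alM Φ = (U + U) * Φ + Φ * (U + U) - (PowerSeries.X : PowerSeries Q) • (U + U) := by
    rw [e2, hU, Matrix.add_mul, Matrix.mul_add, smul_add]
    abel
  have hc : (1 - beM Φ * alM Φ) * Φ = Φ * (1 - beM Φ * alM Φ) := by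
    rw [Matrix.sub_mul, Matrix.mul_sub, Matrix.one_mul, Matrix.mul_one, Matrix.mul_assoc, alM_comm h,
      ← Matrix.mul_assoc, beM_comm h, Matrix.mul_assoc]
  have h3 := MFM.stNull_of_eq h h (1 - beM Φ * alM Φ) hc (U + U) hθ
  have e3 : (LinearMap.id - MFM.hom h' h (beM Φ) (beM_comm h) ∘ₗ MFM.hom h h' (alM Φ) (alM_comm h)) =
      MFM.hom h h (1 - beM Φ * alM Φ) hc := by
    apply LinearMap.ext
    intro v
    refine Eq.trans ?_ (expl_mulVec_one_sub (beM Φ) (alM Φ) v).symm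
    rfl
  rw [e3]
  exact h3

/-- (job NT-17) `diag(Φ₁, 1 - Φ₁)` commutes with `HB Φ₀ Φ₀`. -/
theorem diag_comm (h : IsMF f Φ) :
    Matrix.fromBlocks (cm (cf 1 Φ)) 0 0 (cm (1 - cf 1 Φ)) * HB (cf 0 Φ) (cf 0 Φ) =
      HB (cf 0 Φ) (cf 0 Φ) * Matrix.fromBlocks (cm (cf 1 Φ)) 0 0 (cm (1 - cf 1 Φ)) := by
  have h1 := cf_one h
  have e1 : cf 1 Φ * cf 0 Φ = cf 0 Φ * (1 - cf 1 Φ) := by
    rw [Matrix.mul_sub, Matrix.mul_one]
    exact eq_sub_of_add_eq' h1
  have e2 : (1 - cf 1 Φ) * cf 0 Φ = cf 0 Φ * cf 1 Φ := by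
    rw [Matrix.sub_mul, Matrix.one_mul]
    exact (eq_sub_of_add_eq h1).symm
  rw [HB, Matrix.fromBlocks_multiply, Matrix.fromBlocks_multiply]
  simp only [Matrix.mul_smul, Matrix.smul_mul, Matrix.mul_one, Matrix.one_mul, Matrix.mul_zero,
    Matrix.zero_mul, add_zero, zero_add, ← expl_cm_mul, e1, e2, smul_zero]

/-- (job NT-17) `α β - diag(Φ₁, 1 - Φ₁)` factors through a free module. Its entries are
`(R² - Φ₁, κ; κ, Φ₁ - 2R + R²)` with `κ = R - R²`; at `w = 0` this is `κ₀ (-1, 1; 1, -1)` with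
`κ₀ = Φ₁ - Φ₁² = Φ₀ Φ₂ + Φ₂ Φ₀`. Subtract `θ H + H θ - w θ` with the constant matrix
`θ = (Φ₂, -Φ₂; -Φ₂, Φ₂)`; the difference vanishes at `w = 0`; use `stNull_HB_of_X_dvd`. -/
theorem stNull_albe_sub_diag [IsDomain Q] (h : IsMF f Φ) (h' : IsMF f (HB (cf 0 Φ) (cf 0 Φ))) :
    StNull (MFM.hom h h' (alM Φ) (alM_comm h) ∘ₗ MFM.hom h' h (beM Φ) (beM_comm h) -
      MFM.hom h' h' (Matrix.fromBlocks (cm (cf 1 Φ)) 0 0 (cm (1 - cf 1 Φ))) (diag_comm h)) := by
  set D : Matrix (Fin m ⊕ Fin m) (Fin m ⊕ Fin m) (PowerSeries Q) :=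
    Matrix.fromBlocks (cm (cf 1 Φ)) 0 0 (cm (1 - cf 1 Φ)) with hD
  set H := HB (cf 0 Φ) (cf 0 Φ) with hH
  set θ : Matrix (Fin m ⊕ Fin m) (Fin m ⊕ Fin m) (PowerSeries Q) :=
    Matrix.fromBlocks (cm (cf 2 Φ)) (-cm (cf 2 Φ)) (-cm (cf 2 Φ)) (cm (cf 2 Φ)) with hθ
  set N := θ * H + H * θ - (PowerSeries.X : PowerSeries Q) • θ with hN
  have hNc : N * H = H * N := expl_null_comm h' h' θ
  have hac : (alM Φ * beM Φ) * H = H * (alM Φ * beM Φ) := by
    rw [Matrix.mul_assoc, hH, beM_comm h, ← Matrix.mul_assoc, alM_comm h, Matrix.mul_assoc]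
  have hbc : (alM Φ * beM Φ - D - N) * H = H * (alM Φ * beM Φ - D - N) := by
    rw [Matrix.sub_mul, Matrix.sub_mul, Matrix.mul_sub, Matrix.mul_sub, hac, hNc, diag_comm h]
  have h0 : ∀ i j, PowerSeries.constantCoeff ((alM Φ * beM Φ - D - N) i j) = 0 := by
    have e1 : alM Φ * beM Φ = Matrix.fromBlocks (rm Φ * rm Φ) (rm Φ * (1 - rm Φ))
        ((1 - rm Φ) * rm Φ) ((1 - rm Φ) * (1 - rm Φ)) := by
      rw [beM, alM, Matrix.fromRows_mul_fromCols]
    have k := cf_two h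
    have k0 : cf 1 Φ * cf 1 Φ = cf 1 Φ - cf 0 Φ * cf 2 Φ - cf 2 Φ * cf 0 Φ := by
      have : cf 1 Φ * cf 1 Φ = (cf 0 Φ * cf 2 Φ + cf 1 Φ * cf 1 Φ + cf 2 Φ * cf 0 Φ) -
        cf 0 Φ * cf 2 Φ - cf 2 Φ * cf 0 Φ := by abel
      rw [this, k]
    have e2 : (alM Φ * beM Φ - D - N).map (PowerSeries.constantCoeff (R := Q)) = 0 := by
      rw [hN, e1, hD, hH, hθ, HB, Matrix.fromBlocks_multiply, Matrix.fromBlocks_multiply,
        Matrix.fromBlocks_smul, Matrix.fromBlocks_add, expl_fromBlocks_sub, expl_fromBlocks_sub,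
        expl_fromBlocks_sub, Matrix.fromBlocks_map]
      simp only [expl_map_sub, expl_map_add, expl_map_mul, expl_map_neg, expl_map_cm, expl_map_rm,
        expl_map_Xsmul, expl_map_one, expl_map_zero]
      rw [← Matrix.fromBlocks_zero]
      congr 1
      · simp only [Matrix.mul_zero, Matrix.zero_mul, Matrix.neg_mul, Matrix.mul_neg, k0]
        abel
      · simp only [Matrix.mul_zero, Matrix.zero_mul, Matrix.neg_mul, Matrix.mul_neg, Matrix.mul_sub,
          Matrix.mul_one, k0]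
        abel
      · simp only [Matrix.mul_zero, Matrix.zero_mul, Matrix.neg_mul, Matrix.mul_neg, Matrix.sub_mul,
          Matrix.one_mul, k0]
        abel
      · simp only [Matrix.mul_zero, Matrix.zero_mul, Matrix.neg_mul, Matrix.mul_neg, Matrix.sub_mul,
          Matrix.mul_sub, Matrix.mul_one, Matrix.one_mul, k0]
        abel
    intro i j
    exact congrFun (congrFun e2 i) j
  have s1 := stNull_HB_of_X_dvd h' (alM Φ * beM Φ - D - N) hbc h0
  have s2 := MFM.stNull_of_eq h' h' N hNc θ hN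
  have e3 : (MFM.hom h h' (alM Φ) (alM_comm h) ∘ₗ MFM.hom h' h (beM Φ) (beM_comm h) -
      MFM.hom h' h' D (diag_comm h)) = MFM.hom h' h' (alM Φ * beM Φ - D - N) hbc +
        MFM.hom h' h' N hNc := by
    apply LinearMap.ext
    intro v
    exact expl_mulVec_aux (alM Φ) (beM Φ) D N v
  rw [e3]
  exact s1.add s2

end Pool.Agent.H27.NT
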