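import Pool.Agent.H27.NT.HB

/-!
# The explicit Knoerrer splitting (job NT-16)

`Φ² = w Φ + f` over `P = Q⟦w⟧`, `Q` a domain. Write `Φ = Φ₀ + w Φ₁ + w² Φ₂ + ...` and
`R = (Φ - Φ₀)/w`. Comparing coefficients:
`Φ₀² = f`, `Φ₀ Φ₁ + Φ₁ Φ₀ = Φ₀`, `Φ₀ Φ₂ + Φ₁² + Φ₂ Φ₀ = Φ₁`.
From `(Φ₀ + w R)² = w (Φ₀ + w R) + f`: `Φ₀ R + R Φ = Φ` (I) and `Φ R + R Φ₀ = Φ` (II).
-/

open IsLocalRing

namespace Pool.Agent.H27.NT

universe u

variable {Q : Type u} [CommRing Q] {m : ℕ}

/-- The `n`-th coefficient matrix. -/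
noncomputable def cf (n : ℕ) (Φ : Matrix (Fin m) (Fin m) (PowerSeries Q)) :
    Matrix (Fin m) (Fin m) Q := Φ.map (PowerSeries.coeff (R := Q) n)

variable {f : Q} {Φ : Matrix (Fin m) (Fin m) (PowerSeries Q)}

private theorem cf_mul (n : ℕ) (Φ Ψ : Matrix (Fin m) (Fin m) (PowerSeries Q)) :
    cf n (Φ * Ψ) = ∑ p ∈ Finset.HasAntidiagonal.antidiagonal n, cf p.1 Φ * cf p.2 Ψ := by
  ext i j : 1
  simp only [cf, Matrix.map_apply, Matrix.mul_apply, map_sum, PowerSeries.coeff_mul,
    Matrix.sum_apply]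
  exact Finset.sum_comm

private theorem cf_rhs_zero (h : IsMF f Φ) : cf 0 (Φ * Φ) = f • 1 := by
  have h' : Φ * Φ = (PowerSeries.X : PowerSeries Q) • Φ + (PowerSeries.C f : PowerSeries Q) • 1 := h
  rw [h']
  ext i j : 1
  by_cases hij : i = j
  · subst hij
    simp [cf]
  · simp [cf, Matrix.one_apply_ne hij]

private theorem cf_rhs_succ (h : IsMF f Φ) (n : ℕ) : cf (n + 1) (Φ * Φ) = cf n Φ := by
  have h' : Φ * Φ = (PowerSeries.X : PowerSeries Q) • Φ + (PowerSeries.C f : PowerSeries Q) • 1 := h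
  rw [h']
  ext i j : 1
  by_cases hij : i = j
  · subst hij
    simp [cf, PowerSeries.coeff_succ_X_mul]
  · simp [cf, Matrix.one_apply_ne hij, PowerSeries.coeff_succ_X_mul]

/-- (job NT-16) -/
theorem cf_zero (h : IsMF f Φ) : cf 0 Φ * cf 0 Φ = f • 1 := by
  have h1 := cf_rhs_zero h
  rw [cf_mul] at h1
  simpa using h1

/-- (job NT-16) -/
theorem cf_one (h : IsMF f Φ) : cf 0 Φ * cf 1 Φ + cf 1 Φ * cf 0 Φ = cf 0 Φ := by
  have h1 := cf_rhs_succ h 0
  rw [cf_mul, Finset.Nat.sum_antidiagonal_eq_sum_range_succ_mk] at h1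
  simpa [Finset.sum_range_succ] using h1

/-- (job NT-16) -/
theorem cf_two (h : IsMF f Φ) :
    cf 0 Φ * cf 2 Φ + cf 1 Φ * cf 1 Φ + cf 2 Φ * cf 0 Φ = cf 1 Φ := by
  have h1 := cf_rhs_succ h 1
  rw [cf_mul, Finset.Nat.sum_antidiagonal_eq_sum_range_succ_mk] at h1
  simpa [Finset.sum_range_succ] using h1

/-- The matrix `R = (Φ - Φ₀)/w`. -/
noncomputable def rm (Φ : Matrix (Fin m) (Fin m) (PowerSeries Q)) :
    Matrix (Fin m) (Fin m) (PowerSeries Q) :=
  Φ.map fun a => PowerSeries.mk fun n => PowerSeries.coeff (n + 1) a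

/-- (job NT-16) -/
theorem rm_spec : Φ = cm (cf 0 Φ) + (PowerSeries.X : PowerSeries Q) • rm Φ := by
  ext i j : 1
  have h := PowerSeries.eq_X_mul_shift_add_const (Φ i j)
  simp only [cm, cf, rm, Matrix.add_apply, Matrix.map_apply, Matrix.smul_apply, smul_eq_mul]
  rw [add_comm, PowerSeries.coeff_zero_eq_constantCoeff]
  exact h

private theorem cancelX [IsDomain Q] {A A' : Matrix (Fin m) (Fin m) (PowerSeries Q)}
    (h : (PowerSeries.X : PowerSeries Q) • A = (PowerSeries.X : PowerSeries Q) • A') : A = A' := by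
  ext i j : 1
  have h2 := congrFun (congrFun h i) j
  exact mul_left_cancel₀ PowerSeries.X_ne_zero h2

private theorem cm_sq (h : IsMF f Φ) : cm (cf 0 Φ) * cm (cf 0 Φ) =
    (PowerSeries.C f : PowerSeries Q) • 1 := by
  have h1 : cm (cf 0 Φ) * cm (cf 0 Φ) = cm (cf 0 Φ * cf 0 Φ) := by
    unfold cm
    rw [Matrix.map_mul]
  rw [h1, cf_zero h]
  ext i j : 1
  by_cases hij : i = j
  · subst hij
    simp [cm]
  · simp [cm, Matrix.one_apply_ne hij]

/-- (job NT-16) identity (I); cancel `w` in the domain `Q⟦w⟧` (or compare coefficients). -/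
theorem rm_I [IsDomain Q] (h : IsMF f Φ) : cm (cf 0 Φ) * rm Φ + rm Φ * Φ = Φ := by
  apply cancelX
  have h' : Φ * Φ = (PowerSeries.X : PowerSeries Q) • Φ + (PowerSeries.C f : PowerSeries Q) • 1 := h
  have hs := rm_spec (Φ := Φ)
  have h0 := cm_sq h
  generalize cm (cf 0 Φ) = P at *
  generalize rm Φ = R at *
  have e1 : Φ * Φ = P * P + (PowerSeries.X : PowerSeries Q) • (P * R) +
      (PowerSeries.X : PowerSeries Q) • (R * Φ) := by
    have e2 : Φ * Φ = (P + (PowerSeries.X : PowerSeries Q) • R) * Φ := by rw [← hs]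
    have e3 : P * Φ = P * (P + (PowerSeries.X : PowerSeries Q) • R) := by rw [← hs]
    rw [e2, Matrix.add_mul, e3, Matrix.mul_add, Matrix.mul_smul, Matrix.smul_mul]
  rw [e1, h0] at h'
  rw [smul_add]
  have := h'
  rw [add_assoc, add_comm, add_right_cancel_iff] at this
  exact this

/-- (job NT-16) identity (II) -/
theorem rm_II [IsDomain Q] (h : IsMF f Φ) : Φ * rm Φ + rm Φ * cm (cf 0 Φ) = Φ := by
  apply cancelX
  have h' : Φ * Φ = (PowerSeries.X : PowerSeries Q) • Φ + (PowerSeries.C f : PowerSeries Q) • 1 := h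
  have hs := rm_spec (Φ := Φ)
  have h0 := cm_sq h
  generalize cm (cf 0 Φ) = P at *
  generalize rm Φ = R at *
  have e1 : Φ * Φ = P * P + (PowerSeries.X : PowerSeries Q) • (R * P) +
      (PowerSeries.X : PowerSeries Q) • (Φ * R) := by
    have e2 : Φ * Φ = Φ * (P + (PowerSeries.X : PowerSeries Q) • R) := by rw [← hs]
    have e3 : Φ * P = (P + (PowerSeries.X : PowerSeries Q) • R) * P := by rw [← hs]
    rw [e2, Matrix.mul_add, e3, Matrix.add_mul, Matrix.mul_smul, Matrix.smul_mul]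
  rw [e1, h0] at h'
  rw [smul_add, add_comm ((PowerSeries.X : PowerSeries Q) • (Φ * R))]
  have := h'
  rw [add_assoc, add_comm, add_right_cancel_iff] at this
  exact this

/-- (job NT-16) `R - R² = U Φ + Φ U - w U` with `U = (Φ' - R)/w`, `Φ'` the derivative of `Φ` with
respect to `w`: differentiate `Φ² = w Φ + f` to get `Φ' Φ + Φ Φ' - w Φ' = Φ`, subtract
`R Φ + Φ R - w R² = Φ` (from (I), `Φ₀ = Φ - w R`), and cancel `w` (`Φ'` and `R` have the same
constant term `Φ₁`). -/
theorem rm_kappa [IsDomain Q] (h : IsMF f Φ) : ∃ U : Matrix (Fin m) (Fin m) (PowerSeries Q),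
    rm Φ - rm Φ * rm Φ = U * Φ + Φ * U - (PowerSeries.X : PowerSeries Q) • U := by
  have h' : Φ * Φ = (PowerSeries.X : PowerSeries Q) • Φ + (PowerSeries.C f : PowerSeries Q) • 1 := h
  let D : Matrix (Fin m) (Fin m) (PowerSeries Q) := Φ.map (PowerSeries.derivative Q)
  have hD : D * Φ + Φ * D = Φ + (PowerSeries.X : PowerSeries Q) • D := by
    ext i j : 1
    have e := congrArg (PowerSeries.derivative Q) (congrFun (congrFun h' i) j)
    simp only [Matrix.mul_apply, map_sum, Derivation.leibniz, Matrix.add_apply, Matrix.smul_apply,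
      smul_eq_mul, map_add, PowerSeries.derivative_X, PowerSeries.derivative_C, mul_one] at e
    have e1 : ∀ c : PowerSeries Q, (c = 1 ∨ c = 0) → PowerSeries.derivative Q c = 0 := by
      rintro c (rfl | rfl) <;> simp
    have e2 : PowerSeries.derivative Q ((1 : Matrix (Fin m) (Fin m) (PowerSeries Q)) i j) = 0 := by
      apply e1
      by_cases hij : i = j
      · subst hij; simp
      · simp [Matrix.one_apply_ne hij]
    rw [e2] at e
    simp only [Matrix.add_apply, Matrix.mul_apply, Matrix.smul_apply, smul_eq_mul, D,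
      Matrix.map_apply]
    rw [Finset.sum_add_distrib] at e
    have e3 : ∑ k, Φ k j * (PowerSeries.derivative Q) (Φ i k) =
        ∑ k, (PowerSeries.derivative Q) (Φ i k) * Φ k j :=
      Finset.sum_congr rfl fun k _ => mul_comm _ _
    rw [e3] at e
    rw [add_comm (∑ k, (PowerSeries.derivative Q) (Φ i k) * Φ k j), e]
    ring
  have hI := rm_I h
  have hs := rm_spec (Φ := Φ)
  -- `D - R` is divisible by `w`
  have hdiv : ∀ i j, ∃ c, D i j - rm Φ i j = PowerSeries.X * c := fun i j => by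
    have : (PowerSeries.X : PowerSeries Q) ∣ D i j - rm Φ i j := by
      rw [PowerSeries.X_dvd_iff, map_sub, sub_eq_zero, ← PowerSeries.coeff_zero_eq_constantCoeff]
      simp [D, rm, PowerSeries.coeff_derivative, Matrix.map_apply]
    exact this
  choose U hU using hdiv
  have hDU : D = rm Φ + (PowerSeries.X : PowerSeries Q) • (Matrix.of U) := by
    ext i j : 1
    have := hU i j
    simp only [Matrix.add_apply, Matrix.smul_apply, smul_eq_mul, Matrix.of_apply]
    rw [← this]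
    ring
  refine ⟨Matrix.of U, ?_⟩
  apply cancelX
  generalize Matrix.of U = V at *
  generalize rm Φ = R at *
  have hP : cm (cf 0 Φ) = Φ - (PowerSeries.X : PowerSeries Q) • R := by
    rw [eq_sub_iff_add_eq]; exact hs.symm
  rw [hP, Matrix.sub_mul, Matrix.smul_mul] at hI
  rw [hDU, Matrix.add_mul, Matrix.mul_add, Matrix.smul_mul, Matrix.mul_smul, smul_add] at hD
  rw [smul_sub, smul_sub, smul_add]
  generalize (PowerSeries.X : PowerSeries Q) • R = XR at *
  generalize (PowerSeries.X : PowerSeries Q) • (R * R) = XRR at *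
  generalize (PowerSeries.X : PowerSeries Q) • (V * Φ) = XVP at *
  generalize (PowerSeries.X : PowerSeries Q) • (Φ * V) = XPV at *
  generalize (PowerSeries.X : PowerSeries Q) • ((PowerSeries.X : PowerSeries Q) • V) = XXV at *
  generalize Φ * R = b at *
  generalize R * Φ = a at *
  have e1 : (XR - XRR) - (XVP + XPV - XXV) =
      -((a + XVP + (b + XPV)) - ((b - XRR + a) + (XR + XXV))) := by abel
  rw [hI, hD, sub_self, neg_zero] at e1
  exact sub_eq_zero.mp e1

end Pool.Agent.H27.NT
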