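import Pool.Agent.H27.NT.ChiB

/-!
# The Grothendieck group modulo numerical equivalence (job NT-30)
-/

open IsLocalRing TensorProduct

namespace Pool.Agent.H27.NT

universe u

/-- Finitely generated `A`-modules, up to isomorphism: quotients of `A^n`. -/
structure Fg (A : Type u) [CommRing A] where
  /-- number of generators -/
  n : ℕ
  /-- the relations -/
  N : Submodule A (Fin n → A)

/-- The module `A^n/N`. -/
abbrev Fg.mod {A : Type u} [CommRing A] (X : Fg A) : Type u := (Fin X.n → A) ⧸ X.N

/-- The relations `[Y] - [X] - [Z]` for short exact sequences `0 → X → Y → Z → 0`. -/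
def rels (A : Type u) [CommRing A] : Set (FreeAbelianGroup (Fg A)) :=
  {x | ∃ (X Y Z : Fg A) (f : X.mod →ₗ[A] Y.mod) (g : Y.mod →ₗ[A] Z.mod),
    Function.Injective f ∧ Function.Surjective g ∧ Function.Exact f g ∧
      x = FreeAbelianGroup.of Y - FreeAbelianGroup.of X - FreeAbelianGroup.of Z}

/-- The Grothendieck group of finitely generated modules. -/
abbrev G0 (A : Type u) [CommRing A] : Type u :=
  FreeAbelianGroup (Fg A) ⧸ AddSubgroup.closure (rels A)

/-- The class of a module. -/
def G0.mk {A : Type u} [CommRing A] (X : Fg A) : G0 A :=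
  QuotientAddGroup.mk (FreeAbelianGroup.of X)

/-- The homomorphism `χ_F` on the Grothendieck group. -/
noncomputable def chiHom {A : Type u} [CommRing A] [IsLocalRing A] [IsNoetherianRing A]
    (F : Cx A) (hF : F.HFin) : G0 A →+ ℤ :=
  QuotientAddGroup.lift _ (FreeAbelianGroup.lift fun X : Fg A => F.chi X.mod) (by
    rw [AddSubgroup.closure_le]
    rintro x ⟨X, Y, Z, f, g, hf, hg, h, rfl⟩
    have := chi_add F hF f g hf hg h
    simp only [SetLike.mem_coe, AddMonoidHom.mem_ker, map_sub, FreeAbelianGroup.lift_apply_of]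
    rw [this]
    ring)

/-- The classes that are numerically equivalent to zero. -/
noncomputable def NumZero (A : Type u) [CommRing A] [IsLocalRing A] [IsNoetherianRing A] :
    AddSubgroup (G0 A) where
  carrier := {α | ∀ (F : Cx A) (hF : F.HFin), chiHom F hF α = 0}
  zero_mem' F hF := map_zero _
  add_mem' {a b} ha hb F hF := by rw [map_add, ha F hF, hb F hF, add_zero]
  neg_mem' {a} ha F hF := by rw [map_neg, ha F hF, neg_zero]

/-- The Grothendieck group modulo numerical equivalence. -/
abbrev Gbar (A : Type u) [CommRing A] [IsLocalRing A] [IsNoetherianRing A] : Type u :=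
  G0 A ⧸ NumZero A

/-- The class of `A`. -/
noncomputable def clsA (A : Type u) [CommRing A] [IsLocalRing A] [IsNoetherianRing A] : Gbar A :=
  QuotientAddGroup.mk (G0.mk ⟨1, ⊥⟩)

theorem g0_chi_punit {A : Type u} [CommRing A] [IsLocalRing A] [IsNoetherianRing A] (F : Cx A) (hF : F.HFin) :
    F.chi PUnit.{u + 1} = 0 := by
  have h := chi_add F hF (M := PUnit.{u + 1}) (N := PUnit.{u + 1}) (K := PUnit.{u + 1})
    LinearMap.id LinearMap.id (fun _ _ _ => Subsingleton.elim _ _) (fun x => ⟨x, Subsingleton.elim _ _⟩)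
    (fun x => ⟨fun _ => ⟨x, rfl⟩, fun _ => Subsingleton.elim _ _⟩)
  linarith

theorem g0_chi_congr {A : Type u} [CommRing A] [IsLocalRing A] [IsNoetherianRing A] (F : Cx A) (hF : F.HFin)
    {M N : Type u} [AddCommGroup M] [Module A M] [AddCommGroup N] [Module A N] [Module.Finite A M]
    (e : M ≃ₗ[A] N) : F.chi M = F.chi N := by
  have h := chi_add F hF (M := PUnit.{u + 1}) (N := M) (K := N) 0 e.toLinearMap
    (fun _ _ _ => Subsingleton.elim _ _) e.surjective (by
      intro x
      constructor
      · intro hx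
        refine ⟨PUnit.unit, ?_⟩
        have : x = 0 := e.injective (by rw [map_zero]; exact hx)
        rw [this]
        rfl
      · rintro ⟨y, rfl⟩
        simp)
  rw [g0_chi_punit F hF] at h
  linarith

theorem g0_chiHom_mk {A : Type u} [CommRing A] [IsLocalRing A] [IsNoetherianRing A] (F : Cx A) (hF : F.HFin)
    (X : Fg A) : chiHom F hF (G0.mk X) = F.chi X.mod := by
  unfold chiHom G0.mk
  rw [QuotientAddGroup.lift_mk, FreeAbelianGroup.lift_apply_of]

theorem g0_chi_one {A : Type u} [CommRing A] [IsLocalRing A] [IsNoetherianRing A] (F : Cx A) (hF : F.HFin) :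
    F.chi (Fg.mod (⟨1, ⊥⟩ : Fg A)) = F.chi A := by
  have e : A ≃ₗ[A] Fg.mod (⟨1, ⊥⟩ : Fg A) :=
    (LinearEquiv.funUnique (Fin 1) A A).symm.trans (Submodule.quotEquivOfEqBot ⊥ rfl).symm
  exact (g0_chi_congr F hF e).symm

theorem g0_ind {A : Type u} [CommRing A] {p : G0 A → Prop} (h0 : p 0) (hmk : ∀ X, p (G0.mk X))
    (hneg : ∀ x, p x → p (-x)) (hadd : ∀ x y, p x → p y → p (x + y)) (x : G0 A) : p x := by
  induction x using QuotientAddGroup.induction_on with
  | H z =>
    induction z using FreeAbelianGroup.induction_on with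
    | zero => exact h0
    | of X => exact hmk X
    | neg X h => exact hneg _ (hmk X)
    | add x y hx hy => exact hadd _ _ hx hy

/-- (job NT-30) Proof. If `χ_F(A) = 0` for all `F` then all `χ_F` vanish and `Gbar = 0`. Otherwise
fix `F₀` with `a = χ_{F₀}(A) ≠ 0`; for every `α` the class `a α - χ_{F₀}(α) [A]` is numerically
zero (it suffices to check generators `α = [M]`), so in `ℚ ⊗ Gbar` `α` is a multiple of `[A]`. -/
theorem span_eq_top {A : Type u} [CommRing A] [IsLocalRing A] [IsNoetherianRing A]
    (h1 : ∀ F : Cx A, F.HFin → F.chi A = 0 → ∀ (M : Type u) [AddCommGroup M] [Module A M]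
      [Module.Finite A M], F.chi M = 0)
    (h2 : ∀ F₀ F : Cx A, F₀.HFin → F.HFin → ∀ (M : Type u) [AddCommGroup M] [Module A M]
      [Module.Finite A M], F₀.chi A * F.chi M = F.chi A * F₀.chi M) :
    Submodule.span ℚ {(1 : ℚ) ⊗ₜ[ℤ] clsA A} = (⊤ : Submodule ℚ (ℚ ⊗[ℤ] Gbar A)) := by
  rw [eq_top_iff]
  rintro t -
  by_cases hall : ∀ F : Cx A, F.HFin → F.chi A = 0
  · have hz : ∀ x : G0 A, x ∈ NumZero A := by
      intro x F hF
      refine g0_ind (p := fun x => chiHom F hF x = 0) (map_zero _) ?_ ?_ ?_ x
      · intro X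
        rw [g0_chiHom_mk]
        exact h1 F hF (hall F hF) _
      · intro x hx
        rw [map_neg, hx, neg_zero]
      · intro x y hx hy
        rw [map_add, hx, hy, add_zero]
    have hsub : ∀ x : Gbar A, x = 0 := by
      intro x
      induction x using QuotientAddGroup.induction_on with
      | H z => exact (QuotientAddGroup.eq_zero_iff z).2 (hz z)
    induction t using TensorProduct.induction_on with
    | zero => exact Submodule.zero_mem _
    | tmul q x =>
      rw [hsub x, TensorProduct.tmul_zero]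
      exact Submodule.zero_mem _
    | add x y hx hy => exact Submodule.add_mem _ hx hy
  · push Not at hall
    obtain ⟨F₀, hF₀, ha⟩ := hall
    have hkey : ∀ x : G0 A, (F₀.chi A) • x - (chiHom F₀ hF₀ x) • G0.mk (⟨1, ⊥⟩ : Fg A) ∈ NumZero A := by
      intro x F hF
      rw [map_sub, map_zsmul, map_zsmul, g0_chiHom_mk, g0_chi_one F hF, smul_eq_mul, smul_eq_mul, sub_eq_zero]
      refine g0_ind (p := fun x => F₀.chi A * chiHom F hF x = chiHom F₀ hF₀ x * F.chi A) ?_ ?_ ?_ ?_ x
      · simp
      · intro X
        rw [g0_chiHom_mk, g0_chiHom_mk, h2 F₀ F hF₀ hF, mul_comm]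
      · intro x hx
        rw [map_neg, map_neg, mul_neg, hx, neg_mul]
      · intro x y hx hy
        rw [map_add, map_add, mul_add, hx, hy, add_mul]
    induction t using TensorProduct.induction_on with
    | zero => exact Submodule.zero_mem _
    | add x y hx hy => exact Submodule.add_mem _ hx hy
    | tmul q x =>
      induction x using QuotientAddGroup.induction_on with
      | H z =>
        have h3 : (F₀.chi A) • (QuotientAddGroup.mk z : Gbar A) = (chiHom F₀ hF₀ z) • clsA A := by
          have := (QuotientAddGroup.eq_zero_iff (N := NumZero A) _).2 (hkey z)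
          rw [QuotientAddGroup.mk_sub, sub_eq_zero] at this
          exact this
        have ha' : ((F₀.chi A : ℤ) : ℚ) ≠ 0 := by exact_mod_cast ha
        have h4 : q ⊗ₜ[ℤ] (QuotientAddGroup.mk z : Gbar A) =
            (q * ((F₀.chi A : ℤ) : ℚ)⁻¹ * (chiHom F₀ hF₀ z : ℤ)) • ((1 : ℚ) ⊗ₜ[ℤ] clsA A) := by
          have e1 : q = (F₀.chi A) • (q * ((F₀.chi A : ℤ) : ℚ)⁻¹) := by
            rw [zsmul_eq_mul]
            field_simp
          rw [TensorProduct.smul_tmul', smul_eq_mul, mul_one]
          conv_lhs => rw [e1]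
          rw [TensorProduct.smul_tmul, h3, ← TensorProduct.smul_tmul, zsmul_eq_mul, mul_comm]
        rw [h4]
        exact Submodule.smul_mem _ _ (Submodule.mem_span_singleton_self _)

end Pool.Agent.H27.NT
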