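import Pool.Agent.H27.NT.MF

/-!
# The block matrices (job NT-15)
-/

open IsLocalRing

namespace Pool.Agent.H27.NT

universe u

variable {Q : Type u} [CommRing Q]

section blocks

variable {ι κ : Type} [Fintype ι] [DecidableEq ι] [Fintype κ] [DecidableEq κ]

/-- Constant matrices. -/
noncomputable def cm {ι κ : Type} (φ : Matrix ι κ Q) : Matrix ι κ (PowerSeries Q) :=
  φ.map (PowerSeries.C (R := Q))

/-- The block matrix `[[w, φ], [ψ, 0]]`. -/
noncomputable def HB (φ : Matrix ι κ Q) (ψ : Matrix κ ι Q) :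
    Matrix (ι ⊕ κ) (ι ⊕ κ) (PowerSeries Q) :=
  Matrix.fromBlocks ((PowerSeries.X : PowerSeries Q) • 1) (cm φ) (cm ψ) 0

private theorem hb_cm_mul {ι κ μ : Type} [Fintype κ] (φ : Matrix ι κ Q) (ψ : Matrix κ μ Q) :
    cm φ * cm ψ = cm (φ * ψ) := by
  unfold cm
  rw [Matrix.map_mul]

private theorem hb_cm_smul_one {ι : Type} [DecidableEq ι] (f : Q) :
    cm ((f • 1 : Matrix ι ι Q)) = (PowerSeries.C f : PowerSeries Q) • 1 := by
  ext i j : 1
  by_cases h : i = j
  · subst h
    simp [cm]
  · simp [cm, Matrix.one_apply_ne h]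

/-- (job NT-15) -/
theorem isMF_HB {f : Q} {φ : Matrix ι κ Q} {ψ : Matrix κ ι Q} (h1 : φ * ψ = f • 1)
    (h2 : ψ * φ = f • 1) : IsMF f (HB φ ψ) := by
  have e1 : cm φ * cm ψ = (PowerSeries.C f : PowerSeries Q) • (1 : Matrix ι ι (PowerSeries Q)) := by
    rw [hb_cm_mul, h1, hb_cm_smul_one]
  have e2 : cm ψ * cm φ = (PowerSeries.C f : PowerSeries Q) • (1 : Matrix κ κ (PowerSeries Q)) := by
    rw [hb_cm_mul, h2, hb_cm_smul_one]
  unfold IsMF HB
  rw [Matrix.fromBlocks_multiply, e1, e2, ← Matrix.fromBlocks_one, Matrix.fromBlocks_smul,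
    Matrix.fromBlocks_smul, Matrix.fromBlocks_add]
  congr 1
  · simp
  · simp
  · simp
  · simp

/-- (job NT-15) `w` times any endomorphism of `MFM (HB φ ψ)` factors through a free module:
`w = θ H + (H - w) θ` with `θ = [[1, 0], [0, -1]]`; for a matrix `a` commuting with `H` and
divisible by `w`, `a = w a'`, also `a'` commutes with `H`, and `a = a' ∘ w`. -/
theorem stNull_HB_of_X_dvd [IsDomain Q] {f : Q} {φ : Matrix ι κ Q} {ψ : Matrix κ ι Q}
    (h : IsMF f (HB φ ψ)) (a : Matrix (ι ⊕ κ) (ι ⊕ κ) (PowerSeries Q))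
    (ha : a * HB φ ψ = HB φ ψ * a) (hX : ∀ i j, PowerSeries.constantCoeff (a i j) = 0) :
    StNull (MFM.hom h h a ha) := by
  have hX' : ∀ i j, ∃ c, a i j = PowerSeries.X * c := fun i j =>
    PowerSeries.X_dvd_iff.2 (hX i j)
  choose a' ha' using hX'
  have hA : a = (PowerSeries.X : PowerSeries Q) • (Matrix.of a') := by
    ext i j : 1
    rw [ha' i j]
    rfl
  have hcomm : Matrix.of a' * HB φ ψ = HB φ ψ * Matrix.of a' := by
    have h1 : (PowerSeries.X : PowerSeries Q) • (Matrix.of a' * HB φ ψ) =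
        (PowerSeries.X : PowerSeries Q) • (HB φ ψ * Matrix.of a') := by
      rw [← Matrix.smul_mul, ← Matrix.mul_smul, ← hA]
      exact ha
    ext i j : 1
    have h2 := congrFun (congrFun h1 i) j
    exact mul_left_cancel₀ PowerSeries.X_ne_zero h2
  let θ : Matrix (ι ⊕ κ) (ι ⊕ κ) (PowerSeries Q) := Matrix.fromBlocks 1 0 0 (-1)
  have hθ : θ * HB φ ψ + HB φ ψ * θ - (PowerSeries.X : PowerSeries Q) • θ =
      (PowerSeries.X : PowerSeries Q) • 1 := by
    unfold HB
    rw [Matrix.fromBlocks_multiply, Matrix.fromBlocks_multiply, Matrix.fromBlocks_smul,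
      Matrix.fromBlocks_add, ← Matrix.fromBlocks_one, Matrix.fromBlocks_smul, sub_eq_add_neg,
      Matrix.fromBlocks_neg, Matrix.fromBlocks_add]
    congr 1
    · simp
    · simp
    · simp
    · simp
  refine MFM.stNull_of_eq h h a ha (Matrix.of a' * θ) ?_
  have h3 : Matrix.of a' * θ * HB φ ψ + HB φ ψ * (Matrix.of a' * θ) -
      (PowerSeries.X : PowerSeries Q) • (Matrix.of a' * θ) =
      Matrix.of a' * (θ * HB φ ψ + HB φ ψ * θ - (PowerSeries.X : PowerSeries Q) • θ) := by
    rw [Matrix.mul_sub, Matrix.mul_add, ← Matrix.mul_assoc (HB φ ψ), ← hcomm,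
      Matrix.mul_assoc (Matrix.of a') (HB φ ψ) θ, Matrix.mul_assoc, Matrix.mul_smul]
  rw [h3, hθ, Matrix.mul_smul, Matrix.mul_one]
  exact hA

omit [DecidableEq κ] in
private theorem hb_mulVec_inl (φ : Matrix ι κ Q) (ψ : Matrix κ ι Q) (v : ι ⊕ κ → PowerSeries Q)
    (i : ι) : (HB φ ψ).mulVec v (Sum.inl i) = PowerSeries.X * v (Sum.inl i) +
      (cm φ).mulVec (fun k => v (Sum.inr k)) i := by
  unfold HB
  rw [Matrix.fromBlocks_mulVec, Sum.elim_inl, Matrix.smul_mulVec, Matrix.one_mulVec]
  rfl

omit [DecidableEq κ] in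
private theorem hb_mulVec_inr (φ : Matrix ι κ Q) (ψ : Matrix κ ι Q) (v : ι ⊕ κ → PowerSeries Q)
    (k : κ) : (HB φ ψ).mulVec v (Sum.inr k) = (cm ψ).mulVec (fun i => v (Sum.inl i)) k := by
  unfold HB
  rw [Matrix.fromBlocks_mulVec, Sum.elim_inr, Matrix.zero_mulVec, add_zero]
  rfl

omit [DecidableEq ι] [DecidableEq κ] [Fintype κ] in
private theorem hb_coeff_mulVec (ψ : Matrix κ ι Q) (u : ι → PowerSeries Q) (n : ℕ) (k : κ) :
    PowerSeries.coeff n ((cm ψ).mulVec u k) =
      ψ.mulVec (fun i => PowerSeries.coeff n (u i)) k := by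
  unfold cm
  rw [Matrix.mulVec, dotProduct, map_sum, Matrix.mulVec, dotProduct]
  refine Finset.sum_congr rfl fun i _ => ?_
  rw [Matrix.map_apply, PowerSeries.coeff_C_mul]

private theorem hb_rep [IsDomain Q] (f : Q) (b : KB f) : ∃ c d : PowerSeries Q,
    b = algebraMap (PowerSeries Q) (KB f) c +
      algebraMap (PowerSeries Q) (KB f) d * AdjoinRoot.root (kpoly f) := by
  obtain ⟨p, rfl⟩ := AdjoinRoot.mk_surjective b
  have hm := kpoly_monic f
  have h1 : AdjoinRoot.mk (kpoly f) p = AdjoinRoot.mk (kpoly f) (p %ₘ kpoly f) := by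
    conv_lhs => rw [← Polynomial.modByMonic_add_div p (kpoly f)]
    rw [map_add, map_mul, AdjoinRoot.mk_self, zero_mul, add_zero]
  have h2 : (p %ₘ kpoly f).natDegree ≤ 1 := by
    have h3 := Polynomial.natDegree_modByMonic_lt p hm (by
      intro h
      have := kpoly_natDegree f
      rw [h] at this
      simp at this)
    rw [kpoly_natDegree] at h3
    omega
  obtain ⟨d, c, hcd⟩ := Polynomial.exists_eq_X_add_C_of_natDegree_le_one h2
  refine ⟨c, d, ?_⟩
  rw [h1, hcd, map_add, map_mul, AdjoinRoot.mk_X, AdjoinRoot.mk_C, AdjoinRoot.mk_C, add_comm]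
  rfl

/-- (job NT-15) `lam` vanishes on `MFM (HB φ ψ)`.
Proof. `B^ι → MFM (HB φ ψ)`, `e_i ↦ (e_i, 0)`, `X e_i ↦ (w e_i, ψ e_i)`, is injective with image
`P^ι ⊕ ψ P^ι` (`ψ` is injective because `φ ψ = f ≠ 0`). The cokernel is `P^κ/ψ P^ι`, on which `X`
acts as `0`; it is `N⟦w⟧` for `N = Q^κ/ψ Q^ι`, a module over `Q/f` since `ψ φ = f`. -/
theorem AddFn.val_HB [IsDomain Q] {f : Q} (hf : f ≠ 0) {φ : Matrix ι κ Q} {ψ : Matrix κ ι Q}
    (h1 : φ * ψ = f • 1) (h2 : ψ * φ = f • 1) (lam : AddFn (KB f)) (h0 : lam.val (KB f) = 0)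
    (h3 : ∀ (N : Type u) [AddCommGroup N] [Module (Q ⧸ Ideal.span {f}) N]
      [Module.Finite (Q ⧸ Ideal.span {f}) N], (lam.ps (kq f) (kq_surjective f)).val N = 0) :
    lam.val (MFM (isMF_HB h1 h2)) = 0 := by
  have hMF := isMF_HB h1 h2
  -- the module `N`
  let R : Submodule Q (κ → Q) := LinearMap.range ψ.mulVecLin
  let N : Type u := (κ → Q) ⧸ R
  have htors : Module.IsTorsionBySet Q N (Ideal.span {f} : Ideal Q) := by
    intro x
    rintro ⟨a, ha⟩
    obtain ⟨v, rfl⟩ := Submodule.Quotient.mk_surjective _ x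
    obtain ⟨c, rfl⟩ := Ideal.mem_span_singleton.1 ha
    show (f * c) • (Submodule.Quotient.mk v : N) = 0
    rw [← Submodule.Quotient.mk_smul, Submodule.Quotient.mk_eq_zero]
    refine ⟨φ.mulVec (c • v), ?_⟩
    rw [Matrix.mulVecLin_apply, Matrix.mulVec_mulVec, h2, Matrix.smul_mulVec, Matrix.one_mulVec,
      mul_smul]
  let iN : Module (Q ⧸ Ideal.span {f}) N := htors.module
  have hmk : ∀ (r : Q) (x : N), (Ideal.Quotient.mk (Ideal.span {f}) r) • x = r • x := fun r x =>
    htors.mk_smul r x
  have : Module.Finite (Q ⧸ Ideal.span {f}) N := by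
    have : IsScalarTower Q (Q ⧸ Ideal.span {f}) N := htors.isScalarTower
    exact Module.Finite.of_restrictScalars_finite Q (Q ⧸ Ideal.span {f}) N
  let iB : Module (KB f) (PSM N) := psModule (kq f) N
  have hps : ∀ (r : PowerSeries Q) (v : PSM N),
      (PowerSeries.map (Ideal.Quotient.mk (Ideal.span {f})) r) • v = r • v := by
    intro r v
    funext n
    rw [PSM.smul_apply, PSM.smul_apply]
    refine Finset.sum_congr rfl fun x _ => ?_
    rw [PowerSeries.coeff_map, hmk]
  have hkq : ∀ r : PowerSeries Q, kq f (algebraMap (PowerSeries Q) (KB f) r) =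
      PowerSeries.map (Ideal.Quotient.mk (Ideal.span {f})) r := by
    intro r
    unfold kq
    exact AdjoinRoot.lift_of _
  have : IsScalarTower (PowerSeries Q) (KB f) (PSM N) := by
    refine ⟨fun r b v => ?_⟩
    show kq f (r • b) • v = r • (kq f b • v)
    rw [Algebra.smul_def, map_mul, hkq, mul_smul, hps]
  have hroot0 : ∀ v : PSM N, (AdjoinRoot.root (kpoly f) : KB f) • v = 0 := by
    intro v
    show kq f (AdjoinRoot.root (kpoly f)) • v = 0
    have : kq f (AdjoinRoot.root (kpoly f)) = 0 := by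
      unfold kq
      exact AdjoinRoot.lift_root _
    rw [this, zero_smul]
  -- the map to `N⟦w⟧`
  let β₀ : (ι ⊕ κ → PowerSeries Q) →ₗ[PowerSeries Q] PSM N :=
    { toFun := fun v n => Submodule.Quotient.mk (fun k => PowerSeries.coeff n (v (Sum.inr k)))
      map_add' := fun v w => by
        funext n
        show (Submodule.Quotient.mk _ : N) = Submodule.Quotient.mk _ + Submodule.Quotient.mk _
        rw [← Submodule.Quotient.mk_add]
        rfl
      map_smul' := fun r v => by
        funext n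
        show (Submodule.Quotient.mk _ : N) = ∑ x ∈ Finset.HasAntidiagonal.antidiagonal n,
          PowerSeries.coeff x.1 r • (Submodule.Quotient.mk _ : N)
        have e1 : (fun k => PowerSeries.coeff n ((r • v) (Sum.inr k))) =
            ∑ x ∈ Finset.HasAntidiagonal.antidiagonal n, PowerSeries.coeff x.1 r •
              (fun k => PowerSeries.coeff x.2 (v (Sum.inr k))) := by
          funext k
          rw [Finset.sum_apply, Pi.smul_apply, smul_eq_mul, PowerSeries.coeff_mul]
          rfl
        rw [e1]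
        exact map_sum (Submodule.mkQ R) _ _ }
  let β₁ : MFM (isMF_HB h1 h2) →ₗ[PowerSeries Q] PSM N := β₀
  have hβ : ∀ (v : MFM (isMF_HB h1 h2)) (n : ℕ), β₁ v n =
      Submodule.Quotient.mk (fun k => PowerSeries.coeff n (v (Sum.inr k))) := fun v n => rfl
  have hβroot : ∀ v : MFM (isMF_HB h1 h2), β₁ (AdjoinRoot.root (kpoly f) • v) =
      AdjoinRoot.root (kpoly f) • β₁ v := by
    intro v
    rw [hroot0]
    funext n
    rw [hβ]
    show (Submodule.Quotient.mk _ : N) = 0
    rw [Submodule.Quotient.mk_eq_zero]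
    refine ⟨fun i => PowerSeries.coeff n (v (Sum.inl i)), ?_⟩
    funext k
    rw [Matrix.mulVecLin_apply, ← hb_coeff_mulVec, MFM.root_smul]
    exact congrArg (PowerSeries.coeff n) (hb_mulVec_inr φ ψ v k).symm
  let β : MFM (isMF_HB h1 h2) →ₗ[KB f] PSM N :=
    { toFun := β₁
      map_add' := β₁.map_add
      map_smul' := fun b v => MFM.lin_of_root β₁ hβroot b v }
  -- the map from the free module
  let bas : ι → MFM (isMF_HB h1 h2) :=
    fun i => (Pi.single (Sum.inl i) 1 : ι ⊕ κ → PowerSeries Q)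
  let α : (ι → KB f) →ₗ[KB f] MFM (isMF_HB h1 h2) := Fintype.linearCombination (KB f) bas
  have hα0 : ∀ u : ι → PowerSeries Q, α (fun i => algebraMap (PowerSeries Q) (KB f) (u i)) =
      (Sum.elim u (fun _ => 0) : ι ⊕ κ → PowerSeries Q) := by
    intro u
    have e0 : α (fun i => algebraMap (PowerSeries Q) (KB f) (u i)) = ∑ i, u i • bas i := by
      rw [Fintype.linearCombination_apply]
      refine Finset.sum_congr rfl fun k _ => ?_
      rw [algebraMap_smul]
    rw [e0]
    have e1 : (∑ i, u i • bas i : MFM (isMF_HB h1 h2)) =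
        (∑ i, u i • (Pi.single (Sum.inl i) 1 : ι ⊕ κ → PowerSeries Q)) := rfl
    rw [e1]
    funext x
    rw [Finset.sum_apply]
    rcases x with i | k
    · rw [Finset.sum_eq_single i]
      · simp
      · intro j _ hj
        have hne : (Sum.inl i : ι ⊕ κ) ≠ Sum.inl j := by
          intro h
          exact hj (Sum.inl_injective h).symm
        rw [Pi.smul_apply, Pi.single_eq_of_ne hne, smul_zero]
      · intro h
        exact absurd (Finset.mem_univ i) h
    · refine Finset.sum_eq_zero fun j _ => ?_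
      have hne : (Sum.inr k : ι ⊕ κ) ≠ Sum.inl j := by simp
      rw [Pi.smul_apply, Pi.single_eq_of_ne hne, smul_zero]
  have hα : ∀ c d : ι → PowerSeries Q,
      α (fun i => algebraMap (PowerSeries Q) (KB f) (c i) +
        algebraMap (PowerSeries Q) (KB f) (d i) * AdjoinRoot.root (kpoly f)) =
      (Sum.elim (fun i => c i + PowerSeries.X * d i) ((cm ψ).mulVec d) :
        ι ⊕ κ → PowerSeries Q) := by
    intro c d
    have e1 : (fun i => algebraMap (PowerSeries Q) (KB f) (c i) +
        algebraMap (PowerSeries Q) (KB f) (d i) * AdjoinRoot.root (kpoly f)) =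
        (fun i => algebraMap (PowerSeries Q) (KB f) (c i)) + AdjoinRoot.root (kpoly f) •
          (fun i => algebraMap (PowerSeries Q) (KB f) (d i)) := by
      funext i
      rw [Pi.add_apply, Pi.smul_apply, smul_eq_mul]
      ring
    rw [e1, map_add, map_smul, MFM.root_smul, hα0, hα0]
    show (Sum.elim c (fun _ => 0) : ι ⊕ κ → PowerSeries Q) +
      (HB φ ψ).mulVec (Sum.elim d (fun _ => 0)) = _
    funext x
    rcases x with i | k
    · rw [Pi.add_apply, hb_mulVec_inl]
      simp only [Sum.elim_inl, Sum.elim_inr]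
      have : (cm φ).mulVec (fun _ : κ => (0 : PowerSeries Q)) i = 0 := by
        have := congrFun (Matrix.mulVec_zero (cm φ)) i
        exact this
      rw [this, add_zero]
    · rw [Pi.add_apply, hb_mulVec_inr]
      simp
  have hcmdet : ∀ d : ι → PowerSeries Q, (cm ψ).mulVec d = 0 → d = 0 := by
    intro d hd
    have e1 := congrArg (fun w => (cm φ).mulVec w) hd
    simp only [Matrix.mulVec_mulVec, Matrix.mulVec_zero] at e1
    rw [hb_cm_mul, h1, hb_cm_smul_one, Matrix.smul_mulVec, Matrix.one_mulVec] at e1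
    funext i
    have e2 := congrFun e1 i
    rw [Pi.smul_apply, smul_eq_mul] at e2
    rcases mul_eq_zero.1 e2 with e3 | e3
    · exfalso
      apply hf
      have := congrArg PowerSeries.constantCoeff e3
      simpa using this
    · exact e3
  have hinj : Function.Injective α := by
    rw [injective_iff_map_eq_zero]
    intro b hb
    choose c d hcd using fun i => hb_rep f (b i)
    have e1 : b = fun i => algebraMap (PowerSeries Q) (KB f) (c i) +
        algebraMap (PowerSeries Q) (KB f) (d i) * AdjoinRoot.root (kpoly f) := funext hcd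
    rw [e1, hα] at hb
    have hb' : (Sum.elim (fun i => c i + PowerSeries.X * d i) ((cm ψ).mulVec d) :
        ι ⊕ κ → PowerSeries Q) = 0 := hb
    have hd : d = 0 := by
      apply hcmdet
      funext k
      exact congrFun hb' (Sum.inr k)
    have hc : c = 0 := by
      funext i
      have e2 := congrFun hb' (Sum.inl i)
      rw [Sum.elim_inl, hd] at e2
      simpa using e2
    rw [e1, hc, hd]
    funext i
    simp
  have hsurj : Function.Surjective β := by
    intro v
    choose w hw using fun n => Submodule.Quotient.mk_surjective R (v n)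
    refine ⟨(Sum.elim (fun _ => 0) (fun k => PowerSeries.mk fun n => w n k) :
      ι ⊕ κ → PowerSeries Q), ?_⟩
    funext n
    show (Submodule.Quotient.mk (fun k => PowerSeries.coeff n (PowerSeries.mk fun n => w n k)) : N)
      = v n
    rw [← hw n]
    congr 1
    funext k
    exact PowerSeries.coeff_mk n _
  have hexact : Function.Exact α β := by
    intro v
    constructor
    · intro hv
      have hv' : ∀ n, (fun k => PowerSeries.coeff n (v (Sum.inr k))) ∈ R := by
        intro n
        have e1 := congrFun hv n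
        exact (Submodule.Quotient.mk_eq_zero R).1 e1
      choose u hu using hv'
      let d : ι → PowerSeries Q := fun i => PowerSeries.mk fun n => u n i
      have hd : (cm ψ).mulVec d = fun k => v (Sum.inr k) := by
        funext k
        ext n
        rw [hb_coeff_mulVec]
        have e1 := congrFun (hu n) k
        rw [Matrix.mulVecLin_apply] at e1
        rw [← e1]
        congr 1
        funext i
        exact PowerSeries.coeff_mk n _
      refine ⟨fun i => algebraMap (PowerSeries Q) (KB f)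
        (v (Sum.inl i) - PowerSeries.X * d i) +
        algebraMap (PowerSeries Q) (KB f) (d i) * AdjoinRoot.root (kpoly f), ?_⟩
      rw [hα, hd]
      funext x
      rcases x with i | k
      · show v (Sum.inl i) - PowerSeries.X * d i + PowerSeries.X * d i = v (Sum.inl i)
        ring
      · rfl
    · rintro ⟨b, rfl⟩
      choose c d hcd using fun i => hb_rep f (b i)
      have e1 : b = fun i => algebraMap (PowerSeries Q) (KB f) (c i) +
          algebraMap (PowerSeries Q) (KB f) (d i) * AdjoinRoot.root (kpoly f) := funext hcd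
      rw [e1, hα]
      funext n
      show (Submodule.Quotient.mk (fun k => PowerSeries.coeff n ((cm ψ).mulVec d k)) : N) = 0
      rw [Submodule.Quotient.mk_eq_zero]
      refine ⟨fun i => PowerSeries.coeff n (d i), ?_⟩
      funext k
      rw [Matrix.mulVecLin_apply, hb_coeff_mulVec]
  have hadd := lam.add α β hinj hsurj hexact
  rw [hadd]
  have e1 : lam.val (ι → KB f) = 0 := by
    have e2 : (Fin (Fintype.card ι) → KB f) ≃ₗ[KB f] (ι → KB f) :=
      LinearEquiv.funCongrLeft (KB f) (KB f) (Fintype.equivFin ι)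
    rw [← lam.val_congr e2, lam.val_pi, h0, mul_zero]
  have e3 : lam.val (PSM N) = 0 := h3 N
  rw [e1, e3, add_zero]

end blocks

end Pool.Agent.H27.NT
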