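import Pool.Agent.H27.NT.Defs

/-!
# Null-homotopic multiplications (job NT-2)

Let `F` be a complex with homology of finite length over the Noetherian local ring `A`. Then some
power of the maximal ideal kills all `H_i(F ⊗ M)`, for every module `M`.

Proof. Choose `s₀` with `m^s₀ H_i(F) = 0` for all `i < len` (finite length modules are killed by a
power of `m`, `F.rk i = 0` for `i ≥ len`). Claim: for `a₀, …, a_i ∈ m^s₀` and `b = a₀ ⋯ a_i`
there are matrices `h_j : F_j → F_(j+1)` (`j ≤ i`) with `d_j h_j + h_(j-1) d_(j-1) = b` for all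
`j ≤ i`. Induction: if `h_j` (`j ≤ i`) works for `b`, then `b - h_i d_i : F_(i+1) → F_(i+1)`
has `d_i (b - h_i d_i) = (b - d_i h_i) d_i = h_(i-1) d_(i-1) d_i = 0`, so its columns are cycles
and `a` times its columns are boundaries: `a (b - h_i d_i) = d_(i+1) h`. Put `h_(i+1) = h` and
replace `h_j` by `a h_j` for `j ≤ i`. So all products of `len + 1` elements of `m^s₀` are
null-homotopic, the null-homotopic elements form an ideal, so `m^(s₀ (len+1))` consists of
null-homotopic elements. A null-homotopic element kills the homology of `F ⊗ M` (apply the same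
matrices to vectors with entries in `M`).
-/

open IsLocalRing

namespace Pool.Agent.H27.NT

universe u

/-- `a` is null-homotopic on `F`. -/
def NullH {A : Type u} [CommRing A] (F : Cx A) (a : A) : Prop :=
  ∃ h : ∀ i, Matrix (Fin (F.rk (i + 1))) (Fin (F.rk i)) A,
    F.d 0 * h 0 = Matrix.scalar _ a ∧
      ∀ i, F.d (i + 1) * h (i + 1) + h i * F.d i = Matrix.scalar _ a

/-- The action of a matrix on vectors with entries in a module. -/
def homotMv {A : Type u} [CommRing A] {M : Type u} [AddCommGroup M] [Module A M] {m n : ℕ}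
    (X : Matrix (Fin m) (Fin n) A) (v : Fin n → M) : Fin m → M := fun j => ∑ k, X j k • v k

section Mv

variable {A : Type u} [CommRing A] {M : Type u} [AddCommGroup M] [Module A M] {m n k : ℕ}

theorem homotMv_mul (X : Matrix (Fin m) (Fin n) A) (Y : Matrix (Fin n) (Fin k) A)
    (v : Fin k → M) : homotMv (X * Y) v = homotMv X (homotMv Y v) := by
  funext j
  simp only [homotMv, Matrix.mul_apply, Finset.sum_smul, Finset.smul_sum, smul_smul]
  rw [Finset.sum_comm]

theorem homotMv_add (X Y : Matrix (Fin m) (Fin n) A) (v : Fin n → M) :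
    homotMv (X + Y) v = homotMv X v + homotMv Y v := by
  funext j
  simp only [homotMv, Matrix.add_apply, add_smul, Finset.sum_add_distrib, Pi.add_apply]

theorem homotMv_scalar (a : A) (v : Fin n → M) :
    homotMv (Matrix.scalar (Fin n) a) v = a • v := by
  funext j
  simp only [homotMv, Matrix.scalar_apply, Matrix.diagonal_apply, ite_smul, zero_smul,
    Pi.smul_apply]
  rw [Finset.sum_ite_eq]
  simp

theorem homotMv_zero (X : Matrix (Fin m) (Fin n) A) : homotMv X (0 : Fin n → M) = 0 := by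
  funext j
  simp [homotMv]

end Mv

theorem homot_ann {A : Type u} [CommRing A] [IsLocalRing A] {M : Type u} [AddCommGroup M]
    [Module A M] (h : Module.length A M ≠ ⊤) :
    ∃ s : ℕ, ∀ a ∈ maximalIdeal A ^ s, ∀ z : M, a • z = 0 := by
  rw [Module.length_ne_top_iff, isFiniteLength_iff_isNoetherian_isArtinian] at h
  obtain ⟨h1, h2⟩ := h
  let f : ℕ →o (Submodule A M)ᵒᵈ := ⟨fun k => (maximalIdeal A ^ k • ⊤ : Submodule A M),
    fun i j hij => Submodule.smul_mono_left (Ideal.pow_le_pow_right hij)⟩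
  obtain ⟨n, hn⟩ := monotone_stabilizes_iff_artinian.2 h2 f
  have h3 : (maximalIdeal A ^ n • ⊤ : Submodule A M) = maximalIdeal A ^ (n + 1) • ⊤ :=
    hn (n + 1) (Nat.le_succ n)
  have h4 : (maximalIdeal A ^ n • ⊤ : Submodule A M) = ⊥ := by
    refine Submodule.eq_bot_of_le_smul_of_le_jacobson_bot (maximalIdeal A) _
      (IsNoetherian.noetherian _) ?_ (IsLocalRing.maximalIdeal_le_jacobson ⊥)
    rw [← Submodule.mul_smul, ← pow_succ', ← h3]
  refine ⟨n, fun a ha z => ?_⟩
  have h5 : a • z ∈ (maximalIdeal A ^ n • ⊤ : Submodule A M) :=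
    Submodule.smul_mem_smul ha Submodule.mem_top
  rw [h4] at h5
  exact h5

theorem homot_kill {A : Type u} [CommRing A] [IsLocalRing A] (F : Cx A) (hF : F.HFin) :
    ∃ s : ℕ, ∀ a ∈ maximalIdeal A ^ s, ∀ i, ∀ z ∈ F.cyc A i, a • z ∈ F.bd A i := by
  have h1 : ∀ i, ∃ s : ℕ, ∀ a ∈ maximalIdeal A ^ s, ∀ z ∈ F.cyc A i, a • z ∈ F.bd A i := by
    intro i
    obtain ⟨s, hs⟩ := homot_ann (hF i)
    refine ⟨s, fun a ha z hz => ?_⟩
    have h2 := hs a ha (Submodule.Quotient.mk ⟨z, hz⟩)
    rw [← Submodule.Quotient.mk_smul, Submodule.Quotient.mk_eq_zero, Submodule.mem_comap] at h2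
    exact h2
  choose s hs using h1
  refine ⟨∑ i ∈ Finset.range F.len, s i, fun a ha i z hz => ?_⟩
  by_cases hi : i < F.len
  · exact hs i a (Ideal.pow_le_pow_right
      (Finset.single_le_sum (f := s) (fun _ _ => Nat.zero_le _) (Finset.mem_range.2 hi)) ha) z hz
  · have h3 := F.bdd i (not_lt.1 hi)
    have h4 : IsEmpty (Fin (F.rk i)) := by
      rw [h3]
      infer_instance
    have h5 : a • z = 0 := by
      funext j
      exact h4.elim j
    rw [h5]
    exact Submodule.zero_mem _

/-- Null-homotopic in degrees `< n`. -/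
def HomotUp {A : Type u} [CommRing A] (F : Cx A) (n : ℕ) (a : A) : Prop :=
  ∃ h : ∀ i, Matrix (Fin (F.rk (i + 1))) (Fin (F.rk i)) A,
    (0 < n → F.d 0 * h 0 = Matrix.scalar _ a) ∧
      ∀ i, i + 1 < n → F.d (i + 1) * h (i + 1) + h i * F.d i = Matrix.scalar _ a

theorem HomotUp.add {A : Type u} [CommRing A] {F : Cx A} {n : ℕ} {a b : A} (ha : HomotUp F n a)
    (hb : HomotUp F n b) : HomotUp F n (a + b) := by
  obtain ⟨h, h1, h2⟩ := ha
  obtain ⟨h', h1', h2'⟩ := hb
  refine ⟨fun i => h i + h' i, fun hn => ?_, fun i hi => ?_⟩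
  · show F.d 0 * (h 0 + h' 0) = _
    rw [Matrix.mul_add, h1 hn, h1' hn, map_add]
  · show F.d (i + 1) * (h (i + 1) + h' (i + 1)) + (h i + h' i) * F.d i = _
    rw [map_add, ← h2 i hi, ← h2' i hi, Matrix.mul_add, Matrix.add_mul]
    abel

theorem homot_range {A : Type u} [CommRing A] (F : Cx A) (i : ℕ) {k : ℕ} (a : A)
    (X : Matrix (Fin (F.rk i)) (Fin k) A)
    (h : ∀ c : Fin k, a • (fun r => X r c) ∈ F.bd A i) :
    ∃ Y : Matrix (Fin (F.rk (i + 1))) (Fin k) A, F.d i * Y = a • X := by
  have h1 : ∀ c : Fin k, ∃ v, F.act A i v = a • (fun r => X r c) := fun c => h c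
  choose v hv using h1
  refine ⟨Matrix.of fun r c => v c r, ?_⟩
  ext r c
  have h2 := congrFun (hv c) r
  rw [Matrix.mul_apply, Matrix.smul_apply, smul_eq_mul]
  exact h2

theorem homot_scalar {A : Type u} [CommRing A] (n : ℕ) (a : A) :
    Matrix.scalar (Fin n) a = a • (1 : Matrix (Fin n) (Fin n) A) := by
  rw [Matrix.scalar_apply, Matrix.smul_one_eq_diagonal]

theorem homot_cyc {A : Type u} [CommRing A] (F : Cx A) (n : ℕ) {k : ℕ}
    (X : Matrix (Fin (F.rk (n + 1))) (Fin k) A) (h : F.d n * X = 0) (c : Fin k) :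
    (fun r => X r c) ∈ F.cyc A (n + 1) := by
  show (fun r => X r c) ∈ LinearMap.ker (F.act A n)
  rw [LinearMap.mem_ker]
  funext j
  have h1 := congrFun (congrFun h j) c
  rw [Matrix.mul_apply] at h1
  exact h1

theorem HomotUp.step {A : Type u} [CommRing A] {F : Cx A} {a b : A} {n : ℕ}
    (ha : ∀ i, ∀ z ∈ F.cyc A i, a • z ∈ F.bd A i) (hb : HomotUp F n b) :
    HomotUp F (n + 1) (a * b) := by
  obtain ⟨h, h1, h2⟩ := hb
  have hs : ∀ k, Matrix.scalar (Fin k) (a * b) = a • Matrix.scalar (Fin k) b := by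
    intro k
    rw [homot_scalar, homot_scalar, mul_smul]
  rcases n with _ | n
  · obtain ⟨Y, hY⟩ := homot_range F 0 a (Matrix.scalar (Fin (F.rk 0)) b)
      (fun c => ha 0 _ Submodule.mem_top)
    refine ⟨Function.update (fun _ => 0) 0 Y, fun _ => ?_, fun i hi => by omega⟩
    rw [Function.update_self, hY, hs]
  · have h0 := h1 (Nat.succ_pos n)
    let X : Matrix (Fin (F.rk (n + 1))) (Fin (F.rk (n + 1))) A :=
      Matrix.scalar (Fin (F.rk (n + 1))) b - h n * F.d n
    have hX : F.d n * X = 0 := by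
      rcases n with _ | m
      · show F.d 0 * (Matrix.scalar _ b - h 0 * F.d 0) = 0
        rw [Matrix.mul_sub, ← Matrix.mul_assoc, h0, homot_scalar, homot_scalar, Matrix.mul_smul,
          Matrix.smul_mul, Matrix.mul_one, Matrix.one_mul, sub_self]
      · show F.d (m + 1) * (Matrix.scalar _ b - h (m + 1) * F.d (m + 1)) = 0
        have h3 := h2 m (by omega)
        have h4 : F.d (m + 1) * h (m + 1) = Matrix.scalar _ b - h m * F.d m := by
          rw [← h3]; abel
        rw [Matrix.mul_sub, ← Matrix.mul_assoc, h4, Matrix.sub_mul, Matrix.mul_assoc, F.dd m,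
          Matrix.mul_zero, sub_zero, homot_scalar, homot_scalar, Matrix.mul_smul,
          Matrix.smul_mul, Matrix.mul_one, Matrix.one_mul, sub_self]
    obtain ⟨Y, hY⟩ := homot_range F (n + 1) a X
      (fun c => ha (n + 1) _ (homot_cyc F n X hX c))
    refine ⟨Function.update (fun i => a • h i) (n + 1) Y, fun _ => ?_, fun i hi => ?_⟩
    · rw [Function.update_of_ne (Nat.succ_ne_zero n).symm, Matrix.mul_smul, h0, hs]
    · by_cases hin : i = n
      · subst hin
        rw [Function.update_self, Function.update_of_ne (Nat.succ_ne_self i).symm, hY, hs]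
        show a • (Matrix.scalar _ b - h i * F.d i) + (a • h i) * F.d i = _
        rw [Matrix.smul_mul, smul_sub, sub_add_cancel]
      · rw [Function.update_of_ne (by omega), Function.update_of_ne (by omega), Matrix.mul_smul,
          Matrix.smul_mul, ← smul_add, h2 i (by omega), hs]

theorem homotUp_pow {A : Type u} [CommRing A] {F : Cx A} {I : Ideal A}
    (hI : ∀ a ∈ I, ∀ i, ∀ z ∈ F.cyc A i, a • z ∈ F.bd A i) (n : ℕ) :
    ∀ b ∈ I ^ n, HomotUp F n b := by
  induction n with
  | zero => exact fun b _ => ⟨fun _ => 0, fun h => (lt_irrefl _ h).elim, fun i hi => by omega⟩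
  | succ n ih =>
    intro b hb
    rw [pow_succ'] at hb
    exact Submodule.mul_induction_on hb (fun a ha c hc => (ih c hc).step (hI a ha))
      (fun x y hx hy => hx.add hy)

theorem exists_nullH {A : Type u} [CommRing A] [IsLocalRing A] [IsNoetherianRing A] (F : Cx A)
    (hF : F.HFin) : ∃ s : ℕ, ∀ a ∈ maximalIdeal A ^ s, NullH F a := by
  obtain ⟨s, hs⟩ := homot_kill F hF
  refine ⟨s * (F.len + 1), fun a ha => ?_⟩
  rw [pow_mul] at ha
  obtain ⟨h, h1, h2⟩ := homotUp_pow hs (F.len + 1) a ha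
  refine ⟨h, h1 (Nat.succ_pos _), fun i => ?_⟩
  by_cases hi : i + 1 < F.len + 1
  · exact h2 i hi
  · have h3 := F.bdd (i + 1) (by omega)
    have h4 : IsEmpty (Fin (F.rk (i + 1))) := by
      rw [h3]
      infer_instance
    ext r
    exact h4.elim r

theorem NullH.smul_mem {A : Type u} [CommRing A] {F : Cx A} {a : A} (h : NullH F a)
    (M : Type u) [AddCommGroup M] [Module A M] (i : ℕ) (z : Fin (F.rk i) → M)
    (hz : z ∈ F.cyc M i) : a • z ∈ F.bd M i := by
  obtain ⟨h, h1, h2⟩ := h
  rcases i with _ | i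
  · refine ⟨homotMv (h 0) z, ?_⟩
    show homotMv (F.d 0) (homotMv (h 0) z) = a • z
    rw [← homotMv_mul, h1, homotMv_scalar]
  · refine ⟨homotMv (h (i + 1)) z, ?_⟩
    show homotMv (F.d (i + 1)) (homotMv (h (i + 1)) z) = a • z
    have h3 : homotMv (F.d i) z = 0 := hz
    have h4 : homotMv (h i * F.d i) z = 0 := by
      rw [homotMv_mul, h3, homotMv_zero]
    rw [← homotMv_mul, ← homotMv_scalar, ← h2 i, homotMv_add, h4, add_zero]

end Pool.Agent.H27.NT
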