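import Pool.Agent.H27.NT.IdemA

/-!
# Lifting idempotent endomorphisms (job NT-19)
-/

open IsLocalRing Polynomial

namespace Pool.Agent.H27.NT

universe u

theorem idem_semiconj {Q : Type u} [CommRing Q] {m : ℕ} {x y z : Matrix (Fin m) (Fin m) Q}
    (h : x * z = z * y) (p : Polynomial Q) : aeval x p * z = z * aeval y p := by
  induction p using Polynomial.induction_on' with
  | add p q hp hq => rw [map_add, map_add, add_mul, mul_add, hp, hq]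
  | monomial n r =>
    have h1 : SemiconjBy z y x := h.symm
    have h2 : z * y ^ n = x ^ n * z := (h1.pow_right n)
    rw [Polynomial.aeval_monomial, Polynomial.aeval_monomial, mul_assoc, ← h2, ← mul_assoc,
      ← mul_assoc, Algebra.commutes r z]

theorem idem_kill {Q : Type u} [CommRing Q] {m : ℕ} {x : Matrix (Fin m) (Fin m) Q}
    {χ p q : Polynomial Q} (hχ : aeval x χ = 0) (h : χ ∣ p - q) : aeval x p = aeval x q := by
  obtain ⟨r, hr⟩ := h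
  have h1 : aeval x (p - q) = 0 := by rw [hr, map_mul, hχ, zero_mul]
  rw [map_sub] at h1
  exact sub_eq_zero.1 h1

/-- (job NT-19) Proof. Take `χ = charpoly Φ₁ · charpoly (1 - Φ₁)` and `e, a, b` from
`exists_idem_poly`; `χ` kills `Φ₁` and `1 - Φ₁` (Cayley-Hamilton). Put `eA = e(Φ₁)`,
`eB = e(1 - Φ₁)`. As `Φ₁ Φ₀ = Φ₀ (1 - Φ₁)` and `(1 - Φ₁) Φ₀ = Φ₀ Φ₁` (from `h1`), the same holds
for polynomials in `Φ₁`, `1 - Φ₁`. With `κ₀ = Φ₁ - Φ₁² = Φ₀ Φ₂ + Φ₂ Φ₀` and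
`g = a e - b (1 - e)`: `e(T) - T = e (1 - T) - (1 - e) T ≡ g · T (1 - T)` modulo `χ`, so
`eA - Φ₁ = g(Φ₁) κ₀`, `eB - (1 - Φ₁) = g(1 - Φ₁) κ₀`; take `t = g(Φ₁) Φ₂`,
`s = g(1 - Φ₁) Φ₂`. -/
theorem exists_idem_MF {Q : Type u} [CommRing Q] [IsLocalRing Q] [IsNoetherianRing Q]
    [IsAdicComplete (maximalIdeal Q) Q] {m : ℕ} (Φ₀ Φ₁ Φ₂ : Matrix (Fin m) (Fin m) Q)
    (h1 : Φ₀ * Φ₁ + Φ₁ * Φ₀ = Φ₀) (h2 : Φ₀ * Φ₂ + Φ₁ * Φ₁ + Φ₂ * Φ₀ = Φ₁) :
    ∃ eA eB t s : Matrix (Fin m) (Fin m) Q, eA * eA = eA ∧ eB * eB = eB ∧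
      eA * Φ₀ = Φ₀ * eB ∧ eB * Φ₀ = Φ₀ * eA ∧
      eA - Φ₁ = t * Φ₀ + Φ₀ * s ∧ eB - (1 - Φ₁) = s * Φ₀ + Φ₀ * t := by
  obtain ⟨χ, hχ⟩ : ∃ χ, χ = Φ₁.charpoly * (1 - Φ₁).charpoly := ⟨_, rfl⟩
  have hmon : χ.Monic := by
    rw [hχ]
    exact (Matrix.charpoly_monic _).mul (Matrix.charpoly_monic _)
  have hk1 : aeval Φ₁ χ = 0 := by rw [hχ, map_mul, Matrix.aeval_self_charpoly, zero_mul]
  have hk2 : aeval (1 - Φ₁) χ = 0 := by rw [hχ, map_mul, Matrix.aeval_self_charpoly, mul_zero]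
  obtain ⟨e, a, b, he, ha, hb⟩ := exists_idem_poly χ hmon
  obtain ⟨g, hg⟩ : ∃ g, g = a * e - b * (1 - e) := ⟨_, rfl⟩
  have hgd : χ ∣ (e - X) - g * (X * (1 - X)) := by
    have h3 : (e - X) - g * (X * (1 - X)) =
        -((e * X * a - e) * (1 - X)) + ((1 - e) * (1 - X) * b - (1 - e)) * X := by
      rw [hg]
      ring
    rw [h3]
    exact dvd_add ((ha.mul_right _).neg_right) (hb.mul_right _)
  have hc1 : Φ₁ * Φ₀ = Φ₀ * (1 - Φ₁) := by
    rw [mul_sub, mul_one, eq_sub_iff_add_eq, add_comm]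
    exact h1
  have hc2 : (1 - Φ₁) * Φ₀ = Φ₀ * Φ₁ := by
    rw [sub_mul, one_mul, sub_eq_iff_eq_add]
    exact h1.symm
  have hκ : Φ₁ * (1 - Φ₁) = Φ₀ * Φ₂ + Φ₂ * Φ₀ := by
    rw [mul_sub, mul_one, sub_eq_iff_eq_add]
    calc Φ₁ = Φ₀ * Φ₂ + Φ₁ * Φ₁ + Φ₂ * Φ₀ := h2.symm
      _ = Φ₀ * Φ₂ + Φ₂ * Φ₀ + Φ₁ * Φ₁ := by abel
  have hκ' : (1 - Φ₁) * (1 - (1 - Φ₁)) = Φ₀ * Φ₂ + Φ₂ * Φ₀ := by
    rw [← hκ, sub_sub_cancel, sub_mul, mul_sub, one_mul, mul_one]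
  have hev : ∀ x : Matrix (Fin m) (Fin m) Q, aeval x χ = 0 →
      aeval x e - x = aeval x g * (x * (1 - x)) := by
    intro x hx
    have h3 := idem_kill hx hgd
    rw [map_sub, map_mul, map_mul, map_sub, aeval_X, map_one] at h3
    exact h3
  refine ⟨aeval Φ₁ e, aeval (1 - Φ₁) e, aeval Φ₁ g * Φ₂, aeval (1 - Φ₁) g * Φ₂, ?_, ?_,
    idem_semiconj hc1 e, idem_semiconj hc2 e, ?_, ?_⟩
  · rw [← map_mul]
    exact idem_kill hk1 he
  · rw [← map_mul]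
    exact idem_kill hk2 he
  · rw [hev Φ₁ hk1, hκ, mul_add, ← mul_assoc, idem_semiconj hc1 g, mul_assoc, mul_assoc, add_comm]
  · rw [hev (1 - Φ₁) hk2, hκ', mul_add, ← mul_assoc, idem_semiconj hc2 g, mul_assoc, mul_assoc,
      add_comm]

/-- (job NT-19) Idempotent matrices over a local ring split (finitely generated projective
modules are free). -/
theorem exists_split {Q : Type u} [CommRing Q] [IsLocalRing Q] {m : ℕ}
    (e : Matrix (Fin m) (Fin m) Q) (he : e * e = e) :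
    ∃ (k : ℕ) (I : Matrix (Fin m) (Fin k) Q) (J : Matrix (Fin k) (Fin m) Q),
      J * I = 1 ∧ I * J = e := by
  obtain ⟨f, hf⟩ : ∃ f, f = Matrix.toLin' e := ⟨_, rfl⟩
  have hff : ∀ v, f (f v) = f v := by
    intro v
    rw [hf, ← LinearMap.comp_apply, ← Matrix.toLin'_mul, he]
  have hpi : f.rangeRestrict ∘ₗ f.range.subtype = LinearMap.id := by
    apply LinearMap.ext
    rintro ⟨x, v, rfl⟩
    apply Subtype.ext
    exact hff v
  have hproj : Module.Projective Q f.range :=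
    Module.Projective.of_split f.range.subtype f.rangeRestrict hpi
  have hfin : Module.Finite Q f.range := inferInstance
  have hfree : Module.Free Q f.range := Module.free_of_flat_of_isLocalRing
  obtain ⟨k, hk⟩ : ∃ k, k = Module.finrank Q f.range := ⟨_, rfl⟩
  have φ : f.range ≃ₗ[Q] (Fin (Module.finrank Q f.range) → Q) :=
    (Module.finBasis Q f.range).equivFun
  refine ⟨Module.finrank Q f.range, LinearMap.toMatrix' (f.range.subtype ∘ₗ φ.symm.toLinearMap),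
    LinearMap.toMatrix' (φ.toLinearMap ∘ₗ f.rangeRestrict), ?_, ?_⟩
  · rw [← LinearMap.toMatrix'_comp]
    have h1 : (φ.toLinearMap ∘ₗ f.rangeRestrict) ∘ₗ (f.range.subtype ∘ₗ φ.symm.toLinearMap) =
        LinearMap.id := by
      rw [LinearMap.comp_assoc, ← LinearMap.comp_assoc _ f.range.subtype, hpi, LinearMap.id_comp]
      ext x
      simp
    rw [h1, LinearMap.toMatrix'_id]
  · rw [← LinearMap.toMatrix'_comp]
    have h1 : (f.range.subtype ∘ₗ φ.symm.toLinearMap) ∘ₗ (φ.toLinearMap ∘ₗ f.rangeRestrict) = f := by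
      apply LinearMap.ext
      intro v
      simp
    rw [h1, hf, LinearMap.toMatrix'_toLin']

end Pool.Agent.H27.NT
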