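import Mathlib

/-!
# Lifting idempotents (job NT-18)
-/

open IsLocalRing Polynomial

namespace Pool.Agent.H27.NT

universe u

theorem isPrecomplete_pi {Q : Type u} [CommRing Q] (I : Ideal Q) [IsPrecomplete I Q] (k : ℕ) :
    IsPrecomplete I (Fin k → Q) := by
  have hmem : ∀ (n : ℕ) (x : Fin k → Q),
      x ∈ (I ^ n • ⊤ : Submodule Q (Fin k → Q)) ↔ ∀ i, x i ∈ I ^ n := by
    intro n x
    constructor
    · intro hx i
      have h1 : (LinearMap.proj i : (Fin k → Q) →ₗ[Q] Q) x ∈
          (I ^ n • ⊤ : Submodule Q (Fin k → Q)).map (LinearMap.proj i) :=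
        Submodule.mem_map_of_mem hx
      rw [Submodule.map_smul''] at h1
      have h2 : (I ^ n • (Submodule.map (LinearMap.proj i : (Fin k → Q) →ₗ[Q] Q) ⊤) :
          Submodule Q Q) ≤ I ^ n := by
        intro y hy
        exact Ideal.mul_le_left (I := I ^ n) (J := Submodule.map
          (LinearMap.proj i : (Fin k → Q) →ₗ[Q] Q) ⊤) hy
      exact h2 h1
    · intro hx
      rw [pi_eq_sum_univ x]
      refine Submodule.sum_mem _ fun i _ => ?_
      exact Submodule.smul_mem_smul (hx i) trivial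
  constructor
  intro f hf
  have h1 : ∀ i : Fin k, ∃ L : Q, ∀ n, f n i ≡ L [SMOD (I ^ n • ⊤ : Submodule Q Q)] := by
    intro i
    refine IsPrecomplete.prec' (I := I) (M := Q) (fun n => f n i) ?_
    intro m n hmn
    have h2 := hf hmn
    rw [SModEq.sub_mem] at h2 ⊢
    rw [Ideal.smul_eq_mul, Ideal.mul_top]
    exact (hmem m _).1 h2 i
  choose L hL using h1
  refine ⟨L, fun n => ?_⟩
  rw [SModEq.sub_mem, hmem]
  intro i
  have h3 := hL i n
  rw [SModEq.sub_mem, Ideal.smul_eq_mul, Ideal.mul_top] at h3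
  exact h3

theorem isPrecomplete_finite {Q : Type u} [CommRing Q] (I : Ideal Q) [IsPrecomplete I Q]
    (M : Type u) [AddCommGroup M] [Module Q M] [Module.Finite Q M] : IsPrecomplete I M := by
  obtain ⟨k, f, hf⟩ := Module.Finite.exists_fin' Q M
  have := isPrecomplete_pi I k
  rw [← AdicCompletion.of_surjective_iff]
  intro y
  obtain ⟨z, hz⟩ := AdicCompletion.map_surjective I hf y
  obtain ⟨w, hw⟩ := AdicCompletion.of_surjective I (Fin k → Q) z
  refine ⟨f w, ?_⟩
  rw [← hz, ← hw, AdicCompletion.map_of]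

theorem exists_idem_lift {C : Type u} [CommRing C] (J : Ideal C) [HenselianRing C J] (e₀ : C)
    (h : e₀ * e₀ - e₀ ∈ J) : ∃ e : C, e * e = e ∧ e - e₀ ∈ J := by
  have hm : (X ^ 2 - X : C[X]).Monic := by
    nontriviality C
    rw [sub_eq_add_neg]
    refine (monic_X_pow 2).add_of_left ?_
    rw [degree_neg, degree_X_pow]
    exact lt_of_le_of_lt degree_X_le (by norm_num)
  have h1 : (X ^ 2 - X : C[X]).eval e₀ ∈ J := by
    simpa [sq] using h
  have h2 : IsUnit (Ideal.Quotient.mk J ((X ^ 2 - X : C[X]).derivative.eval e₀)) := by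
    have h3 : Ideal.Quotient.mk J ((X ^ 2 - X : C[X]).derivative.eval e₀) *
        Ideal.Quotient.mk J ((X ^ 2 - X : C[X]).derivative.eval e₀) = 1 := by
      rw [← map_mul, ← map_one (Ideal.Quotient.mk J), Ideal.Quotient.eq]
      have : (X ^ 2 - X : C[X]).derivative.eval e₀ * (X ^ 2 - X : C[X]).derivative.eval e₀ - 1
          = 4 * (e₀ * e₀ - e₀) := by
        simp
        ring
      rw [this]
      exact J.mul_mem_left _ h
    exact IsUnit.of_mul_eq_one _ h3
  obtain ⟨e, he, he'⟩ := HenselianRing.is_henselian (R := C) (I := J) _ hm e₀ h1 h2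
  refine ⟨e, ?_, he'⟩
  have : e ^ 2 - e = 0 := by simpa [IsRoot] using he
  rw [← sq]
  exact sub_eq_zero.1 this

/-- (job NT-18) Over a complete local ring, `T` acts on `Q[T]/χ` (`χ` monic) as a direct sum of a
unit and an element whose difference to `1` is a unit.
Proof. `C = Q[T]/χ` is a finite free `Q`-module, so it is complete for `m C`, hence `(C, m C)` is
henselian (`IsAdicComplete.henselianRing`). `C/mC` is Artinian, so `T^n = T^(2n) a` there for some
`n`, `a`, and `e₀ = T^n a` is idempotent with `e₀ T^n = T^n`. Lift `e₀` to an idempotent `e` of `C`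
(root of `Y² - Y`, derivative `2 e - 1` is a unit). Modulo `m C` (which lies in the Jacobson
radical of `C`) `T` is a unit on `e`: `e (T · stuff) = e`, and nilpotent on `1 - e`, so `1 - T` is
a unit on `1 - e`; both lift. -/
theorem exists_idem_poly {Q : Type u} [CommRing Q] [IsLocalRing Q] [IsNoetherianRing Q]
    [IsAdicComplete (maximalIdeal Q) Q] (χ : Polynomial Q) (hχ : χ.Monic) :
    ∃ e a b : Polynomial Q, χ ∣ e * e - e ∧ χ ∣ e * X * a - e ∧
      χ ∣ (1 - e) * (1 - X) * b - (1 - e) := by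
  classical
  -- the residue field computation
  obtain ⟨e₁, a₁, b₁, h₁, h₂, h₃⟩ : ∃ e a b : Polynomial (ResidueField Q),
      χ.map (residue Q) ∣ e * e - e ∧ χ.map (residue Q) ∣ e * X * a - e ∧
      χ.map (residue Q) ∣ (1 - e) * (1 - X) * b - (1 - e) := by
    have h0 : χ.map (residue Q) ≠ 0 := (hχ.map _).ne_zero
    obtain ⟨g, hg, hg'⟩ := exists_eq_pow_rootMultiplicity_mul_and_not_dvd
      (χ.map (residue Q)) h0 0
    set n := rootMultiplicity 0 (χ.map (residue Q)) with hn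
    rw [C_0, sub_zero] at hg hg'
    have hcop : IsCoprime (X ^ (n + 1) : (ResidueField Q)[X]) g := by
      refine IsCoprime.pow_left ?_
      rw [(prime_X (R := ResidueField Q)).irreducible.coprime_iff_not_dvd]
      exact hg'
    obtain ⟨u, v, huv⟩ := hcop
    refine ⟨u * X ^ (n + 1), u * X ^ n, ∑ i ∈ Finset.range (n + 1), X ^ i, ?_, ?_, ?_⟩
    · rw [hg]
      refine ⟨-(u * X * v), ?_⟩
      have : u * X ^ (n + 1) = 1 - v * g := by rw [← huv]; ring
      calc u * X ^ (n + 1) * (u * X ^ (n + 1)) - u * X ^ (n + 1)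
          = u * X ^ (n + 1) * (u * X ^ (n + 1) - 1) := by ring
        _ = u * X ^ (n + 1) * ((1 - v * g) - 1) := by rw [this]
        _ = _ := by ring
    · rw [hg]
      refine ⟨-(u * X * v), ?_⟩
      have : u * X ^ (n + 1) = 1 - v * g := by rw [← huv]; ring
      calc u * X ^ (n + 1) * X * (u * X ^ n) - u * X ^ (n + 1)
          = u * X ^ (n + 1) * (u * X ^ (n + 1) - 1) := by ring
        _ = u * X ^ (n + 1) * ((1 - v * g) - 1) := by rw [this]
        _ = _ := by ring
    · rw [hg]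
      refine ⟨-(v * X), ?_⟩
      have h5 : (1 - X : (ResidueField Q)[X]) * ∑ i ∈ Finset.range (n + 1), X ^ i
          = 1 - X ^ (n + 1) := mul_neg_geom_sum _ _
      have : 1 - u * X ^ (n + 1) = v * g := by rw [← huv]; ring
      rw [mul_assoc, h5, this]
      ring
  obtain ⟨e₀, he₀⟩ := map_surjective (residue Q) residue_surjective e₁
  obtain ⟨a₀, ha₀⟩ := map_surjective (residue Q) residue_surjective a₁
  obtain ⟨b₀, hb₀⟩ := map_surjective (residue Q) residue_surjective b₁
  -- the ring `C`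
  set J : Ideal (AdjoinRoot χ) := (maximalIdeal Q).map (algebraMap Q (AdjoinRoot χ)) with hJ
  have : Module.Finite Q (AdjoinRoot χ) := hχ.finite_adjoinRoot
  have : IsPrecomplete J (AdjoinRoot χ) := by
    rw [hJ, IsPrecomplete.map_algebraMap_iff]
    exact isPrecomplete_finite _ _
  have : IsHausdorff J (AdjoinRoot χ) := by
    rw [hJ, IsHausdorff.map_algebraMap_iff]
    infer_instance
  have : IsAdicComplete J (AdjoinRoot χ) := {}
  have hlift : ∀ p : Q[X], χ.map (residue Q) ∣ p.map (residue Q) → AdjoinRoot.mk χ p ∈ J := by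
    rintro p ⟨q, hq⟩
    obtain ⟨q₀, hq₀⟩ := map_surjective (residue Q) residue_surjective q
    have h5 : p - χ * q₀ ∈ RingHom.ker (mapRingHom (residue Q)) := by
      rw [RingHom.mem_ker, coe_mapRingHom, Polynomial.map_sub, Polynomial.map_mul, hq, hq₀, sub_self]
    rw [ker_mapRingHom, ker_residue] at h5
    have h6 : AdjoinRoot.mk χ p = AdjoinRoot.mk χ (p - χ * q₀) := by
      rw [AdjoinRoot.mk_eq_mk]
      exact ⟨q₀, by ring⟩
    rw [h6]
    have h7 := Ideal.mem_map_of_mem (AdjoinRoot.mk χ) h5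
    rw [Ideal.map_map] at h7
    exact h7
  have g₁ : AdjoinRoot.mk χ (e₀ * e₀ - e₀) ∈ J := hlift _ (by
    simpa [he₀] using h₁)
  have g₂ : AdjoinRoot.mk χ (e₀ * X * a₀ - e₀) ∈ J := hlift _ (by
    simpa [he₀, ha₀] using h₂)
  have g₃ : AdjoinRoot.mk χ ((1 - e₀) * (1 - X) * b₀ - (1 - e₀)) ∈ J := hlift _ (by
    simpa [he₀, hb₀] using h₃)
  obtain ⟨e, he, he'⟩ := exists_idem_lift J (AdjoinRoot.mk χ e₀) (by simpa using g₁)
  have hjac : J ≤ (⊥ : Ideal (AdjoinRoot χ)).jacobson := IsAdicComplete.le_jacobson_bot J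
  have hunit : ∀ j ∈ J, IsUnit (1 + j) := by
    intro j hj
    have := Ideal.mem_jacobson_bot.1 (hjac hj) 1
    rwa [mul_one, add_comm] at this
  -- general correction step
  have hcorr : ∀ f z c : AdjoinRoot χ, f * f = f → f * z * c - f ∈ J →
      ∃ c' : AdjoinRoot χ, f * z * c' = f := by
    intro f z c hf hj
    obtain ⟨w, hw⟩ := hunit _ hj
    refine ⟨c * (↑w⁻¹ : AdjoinRoot χ), ?_⟩
    have h8 : f * z * c = f * (w : AdjoinRoot χ) := by
      rw [hw]
      linear_combination (-z * c + 1) * hf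
    rw [← mul_assoc, h8, mul_assoc, Units.mul_inv, mul_one]
  obtain ⟨a, ha⟩ := hcorr e (AdjoinRoot.mk χ X) (AdjoinRoot.mk χ a₀) he (by
    have h9 : e * AdjoinRoot.mk χ X * AdjoinRoot.mk χ a₀ - e
        = AdjoinRoot.mk χ (e₀ * X * a₀ - e₀) +
          (e - AdjoinRoot.mk χ e₀) * (AdjoinRoot.mk χ X * AdjoinRoot.mk χ a₀ - 1) := by
      rw [map_sub, map_mul, map_mul]
      ring
    rw [h9]
    exact J.add_mem g₂ (J.mul_mem_right _ he'))
  obtain ⟨b, hb⟩ := hcorr (1 - e) (AdjoinRoot.mk χ (1 - X)) (AdjoinRoot.mk χ b₀)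
    (by linear_combination he) (by
    have h9 : (1 - e) * AdjoinRoot.mk χ (1 - X) * AdjoinRoot.mk χ b₀ - (1 - e)
        = AdjoinRoot.mk χ ((1 - e₀) * (1 - X) * b₀ - (1 - e₀)) -
          (e - AdjoinRoot.mk χ e₀) * (AdjoinRoot.mk χ (1 - X) * AdjoinRoot.mk χ b₀ - 1) := by
      simp only [map_sub, map_mul, map_one]
      ring
    rw [h9]
    exact J.sub_mem g₃ (J.mul_mem_right _ he'))
  obtain ⟨E, rfl⟩ := AdjoinRoot.mk_surjective e
  obtain ⟨A, rfl⟩ := AdjoinRoot.mk_surjective a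
  obtain ⟨B, rfl⟩ := AdjoinRoot.mk_surjective b
  refine ⟨E, A, B, ?_, ?_, ?_⟩
  · rw [← AdjoinRoot.mk_eq_mk, map_mul]
    exact he
  · rw [← AdjoinRoot.mk_eq_mk, map_mul, map_mul]
    exact ha
  · rw [← AdjoinRoot.mk_eq_mk, map_mul, map_mul, map_sub (AdjoinRoot.mk χ) 1 E, map_one]
    exact hb

end Pool.Agent.H27.NT
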