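import Pool.Agent.H27.NT.IsoDefs

/-!
# Linear change of variables (job NT-25)
-/

open IsLocalRing

namespace Pool.Agent.H27.NT

universe u

variable {S : Type u} [CommRing S]

namespace IsoA

open MvPowerSeries

/-- `x_i ↦ x_i`, `y_i ↦ y_i + c x_i` -/
noncomputable def shear (S : Type u) [CommRing S] (n : ℕ) (c : S) :
    Fin n ⊕ Fin n → MvPowerSeries (Fin n ⊕ Fin n) S :=
  Sum.elim (fun i => X (Sum.inl i)) (fun i => X (Sum.inr i) + C c * X (Sum.inl i))

theorem hasSubst_shear (n : ℕ) (c : S) : HasSubst (shear S n c) := by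
  apply hasSubst_of_constantCoeff_zero
  rintro (i | i) <;> simp [shear]

theorem shear_shear (n : ℕ) (c : S) (f : MvPowerSeries (Fin n ⊕ Fin n) S) :
    subst (shear S n (-c)) (subst (shear S n c) f) = f := by
  rw [subst_comp_subst_apply (hasSubst_shear n c) (hasSubst_shear n (-c))]
  have h : (fun s => subst (shear S n (-c)) (shear S n c s)) =
      (X : Fin n ⊕ Fin n → MvPowerSeries (Fin n ⊕ Fin n) S) := by
    funext s
    rcases s with i | i
    · show subst (shear S n (-c)) (X (Sum.inl i)) = _
      rw [subst_X (hasSubst_shear n (-c))]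
      rfl
    · show subst (shear S n (-c)) (X (Sum.inr i) + C c * X (Sum.inl i)) = _
      rw [subst_add (hasSubst_shear n (-c)), subst_mul (hasSubst_shear n (-c)), subst_C,
        subst_X (hasSubst_shear n (-c)), subst_X (hasSubst_shear n (-c))]
      show X (Sum.inr i) + C (-c) * X (Sum.inl i) + C c * X (Sum.inl i) = _
      rw [map_neg]
      ring
  rw [h, subst_self]
  rfl

end IsoA

open MvPowerSeries in
/-- (job NT-25) The automorphism `x_i ↦ x_i`, `y_i ↦ y_i - x_i` (inverse `y_i ↦ y_i + x_i`), by
`MvPowerSeries.substAlgHom` (constant coefficients zero, finitely many variables). -/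
theorem exists_equiv_hyp_par (g : S) (n : ℕ) :
    ∃ e : MvPowerSeries (Fin n ⊕ Fin n) S ≃+* MvPowerSeries (Fin n ⊕ Fin n) S,
      e (hyp g n) = par g n := by
  have h1 := IsoA.hasSubst_shear (S := S) n (-1)
  refine ⟨RingEquiv.ofBijective (substAlgHom (R := S) h1).toRingHom ?_, ?_⟩
  · constructor
    · intro f f' hff
      have h2 : subst (IsoA.shear S n (-(-1))) (subst (IsoA.shear S n (-1)) f) =
          subst (IsoA.shear S n (-(-1))) (subst (IsoA.shear S n (-1)) f') := by
        have h3 := congrArg (subst (IsoA.shear S n (-(-1)))) hff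
        simpa only [AlgHom.toRingHom_eq_coe, RingHom.coe_coe, substAlgHom_apply] using h3
      rwa [IsoA.shear_shear, IsoA.shear_shear] at h2
    · intro f
      refine ⟨subst (IsoA.shear S n 1) f, ?_⟩
      have h2 := IsoA.shear_shear (S := S) n 1 f
      simpa using h2
  · show substAlgHom (R := S) h1 (hyp g n) = par g n
    rw [hyp, par, substAlgHom_apply, subst_add h1, subst_C]
    have h3 : ∀ i : Fin n, subst (IsoA.shear S n (-1))
        (X (Sum.inl i) * X (Sum.inr i) : MvPowerSeries (Fin n ⊕ Fin n) S) =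
        X (Sum.inr i) * X (Sum.inl i) - X (Sum.inl i) ^ 2 := by
      intro i
      rw [subst_mul h1, subst_X h1, subst_X h1]
      show X (Sum.inl i) * (X (Sum.inr i) + C (-1) * X (Sum.inl i)) = _
      rw [map_neg, map_one]
      ring
    have h4 : subst (IsoA.shear S n (-1))
        (∑ i : Fin n, X (Sum.inl i) * X (Sum.inr i) : MvPowerSeries (Fin n ⊕ Fin n) S) =
        ∑ i : Fin n, (X (Sum.inr i) * X (Sum.inl i) - X (Sum.inl i) ^ 2) := by
      rw [← substAlgHom_apply h1, map_sum]
      exact Finset.sum_congr rfl fun i _ => by rw [substAlgHom_apply, h3 i]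
    rw [h4, sub_eq_add_neg, ← Finset.sum_neg_distrib]
    congr 1
    exact Finset.sum_congr rfl fun i _ => by ring

end Pool.Agent.H27.NT
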