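import Pool.Agent.H27.NT.IsoDefs

/-!
# Splitting off a pair of variables (job NT-26)
-/

open IsLocalRing

namespace Pool.Agent.H27.NT

universe u

variable {S : Type u} [CommRing S]

namespace IsoB

/-- `PowerSeries.map` of a ring isomorphism -/
noncomputable def mapE {A B : Type*} [CommRing A] [CommRing B] (e : A ≃+* B) :
    PowerSeries A ≃+* PowerSeries B :=
  RingEquiv.ofRingHom (PowerSeries.map (e : A →+* B)) (PowerSeries.map (e.symm : B →+* A))
    (by
      ext f n
      simp)
    (by
      ext f n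
      simp)

theorem mapE_apply {A B : Type*} [CommRing A] [CommRing B] (e : A ≃+* B) (f : PowerSeries A) :
    mapE e f = PowerSeries.map (e : A →+* B) f := rfl

/-- the last `x` is `none`, the last `y` is `some none` -/
def tog (n : ℕ) : Fin (n + 1) ⊕ Fin (n + 1) → Option (Option (Fin n ⊕ Fin n)) :=
  Sum.elim (Fin.lastCases none (fun i => some (some (Sum.inl i))))
    (Fin.lastCases (some none) (fun i => some (some (Sum.inr i))))

/-- the inverse of `tog` -/
def ofg (n : ℕ) : Option (Option (Fin n ⊕ Fin n)) → Fin (n + 1) ⊕ Fin (n + 1)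
  | none => Sum.inl (Fin.last n)
  | some none => Sum.inr (Fin.last n)
  | some (some (Sum.inl i)) => Sum.inl i.castSucc
  | some (some (Sum.inr i)) => Sum.inr i.castSucc

/-- the equivalence of the variables -/
def eqv (n : ℕ) : Fin (n + 1) ⊕ Fin (n + 1) ≃ Option (Option (Fin n ⊕ Fin n)) where
  toFun := tog n
  invFun := ofg n
  left_inv := by
    rintro (i | i)
    · induction i using Fin.lastCases <;> simp [tog, ofg]
    · induction i using Fin.lastCases <;> simp [tog, ofg]
  right_inv := by
    rintro (_ | _ | i | i) <;> simp [tog, ofg]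

theorem eqv_inl_last (n : ℕ) : eqv n (Sum.inl (Fin.last n)) = none := by
  simp [eqv, tog]

theorem eqv_inr_last (n : ℕ) : eqv n (Sum.inr (Fin.last n)) = some none := by
  simp [eqv, tog]

theorem eqv_inl (n : ℕ) (i : Fin n) :
    eqv n (Sum.inl i.castSucc) = some (some (Sum.inl i)) := by
  simp [eqv, tog]

theorem eqv_inr (n : ℕ) (i : Fin n) :
    eqv n (Sum.inr i.castSucc) = some (some (Sum.inr i)) := by
  simp [eqv, tog]

/-- splitting off the two variables -/
noncomputable def big (S : Type*) [CommRing S] (n : ℕ) :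
    MvPowerSeries (Fin (n + 1) ⊕ Fin (n + 1)) S ≃+*
      PowerSeries (PowerSeries (MvPowerSeries (Fin n ⊕ Fin n) S)) :=
  ((MvPowerSeries.renameEquiv S (eqv n)).toRingEquiv.trans
    (MvPowerSeries.optionEquivLeft (Option (Fin n ⊕ Fin n)) S).toRingEquiv).trans
    (mapE (MvPowerSeries.optionEquivLeft (Fin n ⊕ Fin n) S).toRingEquiv)

theorem big_apply (n : ℕ) (f : MvPowerSeries (Fin (n + 1) ⊕ Fin (n + 1)) S) :
    big S n f = PowerSeries.map
      ((MvPowerSeries.optionEquivLeft (Fin n ⊕ Fin n) S).toRingEquiv : _ →+* _)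
      (MvPowerSeries.optionEquivLeft (Option (Fin n ⊕ Fin n)) S
        (MvPowerSeries.rename (eqv n) f)) := rfl

theorem big_C (n : ℕ) (a : S) :
    big S n (MvPowerSeries.C a) = PowerSeries.C (PowerSeries.C (MvPowerSeries.C a)) := by
  rw [big_apply, MvPowerSeries.rename_C, MvPowerSeries.optionEquivLeft_C, PowerSeries.map_C]
  congr 1
  exact MvPowerSeries.optionEquivLeft_C a

theorem big_inl_last (n : ℕ) :
    big S n (MvPowerSeries.X (Sum.inl (Fin.last n))) = PowerSeries.X := by
  rw [big_apply, MvPowerSeries.rename_X, eqv_inl_last, MvPowerSeries.optionEquivLeft_X_none,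
    PowerSeries.map_X]

theorem big_inr_last (n : ℕ) :
    big S n (MvPowerSeries.X (Sum.inr (Fin.last n))) = PowerSeries.C PowerSeries.X := by
  rw [big_apply, MvPowerSeries.rename_X, eqv_inr_last, MvPowerSeries.optionEquivLeft_X_some,
    PowerSeries.map_C]
  congr 1
  exact MvPowerSeries.optionEquivLeft_X_none

theorem big_inl (n : ℕ) (i : Fin n) :
    big S n (MvPowerSeries.X (Sum.inl i.castSucc)) =
      PowerSeries.C (PowerSeries.C (MvPowerSeries.X (Sum.inl i))) := by
  rw [big_apply, MvPowerSeries.rename_X, eqv_inl, MvPowerSeries.optionEquivLeft_X_some,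
    PowerSeries.map_C]
  congr 1
  exact MvPowerSeries.optionEquivLeft_X_some _

theorem big_inr (n : ℕ) (i : Fin n) :
    big S n (MvPowerSeries.X (Sum.inr i.castSucc)) =
      PowerSeries.C (PowerSeries.C (MvPowerSeries.X (Sum.inr i))) := by
  rw [big_apply, MvPowerSeries.rename_X, eqv_inr, MvPowerSeries.optionEquivLeft_X_some,
    PowerSeries.map_C]
  congr 1
  exact MvPowerSeries.optionEquivLeft_X_some _

end IsoB

/-- (job NT-26) Split off the last pair of variables, the last `x` becoming the outer variable and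
the last `y` the inner one: `MvPowerSeries.renameEquiv` for an equivalence
`Fin (n+1) ⊕ Fin (n+1) ≃ Option (Option (Fin n ⊕ Fin n))`, then `MvPowerSeries.optionEquivLeft`
twice. -/
theorem exists_equiv_par_succ (g : S) (n : ℕ) :
    ∃ e : MvPowerSeries (Fin (n + 1) ⊕ Fin (n + 1)) S ≃+*
        PowerSeries (PowerSeries (MvPowerSeries (Fin n ⊕ Fin n) S)),
      e (par g (n + 1)) = -(PowerSeries.X ^ 2 -
        PowerSeries.C (PowerSeries.X : PowerSeries (MvPowerSeries (Fin n ⊕ Fin n) S)) *
          PowerSeries.X - PowerSeries.C (PowerSeries.C (par g n))) := by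
  refine ⟨IsoB.big S n, ?_⟩
  simp only [par, map_sub, map_sum, map_pow, map_mul, Fin.sum_univ_castSucc, map_add,
    IsoB.big_C, IsoB.big_inl, IsoB.big_inr, IsoB.big_inl_last, IsoB.big_inr_last]
  ring

/-- (job NT-26) -/
theorem exists_equiv_par_zero (g : S) :
    ∃ e : S ≃+* MvPowerSeries (Fin 0 ⊕ Fin 0) S, e g = par g 0 := by
  refine ⟨(MvPowerSeries.isEmptyEquiv (Fin 0 ⊕ Fin 0) S).toRingEquiv.symm, ?_⟩
  simp only [par, Finset.univ_eq_empty, Finset.sum_empty, sub_zero]
  rfl

end Pool.Agent.H27.NT
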