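import Mathlib

/-!
# Completeness of power series rings (job NT-23)
-/

open IsLocalRing

namespace Pool.Agent.H27.NT

universe u

instance psLocal (Q : Type u) [CommRing Q] [IsLocalRing Q] : IsLocalRing (PowerSeries Q) :=
  inferInstanceAs (IsLocalRing (MvPowerSeries Unit Q))

theorem mem_max_ps (Q : Type u) [CommRing Q] [IsLocalRing Q] (f : PowerSeries Q) :
    f ∈ maximalIdeal (PowerSeries Q) ↔ PowerSeries.constantCoeff f ∈ maximalIdeal Q := by
  rw [mem_maximalIdeal, mem_maximalIdeal, mem_nonunits_iff, mem_nonunits_iff,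
    PowerSeries.isUnit_iff_constantCoeff]

/-- The ideal of power series whose `i`-th coefficient lies in `m^(n-i)`. -/
def psIdeal (Q : Type u) [CommRing Q] (m : Ideal Q) (n : ℕ) : Ideal (PowerSeries Q) where
  carrier := {f | ∀ i, PowerSeries.coeff i f ∈ m ^ (n - i)}
  add_mem' := by
    intro a b ha hb i
    rw [map_add]
    exact add_mem (ha i) (hb i)
  zero_mem' := by
    intro i
    simp
  smul_mem' := by
    intro c f hf i
    rw [smul_eq_mul, PowerSeries.coeff_mul]
    refine Ideal.sum_mem _ fun p hp => ?_
    have h1 := hf p.2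
    have h2 : m ^ (n - p.2) ≤ m ^ (n - i) := by
      apply Ideal.pow_le_pow_right
      have : p.1 + p.2 = i := by simpa using hp
      omega
    exact Ideal.mul_mem_left _ _ (h2 h1)

theorem psIdeal_mul (Q : Type u) [CommRing Q] (m : Ideal Q) (a b : ℕ) :
    psIdeal Q m a * psIdeal Q m b ≤ psIdeal Q m (a + b) := by
  rw [Ideal.mul_le]
  intro f hf g hg i
  rw [PowerSeries.coeff_mul]
  refine Ideal.sum_mem _ fun p hp => ?_
  have h := Ideal.mul_mem_mul (hf p.1) (hg p.2)
  rw [← pow_add] at h
  refine Ideal.pow_le_pow_right ?_ h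
  have : p.1 + p.2 = i := by simpa using hp
  omega

theorem pow_max_le (Q : Type u) [CommRing Q] [IsLocalRing Q] (n : ℕ) :
    maximalIdeal (PowerSeries Q) ^ n ≤ psIdeal Q (maximalIdeal Q) n := by
  induction n with
  | zero =>
    intro f _ i
    simp
  | succ n ih =>
    have h1 : maximalIdeal (PowerSeries Q) ≤ psIdeal Q (maximalIdeal Q) 1 := by
      intro f hf i
      rcases i with _ | i
      · have := (mem_max_ps Q f).1 hf
        simpa using this
      · simp
    rw [pow_succ]
    exact le_trans (Ideal.mul_mono ih h1) (psIdeal_mul Q _ n 1)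

theorem le_pow_max (Q : Type u) [CommRing Q] [IsLocalRing Q] (n : ℕ) :
    psIdeal Q (maximalIdeal Q) n ≤ maximalIdeal (PowerSeries Q) ^ n := by
  have hX : (PowerSeries.X : PowerSeries Q) ∈ maximalIdeal (PowerSeries Q) := by
    rw [mem_max_ps]
    simp
  have hC : (maximalIdeal Q).map (PowerSeries.C (R := Q)) ≤ maximalIdeal (PowerSeries Q) := by
    rw [Ideal.map_le_iff_le_comap]
    intro a ha
    rw [Ideal.mem_comap, mem_max_ps]
    simpa using ha
  have hCk : ∀ k (a : Q), a ∈ maximalIdeal Q ^ k →
      PowerSeries.C a ∈ maximalIdeal (PowerSeries Q) ^ k := by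
    intro k a ha
    have h := Ideal.mem_map_of_mem (PowerSeries.C (R := Q)) ha
    rw [Ideal.map_pow] at h
    exact Ideal.pow_right_mono hC k h
  induction n with
  | zero =>
    intro f _
    simp
  | succ n ih =>
    intro f hf
    rw [PowerSeries.eq_X_mul_shift_add_const f]
    refine add_mem ?_ ?_
    · rw [pow_succ']
      refine Ideal.mul_mem_mul hX (ih ?_)
      intro i
      rw [PowerSeries.coeff_mk]
      have h := hf (i + 1)
      have e : n + 1 - (i + 1) = n - i := by omega
      rwa [e] at h
    · apply hCk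
      have h := hf 0
      simpa using h

theorem mem_pow_max_iff (Q : Type u) [CommRing Q] [IsLocalRing Q] (n : ℕ) (f : PowerSeries Q) :
    f ∈ maximalIdeal (PowerSeries Q) ^ n ↔
      ∀ i, PowerSeries.coeff i f ∈ maximalIdeal Q ^ (n - i) :=
  ⟨fun h => pow_max_le Q n h, fun h => le_pow_max Q n h⟩

theorem smod_iff {R : Type u} [CommRing R] (I : Ideal R) (x y : R) :
    x ≡ y [SMOD (I • ⊤ : Submodule R R)] ↔ x - y ∈ I := by
  rw [SModEq.sub_mem, smul_eq_mul, Ideal.mul_top]

/-- (job NT-23) Power series over a complete Noetherian local ring are complete.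
Proof. The maximal ideal is `J = (m, w)`, and `f ∈ J^n` iff `coeff i f ∈ m^(n-i)` for all
`i < n` (if all coefficients of index `< n` are of this form then `f` is a finite sum of
`a_i w^i`, `a_i ∈ m^(n-i)`, plus a multiple of `w^n`). Hausdorff: coefficientwise. Precomplete: a
`J`-adic Cauchy sequence has, for each `i`, an `m`-adic Cauchy sequence of `i`-th coefficients;
take the limits. -/
instance psComplete (Q : Type u) [CommRing Q] [IsLocalRing Q] [IsNoetherianRing Q]
    [IsAdicComplete (maximalIdeal Q) Q] :
    IsAdicComplete (maximalIdeal (PowerSeries Q)) (PowerSeries Q) := by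
  have hH : IsHausdorff (maximalIdeal Q) Q := inferInstance
  have hP : IsPrecomplete (maximalIdeal Q) Q := inferInstance
  refine { haus' := ?_, prec' := ?_ }
  · intro f hf
    ext i
    rw [map_zero]
    apply hH.haus'
    intro n
    have h := hf (n + i)
    rw [smod_iff, sub_zero, mem_pow_max_iff] at h
    have h' := h i
    rw [Nat.add_sub_cancel] at h'
    rw [smod_iff, sub_zero]
    exact h'
  · intro f hf
    have hf' : ∀ m n i, m ≤ n →
        PowerSeries.coeff i (f m) - PowerSeries.coeff i (f n) ∈ maximalIdeal Q ^ (m - i) := by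
      intro m n i hmn
      have h := hf hmn
      rw [smod_iff, mem_pow_max_iff] at h
      have h' := h i
      rwa [map_sub] at h'
    have hL : ∀ i, ∃ L : Q, ∀ k, PowerSeries.coeff i (f (k + i)) ≡ L
        [SMOD ((maximalIdeal Q) ^ k • ⊤ : Submodule Q Q)] := by
      intro i
      apply hP.prec'
      intro k l hkl
      rw [smod_iff]
      have h := hf' (k + i) (l + i) i (by omega)
      rwa [Nat.add_sub_cancel] at h
    choose L hL using hL
    refine ⟨PowerSeries.mk L, fun n => ?_⟩
    rw [smod_iff, mem_pow_max_iff]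
    intro i
    rw [map_sub, PowerSeries.coeff_mk]
    by_cases hin : i ≤ n
    · have h := hL i (n - i)
      rw [Nat.sub_add_cancel hin, smod_iff] at h
      exact h
    · have h0 : n - i = 0 := by omega
      rw [h0, pow_zero, Ideal.one_eq_top]
      trivial

end Pool.Agent.H27.NT
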