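import Pool.Agent.H27.NT.KB
import Pool.Agent.H27.NT.NiceA

/-!
# Weierstrass (job NT-27)
-/

open IsLocalRing

namespace Pool.Agent.H27.NT

universe u

theorem isoC_aux {A : Type u} [CommRing A] {I : Ideal A} [IsAdicComplete I A] {g : Polynomial A}
    (H : g.IsDistinguishedAt I) :
    Nonempty ((Polynomial A ⧸ Ideal.span {g}) ≃+*
      PowerSeries A ⧸ Ideal.span {(g : PowerSeries A)}) :=
  ⟨H.algEquivQuotient.toRingEquiv⟩

theorem isDistinguishedAt_kpoly {Q : Type u} [CommRing Q] [IsLocalRing Q] (f : Q)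
    (hf : f ∈ maximalIdeal Q) :
    (kpoly f).IsDistinguishedAt (maximalIdeal (PowerSeries Q)) := by
  refine ⟨⟨?_⟩, kpoly_monic f⟩
  intro n hn
  rw [kpoly_natDegree] at hn
  have hX : (PowerSeries.X : PowerSeries Q) ∈ maximalIdeal (PowerSeries Q) := by
    rw [mem_max_ps]
    simp
  have hC : (PowerSeries.C f : PowerSeries Q) ∈ maximalIdeal (PowerSeries Q) := by
    rw [mem_max_ps]
    simpa using hf
  interval_cases n
  · simpa [kpoly] using hC
  · have : (kpoly f).coeff 1 = -(PowerSeries.X : PowerSeries Q) := by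
      simp [kpoly, Polynomial.coeff_X_pow, Polynomial.coeff_C]
    rw [this]
    exact neg_mem hX

/-- (job NT-27) Weierstrass: `kpoly f` is distinguished at the maximal ideal
(`Polynomial.IsDistinguishedAt.algEquivQuotient`). -/
theorem exists_equiv_KB {Q : Type u} [CommRing Q] [IsLocalRing Q] [IsNoetherianRing Q]
    [IsAdicComplete (maximalIdeal Q) Q] (f : Q) (hf : f ∈ maximalIdeal Q) :
    Nonempty (KB f ≃+* PowerSeries (PowerSeries Q) ⧸ Ideal.span {-(PowerSeries.X ^ 2 -
        PowerSeries.C (PowerSeries.X : PowerSeries Q) * PowerSeries.X -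
          PowerSeries.C (PowerSeries.C f))}) := by
  have H := isDistinguishedAt_kpoly f hf
  obtain ⟨e1⟩ := isoC_aux H
  have e2 : Ideal.span {((kpoly f : Polynomial (PowerSeries Q)) : PowerSeries (PowerSeries Q))} =
      Ideal.span {-(PowerSeries.X ^ 2 -
        PowerSeries.C (PowerSeries.X : PowerSeries Q) * PowerSeries.X -
          PowerSeries.C (PowerSeries.C f))} := by
    rw [Ideal.span_singleton_neg]
    congr 2
    simp [kpoly]
  exact ⟨e1.trans (Ideal.quotEquivOfEq e2)⟩

/-- (job NT-27) A quotient of a local power series ring. -/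
theorem isLocalRing_KB {Q : Type u} [CommRing Q] [IsLocalRing Q] [IsNoetherianRing Q]
    [IsAdicComplete (maximalIdeal Q) Q] (f : Q) (hf : f ∈ maximalIdeal Q) :
    IsLocalRing (KB f) := by
  obtain ⟨e⟩ := exists_equiv_KB f hf
  have hne : Ideal.span {-(PowerSeries.X ^ 2 -
        PowerSeries.C (PowerSeries.X : PowerSeries Q) * PowerSeries.X -
          PowerSeries.C (PowerSeries.C f))} ≠ (⊤ : Ideal (PowerSeries (PowerSeries Q))) := by
    intro h
    rw [Ideal.span_singleton_eq_top] at h
    have h1 := (h.map (PowerSeries.constantCoeff (R := PowerSeries Q))).map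
      (PowerSeries.constantCoeff (R := Q))
    simp at h1
    exact (mem_maximalIdeal f).1 hf h1
  have : Nontrivial (PowerSeries (PowerSeries Q) ⧸ Ideal.span {-(PowerSeries.X ^ 2 -
        PowerSeries.C (PowerSeries.X : PowerSeries Q) * PowerSeries.X -
          PowerSeries.C (PowerSeries.C f))}) := Ideal.Quotient.nontrivial_iff.mpr hne
  have : IsLocalRing (PowerSeries (PowerSeries Q) ⧸ Ideal.span {-(PowerSeries.X ^ 2 -
        PowerSeries.C (PowerSeries.X : PowerSeries Q) * PowerSeries.X -
          PowerSeries.C (PowerSeries.C f))}) :=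
    IsLocalRing.of_surjective' (Ideal.Quotient.mk _) Ideal.Quotient.mk_surjective
  exact e.symm.isLocalRing

end Pool.Agent.H27.NT
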