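import Mathlib

/-!
# The power series `g + ∑ x_i y_i`
-/

open IsLocalRing

namespace Pool.Agent.H27.NT

universe u

variable {S : Type u} [CommRing S]

/-- `g + ∑ x_i y_i` -/
noncomputable def hyp (g : S) (n : ℕ) : MvPowerSeries (Fin n ⊕ Fin n) S :=
  MvPowerSeries.C g + ∑ i : Fin n, MvPowerSeries.X (Sum.inl i) * MvPowerSeries.X (Sum.inr i)

/-- `g - ∑ (x_i² - y_i x_i)` -/
noncomputable def par (g : S) (n : ℕ) : MvPowerSeries (Fin n ⊕ Fin n) S :=
  MvPowerSeries.C g - ∑ i : Fin n, (MvPowerSeries.X (Sum.inl i) ^ 2 -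
    MvPowerSeries.X (Sum.inr i) * MvPowerSeries.X (Sum.inl i))

end Pool.Agent.H27.NT
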