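import Pool.Agent.H27.NT.Pull

/-!
# The ring `B = Q⟦w⟧[X]/(X² - w X - f)` (job NT-12)
-/

open IsLocalRing Polynomial

namespace Pool.Agent.H27.NT

universe u

variable {Q : Type u} [CommRing Q]

/-- `X² - w X - f` -/
noncomputable def kpoly (f : Q) : Polynomial (PowerSeries Q) :=
  X ^ 2 - C (PowerSeries.X) * X - C (PowerSeries.C f)

/-- `Q⟦w⟧[X]/(X² - w X - f)` -/
abbrev KB (f : Q) : Type u := AdjoinRoot (kpoly f)

theorem kpoly_monic [Nontrivial Q] (f : Q) : (kpoly f).Monic := by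
  unfold kpoly
  monicity!

theorem kpoly_natDegree [Nontrivial Q] (f : Q) : (kpoly f).natDegree = 2 := by
  unfold kpoly
  compute_degree!

instance KB.finite [Nontrivial Q] (f : Q) : Module.Finite (PowerSeries Q) (KB f) :=
  (kpoly_monic f).finite_adjoinRoot

instance KB.free [Nontrivial Q] (f : Q) : Module.Free (PowerSeries Q) (KB f) :=
  (kpoly_monic f).free_adjoinRoot

/-- The ring map `B → (Q/f)⟦w⟧`, `X ↦ 0`. -/
noncomputable def kq (f : Q) : KB f →+* PowerSeries (Q ⧸ Ideal.span {f}) :=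
  AdjoinRoot.lift (PowerSeries.map (Ideal.Quotient.mk (Ideal.span {f}))) 0 (by
    have h : (Ideal.Quotient.mk (Ideal.span {f})) f = 0 :=
      Ideal.Quotient.eq_zero_iff_mem.mpr (Ideal.mem_span_singleton_self f)
    simp [kpoly, h])

theorem kq_surjective (f : Q) : Function.Surjective (kq f) := by
  intro y
  obtain ⟨x, hx⟩ := PowerSeries.map_surjective _ Ideal.Quotient.mk_surjective y
  refine ⟨AdjoinRoot.of (kpoly f) x, ?_⟩
  unfold kq
  rw [AdjoinRoot.lift_of]
  exact hx

theorem kb_root_mul_inj [IsDomain Q] (f : Q) (hf : f ≠ 0) (u : KB f)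
    (hu : AdjoinRoot.root (kpoly f) * u = 0) : u = 0 := by
  obtain ⟨p, rfl⟩ := AdjoinRoot.mk_surjective u
  rw [← AdjoinRoot.mk_X, ← map_mul, AdjoinRoot.mk_eq_zero] at hu
  rw [AdjoinRoot.mk_eq_zero]
  obtain ⟨q, hq⟩ := hu
  have h1 : (X : Polynomial (PowerSeries Q)) ∣ kpoly f * q := ⟨p, hq.symm⟩
  rcases Polynomial.prime_X.dvd_or_dvd h1 with h2 | h2
  · exfalso
    rw [Polynomial.X_dvd_iff] at h2
    apply hf
    have h3 : (kpoly f).coeff 0 = - PowerSeries.C f := by
      simp [kpoly, Polynomial.coeff_zero_eq_eval_zero]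
    rw [h3, neg_eq_zero] at h2
    have h4 := congrArg PowerSeries.constantCoeff h2
    simpa using h4
  · obtain ⟨r, rfl⟩ := h2
    refine ⟨r, ?_⟩
    have h5 : (X : Polynomial (PowerSeries Q)) * p = X * (kpoly f * r) := by
      rw [hq]
      ring
    exact mul_left_cancel₀ Polynomial.X_ne_zero h5

theorem kb_of_f (f : Q) : AdjoinRoot.of (kpoly f) (PowerSeries.C f) =
    AdjoinRoot.root (kpoly f) *
      (AdjoinRoot.root (kpoly f) - AdjoinRoot.of (kpoly f) PowerSeries.X) := by
  have h := AdjoinRoot.mk_self (f := kpoly f)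
  have h2 : AdjoinRoot.mk (kpoly f) (kpoly f) = AdjoinRoot.root (kpoly f) ^ 2 -
      AdjoinRoot.of (kpoly f) PowerSeries.X * AdjoinRoot.root (kpoly f) -
      AdjoinRoot.of (kpoly f) (PowerSeries.C f) := by
    have h3 : AdjoinRoot.mk (kpoly f) (X ^ 2 - C (PowerSeries.X) * X - C (PowerSeries.C f)) =
      AdjoinRoot.root (kpoly f) ^ 2 -
      AdjoinRoot.of (kpoly f) PowerSeries.X * AdjoinRoot.root (kpoly f) -
      AdjoinRoot.of (kpoly f) (PowerSeries.C f) := by
      rw [map_sub, map_sub, map_mul, map_pow, AdjoinRoot.mk_X, AdjoinRoot.mk_C, AdjoinRoot.mk_C]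
    exact h3
  rw [h2] at h
  linear_combination -h

theorem kb_exact (f : Q) (u : KB f) (hu : kq f u = 0) :
    ∃ v : KB f, AdjoinRoot.root (kpoly f) * v = u := by
  obtain ⟨p, rfl⟩ := AdjoinRoot.mk_surjective u
  unfold kq at hu
  rw [AdjoinRoot.lift_mk, Polynomial.eval₂_at_zero] at hu
  have h1 : ∀ n, ∃ g : Q, PowerSeries.coeff n (p.coeff 0) = f * g := by
    intro n
    have h2 := congrArg (PowerSeries.coeff n) hu
    rw [PowerSeries.coeff_map, map_zero, Ideal.Quotient.eq_zero_iff_mem,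
      Ideal.mem_span_singleton] at h2
    exact h2
  choose g hg using h1
  have h3 : p.coeff 0 = PowerSeries.C f * PowerSeries.mk g := by
    ext n
    rw [hg n, PowerSeries.coeff_C_mul, PowerSeries.coeff_mk]
  refine ⟨AdjoinRoot.mk (kpoly f) p.divX + (AdjoinRoot.root (kpoly f) -
    AdjoinRoot.of (kpoly f) PowerSeries.X) * AdjoinRoot.of (kpoly f) (PowerSeries.mk g), ?_⟩
  have h4 : AdjoinRoot.mk (kpoly f) p = AdjoinRoot.root (kpoly f) *
      AdjoinRoot.mk (kpoly f) p.divX + AdjoinRoot.of (kpoly f) (p.coeff 0) := by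
    conv_lhs => rw [← Polynomial.X_mul_divX_add p]
    rw [map_add, map_mul, AdjoinRoot.mk_X, AdjoinRoot.mk_C]
  rw [h4, h3, map_mul, kb_of_f]
  ring

/-- (job NT-12) `X` is a nonzerodivisor of `B` with `B/X = (Q/f)⟦w⟧`; so if `lam B = 0` then
`lam ((Q/f)⟦w⟧) = 0`. -/
theorem AddFn.ps_self [IsDomain Q] (f : Q) (hf : f ≠ 0) (lam : AddFn (KB f))
    (h : lam.val (KB f) = 0) :
    (lam.ps (kq f) (kq_surjective f)).val (Q ⧸ Ideal.span {f}) = 0 := by
  let _ : Module (KB f) (PSM (Q ⧸ Ideal.span {f})) := psModule (kq f) (Q ⧸ Ideal.span {f})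
  let e : PowerSeries (Q ⧸ Ideal.span {f}) →+ PSM (Q ⧸ Ideal.span {f}) :=
    { toFun := fun g n => PowerSeries.coeff n g
      map_zero' := by
        funext n
        exact map_zero _
      map_add' := fun g h => by
        funext n
        exact map_add _ g h }
  have he : ∀ g h : PowerSeries (Q ⧸ Ideal.span {f}), e (g * h) = g • e h := by
    intro g h
    funext n
    rw [PSM.smul_apply]
    exact PowerSeries.coeff_mul n g h
  let m1 : KB f →ₗ[KB f] KB f := LinearMap.mulLeft (KB f) (AdjoinRoot.root (kpoly f))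
  let m2 : KB f →ₗ[KB f] PSM (Q ⧸ Ideal.span {f}) :=
    { toFun := fun u => e (kq f u)
      map_add' := fun u v => by rw [map_add, map_add]
      map_smul' := fun u v => by
        rw [smul_eq_mul, map_mul, he]
        rfl }
  have hadd := lam.add m1 m2 ?_ ?_ ?_
  · change lam.val (PSM (Q ⧸ Ideal.span {f})) = 0
    omega
  · rw [injective_iff_map_eq_zero]
    intro u hu
    exact kb_root_mul_inj f hf u hu
  · intro v
    obtain ⟨u, hu⟩ := kq_surjective f (PowerSeries.mk v)
    refine ⟨u, ?_⟩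
    change e (kq f u) = v
    rw [hu]
    funext n
    exact PowerSeries.coeff_mk n v
  · intro u
    constructor
    · intro hu
      obtain ⟨v, hv⟩ := kb_exact f u (by
        ext n
        exact congrFun hu n)
      exact ⟨v, hv⟩
    · rintro ⟨v, rfl⟩
      change e (kq f (AdjoinRoot.root (kpoly f) * v)) = 0
      rw [map_mul]
      have h0 : kq f (AdjoinRoot.root (kpoly f)) = 0 := by
        unfold kq
        exact AdjoinRoot.lift_root _
      rw [h0, zero_mul, map_zero]

end Pool.Agent.H27.NT
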