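import Mathlib

/-!
# Syzygies over regular local rings (job NT-20)
-/

open IsLocalRing

namespace Pool.Agent.H27.NT

universe u

open scoped Pointwise

/-- `K` is a `D`-fold syzygy of a finitely generated module. -/
def Syz (P : Type u) [CommRing P] : ℕ → ∀ (K : Type u) [AddCommGroup K] [Module P K], Prop
  | 0, K, _, _ => Module.Finite P K
  | D + 1, K, _, _ => ∃ (F C : Type u) (_ : AddCommGroup F) (_ : Module P F)
      (_ : AddCommGroup C) (_ : Module P C) (i : K →ₗ[P] F) (p : F →ₗ[P] C),
      Module.Free P F ∧ Module.Finite P F ∧ Syz P D C ∧ Function.Injective i ∧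
        Function.Surjective p ∧ Function.Exact i p

/-- `P` is a Noetherian local ring whose maximal ideal is generated by a regular sequence. -/
def RegGen (P : Type u) [CommRing P] [IsLocalRing P] : Prop :=
  ∃ rs : List P, RingTheory.Sequence.IsWeaklyRegular P rs ∧ Ideal.ofList rs = maximalIdeal P

theorem reg_ker {P : Type u} [CommRing P] (as : List P) : ∀ (b : P) {K F C : Type u}
    [AddCommGroup K] [Module P K] [AddCommGroup F] [Module P F] [AddCommGroup C] [Module P C]
    (i : K →ₗ[P] F) (p : F →ₗ[P] C), Function.Injective i → Function.Surjective p →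
    Function.Exact i p → RingTheory.Sequence.IsWeaklyRegular C as →
    RingTheory.Sequence.IsWeaklyRegular F (as ++ [b]) →
    RingTheory.Sequence.IsWeaklyRegular K (as ++ [b]) := by
  induction as with
  | nil =>
    intro b K F C _ _ _ _ _ _ i p hi _ _ _ hF
    rw [List.nil_append, RingTheory.Sequence.isWeaklyRegular_singleton_iff] at hF ⊢
    intro x y hxy
    refine hi (hF ?_)
    change b • i x = b • i y
    rw [← map_smul, ← map_smul]
    exact congrArg i hxy
  | cons a as ih =>
    intro b K F C _ _ _ _ _ _ i p hi hp hip hC hF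
    rw [List.cons_append, RingTheory.Sequence.isWeaklyRegular_cons_iff] at hF ⊢
    rw [RingTheory.Sequence.isWeaklyRegular_cons_iff] at hC
    obtain ⟨hF1, hF2⟩ := hF
    obtain ⟨hC1, hC2⟩ := hC
    refine ⟨?_, ?_⟩
    · intro x y hxy
      refine hi (hF1 ?_)
      change a • i x = a • i y
      rw [← map_smul, ← map_smul]
      exact congrArg i hxy
    · refine ih b (QuotSMulTop.map a i) (QuotSMulTop.map a p) ?_
        (QuotSMulTop.map_surjective a hp) (QuotSMulTop.map_exact a hip hp) hC2 hF2
      rw [injective_iff_map_eq_zero]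
      intro x hx
      obtain ⟨x, rfl⟩ := Submodule.mkQ_surjective _ x
      change (Submodule.Quotient.mk (i x) : QuotSMulTop a F) = 0 at hx
      rw [Submodule.Quotient.mk_eq_zero] at hx
      obtain ⟨y, _, hy⟩ := (Submodule.mem_smul_pointwise_iff_exists _ _ _).mp hx
      have hpy : a • p y = a • (0 : C) := by
        rw [← map_smul, hy, smul_zero]
        exact (hip (i x)).mpr ⟨x, rfl⟩
      have hpy' : p y = 0 := hC1 hpy
      obtain ⟨z, hz⟩ := (hip y).mp hpy'
      have hxz : x = a • z := by
        apply hi
        rw [map_smul, hz, hy]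
      change (Submodule.Quotient.mk x : QuotSMulTop a K) = 0
      rw [Submodule.Quotient.mk_eq_zero, hxz]
      exact Submodule.smul_mem_pointwise_smul _ _ _ trivial

theorem reg_free {P : Type u} [CommRing P] {rs : List P}
    (h : RingTheory.Sequence.IsWeaklyRegular P rs) (F : Type u) [AddCommGroup F] [Module P F]
    [Module.Free P F] : RingTheory.Sequence.IsWeaklyRegular F rs :=
  ((TensorProduct.rid P F).isWeaklyRegular_congr rs).mp h.isWeaklyRegular_lTensor

theorem Syz.reg {P : Type u} [CommRing P] [IsNoetherianRing P] : ∀ (D : ℕ) (K : Type u)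
    [AddCommGroup K] [Module P K], Syz P D K → Module.Finite P K ∧ ∀ rs : List P,
      RingTheory.Sequence.IsWeaklyRegular P rs → rs.length ≤ D →
        RingTheory.Sequence.IsWeaklyRegular K rs := by
  intro D
  induction D with
  | zero =>
    intro K _ _ h
    refine ⟨h, fun rs _ hlen => ?_⟩
    have : rs = [] := List.length_eq_zero_iff.mp (Nat.le_zero.mp hlen)
    rw [this]
    exact RingTheory.Sequence.IsWeaklyRegular.nil P K
  | succ D ih =>
    intro K _ _ h
    obtain ⟨F, C, _, _, _, _, i, p, hfree, hfin, hC, hi, hp, hip⟩ := h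
    refine ⟨Module.Finite.of_injective i hi, fun rs hrs hlen => ?_⟩
    rcases List.eq_nil_or_concat rs with h0 | ⟨as, b, h0⟩
    · rw [h0]
      exact RingTheory.Sequence.IsWeaklyRegular.nil P K
    · have h0' : rs = as ++ [b] := by rw [h0, List.concat_eq_append]
      subst h0'
      rw [List.length_append, List.length_singleton] at hlen
      have has : RingTheory.Sequence.IsWeaklyRegular P as :=
        ((RingTheory.Sequence.isWeaklyRegular_append_iff P as [b]).mp hrs).1
      exact reg_ker as b i p hi hp hip ((ih C hC).2 as has (by omega)) (reg_free hrs F)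

theorem inj_of_reg {P : Type u} [CommRing P] [IsLocalRing P] [IsNoetherianRing P] (rs : List P) :
    (∀ r ∈ rs, r ∈ maximalIdeal P) → ∀ {E K : Type u} [AddCommGroup E] [Module P E]
    [Module.Finite P E] [AddCommGroup K] [Module P K] (f : E →ₗ[P] K),
    RingTheory.Sequence.IsWeaklyRegular K rs →
    (∀ x, f x ∈ (Ideal.ofList rs • ⊤ : Submodule P K) →
      x ∈ (Ideal.ofList rs • ⊤ : Submodule P E)) → Function.Injective f := by
  induction rs with
  | nil =>
    intro _ E K _ _ _ _ _ f _ h
    rw [injective_iff_map_eq_zero]
    intro x hx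
    have := h x (by rw [hx]; exact Submodule.zero_mem _)
    rwa [Ideal.ofList_nil, Submodule.bot_smul, Submodule.mem_bot] at this
  | cons a rs ih =>
    intro hmem E K _ _ _ _ _ f hK h
    rw [RingTheory.Sequence.isWeaklyRegular_cons_iff] at hK
    obtain ⟨hK1, hK2⟩ := hK
    have hbar : Function.Injective (QuotSMulTop.map a f) := by
      refine ih (fun r hr => hmem r (List.mem_cons_of_mem _ hr)) (QuotSMulTop.map a f) hK2 ?_
      intro x hx
      obtain ⟨x, rfl⟩ := Submodule.mkQ_surjective _ x
      change (Submodule.mkQ (a • ⊤ : Submodule P K)) (f x) ∈ _ at hx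
      have e1 : (Ideal.ofList rs • ⊤ : Submodule P (QuotSMulTop a K)) =
          Submodule.map (Submodule.mkQ (a • ⊤ : Submodule P K)) (Ideal.ofList rs • ⊤) := by
        rw [Submodule.map_smul'', Submodule.map_top, Submodule.range_mkQ]
      have e2 : (Ideal.ofList rs • ⊤ : Submodule P (QuotSMulTop a E)) =
          Submodule.map (Submodule.mkQ (a • ⊤ : Submodule P E)) (Ideal.ofList rs • ⊤) := by
        rw [Submodule.map_smul'', Submodule.map_top, Submodule.range_mkQ]
      rw [e1] at hx
      rw [e2]
      obtain ⟨y, hy, hyx⟩ := hx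
      have hsub : f x - y ∈ (a • ⊤ : Submodule P K) := by
        rw [← Submodule.Quotient.mk_eq_zero, Submodule.Quotient.mk_sub]
        rw [sub_eq_zero]
        exact hyx.symm
      have hfx : f x ∈ (Ideal.ofList (a :: rs) • ⊤ : Submodule P K) := by
        rw [Ideal.ofList_cons_smul]
        have : f x = (f x - y) + y := by abel
        rw [this]
        exact Submodule.add_mem_sup hsub hy
      have hx' := h x hfx
      rw [Ideal.ofList_cons_smul] at hx'
      obtain ⟨u, hu, v, hv, huv⟩ := Submodule.mem_sup.mp hx'
      refine ⟨v, hv, ?_⟩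
      rw [← huv, map_add]
      have : (Submodule.mkQ (a • ⊤ : Submodule P E)) u = 0 := by
        rw [Submodule.mkQ_apply, Submodule.Quotient.mk_eq_zero]
        exact hu
      rw [this, zero_add]
    have hL : LinearMap.ker f = ⊥ := by
      refine Submodule.eq_bot_of_le_smul_of_le_jacobson_bot (Ideal.span {a}) _
        (IsNoetherian.noetherian _) ?_ ?_
      · intro x hx
        rw [LinearMap.mem_ker] at hx
        have hx0 : (QuotSMulTop.map a f) (Submodule.Quotient.mk x) = 0 := by
          rw [QuotSMulTop.map_apply_mk, hx, Submodule.Quotient.mk_zero]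
        have hx1 : (Submodule.Quotient.mk x : QuotSMulTop a E) = 0 := by
          apply hbar
          rw [hx0, map_zero]
        rw [Submodule.Quotient.mk_eq_zero] at hx1
        obtain ⟨y, _, hy⟩ := (Submodule.mem_smul_pointwise_iff_exists _ _ _).mp hx1
        have hfy : a • f y = a • (0 : K) := by
          rw [← map_smul, hy, hx, smul_zero]
        have hfy' : f y = 0 := hK1 hfy
        rw [← hy]
        exact Submodule.smul_mem_smul (Ideal.mem_span_singleton_self a) (LinearMap.mem_ker.mpr hfy')
      · rw [IsLocalRing.jacobson_eq_maximalIdeal _ bot_ne_top, Ideal.span_singleton_le_iff_mem]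
        exact hmem a List.mem_cons_self
    exact LinearMap.ker_eq_bot.mp hL

open TensorProduct in
theorem free_of_reg {P : Type u} [CommRing P] [IsLocalRing P] [IsNoetherianRing P] (rs : List P)
    (hm : Ideal.ofList rs = maximalIdeal P) (K : Type u) [AddCommGroup K] [Module P K]
    [Module.Finite P K] (hK : RingTheory.Sequence.IsWeaklyRegular K rs) : Module.Free P K := by
  classical
  let k := ResidueField P
  let b := Module.finBasis k (k ⊗[P] K)
  have hsurj : Function.Surjective (TensorProduct.mk P k K 1) :=
    TensorProduct.mk_surjective P K k Ideal.Quotient.mk_surjective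
  choose v hv using fun i => hsurj (b i)
  have hspan := IsLocalRing.span_eq_top_of_tmul_eq_basis (R := P) v b (fun i => hv i)
  let f : (Fin (Module.finrank k (k ⊗[P] K)) → P) →ₗ[P] K := Fintype.linearCombination P v
  have hf : Function.Surjective f := by
    rw [← LinearMap.range_eq_top]
    change LinearMap.range (Fintype.linearCombination P v) = ⊤
    rw [Fintype.range_linearCombination, hspan]
  have hker : ∀ x, f x ∈ (Ideal.ofList rs • ⊤ : Submodule P K) →
      x ∈ (Ideal.ofList rs • ⊤ :
        Submodule P (Fin (Module.finrank k (k ⊗[P] K)) → P)) := by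
    intro x hx
    rw [hm] at hx ⊢
    have h0 : TensorProduct.mk P k K 1 (f x) = 0 := by
      refine Submodule.smul_induction_on hx ?_ ?_
      · intro r hr y _
        rw [map_smul]
        change r • ((1 : k) ⊗ₜ[P] y) = 0
        rw [TensorProduct.smul_tmul']
        have : r • (1 : k) = 0 := by
          rw [Algebra.smul_def, mul_one]
          exact Ideal.Quotient.eq_zero_iff_mem.mpr hr
        rw [this, TensorProduct.zero_tmul]
      · intro y z hy hz
        rw [map_add, hy, hz, add_zero]
    have h1 : ∑ i, (algebraMap P k (x i)) • b i = 0 := by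
      rw [← h0]
      change _ = TensorProduct.mk P k K 1 (Fintype.linearCombination P v x)
      rw [Fintype.linearCombination_apply, map_sum]
      refine Finset.sum_congr rfl fun i _ => ?_
      rw [map_smul, hv i, algebraMap_smul]
    have h2 : ∀ i, algebraMap P k (x i) = 0 :=
      Fintype.linearIndependent_iff.mp b.linearIndependent _ h1
    have h3 : ∀ i, x i ∈ maximalIdeal P := fun i => Ideal.Quotient.eq_zero_iff_mem.mp (h2 i)
    rw [← Finset.univ_sum_single x]
    refine Submodule.sum_mem _ fun i _ => ?_
    have : (Pi.single i (x i) : Fin (Module.finrank k (k ⊗[P] K)) → P) =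
        x i • Pi.single i (1 : P) := by
      rw [← Pi.single_smul, smul_eq_mul, mul_one]
    rw [this]
    exact Submodule.smul_mem_smul (h3 i) trivial
  have hinj : Function.Injective f := by
    refine inj_of_reg rs ?_ f hK hker
    intro r hr
    rw [← hm]
    exact Ideal.subset_span hr
  exact Module.Free.of_equiv (LinearEquiv.ofBijective f ⟨hinj, hf⟩)

/-- (job NT-20) Proof. Let `rs` have length `D`.
(1) If `0 → K → F → C → 0` is exact, `F` free, `r₁, …, r_i` weakly regular on `C` and
`r₁, …, r_(i+1)` weakly regular on `P`, then `r₁, …, r_(i+1)` is weakly regular on `K`: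
`r₁` is regular on `K ⊆ F`; if `i ≥ 1` then `0 → K/r₁ → F/r₁ → C/r₁ → 0` is exact, induct (over
`P/r₁`, or state everything over `P` with `F` of the form `(P/J)^n`). So a `D`-fold syzygy has
`rs` weakly regular.
(2) If `rs` generates the maximal ideal and is weakly regular on `P` and on the finitely generated
module `K`, then `K` is free: induction on `D`; take a minimal surjection `P^r → K` with kernel
`L`; `0 → L/r₁ → (P/r₁)^r → K/r₁ → 0` is exact, `K/r₁` is free over `P/r₁` of rank `r` by
induction, so `L/r₁ L = 0`, so `L = 0` by Nakayama. -/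
theorem Syz.free {P : Type u} [CommRing P] [IsLocalRing P] [IsNoetherianRing P] (h : RegGen P) :
    ∃ D : ℕ, ∀ (K : Type u) [AddCommGroup K] [Module P K], Syz P D K →
      Module.Free P K ∧ Module.Finite P K := by
  obtain ⟨rs, hrs, hm⟩ := h
  refine ⟨rs.length, fun K _ _ hK => ?_⟩
  obtain ⟨hfin, hreg⟩ := Syz.reg rs.length K hK
  exact ⟨free_of_reg rs hm K (hreg rs hrs le_rfl), hfin⟩

end Pool.Agent.H27.NT
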