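import Pool.Agent.H27.NT.MF
import Pool.Agent.H27.NT.Syz

/-!
# Reduction to modules free over `P` (job NT-22)
-/

open IsLocalRing

namespace Pool.Agent.H27.NT

universe u

variable {Q : Type u} [CommRing Q]

/-- (job NT-22) Reduction to modules that are free over `P = Q⟦w⟧`.
Proof. Given `N`, choose exact sequences `0 → K → B^n → N → 0` of `B`-modules, `D` times; the
last kernel is a `D`-fold syzygy over `P` (`B` is finite free over `P`), hence free over `P`, hence
of the form `MFM h` (`MFM.exists_equiv`); `lam (B^n) = 0`. -/
theorem AddFn.val_of_MFM [Nontrivial Q] [IsNoetherianRing Q] {f : Q} (D : ℕ)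
    (hD : ∀ (K : Type u) [AddCommGroup K] [Module (PowerSeries Q) K], Syz (PowerSeries Q) D K →
      Module.Free (PowerSeries Q) K ∧ Module.Finite (PowerSeries Q) K)
    (lam : AddFn (KB f)) (h0 : lam.val (KB f) = 0)
    (h : ∀ (m : ℕ) (Φ : Matrix (Fin m) (Fin m) (PowerSeries Q)) (h : IsMF f Φ),
      lam.val (MFM h) = 0)
    (N : Type u) [AddCommGroup N] [Module (KB f) N] [Module.Finite (KB f) N] :
    lam.val N = 0 := by
  have : IsNoetherianRing (KB f) :=
    isNoetherianRing_of_surjective (Polynomial (PowerSeries Q)) (KB f) (AdjoinRoot.mk (kpoly f))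
      (AdjoinRoot.mk_surjective)
  have key : ∀ (e j : ℕ), j + e = D → ∀ (N : Type u) [AddCommGroup N] [Module (KB f) N]
      [Module (PowerSeries Q) N] [IsScalarTower (PowerSeries Q) (KB f) N] [Module.Finite (KB f) N],
      Syz (PowerSeries Q) j N → lam.val N = 0 := by
    intro e
    induction e with
    | zero =>
      intro j hj N _ _ _ _ _ hN
      obtain rfl : j = D := by omega
      obtain ⟨h1, h2⟩ := hD N hN
      obtain ⟨m, Φ, hΦ, ⟨e⟩⟩ := MFM.exists_equiv (f := f) N
      rw [lam.val_congr e]
      exact h m Φ hΦ
    | succ e ih =>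
      intro j hj N _ _ _ _ _ hN
      obtain ⟨n, p, hp⟩ := Module.Finite.exists_fin' (KB f) N
      have h1 : lam.val (LinearMap.ker p) = 0 := by
        refine ih (j + 1) (by omega) (LinearMap.ker p) ?_
        refine ⟨Fin n → KB f, N, inferInstance, inferInstance, inferInstance, inferInstance,
          (LinearMap.ker p).subtype.restrictScalars (PowerSeries Q),
          p.restrictScalars (PowerSeries Q), inferInstance, inferInstance, hN,
          (LinearMap.ker p).subtype_injective, hp, ?_⟩
        exact LinearMap.exact_subtype_ker_map p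
      have h2 := lam.add (LinearMap.ker p).subtype p (LinearMap.ker p).subtype_injective hp
        (LinearMap.exact_subtype_ker_map p)
      rw [lam.val_pi, h0, h1] at h2
      linarith
  let _ : Module (PowerSeries Q) N := Module.compHom N (algebraMap (PowerSeries Q) (KB f))
  have : IsScalarTower (PowerSeries Q) (KB f) N := ⟨fun a b n => by
    change (a • b) • n = (algebraMap (PowerSeries Q) (KB f) a) • (b • n)
    rw [Algebra.smul_def, mul_smul]⟩
  refine key D 0 (by omega) N ?_
  exact Module.Finite.trans (KB f) N


end Pool.Agent.H27.NT
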