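import Pool.Agent.H27.NT.KnorA
import Pool.Agent.H27.NT.KnorB

/-!
# Knoerrer periodicity for additive functions
-/

open IsLocalRing

namespace Pool.Agent.H27.NT

universe u

variable {Q : Type u} [CommRing Q]

/-- Knoerrer periodicity for `TT`. -/
theorem TT_KB [IsDomain Q] [IsLocalRing Q] [IsNoetherianRing Q]
    [IsAdicComplete (maximalIdeal Q) Q] {f : Q} (hf : f ≠ 0) [IsLocalRing (KB f)]
    [IsLocalRing (Q ⧸ Ideal.span {f})] (hreg : RegGen (PowerSeries Q))
    (h : TT (Q ⧸ Ideal.span {f})) : TT (KB f) := by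
  intro lam hlam h0
  obtain ⟨D, hD⟩ := Syz.free hreg
  have h3 : ∀ (N : Type u) [AddCommGroup N] [Module (Q ⧸ Ideal.span {f}) N]
      [Module.Finite (Q ⧸ Ideal.span {f}) N],
      (lam.ps (kq f) (kq_surjective f)).val N = 0 :=
    h (lam.ps (kq f) (kq_surjective f)) (hlam.ps (kq f) (kq_surjective f))
      (lam.ps_self f hf h0)
  intro N _ _ _
  exact lam.val_of_MFM D hD h0 (fun m Φ hΦ => lam.val_MFM hf h0 h3 hΦ) N

end Pool.Agent.H27.NT
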