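import Pool.Agent.H27.NT.Expl
import Pool.Agent.H27.NT.Idem

/-!
# `lam` vanishes on `MFM` (job NT-21)
-/

open IsLocalRing

namespace Pool.Agent.H27.NT

universe u

variable {Q : Type u} [CommRing Q]

namespace NT21

variable {ι κ μ : Type} [Fintype ι] [DecidableEq ι] [Fintype κ] [DecidableEq κ] [Fintype μ]
  [DecidableEq μ]

theorem cm_mul (A : Matrix ι κ Q) (B : Matrix κ μ Q) : cm (A * B) = cm A * cm B :=
  Matrix.map_mul

theorem cm_add (A B : Matrix ι κ Q) : cm (A + B) = cm A + cm B := by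
  ext i j
  simp [cm]

theorem cm_sub (A B : Matrix ι κ Q) : cm (A - B) = cm A - cm B := by
  ext i j
  simp [cm]

theorem cm_one : cm (1 : Matrix ι ι Q) = 1 := by
  simp [cm]

/-- Diagonal blocks commute with the block matrices. -/
theorem diag_HB {ι' κ' : Type} [Fintype ι'] [DecidableEq ι'] [Fintype κ'] [DecidableEq κ']
    {φ : Matrix ι κ Q} {ψ : Matrix κ ι Q} {φ' : Matrix ι' κ' Q} {ψ' : Matrix κ' ι' Q}
    (a : Matrix ι' ι Q) (b : Matrix κ' κ Q) (h1 : a * φ = φ' * b) (h2 : b * ψ = ψ' * a) :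
    Matrix.fromBlocks (cm a) 0 0 (cm b) * HB φ ψ = HB φ' ψ' * Matrix.fromBlocks (cm a) 0 0 (cm b) := by
  rw [HB, HB, Matrix.fromBlocks_multiply, Matrix.fromBlocks_multiply, ← cm_mul, ← cm_mul, ← cm_mul,
    ← cm_mul, h1, h2]
  simp

theorem diag_mul {ι' κ' : Type} [Fintype ι'] [DecidableEq ι'] [Fintype κ'] [DecidableEq κ']
    (a : Matrix ι κ Q) (b : Matrix ι' κ' Q) (a' : Matrix κ ι Q) (b' : Matrix κ' ι' Q) :
    Matrix.fromBlocks (cm a) 0 0 (cm b) * Matrix.fromBlocks (cm a') 0 0 (cm b') =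
      Matrix.fromBlocks (cm (a * a')) 0 0 (cm (b * b')) := by
  rw [Matrix.fromBlocks_multiply, cm_mul, cm_mul]
  simp

theorem blocks_sub {α β γ δ : Type} {R : Type u} [Ring R] (A A' : Matrix α γ R)
    (B B' : Matrix α δ R) (C C' : Matrix β γ R) (D D' : Matrix β δ R) :
    Matrix.fromBlocks A B C D - Matrix.fromBlocks A' B' C' D' =
      Matrix.fromBlocks (A - A') (B - B') (C - C') (D - D') := by
  rw [sub_eq_add_neg, Matrix.fromBlocks_neg, Matrix.fromBlocks_add]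
  simp only [← sub_eq_add_neg]

theorem null_diag (Φ₀ : Matrix ι ι Q) (a b t s : Matrix ι ι Q) (ha : a = t * Φ₀ + Φ₀ * s)
    (hb : b = s * Φ₀ + Φ₀ * t) :
    Matrix.fromBlocks (cm a) 0 0 (cm b) =
      Matrix.fromBlocks 0 (cm t) (cm s) 0 * HB Φ₀ Φ₀ + HB Φ₀ Φ₀ * Matrix.fromBlocks 0 (cm t) (cm s) 0 -
        (PowerSeries.X : PowerSeries Q) • Matrix.fromBlocks 0 (cm t) (cm s) 0 := by
  rw [HB, Matrix.fromBlocks_multiply, Matrix.fromBlocks_multiply, Matrix.fromBlocks_smul,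
    Matrix.fromBlocks_add, blocks_sub, ha, hb, cm_add, cm_add, cm_mul, cm_mul, cm_mul,
    cm_mul]
  simp

theorem hom_comp {f : Q} {Φ : Matrix ι ι (PowerSeries Q)} {Ψ : Matrix κ κ (PowerSeries Q)}
    {Θ : Matrix μ μ (PowerSeries Q)} (h : IsMF f Φ) (h' : IsMF f Ψ) (h'' : IsMF f Θ)
    (a : Matrix κ ι (PowerSeries Q)) (ha : a * Φ = Ψ * a) (b : Matrix μ κ (PowerSeries Q))
    (hb : b * Ψ = Θ * b) (c : Matrix μ ι (PowerSeries Q)) (hc : c * Φ = Θ * c) (hbc : b * a = c) :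
    MFM.hom h' h'' b hb ∘ₗ MFM.hom h h' a ha = MFM.hom h h'' c hc := by
  refine LinearMap.ext fun v => ?_
  subst hbc
  exact Matrix.mulVec_mulVec (α := PowerSeries Q) v b a

theorem hom_sub {f : Q} {Φ : Matrix ι ι (PowerSeries Q)} {Ψ : Matrix κ κ (PowerSeries Q)}
    (h : IsMF f Φ) (h' : IsMF f Ψ)
    (a : Matrix κ ι (PowerSeries Q)) (ha : a * Φ = Ψ * a) (b : Matrix κ ι (PowerSeries Q))
    (hb : b * Φ = Ψ * b) (c : Matrix κ ι (PowerSeries Q)) (hc : c * Φ = Ψ * c) (hab : a - b = c) :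
    MFM.hom h h' a ha - MFM.hom h h' b hb = MFM.hom h h' c hc := by
  refine LinearMap.ext fun v => ?_
  subst hab
  exact (Matrix.sub_mulVec (α := PowerSeries Q) a b v).symm

theorem hom_one {f : Q} {Φ : Matrix ι ι (PowerSeries Q)} (h : IsMF f Φ)
    (a : Matrix ι ι (PowerSeries Q)) (ha : a * Φ = Φ * a) (h1 : a = 1) :
    MFM.hom h h a ha = LinearMap.id := by
  refine LinearMap.ext fun v => ?_
  subst h1
  exact Matrix.one_mulVec (α := PowerSeries Q) v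

/-- The formal part of the argument. -/
theorem stable_of {B : Type u} [CommRing B] {M N N' : Type u} [AddCommGroup M] [Module B M]
    [AddCommGroup N] [Module B N] [AddCommGroup N'] [Module B N'] (a : M →ₗ[B] N) (b : N →ₗ[B] M)
    (D : N →ₗ[B] N) (J : N →ₗ[B] N') (I : N' →ₗ[B] N) (hJI : J ∘ₗ I = LinearMap.id)
    (h1 : StNull (LinearMap.id - b ∘ₗ a)) (h2 : StNull (a ∘ₗ b - D)) (h3 : StNull (I ∘ₗ J - D)) :
    StNull (LinearMap.id - (b ∘ₗ I) ∘ₗ (J ∘ₗ a)) ∧ StNull (LinearMap.id - (J ∘ₗ a) ∘ₗ (b ∘ₗ I)) := by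
  have h4 : StNull (I ∘ₗ J - a ∘ₗ b) := by
    have : I ∘ₗ J - a ∘ₗ b = (I ∘ₗ J - D) + -(a ∘ₗ b - D) := by abel
    rw [this]
    exact h3.add h2.neg
  constructor
  · have h5 : LinearMap.id - (b ∘ₗ I) ∘ₗ (J ∘ₗ a) = (LinearMap.id - b ∘ₗ a) +
        (b ∘ₗ a) ∘ₗ (LinearMap.id - b ∘ₗ a) + -(b ∘ₗ ((I ∘ₗ J - a ∘ₗ b) ∘ₗ a)) := by
      refine LinearMap.ext fun v => ?_
      simp only [LinearMap.sub_apply, LinearMap.add_apply, LinearMap.neg_apply,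
        LinearMap.comp_apply, LinearMap.id_apply, map_sub]
      abel
    rw [h5]
    exact (h1.add (h1.comp_left _)).add ((h4.comp_right a).comp_left b).neg
  · have h6 : ∀ v, J (I v) = v := fun v => LinearMap.congr_fun hJI v
    have h5 : LinearMap.id - (J ∘ₗ a) ∘ₗ (b ∘ₗ I) = J ∘ₗ ((I ∘ₗ J - a ∘ₗ b) ∘ₗ I) := by
      refine LinearMap.ext fun v => ?_
      simp only [LinearMap.sub_apply, LinearMap.comp_apply, LinearMap.id_apply, map_sub, h6]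
    rw [h5]
    exact (h4.comp_right I).comp_left J

end NT21

/-- (job NT-21) `lam` vanishes on all modules `MFM h`.
Proof. `Φ₀, Φ₁, Φ₂` the coefficients; `eA, eB, t, s` from `exists_idem_MF`; split
`eA = I J`, `eB = I' J'` (`exists_split`). Put `φ = J Φ₀ I'`, `ψ = J' Φ₀ I`; then
`φ ψ = J Φ₀ eB Φ₀ I = J eA Φ₀ Φ₀ I = f`, likewise `ψ φ = f`. The maps
`α' = diag(J, J') α : MFM h → MFM (HB φ ψ)`, `β' = β diag(I, I')` are stably inverse:
`diag(eA, eB) - diag(Φ₁, 1 - Φ₁) = θ H + H θ - w θ` with `θ = (0, t; s, 0)`, so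
`diag(eA, eB) - α β` is stably zero (`MFM.stNull_of_eq`, `stNull_albe_sub_diag`);
`β' α' = β diag(eA, eB) α ~ β α β α ~ 1` and `α' β' = diag(J,J') α β diag(I,I') ~
diag(J,J') diag(eA,eB) diag(I,I') = 1`. Now `AddFn.val_eq_of_stable` and `AddFn.val_HB`. -/
theorem AddFn.val_MFM [IsDomain Q] [IsLocalRing Q] [IsNoetherianRing Q]
    [IsAdicComplete (maximalIdeal Q) Q] {f : Q} (hf : f ≠ 0) [IsLocalRing (KB f)]
    (lam : AddFn (KB f)) (h0 : lam.val (KB f) = 0)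
    (h3 : ∀ (N : Type u) [AddCommGroup N] [Module (Q ⧸ Ideal.span {f}) N]
      [Module.Finite (Q ⧸ Ideal.span {f}) N], (lam.ps (kq f) (kq_surjective f)).val N = 0)
    {m : ℕ} {Φ : Matrix (Fin m) (Fin m) (PowerSeries Q)} (h : IsMF f Φ) :
    lam.val (MFM h) = 0 := by
  classical
  obtain ⟨eA, eB, t, s, hA, hB, hAB, hBA, htA, htB⟩ :=
    exists_idem_MF (cf 0 Φ) (cf 1 Φ) (cf 2 Φ) (cf_one h) (cf_two h)
  obtain ⟨k, I, J, hJI, hIJ⟩ := exists_split eA hA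
  obtain ⟨l, I', J', hJI', hIJ'⟩ := exists_split eB hB
  have h00 := cf_zero h
  -- the commutation relations
  have c1 : J * cf 0 Φ = (J * cf 0 Φ * I') * J' := by
    calc J * cf 0 Φ = (J * I) * (J * cf 0 Φ) := by rw [hJI, Matrix.one_mul]
      _ = J * ((I * J) * cf 0 Φ) := by simp only [Matrix.mul_assoc]
      _ = J * (cf 0 Φ * (I' * J')) := by rw [hIJ, hIJ', hAB]
      _ = (J * cf 0 Φ * I') * J' := by simp only [Matrix.mul_assoc]
  have c2 : J' * cf 0 Φ = (J' * cf 0 Φ * I) * J := by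
    calc J' * cf 0 Φ = (J' * I') * (J' * cf 0 Φ) := by rw [hJI', Matrix.one_mul]
      _ = J' * ((I' * J') * cf 0 Φ) := by simp only [Matrix.mul_assoc]
      _ = J' * (cf 0 Φ * (I * J)) := by rw [hIJ, hIJ', hBA]
      _ = (J' * cf 0 Φ * I) * J := by simp only [Matrix.mul_assoc]
  have c3 : I * (J * cf 0 Φ * I') = cf 0 Φ * I' := by
    calc I * (J * cf 0 Φ * I') = ((I * J) * cf 0 Φ) * I' := by simp only [Matrix.mul_assoc]
      _ = (cf 0 Φ * (I' * J')) * I' := by rw [hIJ, hIJ', hAB]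
      _ = cf 0 Φ * (I' * (J' * I')) := by simp only [Matrix.mul_assoc]
      _ = cf 0 Φ * I' := by rw [hJI', Matrix.mul_one]
  have c4 : I' * (J' * cf 0 Φ * I) = cf 0 Φ * I := by
    calc I' * (J' * cf 0 Φ * I) = ((I' * J') * cf 0 Φ) * I := by simp only [Matrix.mul_assoc]
      _ = (cf 0 Φ * (I * J)) * I := by rw [hIJ, hIJ', hBA]
      _ = cf 0 Φ * (I * (J * I)) := by simp only [Matrix.mul_assoc]
      _ = cf 0 Φ * I := by rw [hJI, Matrix.mul_one]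
  have p1 : (J * cf 0 Φ * I') * (J' * cf 0 Φ * I) = f • 1 := by
    calc (J * cf 0 Φ * I') * (J' * cf 0 Φ * I)
        = ((J * cf 0 Φ * I') * J') * (cf 0 Φ * I) := by simp only [Matrix.mul_assoc]
      _ = (J * cf 0 Φ) * (cf 0 Φ * I) := by rw [← c1]
      _ = J * ((cf 0 Φ * cf 0 Φ) * I) := by simp only [Matrix.mul_assoc]
      _ = f • 1 := by rw [h00, Matrix.smul_mul, Matrix.one_mul, Matrix.mul_smul, hJI]
  have p2 : (J' * cf 0 Φ * I) * (J * cf 0 Φ * I') = f • 1 := by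
    calc (J' * cf 0 Φ * I) * (J * cf 0 Φ * I')
        = ((J' * cf 0 Φ * I) * J) * (cf 0 Φ * I') := by simp only [Matrix.mul_assoc]
      _ = (J' * cf 0 Φ) * (cf 0 Φ * I') := by rw [← c2]
      _ = J' * ((cf 0 Φ * cf 0 Φ) * I') := by simp only [Matrix.mul_assoc]
      _ = f • 1 := by rw [h00, Matrix.smul_mul, Matrix.one_mul, Matrix.mul_smul, hJI']
  have hH : IsMF f (HB (cf 0 Φ) (cf 0 Φ)) := isMF_HB h00 h00
  have hJc := NT21.diag_HB (φ := cf 0 Φ) (ψ := cf 0 Φ) (φ' := J * cf 0 Φ * I')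
    (ψ' := J' * cf 0 Φ * I) J J' c1 c2
  have hIc := NT21.diag_HB (φ := J * cf 0 Φ * I') (ψ := J' * cf 0 Φ * I) (φ' := cf 0 Φ)
    (ψ' := cf 0 Φ) I I' c3 c4
  have hE : Matrix.fromBlocks (cm eA) 0 0 (cm eB) * HB (cf 0 Φ) (cf 0 Φ) =
      HB (cf 0 Φ) (cf 0 Φ) * Matrix.fromBlocks (cm eA) 0 0 (cm eB) :=
    NT21.diag_HB eA eB hAB hBA
  have hdiff : Matrix.fromBlocks (cm eA) 0 0 (cm eB) -
      Matrix.fromBlocks (cm (cf 1 Φ)) 0 0 (cm (1 - cf 1 Φ)) =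
      Matrix.fromBlocks (cm (eA - cf 1 Φ)) 0 0 (cm (eB - (1 - cf 1 Φ))) := by
    rw [NT21.blocks_sub, NT21.cm_sub eA, NT21.cm_sub eB]
    simp
  have hnull := NT21.null_diag (cf 0 Φ) _ _ t s htA htB
  have hEc : Matrix.fromBlocks (cm (eA - cf 1 Φ)) 0 0 (cm (eB - (1 - cf 1 Φ))) *
      HB (cf 0 Φ) (cf 0 Φ) = HB (cf 0 Φ) (cf 0 Φ) *
      Matrix.fromBlocks (cm (eA - cf 1 Φ)) 0 0 (cm (eB - (1 - cf 1 Φ))) := by
    rw [← hdiff, Matrix.sub_mul, Matrix.mul_sub, hE, diag_comm h]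
  have h3' : StNull (MFM.hom (isMF_HB p1 p2) hH _ hIc ∘ₗ MFM.hom hH (isMF_HB p1 p2) _ hJc -
      MFM.hom hH hH (Matrix.fromBlocks (cm (cf 1 Φ)) 0 0 (cm (1 - cf 1 Φ))) (diag_comm h)) := by
    rw [NT21.hom_comp hH (isMF_HB p1 p2) hH _ hJc _ hIc _ hE (by
      rw [NT21.diag_mul, hIJ, hIJ']), NT21.hom_sub hH hH _ hE _ (diag_comm h) _ hEc hdiff]
    exact MFM.stNull_of_eq hH hH _ hEc _ hnull
  have hJI2 : MFM.hom hH (isMF_HB p1 p2) _ hJc ∘ₗ MFM.hom (isMF_HB p1 p2) hH _ hIc =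
      LinearMap.id := by
    have hone : Matrix.fromBlocks (cm J) 0 0 (cm J') * Matrix.fromBlocks (cm I) 0 0 (cm I') = 1 := by
      rw [NT21.diag_mul, hJI, hJI', NT21.cm_one, NT21.cm_one, Matrix.fromBlocks_one]
    rw [NT21.hom_comp (isMF_HB p1 p2) hH (isMF_HB p1 p2) _ hIc _ hJc 1 (by
      rw [Matrix.one_mul, Matrix.mul_one]) hone]
    exact NT21.hom_one _ _ _ rfl
  obtain ⟨q1, q2⟩ := NT21.stable_of _ _ _ _ _ hJI2 (stNull_one_sub_beal h hH)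
    (stNull_albe_sub_diag h hH) h3'
  rw [lam.val_eq_of_stable h0 _ _ q1 q2]
  exact lam.val_HB hf p1 p2 h0 h3

end Pool.Agent.H27.NT
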