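import Pool.Agent.H27.NT.Basic

/-!
# Maps that factor through free modules (job NT-13)
-/

open IsLocalRing

namespace Pool.Agent.H27.NT

universe u

variable {B : Type u} [CommRing B]

/-- `g` factors through a finitely generated free module. -/
def StNull {M N : Type u} [AddCommGroup M] [Module B M] [AddCommGroup N] [Module B N]
    (g : M →ₗ[B] N) : Prop :=
  ∃ (n : ℕ) (a : M →ₗ[B] (Fin n → B)) (b : (Fin n → B) →ₗ[B] N), b ∘ₗ a = g

variable {M N K : Type u} [AddCommGroup M] [Module B M] [AddCommGroup N] [Module B N]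
  [AddCommGroup K] [Module B K]

theorem StNull.add {g h : M →ₗ[B] N} (hg : StNull g) (hh : StNull h) : StNull (g + h) := by
  obtain ⟨n, a, b, rfl⟩ := hg
  obtain ⟨m, a', b', rfl⟩ := hh
  let e : (Fin (n + m) → B) ≃ₗ[B] (Fin n → B) × (Fin m → B) :=
    (LinearEquiv.funCongrLeft B B finSumFinEquiv).trans
      (LinearEquiv.sumArrowLequivProdArrow (Fin n) (Fin m) B B)
  refine ⟨n + m, e.symm.toLinearMap ∘ₗ (a.prod a'), (b.coprod b') ∘ₗ e.toLinearMap, ?_⟩
  ext x
  simp

theorem StNull.neg {g : M →ₗ[B] N} (hg : StNull g) : StNull (-g) := by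
  obtain ⟨n, a, b, rfl⟩ := hg
  exact ⟨n, a, -b, by ext x; simp⟩

theorem StNull.comp_left {g : M →ₗ[B] N} (hg : StNull g) (h : N →ₗ[B] K) :
    StNull (h ∘ₗ g) := by
  obtain ⟨n, a, b, rfl⟩ := hg
  exact ⟨n, a, h ∘ₗ b, by ext x; simp⟩

theorem StNull.comp_right {g : N →ₗ[B] K} (hg : StNull g) (h : M →ₗ[B] N) :
    StNull (g ∘ₗ h) := by
  obtain ⟨n, a, b, rfl⟩ := hg
  exact ⟨n, a ∘ₗ h, b, by ext x; simp⟩

/-- Stably isomorphic modules have the same value.
Proof. Write `1 - β α = b a` with `a : M → B^n`, `b : B^n → M`. The map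
`ι = (α, a) : M → N × B^n` has the retraction `ρ (x, y) = β x + b y`. The kernel `C` of `ρ` is a
direct summand of `N × B^n`; the idempotent `1 - ι ρ` with image `C` has the entries `1 - α β`,
`- α b`, `- a β`, `1 - a b`, so it factors through a free module, so `C` is a direct summand of a
finitely generated free module, so it is projective; `AddFn.val_projective`. -/
theorem AddFn.val_eq_of_stable [IsLocalRing B] [IsNoetherianRing B] (lam : AddFn B)
    (h0 : lam.val B = 0)
    [Module.Finite B M] [Module.Finite B N] (α : M →ₗ[B] N) (β : N →ₗ[B] M)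
    (h1 : StNull (LinearMap.id - β ∘ₗ α)) (h2 : StNull (LinearMap.id - α ∘ₗ β)) :
    lam.val M = lam.val N := by
  obtain ⟨n, a, b, hab⟩ := h1
  obtain ⟨m, a', b', hab'⟩ := h2
  have hab : ∀ x, b (a x) = x - β (α x) := fun x => by
    have := LinearMap.congr_fun hab x
    simpa using this
  have hab' : ∀ x, b' (a' x) = x - α (β x) := fun x => by
    have := LinearMap.congr_fun hab' x
    simpa using this
  let ρ : (N × (Fin n → B)) →ₗ[B] M := β.coprod b
  let ι : M →ₗ[B] (N × (Fin n → B)) := α.prod a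
  have hρ : ∀ x y, ρ (x, y) = β x + b y := fun x y => by simp [ρ]
  have hι : ∀ x, ι x = (α x, a x) := fun x => by simp [ι]
  have hρι : ∀ x, ρ (ι x) = x := fun x => by rw [hι, hρ, hab]; abel
  let e : (N × (Fin n → B)) →ₗ[B] (N × (Fin n → B)) := LinearMap.id - ι ∘ₗ ρ
  have he : ∀ z, e z = z - ι (ρ z) := fun z => by simp [e]
  have heker : ∀ z, ρ (e z) = 0 := fun z => by rw [he, map_sub, hρι, sub_self]
  let F : Type u := (Fin m → B) × ((Fin n → B) × (Fin n → B))
  let A : (N × (Fin n → B)) →ₗ[B] (Fin m → B) × ((Fin n → B) × (Fin n → B)) :=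
    (a' ∘ₗ LinearMap.fst B N (Fin n → B)).prod
      ((LinearMap.snd B N (Fin n → B)).prod (a ∘ₗ β ∘ₗ LinearMap.fst B N (Fin n → B)))
  let G : ((Fin m → B) × ((Fin n → B) × (Fin n → B))) →ₗ[B] (N × (Fin n → B)) :=
    (b' ∘ₗ LinearMap.fst B _ _ - α ∘ₗ b ∘ₗ LinearMap.fst B _ _ ∘ₗ LinearMap.snd B _ _).prod
      (LinearMap.fst B _ _ ∘ₗ LinearMap.snd B _ _
        - a ∘ₗ b ∘ₗ LinearMap.fst B _ _ ∘ₗ LinearMap.snd B _ _
        - LinearMap.snd B _ _ ∘ₗ LinearMap.snd B _ _)
  have hGA : ∀ z, G (A z) = e z := by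
    rintro ⟨x, y⟩
    rw [he, hρ, hι]
    ext1
    · simp [G, A, hab', map_add]
      abel
    · simp [G, A, map_add]
      abel
  let C : Submodule B (N × (Fin n → B)) := LinearMap.ker ρ
  have hCe : ∀ z : C, e z = z := fun z => by
    rw [he, LinearMap.mem_ker.mp z.2, map_zero, sub_zero]
  let s : ((Fin m → B) × ((Fin n → B) × (Fin n → B))) →ₗ[B] C :=
    LinearMap.codRestrict C (e ∘ₗ G) (fun z => LinearMap.mem_ker.mpr (heker _))
  have hs : s ∘ₗ (A ∘ₗ C.subtype) = LinearMap.id := by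
    ext1 z
    apply Subtype.ext
    show e (G (A z)) = z
    rw [hGA, hCe, hCe]
  have hproj : Module.Projective B C := Module.Projective.of_split (A ∘ₗ C.subtype) s hs
  have hval : lam.val C = 0 := lam.val_projective h0 C
  have hsurj : Function.Surjective ρ := fun x => ⟨ι x, hρι x⟩
  have hadd := lam.add C.subtype ρ C.subtype_injective hsurj (fun z => by
    rw [← LinearMap.mem_ker]
    constructor
    · intro hz; exact ⟨⟨z, hz⟩, rfl⟩
    · rintro ⟨w, rfl⟩; exact w.2)
  rw [hval, zero_add, lam.val_prod, lam.val_pi, h0, mul_zero, add_zero] at hadd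
  exact hadd.symm

end Pool.Agent.H27.NT
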