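import Pool.Agent.H27.NT.KB
import Pool.Agent.H27.NT.Stable

/-!
# Matrices `Φ` with `Φ² = w Φ + f` and the `B`-modules they define (job NT-14)
-/

open IsLocalRing

namespace Pool.Agent.H27.NT

universe u

variable {Q : Type u} [CommRing Q]

section

variable {ι : Type} [Fintype ι] [DecidableEq ι]

/-- `Φ² = w Φ + f` -/
def IsMF (f : Q) (Φ : Matrix ι ι (PowerSeries Q)) : Prop :=
  Φ * Φ = (PowerSeries.X : PowerSeries Q) • Φ + (PowerSeries.C f : PowerSeries Q) • 1

/-- The `B`-module `P^ι` on which `X` acts by `Φ`. -/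
def MFM {f : Q} {Φ : Matrix ι ι (PowerSeries Q)} (_h : IsMF f Φ) : Type u := ι → PowerSeries Q

namespace MFM

variable {f : Q} {Φ : Matrix ι ι (PowerSeries Q)} (h : IsMF f Φ)

instance : AddCommGroup (MFM h) := inferInstanceAs (AddCommGroup (ι → PowerSeries Q))

noncomputable instance instP : Module (PowerSeries Q) (MFM h) :=
  inferInstanceAs (Module (PowerSeries Q) (ι → PowerSeries Q))

include h in
theorem aeval_kpoly : Polynomial.aeval (Matrix.toLin' Φ) (kpoly f) = 0 := by
  have h1 : Matrix.toLin' Φ * Matrix.toLin' Φ = (PowerSeries.X : PowerSeries Q) • Matrix.toLin' Φ +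
      (PowerSeries.C f : PowerSeries Q) • 1 := by
    have := congrArg Matrix.toLin' h
    rw [Matrix.toLin'_mul, map_add, map_smul, map_smul, Matrix.toLin'_one] at this
    exact this
  simp only [kpoly, map_sub, map_mul, map_pow, Polynomial.aeval_X, Polynomial.aeval_C, pow_two]
  rw [h1, Algebra.algebraMap_eq_smul_one, Algebra.algebraMap_eq_smul_one, smul_mul_assoc, one_mul]
  simp

/-- The ring map `B → End_P(P^ι)`, `X ↦ Φ`. -/
noncomputable def act (h : IsMF f Φ) :
    KB f →+* Module.End (PowerSeries Q) (ι → PowerSeries Q) :=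
  Ideal.Quotient.lift (Ideal.span {kpoly f})
    ((Polynomial.aeval (Matrix.toLin' Φ)).toRingHom :
      Polynomial (PowerSeries Q) →+* Module.End (PowerSeries Q) (ι → PowerSeries Q)) (by
    intro a ha
    obtain ⟨c, rfl⟩ := Ideal.mem_span_singleton.mp ha
    change Polynomial.aeval (Matrix.toLin' Φ) (kpoly f * c) = 0
    rw [map_mul, aeval_kpoly h, zero_mul])

noncomputable instance : Module (KB f) (MFM h) :=
  Module.compHom (ι → PowerSeries Q) (act h)

theorem mf_smul_def (b : KB f) (v : MFM h) : b • v = act h b v := rfl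

theorem act_alg (r : PowerSeries Q) : act h (algebraMap (PowerSeries Q) (KB f) r) =
    algebraMap (PowerSeries Q) (Module.End (PowerSeries Q) (ι → PowerSeries Q)) r := by
  have h1 : (algebraMap (PowerSeries Q) (KB f) r) =
      Ideal.Quotient.mk (Ideal.span {kpoly f}) (Polynomial.C r) := rfl
  rw [h1]
  exact Polynomial.aeval_C (A := Module.End (PowerSeries Q) (ι → PowerSeries Q)) _ _

theorem act_root : act h (AdjoinRoot.root (kpoly f)) = Matrix.toLin' Φ := by
  have h1 : AdjoinRoot.root (kpoly f) =
      Ideal.Quotient.mk (Ideal.span {kpoly f}) (Polynomial.X) := rfl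
  rw [h1]
  exact Polynomial.aeval_X (Matrix.toLin' Φ)

/-- (job NT-14) -/
instance : IsScalarTower (PowerSeries Q) (KB f) (MFM h) := by
  refine ⟨fun r b v => ?_⟩
  rw [Algebra.smul_def, mf_smul_def, mf_smul_def, map_mul, act_alg]
  rfl

theorem root_smul (v : MFM h) : (AdjoinRoot.root (kpoly f) • v : MFM h) = Φ.mulVec v := by
  rw [mf_smul_def, act_root]
  exact Matrix.toLin'_apply Φ v

instance : Module.Finite (KB f) (MFM h) := by
  have h1 : Module.Finite (PowerSeries Q) (MFM h) :=
    inferInstanceAs (Module.Finite (PowerSeries Q) (ι → PowerSeries Q))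
  exact Module.Finite.of_restrictScalars_finite (PowerSeries Q) (KB f) (MFM h)

theorem root_mul_root (f : Q) :
    (AdjoinRoot.root (kpoly f) : KB f) * AdjoinRoot.root (kpoly f) =
      algebraMap (PowerSeries Q) (KB f) PowerSeries.X * AdjoinRoot.root (kpoly f) +
        algebraMap (PowerSeries Q) (KB f) (PowerSeries.C f) := by
  have h1 : AdjoinRoot.mk (kpoly f) (kpoly f) = 0 := AdjoinRoot.mk_self
  have h2 : AdjoinRoot.mk (kpoly f) (kpoly f) =
      AdjoinRoot.root (kpoly f) ^ 2 - algebraMap (PowerSeries Q) (KB f) PowerSeries.X *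
        AdjoinRoot.root (kpoly f) - algebraMap (PowerSeries Q) (KB f) (PowerSeries.C f) := by
    have h3 : ∀ q : Polynomial (PowerSeries Q), q = Polynomial.X ^ 2 -
        Polynomial.C (PowerSeries.X) * Polynomial.X - Polynomial.C (PowerSeries.C f) →
        AdjoinRoot.mk (kpoly f) q =
      AdjoinRoot.root (kpoly f) ^ 2 - algebraMap (PowerSeries Q) (KB f) PowerSeries.X *
        AdjoinRoot.root (kpoly f) - algebraMap (PowerSeries Q) (KB f) (PowerSeries.C f) := by
      rintro q rfl
      rw [map_sub, map_sub, map_mul, map_pow]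
      rfl
    exact h3 _ rfl
  rw [h2] at h1
  linear_combination h1

/-- A `P`-linear map that commutes with the root is `B`-linear. -/
theorem lin_of_root {M N : Type*} [AddCommGroup M] [AddCommGroup N] [Module (KB f) M]
    [Module (KB f) N] [Module (PowerSeries Q) M] [Module (PowerSeries Q) N]
    [IsScalarTower (PowerSeries Q) (KB f) M] [IsScalarTower (PowerSeries Q) (KB f) N]
    (g : M →ₗ[PowerSeries Q] N)
    (hg : ∀ v, g (AdjoinRoot.root (kpoly f) • v) = AdjoinRoot.root (kpoly f) • g v)
    (b : KB f) (v : M) : g (b • v) = b • g v := by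
  have hpow : ∀ (n : ℕ) (v : M), g ((AdjoinRoot.root (kpoly f)) ^ n • v) =
      (AdjoinRoot.root (kpoly f)) ^ n • g v := by
    intro n
    induction n with
    | zero => intro v; simp
    | succ n ih => intro v; rw [pow_succ, mul_smul, ih, hg, mul_smul]
  induction b using AdjoinRoot.induction_on with
  | ih p =>
    induction p using Polynomial.induction_on' with
    | add p q hp hq => rw [map_add, add_smul, map_add, hp, hq, add_smul]
    | monomial n r =>
      have h1 : AdjoinRoot.mk (kpoly f) (Polynomial.monomial n r) =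
          r • (AdjoinRoot.root (kpoly f)) ^ n := by
        rw [← Polynomial.C_mul_X_pow_eq_monomial, map_mul, map_pow, AdjoinRoot.mk_X,
          AdjoinRoot.mk_C, Algebra.smul_def]
        rfl
      rw [h1, smul_assoc, smul_assoc, map_smul, hpow]

variable {κ : Type} [Fintype κ] [DecidableEq κ] {Ψ : Matrix κ κ (PowerSeries Q)}
  (h' : IsMF f Ψ)

/-- The `B`-linear map given by a matrix `a` with `a Φ = Ψ a`. -/
noncomputable def hom (a : Matrix κ ι (PowerSeries Q)) (ha : a * Φ = Ψ * a) :
    MFM h →ₗ[KB f] MFM h' where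
  toFun v := a.mulVec v
  map_add' v w := Matrix.mulVec_add a v w
  map_smul' b v := by
    let g : MFM h →ₗ[PowerSeries Q] MFM h' := Matrix.mulVecLin a
    refine lin_of_root g (fun v => ?_) b v
    rw [root_smul, root_smul]
    show a.mulVec (Φ.mulVec v) = Ψ.mulVec (a.mulVec v)
    rw [Matrix.mulVec_mulVec, ha, Matrix.mulVec_mulVec]

theorem hom_apply (a : Matrix κ ι (PowerSeries Q)) (ha : a * Φ = Ψ * a) (v : MFM h) :
    hom h h' a ha v = a.mulVec v := rfl

include h h' in
/-- (job NT-14) For every matrix `θ`, `θ Φ + (Ψ - w) θ` commutes. -/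
theorem null_comm (θ : Matrix κ ι (PowerSeries Q)) :
    (θ * Φ + Ψ * θ - (PowerSeries.X : PowerSeries Q) • θ) * Φ =
      Ψ * (θ * Φ + Ψ * θ - (PowerSeries.X : PowerSeries Q) • θ) := by
  have h1 : Φ * Φ = (PowerSeries.X : PowerSeries Q) • Φ + (PowerSeries.C f : PowerSeries Q) • 1 := h
  have h2 : Ψ * Ψ = (PowerSeries.X : PowerSeries Q) • Ψ + (PowerSeries.C f : PowerSeries Q) • 1 := h'
  rw [Matrix.sub_mul, Matrix.add_mul, Matrix.mul_sub, Matrix.mul_add, Matrix.mul_assoc θ Φ Φ, h1,
    ← Matrix.mul_assoc Ψ Ψ θ, h2, Matrix.mul_add, Matrix.add_mul, Matrix.mul_smul, Matrix.mul_smul,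
    Matrix.smul_mul, Matrix.smul_mul, Matrix.smul_mul, Matrix.mul_smul, Matrix.mul_one,
    Matrix.one_mul, Matrix.mul_assoc]
  abel

/-- (job NT-14) It factors through a free module: `v ↦ 1 ⊗ θ Φ v + (X - w) ⊗ θ v` is a
`B`-linear map `MFM h → B ⊗_P P^κ = (κ → B)`, followed by `b ⊗ u ↦ b u`. -/
theorem stNull_of_eq (a : Matrix κ ι (PowerSeries Q)) (ha : a * Φ = Ψ * a)
    (θ : Matrix κ ι (PowerSeries Q))
    (hθ : a = θ * Φ + Ψ * θ - (PowerSeries.X : PowerSeries Q) • θ) :
    StNull (hom h h' a ha) := by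
  have hroot := root_mul_root f
  -- the first map
  let α₀ : (ι → PowerSeries Q) →ₗ[PowerSeries Q] (κ → KB f) :=
    { toFun := fun v k => algebraMap (PowerSeries Q) (KB f) ((θ * Φ).mulVec v k) +
        (AdjoinRoot.root (kpoly f) - algebraMap (PowerSeries Q) (KB f) PowerSeries.X) *
          algebraMap (PowerSeries Q) (KB f) (θ.mulVec v k)
      map_add' := fun v w => by
        funext k
        rw [Matrix.mulVec_add, Matrix.mulVec_add]
        simp only [Pi.add_apply, map_add]
        ring
      map_smul' := fun r v => by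
        funext k
        rw [Matrix.mulVec_smul, Matrix.mulVec_smul]
        simp only [Pi.smul_apply, smul_eq_mul, map_mul, RingHom.id_apply, Algebra.smul_def]
        ring }
  let α : MFM h →ₗ[PowerSeries Q] (κ → KB f) := α₀
  have hα : ∀ (v : MFM h) (k : κ), α v k =
      algebraMap (PowerSeries Q) (KB f) ((θ * Φ).mulVec v k) +
        (AdjoinRoot.root (kpoly f) - algebraMap (PowerSeries Q) (KB f) PowerSeries.X) *
          algebraMap (PowerSeries Q) (KB f) (θ.mulVec v k) := fun v k => rfl
  have hΦ : Φ * Φ = (PowerSeries.X : PowerSeries Q) • Φ + (PowerSeries.C f : PowerSeries Q) • 1 := h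
  have hαroot : ∀ v : MFM h, α (AdjoinRoot.root (kpoly f) • v) =
      AdjoinRoot.root (kpoly f) • α v := by
    intro v
    funext k
    rw [Pi.smul_apply, hα, hα, root_smul, smul_eq_mul]
    have e1 : (θ * Φ).mulVec (Φ.mulVec v) k = PowerSeries.X * (θ * Φ).mulVec v k +
        PowerSeries.C f * θ.mulVec v k := by
      rw [Matrix.mulVec_mulVec, Matrix.mul_assoc, hΦ, Matrix.mul_add, Matrix.mul_smul,
        Matrix.mul_smul, Matrix.mul_one, Matrix.add_mulVec, Matrix.smul_mulVec,
        Matrix.smul_mulVec]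
      rfl
    have e2 : θ.mulVec (Φ.mulVec v) k = (θ * Φ).mulVec v k := by
      rw [Matrix.mulVec_mulVec]
    rw [e1, e2, map_add, map_mul, map_mul]
    linear_combination (-(algebraMap (PowerSeries Q) (KB f) (θ.mulVec v k))) * hroot
  let αB : MFM h →ₗ[KB f] (κ → KB f) :=
    { toFun := α
      map_add' := α.map_add
      map_smul' := fun b v => lin_of_root α hαroot b v }
  -- the second map
  let bas : κ → MFM h' := fun k => (Pi.single k 1 : κ → PowerSeries Q)
  let βB : (κ → KB f) →ₗ[KB f] MFM h' := Fintype.linearCombination (KB f) bas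
  have hβ : ∀ u : κ → PowerSeries Q,
      βB (fun k => algebraMap (PowerSeries Q) (KB f) (u k)) = (u : κ → PowerSeries Q) := by
    intro u
    have e0 : βB (fun k => algebraMap (PowerSeries Q) (KB f) (u k)) = ∑ k, u k • bas k := by
      rw [Fintype.linearCombination_apply]
      refine Finset.sum_congr rfl fun k _ => ?_
      rw [algebraMap_smul]
    rw [e0]
    exact (pi_eq_sum_univ' u).symm
  have key : βB ∘ₗ αB = hom h h' a ha := by
    refine LinearMap.ext fun v => ?_
    have e1 : αB v = (fun k => algebraMap (PowerSeries Q) (KB f) ((θ * Φ).mulVec v k)) +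
        (AdjoinRoot.root (kpoly f) • (fun k => algebraMap (PowerSeries Q) (KB f) (θ.mulVec v k)) -
          (fun k => algebraMap (PowerSeries Q) (KB f)
            (((PowerSeries.X : PowerSeries Q) • θ).mulVec v k))) := by
      funext k
      show α v k = _
      rw [hα, Matrix.smul_mulVec]
      simp only [Pi.add_apply, Pi.sub_apply, Pi.smul_apply, smul_eq_mul, map_mul]
      ring
    show βB (αB v) = a.mulVec v
    rw [e1, map_add, map_sub, map_smul, hβ, hβ, hβ, root_smul, hθ]
    rw [Matrix.sub_mulVec, Matrix.add_mulVec, ← Matrix.mulVec_mulVec (M := Ψ)]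
    exact (add_sub_assoc _ _ _).symm
  -- reindex
  let e := Fintype.equivFin κ
  refine ⟨Fintype.card κ, (LinearEquiv.funCongrLeft (KB f) (KB f) e.symm).toLinearMap ∘ₗ αB,
    βB ∘ₗ (LinearEquiv.funCongrLeft (KB f) (KB f) e).toLinearMap, ?_⟩
  rw [← key]
  refine LinearMap.ext fun v => ?_
  show βB (LinearEquiv.funCongrLeft (KB f) (KB f) e
    (LinearEquiv.funCongrLeft (KB f) (KB f) e.symm (αB v))) = βB (αB v)
  congr 1
  funext k
  simp [LinearEquiv.funCongrLeft, LinearMap.funLeft]

/-- (job NT-14) Every `B`-module that is finitely generated and free over `P` is of this form. -/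
theorem exists_equiv [Nontrivial Q] (K : Type u) [AddCommGroup K] [Module (KB f) K]
    [Module (PowerSeries Q) K] [IsScalarTower (PowerSeries Q) (KB f) K]
    [Module.Finite (PowerSeries Q) K] [Module.Free (PowerSeries Q) K] :
    ∃ (m : ℕ) (Φ : Matrix (Fin m) (Fin m) (PowerSeries Q)) (h : IsMF f Φ),
      Nonempty (K ≃ₗ[KB f] MFM h) := by
  let b := Module.finBasis (PowerSeries Q) K
  have hcomm : ∀ (r : PowerSeries Q) (c : KB f) (v : K), c • (r • v) = r • (c • v) := by
    intro r c v
    rw [← algebraMap_smul (KB f) r v, ← algebraMap_smul (KB f) r (c • v), ← mul_smul,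
      ← mul_smul, mul_comm]
  let R : K →ₗ[PowerSeries Q] K :=
    { toFun := fun v => AdjoinRoot.root (kpoly f) • v
      map_add' := fun v w => smul_add _ v w
      map_smul' := fun r v => hcomm r _ v }
  have hR : R ∘ₗ R = (PowerSeries.X : PowerSeries Q) • R +
      (PowerSeries.C f : PowerSeries Q) • LinearMap.id := by
    refine LinearMap.ext fun v => ?_
    show AdjoinRoot.root (kpoly f) • (AdjoinRoot.root (kpoly f) • v) =
      (PowerSeries.X : PowerSeries Q) • (AdjoinRoot.root (kpoly f) • v) +
        (PowerSeries.C f : PowerSeries Q) • v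
    rw [← mul_smul, root_mul_root, add_smul, mul_smul, algebraMap_smul, algebraMap_smul]
  let Φ := LinearMap.toMatrix b b R
  have hΦ : IsMF f Φ := by
    have e1 := congrArg (LinearMap.toMatrix b b) hR
    rw [LinearMap.toMatrix_comp b b b, map_add, map_smul, map_smul, LinearMap.toMatrix_id] at e1
    exact e1
  refine ⟨_, Φ, hΦ, ⟨?_⟩⟩
  let g : K →ₗ[PowerSeries Q] MFM hΦ := b.equivFun.toLinearMap
  have hg : ∀ v, g (AdjoinRoot.root (kpoly f) • v) = AdjoinRoot.root (kpoly f) • g v := by
    intro v
    rw [root_smul]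
    exact (LinearMap.toMatrix_mulVec_repr b b R v).symm
  exact
    { toFun := g
      map_add' := g.map_add
      map_smul' := fun c v => lin_of_root g hg c v
      invFun := b.equivFun.symm
      left_inv := b.equivFun.left_inv
      right_inv := b.equivFun.right_inv }

end MFM

end

end Pool.Agent.H27.NT
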