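import Pool.Agent.H27.NT.Syz
import Pool.Agent.H27.NT.NiceA

/-!
# Regular systems of parameters (job NT-24)
-/

open IsLocalRing
open scoped Pointwise

namespace Pool.Agent.H27.NT

universe u

/-- (job NT-24) The sequence `w, r₁, r₂, ...`: `Q⟦w⟧/w = Q`. -/
theorem RegGen.powerSeries {Q : Type u} [CommRing Q] [IsLocalRing Q] (h : RegGen Q) :
    RegGen (PowerSeries Q) := by
  obtain ⟨rs, h1, h2⟩ := h
  refine ⟨PowerSeries.X :: rs.map (PowerSeries.C (R := Q)), ?_, ?_⟩
  · rw [RingTheory.Sequence.isWeaklyRegular_cons_iff]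
    constructor
    · intro a b hab
      have hab' : PowerSeries.X * a = PowerSeries.X * b := hab
      ext n
      have h3 := congrArg (PowerSeries.coeff (n + 1)) hab'
      rwa [PowerSeries.coeff_succ_X_mul, PowerSeries.coeff_succ_X_mul] at h3
    · let _ : Module (PowerSeries Q) Q := Module.compHom Q (PowerSeries.constantCoeff (R := Q))
      let f : PowerSeries Q →ₗ[PowerSeries Q] Q :=
        { toFun := fun a => PowerSeries.constantCoeff a
          map_add' := fun a b => map_add _ a b
          map_smul' := fun a b => map_mul _ a b }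
      have hf : Function.Surjective f := fun r => ⟨PowerSeries.C r, PowerSeries.constantCoeff_C r⟩
      have hker : (PowerSeries.X : PowerSeries Q) • (⊤ : Submodule (PowerSeries Q) (PowerSeries Q)) =
          LinearMap.ker f := by
        ext a
        rw [Submodule.mem_smul_pointwise_iff_exists, LinearMap.mem_ker]
        constructor
        · rintro ⟨b, _, rfl⟩
          show PowerSeries.constantCoeff (PowerSeries.X * b) = 0
          rw [map_mul, PowerSeries.constantCoeff_X, zero_mul]
        · intro ha
          obtain ⟨b, hb⟩ := PowerSeries.X_dvd_iff.2 ha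
          exact ⟨b, trivial, hb.symm⟩
      let e : QuotSMulTop (PowerSeries.X : PowerSeries Q) (PowerSeries Q) ≃ₗ[PowerSeries Q] Q :=
        (Submodule.quotEquivOfEq _ _ hker).trans (f.quotKerEquivOfSurjective hf)
      refine (AddEquiv.isWeaklyRegular_congr (e := e.toAddEquiv)
        (as := rs.map (PowerSeries.C (R := Q))) (bs := rs) ?_).2 h1
      rw [List.forall₂_map_left_iff, List.forall₂_same]
      intro r _ x
      show e (PowerSeries.C r • x) = r • e x
      rw [e.map_smul]
      show PowerSeries.constantCoeff (PowerSeries.C r) * e x = r * e x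
      rw [PowerSeries.constantCoeff_C]
  · rw [Ideal.ofList_cons, ← Ideal.map_ofList, h2]
    apply le_antisymm
    · rw [sup_le_iff]
      constructor
      · rw [Ideal.span_singleton_le_iff_mem, mem_max_ps, PowerSeries.constantCoeff_X]
        exact zero_mem _
      · rw [Ideal.map_le_iff_le_comap]
        intro a ha
        rw [Ideal.mem_comap, mem_max_ps, PowerSeries.constantCoeff_C]
        exact ha
    · intro a ha
      rw [mem_max_ps] at ha
      rw [PowerSeries.eq_X_mul_shift_add_const a]
      refine add_mem ?_ ?_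
      · apply Ideal.mem_sup_left
        exact Ideal.mul_mem_right _ _ (Ideal.mem_span_singleton_self _)
      · apply Ideal.mem_sup_right
        exact Ideal.mem_map_of_mem _ ha

theorem nice_map_max {Q Q' : Type u} [CommRing Q] [IsLocalRing Q] [CommRing Q']
    [IsLocalRing Q'] (e : Q ≃+* Q') :
    (maximalIdeal Q).map (e : Q →+* Q') = maximalIdeal Q' := by
  have h1 : ((maximalIdeal Q').comap (e : Q →+* Q')).IsMaximal :=
    Ideal.comap_isMaximal_of_surjective _ e.surjective
  rw [← IsLocalRing.eq_maximalIdeal h1]
  exact Ideal.map_comap_of_surjective _ e.surjective _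

theorem nice_mem {Q Q' : Type u} [CommRing Q] [IsLocalRing Q] [CommRing Q']
    [IsLocalRing Q'] (e : Q ≃+* Q') (n : ℕ) (x : Q') :
    x ∈ maximalIdeal Q' ^ n ↔ e.symm x ∈ maximalIdeal Q ^ n := by
  rw [← nice_map_max e, ← Ideal.map_pow]
  constructor
  · intro h
    obtain ⟨y, hy, hyx⟩ := (Ideal.mem_map_iff_of_surjective _ e.surjective).1 h
    have hyx' : e y = x := hyx
    rw [← hyx', e.symm_apply_apply]
    exact hy
  · intro h
    have h1 := Ideal.mem_map_of_mem (e : Q →+* Q') h
    have h2 : (e : Q →+* Q') (e.symm x) = x := e.apply_symm_apply x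
    rwa [h2] at h1

/-- (job NT-24) -/
theorem RegGen.of_ringEquiv {Q Q' : Type u} [CommRing Q] [IsLocalRing Q] [CommRing Q']
    [IsLocalRing Q'] (e : Q ≃+* Q') (h : RegGen Q) : RegGen Q' := by
  obtain ⟨rs, h1, h2⟩ := h
  refine ⟨rs.map (e : Q →+* Q'), ?_, ?_⟩
  · refine (AddEquiv.isWeaklyRegular_congr (e := e.toAddEquiv) (as := rs)
        (bs := rs.map (e : Q →+* Q')) ?_).1 h1
    rw [List.forall₂_map_right_iff, List.forall₂_same]
    intro r _ x
    exact map_mul e r x
  · rw [← Ideal.map_ofList, h2, nice_map_max]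

/-- (job NT-24) -/
theorem isAdicComplete_of_ringEquiv {Q Q' : Type u} [CommRing Q] [IsLocalRing Q] [CommRing Q']
    [IsLocalRing Q'] (e : Q ≃+* Q') [IsAdicComplete (maximalIdeal Q) Q] :
    IsAdicComplete (maximalIdeal Q') Q' := by
  have hH : IsHausdorff (maximalIdeal Q) Q := inferInstance
  have hP : IsPrecomplete (maximalIdeal Q) Q := inferInstance
  refine { haus' := ?_, prec' := ?_ }
  · intro x hx
    have h1 : e.symm x = 0 := by
      apply hH.haus'
      intro n
      have h2 := hx n
      rw [smod_iff, sub_zero, nice_mem e] at h2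
      rw [smod_iff, sub_zero]
      exact h2
    rw [← e.apply_symm_apply x, h1, map_zero]
  · intro f hf
    obtain ⟨L, hL⟩ := hP.prec' (fun n => e.symm (f n)) (by
      intro m n hmn
      have h2 := hf hmn
      rw [smod_iff, nice_mem e, map_sub] at h2
      rw [smod_iff]
      exact h2)
    refine ⟨e L, fun n => ?_⟩
    have h3 := hL n
    rw [smod_iff] at h3
    rw [smod_iff, nice_mem e, map_sub, e.symm_apply_apply]
    exact h3

end Pool.Agent.H27.NT
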