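import Pool.Agent.H27.NT.Base
import Pool.Agent.H27.NT.Knor
import Pool.Agent.H27.NT.Nice
import Pool.Agent.H27.NT.IsoA
import Pool.Agent.H27.NT.IsoB
import Pool.Agent.H27.NT.IsoC
import Pool.Agent.H27.NT.Dim
import Pool.Agent.H27.NT.ComplF
import Pool.Agent.H27.NT.G0
import Pool.Agent.H27.NT.Compl

/-!
# Assembly
-/

open IsLocalRing TensorProduct

namespace Pool.Agent.H27.NT

universe u

/-- `A` is local and `TT A` holds. -/
def TTr (A : Type u) [CommRing A] : Prop := ∃ _ : IsLocalRing A, TT A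

theorem TTr.of_ringEquiv {A B : Type u} [CommRing A] [CommRing B] [IsNoetherianRing A]
    (e : A ≃+* B) (h : TTr A) : TTr B := by
  obtain ⟨h1, h2⟩ := h
  haveI : IsLocalRing B := e.isLocalRing
  exact ⟨inferInstance, TT.of_ringEquiv e h2⟩

section

variable {S : Type u} [CommRing S] [IsDomain S] [IsLocalRing S] [IsNoetherianRing S]

theorem par_ne_zero {g : S} (hg : g ≠ 0) (n : ℕ) : par g n ≠ 0 := by
  intro h
  have := congrArg (MvPowerSeries.constantCoeff) h
  simp [par] at this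
  exact hg this

theorem par_mem {g : S} (hg : g ∈ maximalIdeal S) (n : ℕ) :
    par g n ∈ maximalIdeal (MvPowerSeries (Fin n ⊕ Fin n) S) := by
  rw [mem_maximalIdeal, mem_nonunits_iff, MvPowerSeries.isUnit_iff_constantCoeff]
  have : MvPowerSeries.constantCoeff (par g n) = g := by simp [par]
  rw [this]
  exact (mem_maximalIdeal _).mp hg

theorem nice_mv [IsAdicComplete (maximalIdeal S) S] (hreg : RegGen S) (n : ℕ) :
    IsAdicComplete (maximalIdeal (MvPowerSeries (Fin n ⊕ Fin n) S))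
      (MvPowerSeries (Fin n ⊕ Fin n) S) ∧ RegGen (MvPowerSeries (Fin n ⊕ Fin n) S) := by
  induction n with
  | zero =>
    obtain ⟨e, -⟩ := exists_equiv_par_zero (0 : S)
    exact ⟨isAdicComplete_of_ringEquiv e, hreg.of_ringEquiv e⟩
  | succ n ih =>
    obtain ⟨h1, h2⟩ := ih
    obtain ⟨e, -⟩ := exists_equiv_par_succ (0 : S) n
    exact ⟨isAdicComplete_of_ringEquiv e.symm, (h2.powerSeries.powerSeries).of_ringEquiv e.symm⟩

theorem TTr_par [IsAdicComplete (maximalIdeal S) S] (hreg : RegGen S) {g : S} (hg : g ≠ 0)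
    (hgm : g ∈ maximalIdeal S) (h0 : TTr (S ⧸ Ideal.span {g})) (n : ℕ) :
    TTr (MvPowerSeries (Fin n ⊕ Fin n) S ⧸ Ideal.span {par g n}) := by
  induction n with
  | zero =>
    obtain ⟨e, he⟩ := exists_equiv_par_zero g
    refine TTr.of_ringEquiv (Ideal.quotientEquiv _ _ e ?_) h0
    rw [Ideal.map_span, Set.image_singleton]
    exact congrArg (fun x => Ideal.span {x}) he.symm
  | succ n ih =>
    obtain ⟨h1, h2⟩ := nice_mv hreg n
    obtain ⟨e, he⟩ := exists_equiv_par_succ g n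
    obtain ⟨e'⟩ := exists_equiv_KB (par g n) (par_mem hgm n)
    have := isLocalRing_KB (par g n) (par_mem hgm n)
    have : IsDomain (MvPowerSeries (Fin n ⊕ Fin n) S) := NoZeroDivisors.to_isDomain _
    obtain ⟨h3, h4⟩ := ih
    have h5 : TT (KB (par g n)) := TT_KB (par_ne_zero hg n) h2.powerSeries h4
    have : IsNoetherianRing (KB (par g n)) := Ideal.Quotient.isNoetherianRing _
    refine TTr.of_ringEquiv (e'.trans (Ideal.quotientEquiv _ _ e ?_).symm) ⟨inferInstance, h5⟩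
    rw [Ideal.map_span, Set.image_singleton]
    exact congrArg (fun x => Ideal.span {x}) he.symm

theorem TTr_hyp [IsAdicComplete (maximalIdeal S) S] (s₁ s₂ s₃ : S)
    (hs : RingTheory.Sequence.IsWeaklyRegular S [s₁, s₂, s₃])
    (hm : Ideal.span {s₁, s₂, s₃} = maximalIdeal S) (g : S) (hg : g ≠ 0)
    [IsDomain (S ⧸ Ideal.span {g})] [IsIntegrallyClosed (S ⧸ Ideal.span {g})] (n : ℕ) :
    TTr (MvPowerSeries (Fin n ⊕ Fin n) S ⧸ Ideal.span {hyp g n}) := by
  have hreg : RegGen S := ⟨[s₁, s₂, s₃], hs, by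
    rw [← hm, Ideal.span_insert, Ideal.span_insert]
    simp⟩
  have hgm : g ∈ maximalIdeal S := by
    have h1 : Ideal.span {g} ≠ ⊤ := Ideal.Quotient.nontrivial_iff.mp inferInstance
    exact IsLocalRing.le_maximalIdeal h1 (Ideal.mem_span_singleton_self g)
  haveI : IsLocalRing (S ⧸ Ideal.span {g}) :=
    IsLocalRing.of_surjective' (Ideal.Quotient.mk _) Ideal.Quotient.mk_surjective
  have h0 : TTr (S ⧸ Ideal.span {g}) :=
    ⟨inferInstance, TT_of_normal (dim_quotient_le s₁ s₂ s₃ hm g hg)⟩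
  obtain ⟨e, he⟩ := exists_equiv_hyp_par g n
  refine TTr.of_ringEquiv (Ideal.quotientEquiv _ _ e ?_).symm (TTr_par hreg hg hgm h0 n)
  rw [Ideal.map_span, Set.image_singleton]
  exact congrArg (fun x => Ideal.span {x}) he.symm

end

theorem main {S : Type u} [CommRing S] [IsDomain S] [IsLocalRing S] [IsNoetherianRing S]
    [IsAdicComplete (maximalIdeal S) S] (s₁ s₂ s₃ : S)
    (hs : RingTheory.Sequence.IsWeaklyRegular S [s₁, s₂, s₃])
    (hm : Ideal.span {s₁, s₂, s₃} = maximalIdeal S) (g : S) (hg : g ≠ 0)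
    [IsDomain (S ⧸ Ideal.span {g})] [IsIntegrallyClosed (S ⧸ Ideal.span {g})] (n : ℕ)
    (A : Type u) [CommRing A] [IsLocalRing A] [IsNoetherianRing A]
    (e : AdicCompletion (maximalIdeal A) A ≃+*
      MvPowerSeries (Fin n ⊕ Fin n) S ⧸ Ideal.span {hyp g n}) :
    Submodule.span ℚ {(1 : ℚ) ⊗ₜ[ℤ] clsA A} = (⊤ : Submodule ℚ (ℚ ⊗[ℤ] Gbar A)) := by
  obtain ⟨h1, h2, h3⟩ := completion_facts A
  obtain ⟨h4, h5⟩ := TTr.of_ringEquiv e.symm (TTr_hyp s₁ s₂ s₃ hs hm g hg n)
  refine span_eq_top ?_ ?_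
  · intro F hF h0 M _ _ _
    exact chi_eq_zero_of_TT h3 h5 F hF h0 M
  · intro F₀ F hF₀ hF M _ _ _
    exact chi_prop_of_TT h3 h5 F₀ F hF₀ hF M

end Pool.Agent.H27.NT
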