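import Pool.Agent.H27.NT.Basic

/-!
# The power series module `N⟦w⟧` (job NT-9)
-/

open IsLocalRing

namespace Pool.Agent.H27.NT

universe u

/-- `N⟦w⟧`, the sequences in `N`. -/
def PSM (N : Type u) : Type u := ℕ → N

namespace PSM

variable {R : Type u} [CommRing R] (N : Type u) [AddCommGroup N] [Module R N]

instance : AddCommGroup (PSM N) := inferInstanceAs (AddCommGroup (ℕ → N))

/-- (job NT-9) `(f • v)_n = ∑_{i+j=n} f_i • v_j`. -/
noncomputable instance : Module (PowerSeries R) (PSM N) where
  smul f v := fun n => ∑ x ∈ Finset.HasAntidiagonal.antidiagonal n, PowerSeries.coeff x.1 f • v x.2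
  one_smul v := by
    funext n
    change ∑ x ∈ Finset.HasAntidiagonal.antidiagonal n, PowerSeries.coeff x.1 (1 : PowerSeries R) • v x.2 = v n
    rw [Finset.sum_eq_single ((0, n) : ℕ × ℕ)]
    · simp
    · rintro ⟨a, b⟩ hab hne
      rw [Finset.HasAntidiagonal.mem_antidiagonal] at hab
      have ha : a ≠ 0 := by
        rintro rfl
        apply hne
        simp only [Prod.mk.injEq, true_and]
        omega
      rw [PowerSeries.coeff_one, if_neg ha, zero_smul]
    · intro h
      exact absurd (Finset.HasAntidiagonal.mem_antidiagonal.2 (zero_add n)) h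
  mul_smul f g v := by
    funext n
    change ∑ x ∈ Finset.HasAntidiagonal.antidiagonal n, PowerSeries.coeff x.1 (f * g) • v x.2 =
      ∑ x ∈ Finset.HasAntidiagonal.antidiagonal n, PowerSeries.coeff x.1 f •
        ∑ y ∈ Finset.HasAntidiagonal.antidiagonal x.2, PowerSeries.coeff y.1 g • v y.2
    simp only [PowerSeries.coeff_mul, Finset.sum_smul, Finset.smul_sum, Finset.sum_sigma']
    apply Finset.sum_nbij' (fun ⟨⟨_i, j⟩, ⟨k, l⟩⟩ ↦ ⟨(k, l + j), (l, j)⟩)
      (fun ⟨⟨i, _j⟩, ⟨k, l⟩⟩ ↦ ⟨(i + k, l), (i, k)⟩) <;> aesop (add simp [add_assoc, mul_smul])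
  smul_zero f := by
    funext n
    change ∑ x ∈ Finset.HasAntidiagonal.antidiagonal n, PowerSeries.coeff x.1 f • (0 : N) = 0
    exact Finset.sum_eq_zero fun x _ => smul_zero _
  smul_add f v w := by
    funext n
    change ∑ x ∈ Finset.HasAntidiagonal.antidiagonal n, PowerSeries.coeff x.1 f • (v x.2 + w x.2) =
      ∑ x ∈ Finset.HasAntidiagonal.antidiagonal n, PowerSeries.coeff x.1 f • v x.2 +
      ∑ x ∈ Finset.HasAntidiagonal.antidiagonal n, PowerSeries.coeff x.1 f • w x.2
    rw [← Finset.sum_add_distrib]
    exact Finset.sum_congr rfl fun x _ => smul_add _ _ _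
  add_smul f g v := by
    funext n
    change ∑ x ∈ Finset.HasAntidiagonal.antidiagonal n, PowerSeries.coeff x.1 (f + g) • v x.2 =
      ∑ x ∈ Finset.HasAntidiagonal.antidiagonal n, PowerSeries.coeff x.1 f • v x.2 +
      ∑ x ∈ Finset.HasAntidiagonal.antidiagonal n, PowerSeries.coeff x.1 g • v x.2
    rw [← Finset.sum_add_distrib]
    refine Finset.sum_congr rfl fun x _ => ?_
    rw [map_add, add_smul]
  zero_smul v := by
    funext n
    change ∑ x ∈ Finset.HasAntidiagonal.antidiagonal n, PowerSeries.coeff x.1 (0 : PowerSeries R) • v x.2 = 0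
    refine Finset.sum_eq_zero fun x _ => ?_
    rw [map_zero, zero_smul]

theorem smul_apply (f : PowerSeries R) (v : PSM N) (n : ℕ) :
    (f • v) n = ∑ x ∈ Finset.HasAntidiagonal.antidiagonal n, PowerSeries.coeff x.1 f • v x.2 := rfl

variable {N}

/-- The map induced by a linear map. -/
noncomputable def map {M : Type u} [AddCommGroup M] [Module R M] (f : N →ₗ[R] M) :
    PSM N →ₗ[PowerSeries R] PSM M where
  toFun v := fun n => f (v n)
  map_add' v w := by
    funext n
    exact map_add f _ _
  map_smul' a v := by
    funext n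
    change f (∑ x ∈ Finset.HasAntidiagonal.antidiagonal n, PowerSeries.coeff x.1 a • v x.2) =
      ∑ x ∈ Finset.HasAntidiagonal.antidiagonal n, PowerSeries.coeff x.1 a • f (v x.2)
    rw [map_sum]
    exact Finset.sum_congr rfl fun x _ => map_smul f _ _

theorem map_injective {M : Type u} [AddCommGroup M] [Module R M] (f : N →ₗ[R] M)
    (hf : Function.Injective f) : Function.Injective (map f) := by
  intro v w h
  funext n
  exact hf (congrFun h n)

theorem map_surjective {M : Type u} [AddCommGroup M] [Module R M] (f : N →ₗ[R] M)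
    (hf : Function.Surjective f) : Function.Surjective (map f) := by
  intro w
  choose v hv using fun n => hf (w n)
  exact ⟨v, funext hv⟩

theorem map_exact {M K : Type u} [AddCommGroup M] [Module R M] [AddCommGroup K] [Module R K]
    (f : M →ₗ[R] N) (g : N →ₗ[R] K) (h : Function.Exact f g) :
    Function.Exact (map f) (map g) := by
  intro w
  constructor
  · intro hw
    choose v hv using fun n => (h (w n)).1 (congrFun hw n)
    exact ⟨v, funext hv⟩
  · rintro ⟨v, rfl⟩
    funext n
    exact (h _).2 ⟨v n, rfl⟩

/-- (job NT-9) -/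
noncomputable def equivSelf : PSM R ≃ₗ[PowerSeries R] PowerSeries R where
  toFun v := PowerSeries.mk v
  invFun f := fun n => PowerSeries.coeff n f
  left_inv v := by
    funext n
    exact PowerSeries.coeff_mk n v
  right_inv f := by
    ext n
    exact PowerSeries.coeff_mk n _
  map_add' v w := by
    ext n
    refine (PowerSeries.coeff_mk n _).trans ?_
    rw [map_add]
    exact (congrArg₂ (· + ·) (PowerSeries.coeff_mk n v) (PowerSeries.coeff_mk n w)).symm
  map_smul' a v := by
    ext n
    refine (PowerSeries.coeff_mk n _).trans ?_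
    rw [RingHom.id_apply, smul_eq_mul, PowerSeries.coeff_mul]
    change ∑ x ∈ Finset.HasAntidiagonal.antidiagonal n, PowerSeries.coeff x.1 a • v x.2 = _
    refine Finset.sum_congr rfl fun x _ => ?_
    exact congrArg (PowerSeries.coeff x.1 a * ·) (PowerSeries.coeff_mk x.2 v).symm

/-- The power series module of a free module. -/
noncomputable def psPi (n : ℕ) : (Fin n → PowerSeries R) ≃ₗ[PowerSeries R] PSM (Fin n → R) where
  toFun v := fun k i => PowerSeries.coeff k (v i)
  invFun w := fun i => PowerSeries.mk fun k => w k i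
  left_inv v := by
    funext i
    ext k
    exact PowerSeries.coeff_mk k _
  right_inv w := by
    funext k i
    exact PowerSeries.coeff_mk k _
  map_add' v w := by
    funext k i
    exact map_add _ _ _
  map_smul' a v := by
    funext k i
    change PowerSeries.coeff k (a • v i) = (∑ x ∈ Finset.HasAntidiagonal.antidiagonal k,
      PowerSeries.coeff x.1 a • (fun j => PowerSeries.coeff x.2 (v j) : Fin n → R)) i
    rw [smul_eq_mul, PowerSeries.coeff_mul, Finset.sum_apply]
    rfl

/-- (job NT-9) `N` finite implies `N⟦w⟧` finite (a surjection `R^n → N` induces one). -/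
instance finite [Module.Finite R N] : Module.Finite (PowerSeries R) (PSM N) := by
  obtain ⟨n, f, hf⟩ := Module.Finite.exists_fin' R N
  have h1 := map_surjective f hf
  have h2 : Module.Finite (PowerSeries R) (PSM (Fin n → R)) := by
    refine Module.Finite.equiv (psPi (R := R) n)
  exact Module.Finite.of_surjective (map f) h1

end PSM

end Pool.Agent.H27.NT
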