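import Pool.Agent.H27.NT.PS

/-!
# Regular sequences on `N⟦w⟧` (job NT-10)
-/

open IsLocalRing

open scoped Pointwise

namespace Pool.Agent.H27.NT

universe u

namespace PSM

variable {R : Type u} [CommRing R] {N : Type u} [AddCommGroup N] [Module R N]

theorem psb_Xpow_smul (s : ℕ) (v : PSM N) (n : ℕ) :
    ((PowerSeries.X ^ s : PowerSeries R) • v) n = if s ≤ n then v (n - s) else 0 := by
  rw [smul_apply]
  split_ifs with h
  · rw [Finset.sum_eq_single (s, n - s)]
    · rw [PowerSeries.coeff_X_pow, if_pos rfl, one_smul]
    · rintro ⟨a, b⟩ hab hne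
      have h1 : a + b = n := Finset.HasAntidiagonal.mem_antidiagonal.1 hab
      rw [PowerSeries.coeff_X_pow, if_neg, zero_smul]
      intro ha
      apply hne
      have ha' : a = s := ha
      have hb : b = n - s := by omega
      rw [ha', hb]
    · intro h'
      exfalso
      apply h'
      rw [Finset.HasAntidiagonal.mem_antidiagonal]
      change s + (n - s) = n
      omega
  · apply Finset.sum_eq_zero
    rintro ⟨a, b⟩ hab
    have h1 : a + b = n := Finset.HasAntidiagonal.mem_antidiagonal.1 hab
    rw [PowerSeries.coeff_X_pow, if_neg, zero_smul]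
    intro ha
    have ha' : a = s := ha
    omega

theorem psb_C_smul (r : R) (v : PSM N) (n : ℕ) :
    ((PowerSeries.C r : PowerSeries R) • v) n = r • v n := by
  rw [smul_apply, Finset.sum_eq_single (0, n)]
  · rw [PowerSeries.coeff_C, if_pos rfl]
  · rintro ⟨a, b⟩ hab hne
    have h1 : a + b = n := Finset.HasAntidiagonal.mem_antidiagonal.1 hab
    rw [PowerSeries.coeff_C, if_neg, zero_smul]
    intro ha
    apply hne
    have ha' : a = 0 := ha
    have hb : b = n := by omega
    rw [ha', hb]
  · intro h'
    exfalso
    apply h'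
    rw [Finset.HasAntidiagonal.mem_antidiagonal]
    change 0 + n = n
    omega

/-- The first `s` coefficients. -/
def psb_trunc (N : Type u) [AddCommGroup N] (s : ℕ) : PSM N →+ (Fin s → N) where
  toFun v := fun i => v i
  map_zero' := rfl
  map_add' _ _ := rfl

theorem psb_trunc_apply (s : ℕ) (v : PSM N) (i : Fin s) : psb_trunc N s v i = v i := rfl

theorem psb_mem_iff (s : ℕ) (v : PSM N) :
    v ∈ ((PowerSeries.X ^ s : PowerSeries R) • (⊤ : Submodule (PowerSeries R) (PSM N))) ↔
      psb_trunc N s v = 0 := by
  rw [Submodule.mem_smul_pointwise_iff_exists]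
  constructor
  · rintro ⟨w, -, rfl⟩
    funext i
    rw [psb_trunc_apply, psb_Xpow_smul, if_neg (by have := i.2; omega)]
    rfl
  · intro h
    refine ⟨fun n => v (n + s), trivial, ?_⟩
    funext n
    rw [psb_Xpow_smul]
    split_ifs with hn
    · rw [Nat.sub_add_cancel hn]
    · have := congrFun h ⟨n, not_le.1 hn⟩
      exact this.symm

/-- The quotient by `w^s`, as an additive map. -/
noncomputable def psb_f (R : Type u) [CommRing R] (N : Type u) [AddCommGroup N] [Module R N] (s : ℕ) :
    QuotSMulTop (PowerSeries.X ^ s : PowerSeries R) (PSM N) →+ (Fin s → N) :=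
  QuotientAddGroup.lift
    ((PowerSeries.X ^ s : PowerSeries R) • (⊤ : Submodule (PowerSeries R) (PSM N))).toAddSubgroup
    (psb_trunc N s) (fun v hv => (psb_mem_iff s v).1 hv)

theorem psb_f_mk (s : ℕ) (v : PSM N) :
    psb_f R N s (Submodule.Quotient.mk v) = psb_trunc N s v := rfl

theorem psb_f_bij (s : ℕ) : Function.Bijective (psb_f R N s) := by
  constructor
  · rw [injective_iff_map_eq_zero]
    intro q hq
    obtain ⟨v, rfl⟩ := Submodule.Quotient.mk_surjective _ q
    rw [psb_f_mk] at hq
    rw [Submodule.Quotient.mk_eq_zero]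
    exact (psb_mem_iff s v).2 hq
  · intro x
    refine ⟨Submodule.Quotient.mk (fun n => if h : n < s then x ⟨n, h⟩ else 0), ?_⟩
    rw [psb_f_mk]
    funext i
    rw [psb_trunc_apply, dif_pos i.2]

/-- (job NT-10) `w^s, t_1, t_2, ...` is regular on `N⟦w⟧` if `t_1, t_2, ...` is regular on `N`:
`w` is regular on `N⟦w⟧` and `N⟦w⟧/w^s N⟦w⟧` is `N^s` as an `R`-module. -/
theorem isWeaklyRegular (s : ℕ) (t : List R) (h : RingTheory.Sequence.IsWeaklyRegular N t) :
    RingTheory.Sequence.IsWeaklyRegular (PSM N)
      ((PowerSeries.X ^ s : PowerSeries R) :: t.map (PowerSeries.C (R := R))) := by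
  rw [RingTheory.Sequence.isWeaklyRegular_cons_iff]
  constructor
  · intro v w hvw
    funext n
    have h1 := congrFun hvw (n + s)
    change ((PowerSeries.X ^ s : PowerSeries R) • v) (n + s) =
      ((PowerSeries.X ^ s : PowerSeries R) • w) (n + s) at h1
    rw [psb_Xpow_smul, psb_Xpow_smul, if_pos (Nat.le_add_left s n), if_pos (Nat.le_add_left s n),
      Nat.add_sub_cancel] at h1
    exact h1
  · have h2 : RingTheory.Sequence.IsWeaklyRegular (Fin s → N) t :=
      ((TensorProduct.piScalarRight R R N (Fin s)).isWeaklyRegular_congr t).1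
        (h.isWeaklyRegular_rTensor (M₂ := Fin s → R))
    refine (AddEquiv.isWeaklyRegular_congr (e := AddEquiv.ofBijective (psb_f R N s) (psb_f_bij s))
      (List.forall₂_map_left_iff.2 (List.forall₂_same.2 fun r _ x => ?_))).2 h2
    obtain ⟨v, rfl⟩ := Submodule.Quotient.mk_surjective _ x
    rw [← Submodule.Quotient.mk_smul]
    have key : ∀ y, AddEquiv.ofBijective (psb_f R N s) (psb_f_bij s) y = psb_f R N s y := fun y => rfl
    rw [key, key, psb_f_mk, psb_f_mk]
    funext i
    rw [Pi.smul_apply, psb_trunc_apply, psb_trunc_apply, psb_C_smul]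

/-- The length of a quotient of the restriction of scalars. -/
theorem psb_length_le {R S : Type u} [CommRing R] [CommRing S] {σ : R →+* S} {M Q : Type u}
    [AddCommGroup M] [Module R M] [AddCommGroup Q] [Module S Q] (π : M →ₛₗ[σ] Q)
    (hπ : Function.Surjective π) : Module.length S Q ≤ Module.length R M := by
  rw [← WithBot.coe_le_coe, Module.coe_length, Module.coe_length]
  refine Order.krullDim_le_of_strictMono (fun P : Submodule S Q => Submodule.comap π P) ?_
  refine Monotone.strictMono_of_injective (fun P P' h => Submodule.comap_mono h) ?_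
  intro P P' h
  ext q
  obtain ⟨m, rfl⟩ := hπ q
  have h1 : m ∈ Submodule.comap π P ↔ m ∈ Submodule.comap π P' := by
    change Submodule.comap π P = Submodule.comap π P' at h
    rw [h]
  exact h1

/-- The sequence with the only element `x` in degree `i`. -/
def psb_single (i : ℕ) (x : N) : PSM N := fun n => if n = i then x else 0

/-- (job NT-10) The quotient is `(N/tN)^s` as an `R`-module, and the length over `R⟦w⟧` is at most
the length over `R` (restriction of scalars along `R → R⟦w⟧`). -/
theorem length_le (s : ℕ) (t : List R) :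
    Module.length (PowerSeries R) (PSM N ⧸
      (Ideal.ofList ((PowerSeries.X ^ s : PowerSeries R) :: t.map (PowerSeries.C (R := R))) • ⊤ :
        Submodule (PowerSeries R) (PSM N))) ≤
      s * Module.length R (N ⧸ (Ideal.ofList t • ⊤ : Submodule R N)) := by
  set J : Ideal (PowerSeries R) :=
    Ideal.ofList ((PowerSeries.X ^ s : PowerSeries R) :: t.map (PowerSeries.C (R := R))) with hJ
  have hX : (PowerSeries.X ^ s : PowerSeries R) ∈ J := by
    refine Ideal.subset_span ?_
    exact List.mem_cons_self
  have hC : ∀ r ∈ Ideal.ofList t, (PowerSeries.C r : PowerSeries R) ∈ J := by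
    intro r hr
    have h1 : (PowerSeries.C r : PowerSeries R) ∈ (Ideal.ofList t).map (PowerSeries.C (R := R)) :=
      Ideal.mem_map_of_mem _ hr
    rw [Ideal.map_ofList] at h1
    have h2 : Ideal.ofList (t.map (PowerSeries.C (R := R))) ≤ J := by
      rw [hJ, Ideal.ofList_cons]
      exact le_sup_right
    exact h2 h1
  -- the maps `N → Q`
  let g : ℕ → N →ₛₗ[(PowerSeries.C (R := R))] (PSM N ⧸ (J • ⊤ : Submodule (PowerSeries R) (PSM N))) :=
    fun i =>
      { toFun := fun x => Submodule.Quotient.mk (psb_single i x)
        map_add' := fun x y => by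
          rw [← Submodule.Quotient.mk_add]
          congr 1
          funext n
          change (if n = i then x + y else 0) = (if n = i then x else 0) + (if n = i then y else 0)
          split_ifs
          · rfl
          · rw [add_zero]
        map_smul' := fun r x => by
          rw [← Submodule.Quotient.mk_smul]
          congr 1
          funext n
          rw [psb_C_smul]
          change (if n = i then r • x else 0) = r • (if n = i then x else 0)
          split_ifs
          · rfl
          · rw [smul_zero] }
  have hg : ∀ i, (Ideal.ofList t • ⊤ : Submodule R N) ≤ LinearMap.ker (g i) := by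
    intro i
    rw [Submodule.smul_le]
    intro r hr x _
    rw [LinearMap.mem_ker, LinearMap.map_smulₛₗ]
    change (PowerSeries.C r : PowerSeries R) • (Submodule.Quotient.mk (psb_single i x) :
      PSM N ⧸ (J • ⊤ : Submodule (PowerSeries R) (PSM N))) = 0
    rw [← Submodule.Quotient.mk_smul, Submodule.Quotient.mk_eq_zero]
    exact Submodule.smul_mem_smul (hC r hr) trivial
  let G : (Fin s → N ⧸ (Ideal.ofList t • ⊤ : Submodule R N)) →ₛₗ[(PowerSeries.C (R := R))]
      (PSM N ⧸ (J • ⊤ : Submodule (PowerSeries R) (PSM N))) :=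
    { toFun := fun x => ∑ i : Fin s, Submodule.liftQ _ (g i) (hg i) (x i)
      map_add' := fun x y => by
        rw [← Finset.sum_add_distrib]
        exact Finset.sum_congr rfl fun i _ => map_add _ _ _
      map_smul' := fun r x => by
        rw [Finset.smul_sum]
        exact Finset.sum_congr rfl fun i _ => LinearMap.map_smulₛₗ _ _ _ }
  have hG : Function.Surjective G := by
    intro q
    obtain ⟨v, rfl⟩ := Submodule.Quotient.mk_surjective _ q
    refine ⟨fun i => Submodule.Quotient.mk (v i), ?_⟩
    change ∑ i : Fin s, Submodule.liftQ _ (g i) (hg i) (Submodule.Quotient.mk (v i)) = _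
    have h1 : ∀ i : Fin s, Submodule.liftQ _ (g i) (hg i) (Submodule.Quotient.mk (v i)) =
        Submodule.mkQ (J • ⊤ : Submodule (PowerSeries R) (PSM N)) (psb_single i (v i)) := fun i => rfl
    rw [Finset.sum_congr rfl fun i _ => h1 i, ← map_sum, Submodule.mkQ_apply,
      Submodule.Quotient.eq]
    have h2 : (∑ i : Fin s, psb_single (i : ℕ) (v i) : PSM N) - v ∈
        ((PowerSeries.X ^ s : PowerSeries R) • (⊤ : Submodule (PowerSeries R) (PSM N))) := by
      rw [psb_mem_iff, map_sub, map_sum, sub_eq_zero]
      funext j
      rw [Finset.sum_apply, Finset.sum_eq_single j]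
      · change (if (j : ℕ) = j then v j else 0) = v j
        rw [if_pos rfl]
      · intro b _ hb
        change (if (j : ℕ) = b then v b else 0) = 0
        rw [if_neg]
        intro hjb
        exact hb (Fin.ext hjb.symm)
      · intro hj
        exact absurd (Finset.mem_univ j) hj
    rw [Submodule.mem_smul_pointwise_iff_exists] at h2
    obtain ⟨w, -, hw⟩ := h2
    rw [← hw]
    exact Submodule.smul_mem_smul hX trivial
  refine (psb_length_le G hG).trans ?_
  rw [Module.length_pi]
  simp

end PSM

end Pool.Agent.H27.NT
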