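import Pool.Agent.H27.NT.PSB

/-!
# Pulling additive functions back along `N ↦ N⟦w⟧` (job NT-11)
-/

open IsLocalRing

namespace Pool.Agent.H27.NT

universe u

variable {B R : Type u} [CommRing B] [CommRing R]

/-- `N⟦w⟧` as a `B`-module, for a ring map `φ : B → R⟦w⟧`. -/
@[reducible] noncomputable def psModule (φ : B →+* PowerSeries R) (N : Type u) [AddCommGroup N]
    [Module R N] : Module B (PSM N) := Module.compHom (PSM N) φ

/-- (job NT-11) -/
theorem psModule_finite (φ : B →+* PowerSeries R) (hφ : Function.Surjective φ) (N : Type u)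
    [AddCommGroup N] [Module R N] [Module.Finite R N] :
    @Module.Finite B (PSM N) _ _ (psModule φ N) := by
  let _ : Algebra B (PowerSeries R) := φ.toAlgebra
  let _ : Module B (PSM N) := psModule φ N
  have _ : IsScalarTower B (PowerSeries R) (PSM N) := ⟨fun b f v => by
    show (φ b * f) • v = φ b • (f • v)
    rw [mul_smul]⟩
  have _ : Module.Finite B (PowerSeries R) :=
    Module.Finite.of_surjective (Algebra.linearMap B (PowerSeries R)) hφ
  exact Module.Finite.trans (PowerSeries R) (PSM N)

/-- The map induced on `N⟦w⟧` by a linear map, as a `B`-linear map. -/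
noncomputable def psMap (φ : B →+* PowerSeries R) {M N : Type u} [AddCommGroup M] [Module R M]
    [AddCommGroup N] [Module R N] (f : M →ₗ[R] N) :
    @LinearMap B B _ _ (RingHom.id B) (PSM M) (PSM N) _ _ (psModule φ M) (psModule φ N) :=
  @LinearMap.mk B B _ _ (RingHom.id B) (PSM M) (PSM N) _ _ (psModule φ M) (psModule φ N)
    (@AddHom.mk _ _ _ _ (fun v => PSM.map f v) (fun v w => map_add (PSM.map f) v w))
    (fun b v => map_smul (PSM.map f) (φ b) v)

/-- (job NT-11) The additive function `N ↦ lam (N⟦w⟧)`. -/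
noncomputable def AddFn.ps (lam : AddFn B) (φ : B →+* PowerSeries R)
    (hφ : Function.Surjective φ) : AddFn R where
  val N _ _ := @AddFn.val B _ lam (PSM N) _ (psModule φ N)
  add {M N K} _ _ _ _ _ _ _ f g hf hg h := by
    exact @AddFn.add B _ lam (PSM M) (PSM N) (PSM K) _ (psModule φ M) _ (psModule φ N) _
      (psModule φ K) (psModule_finite φ hφ N) (psMap φ f) (psMap φ g)
      (PSM.map_injective f hf) (PSM.map_surjective g hg) (PSM.map_exact f g h)

theorem pull_map_max [IsLocalRing B] [IsLocalRing R] (φ : B →+* PowerSeries R)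
    (hφ : Function.Surjective φ) :
    (maximalIdeal B).map φ = maximalIdeal (PowerSeries R) := by
  have h1 : ((maximalIdeal (PowerSeries R)).comap φ).IsMaximal :=
    Ideal.comap_isMaximal_of_surjective φ hφ
  rw [← IsLocalRing.eq_maximalIdeal h1]
  exact Ideal.map_comap_of_surjective φ hφ _

theorem pull_lift [IsLocalRing B] [IsLocalRing R] (φ : B →+* PowerSeries R)
    (hφ : Function.Surjective φ) (s : ℕ) (a : PowerSeries R)
    (ha : a ∈ maximalIdeal (PowerSeries R) ^ s) : ∃ T ∈ maximalIdeal B ^ s, φ T = a := by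
  rw [← pull_map_max φ hφ, ← Ideal.map_pow] at ha
  exact (Ideal.mem_map_iff_of_surjective φ hφ).1 ha

theorem pull_X_mem [IsLocalRing R] : (PowerSeries.X : PowerSeries R) ∈ maximalIdeal (PowerSeries R) := by
  rw [IsLocalRing.mem_maximalIdeal, mem_nonunits_iff, PowerSeries.isUnit_iff_constantCoeff,
    PowerSeries.constantCoeff_X]
  exact not_isUnit_zero

theorem pull_C_mem [IsLocalRing R] (s : ℕ) (a : R) (ha : a ∈ maximalIdeal R ^ s) :
    PowerSeries.C (R := R) a ∈ maximalIdeal (PowerSeries R) ^ s := by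
  have h1 : (maximalIdeal R).map (PowerSeries.C (R := R)) ≤ maximalIdeal (PowerSeries R) := by
    rw [Ideal.map_le_iff_le_comap]
    intro x hx
    rw [Ideal.mem_comap, IsLocalRing.mem_maximalIdeal, mem_nonunits_iff,
      PowerSeries.isUnit_iff_constantCoeff, PowerSeries.constantCoeff_C]
    exact hx
  have h2 : PowerSeries.C (R := R) a ∈ (maximalIdeal R ^ s).map (PowerSeries.C (R := R)) :=
    Ideal.mem_map_of_mem _ ha
  rw [Ideal.map_pow] at h2
  exact Ideal.pow_right_mono h1 s h2

theorem pull_lift_list [IsLocalRing B] [IsLocalRing R] (φ : B →+* PowerSeries R)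
    (hφ : Function.Surjective φ) (s : ℕ) (t : List (PowerSeries R))
    (ht : ∀ a ∈ t, a ∈ maximalIdeal (PowerSeries R) ^ s) :
    ∃ T : List B, (∀ a ∈ T, a ∈ maximalIdeal B ^ s) ∧ T.map φ = t := by
  induction t with
  | nil => exact ⟨[], by simp, rfl⟩
  | cons a t ih =>
    obtain ⟨T, h1, h2⟩ := ih fun b hb => ht b (List.mem_cons_of_mem _ hb)
    obtain ⟨b, hb, hba⟩ := pull_lift φ hφ s a (ht a List.mem_cons_self)
    refine ⟨b :: T, ?_, by rw [List.map_cons, h2, hba]⟩
    intro c hc
    rcases List.mem_cons.1 hc with rfl | hc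
    · exact hb
    · exact h1 c hc

/-- Regularity and length do not change under a surjective change of rings. -/
theorem pull_change (φ : B →+* PowerSeries R) (hφ : Function.Surjective φ) (N : Type u)
    [AddCommGroup N] [Module R N] (T : List B)
    (hreg : RingTheory.Sequence.IsWeaklyRegular (PSM N) (T.map φ)) :
    letI : Module B (PSM N) := psModule φ N
    RingTheory.Sequence.IsWeaklyRegular (PSM N) T ∧
    Module.length B (PSM N ⧸ (Ideal.ofList T • ⊤ : Submodule B (PSM N))) =
      Module.length (PowerSeries R) (PSM N ⧸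
        (Ideal.ofList (T.map φ) • ⊤ : Submodule (PowerSeries R) (PSM N))) := by
  let _ : Algebra B (PowerSeries R) := φ.toAlgebra
  let _ : Module B (PSM N) := psModule φ N
  have _ : IsScalarTower B (PowerSeries R) (PSM N) := ⟨fun b f v => by
    show (φ b * f) • v = φ b • (f • v)
    rw [mul_smul]⟩
  constructor
  · exact (RingTheory.Sequence.isWeaklyRegular_map_algebraMap_iff (PowerSeries R) (PSM N) T).1 hreg
  · have h1 : (Ideal.ofList T • ⊤ : Submodule B (PSM N)) =
        (Ideal.ofList (T.map φ) • ⊤ : Submodule (PowerSeries R) (PSM N)).restrictScalars B := by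
      rw [← Ideal.map_ofList]
      exact (Ideal.smul_restrictScalars (Ideal.ofList T)
        (⊤ : Submodule (PowerSeries R) (PSM N))).symm
    rw [← Module.length_eq_of_surjective (S := B) (R := PowerSeries R) hφ]
    rw [h1]
    exact (Submodule.Quotient.restrictScalarsEquiv B
      (Ideal.ofList (T.map φ) • ⊤ : Submodule (PowerSeries R) (PSM N))).length_eq

/-- (job NT-11) Proof. Take `s`, `C` for `lam` and a sequence `t` in `m_R^s`, weakly regular on
`N`. As `φ` is surjective, `φ (m_B) = m_{R⟦w⟧}`, so there are `T_0, T_i ∈ m_B^s` with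
`φ T_0 = w^s`, `φ T_i = C t_i`. The sequence `T_0, T_1, ...` acts on `N⟦w⟧` as `w^s, t_1, ...`, so
it is weakly regular (`PSM.isWeaklyRegular`), and the length of the quotient over `B` is the
length over `R⟦w⟧` (`Module.length_eq_of_surjective`), at most `s c` (`PSM.length_le`). -/
theorem Tame.ps [IsLocalRing B] [IsLocalRing R] {lam : AddFn B} (h : Tame lam)
    (φ : B →+* PowerSeries R) (hφ : Function.Surjective φ) : Tame (lam.ps φ hφ) := by
  obtain ⟨s, C, hC⟩ := h
  refine ⟨s, C * s, ?_⟩
  intro N _ _ _ t c ht hreg hlen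
  obtain ⟨T, hT1, hT2⟩ := pull_lift_list φ hφ s
    ((PowerSeries.X ^ s : PowerSeries R) :: t.map (PowerSeries.C (R := R))) (by
      intro a ha
      rcases List.mem_cons.1 ha with rfl | ha
      · exact Ideal.pow_mem_pow pull_X_mem s
      · obtain ⟨b, hb, rfl⟩ := List.mem_map.1 ha
        exact pull_C_mem s b (ht b hb))
  obtain ⟨h1, h2⟩ := pull_change φ hφ N T (by rw [hT2]; exact PSM.isWeaklyRegular s t hreg)
  have h3 := @hC (PSM N) _ (psModule φ N) (psModule_finite φ hφ N) T (s * c) hT1 h1 (by
    rw [h2, hT2]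
    refine (PSM.length_le s t).trans ?_
    push_cast
    exact mul_le_mul_right hlen _)
  calc |(lam.ps φ hφ).val N| ≤ ((C : ℤ) * ((s * c : ℕ) : ℤ)) := h3
    _ = ((C * s : ℕ) : ℤ) * (c : ℤ) := by push_cast; ring

end Pool.Agent.H27.NT
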