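import Mathlib

/-!
# Regular local rings of dimension three (job NT-34)

General statement, by induction on the dimension `d` (recommended): a regular local ring `S` of
dimension `d` is a domain, and every sequence of `d` generators of the maximal ideal is weakly
regular. `d = 0`: `m = 0`, `S` is a field. `d ≥ 1`: by prime avoidance choose `x ∈ m`, `x ∉ m²`,
`x` in no minimal prime (finitely many). `x` is part of a system of `d` generators of `m`, so
`S/x` has maximal ideal generated by `d - 1` elements and dimension `≥ d - 1` (hence is regular of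
dimension `d - 1`), so `S/x` is a domain by induction and `(x)` is prime. It contains a minimal
prime `P`, `x ∉ P`, so `P = x P`, so `P = 0` by Nakayama: `S` is a domain. Now if `x₁, …, x_d`
generate `m` then `x₁ ≠ 0` is regular and `S/x₁` is regular of dimension `d - 1` with generators
`x₂, …, x_d`; induct.
-/

open IsLocalRing

namespace Pool.Agent.H27.NT

universe u

/-- the quotient by a nonunit is local with the expected maximal ideal -/
theorem map_mk_max {S : Type u} [CommRing S] [IsLocalRing S] {I : Ideal S} (hI : I ≤ maximalIdeal S)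
    [IsLocalRing (S ⧸ I)] :
    (maximalIdeal S).map (Ideal.Quotient.mk I) = maximalIdeal (S ⧸ I) := by
  have h1 := Ideal.map_eq_top_or_isMaximal_of_surjective (Ideal.Quotient.mk I)
    Ideal.Quotient.mk_surjective (maximalIdeal.isMaximal S)
  rcases h1 with h1 | h1
  · exfalso
    have h2 := congrArg (Ideal.comap (Ideal.Quotient.mk I)) h1
    rw [Ideal.comap_map_of_surjective _ Ideal.Quotient.mk_surjective, Ideal.comap_top,
      ← RingHom.ker_eq_comap_bot, Ideal.mk_ker, sup_eq_left.2 hI] at h2
    exact (maximalIdeal.isMaximal S).ne_top h2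
  · exact eq_maximalIdeal h1

theorem quot_local {S : Type u} [CommRing S] [IsLocalRing S] {x : S} (hx : x ∈ maximalIdeal S) :
    IsLocalRing (S ⧸ Ideal.span {x}) := by
  have hle : Ideal.span {x} ≤ maximalIdeal S := by
    rw [Ideal.span_singleton_le_iff_mem]; exact hx
  have : Nontrivial (S ⧸ Ideal.span {x}) :=
    Ideal.Quotient.nontrivial_iff.2 (fun h => (maximalIdeal.isMaximal S).ne_top
      (top_le_iff.1 (h ▸ hle)))
  exact IsLocalRing.of_surjective' (Ideal.Quotient.mk _) Ideal.Quotient.mk_surjective

theorem quot_gens {S : Type u} [CommRing S] [IsLocalRing S] {x : S} {d : ℕ} {g : Fin d → S}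
    (hg : Ideal.span (insert x (Set.range g)) = maximalIdeal S)
    [IsLocalRing (S ⧸ Ideal.span {x})] :
    Ideal.span (Set.range (fun i => Ideal.Quotient.mk (Ideal.span {x}) (g i))) =
      maximalIdeal (S ⧸ Ideal.span {x}) := by
  have hx : x ∈ maximalIdeal S := by
    rw [← hg]; exact Ideal.subset_span (Set.mem_insert _ _)
  have hle : Ideal.span {x} ≤ maximalIdeal S := by
    rw [Ideal.span_singleton_le_iff_mem]; exact hx
  rw [← map_mk_max hle, ← hg, Ideal.map_span, Set.image_insert_eq]
  have h0 : Ideal.Quotient.mk (Ideal.span {x}) x = 0 := by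
    rw [Ideal.Quotient.eq_zero_iff_mem]; exact Ideal.mem_span_singleton_self x
  rw [h0, Ideal.span_insert_zero, ← Set.range_comp]
  rfl

theorem dim_le_card {S : Type u} [CommRing S] [IsLocalRing S] [IsNoetherianRing S] {d : ℕ}
    (g : Fin d → S) (hg : Ideal.span (Set.range g) = maximalIdeal S) : ringKrullDim S ≤ d := by
  refine (ringKrullDim_le_spanFinrank_maximalIdeal S).trans ?_
  rw [← hg]
  have h1 : (Ideal.span (Set.range g)).spanFinrank ≤ (Set.range g).ncard :=
    Submodule.spanFinrank_span_le_ncard_of_finite (Set.finite_range g)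
  have h2 : (Set.range g).ncard ≤ d := by
    have := Set.ncard_image_le (f := g) (s := Set.univ) Set.finite_univ
    rw [Set.image_univ, Set.ncard_univ, Nat.card_eq_fintype_card, Fintype.card_fin] at this
    exact this
  exact_mod_cast h1.trans h2

theorem quot_dim {S : Type u} [CommRing S] [IsLocalRing S] [IsNoetherianRing S] {x : S} {d : ℕ}
    {g : Fin d → S} (hg : Ideal.span (insert x (Set.range g)) = maximalIdeal S)
    (hd : ringKrullDim S = (d + 1 : ℕ)) [IsLocalRing (S ⧸ Ideal.span {x})] :
    ringKrullDim (S ⧸ Ideal.span {x}) = d := by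
  have hx : x ∈ maximalIdeal S := by
    rw [← hg]; exact Ideal.subset_span (Set.mem_insert _ _)
  have h1 : ringKrullDim (S ⧸ Ideal.span {x}) ≤ d := dim_le_card _ (quot_gens hg)
  have h2 := Ideal.height_le_ringKrullDim_quotient_add_one hx
  rw [IsLocalRing.maximalIdeal_height_eq_ringKrullDim, hd] at h2
  have h3 : (0 : WithBot ℕ∞) ≤ ringKrullDim (S ⧸ Ideal.span {x}) := ringKrullDim_nonneg_of_nontrivial
  obtain ⟨e, he⟩ : ∃ e : ℕ, ringKrullDim (S ⧸ Ideal.span {x}) = e := by
    generalize ringKrullDim (S ⧸ Ideal.span {x}) = w at h1 h3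
    induction w with
    | bot => simp at h3
    | coe w =>
      induction w using ENat.recTopCoe with
      | top => exact absurd h1 (by
          intro h
          have : (⊤ : ℕ∞) ≤ (d : ℕ∞) := by exact_mod_cast h
          exact absurd this (by simp))
      | coe e => exact ⟨e, rfl⟩
  rw [he] at h1 h2 ⊢
  have h4 : e ≤ d := by exact_mod_cast h1
  have h5 : d + 1 ≤ e + 1 := by exact_mod_cast h2
  have : e = d := by omega
  rw [this]

/-- exchange: an element of `m` outside `m²` is part of a minimal generating family -/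
theorem exchange {S : Type u} [CommRing S] [IsLocalRing S] {d : ℕ} {g : Fin (d + 1) → S}
    (hg : Ideal.span (Set.range g) = maximalIdeal S) {x : S} (hx : x ∈ maximalIdeal S)
    (hx2 : x ∉ maximalIdeal S ^ 2) :
    ∃ g' : Fin d → S, Ideal.span (insert x (Set.range g')) = maximalIdeal S := by
  have h1 : x ∈ Ideal.span (Set.range g) := hg ▸ hx
  obtain ⟨a, ha⟩ := (Ideal.mem_span_range_iff_exists_fun).1 h1
  have hgm : ∀ i, g i ∈ maximalIdeal S := fun i => by
    rw [← hg]; exact Ideal.subset_span (Set.mem_range_self i)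
  obtain ⟨i, hi⟩ : ∃ i, a i ∉ maximalIdeal S := by
    by_contra hc
    push Not at hc
    apply hx2
    rw [← ha, pow_two]
    exact Ideal.sum_mem _ (fun i _ => Ideal.mul_mem_mul (hc i) (hgm i))
  have hu : IsUnit (a i) := by
    rw [mem_maximalIdeal, mem_nonunits_iff, not_not] at hi
    exact hi
  obtain ⟨u, hu⟩ := hu
  refine ⟨fun j => g (i.succAbove j), ?_⟩
  apply le_antisymm
  · rw [Ideal.span_le]
    rintro y (rfl | ⟨j, rfl⟩)
    · exact hx
    · exact hgm _
  · rw [← hg, Ideal.span_le]
    rintro _ ⟨j, rfl⟩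
    set J := Ideal.span (insert x (Set.range fun j => g (i.succAbove j))) with hJ
    have hJx : x ∈ J := Ideal.subset_span (Set.mem_insert _ _)
    have hJg : ∀ j, g (i.succAbove j) ∈ J := fun j =>
      Ideal.subset_span (Set.mem_insert_of_mem _ (Set.mem_range_self j))
    by_cases hj : j = i
    · subst hj
      rw [Fin.sum_univ_succAbove _ j] at ha
      have h2 : a j * g j = x - ∑ k, a (j.succAbove k) * g (j.succAbove k) := by
        rw [← ha]; ring
      have h3 : a j * g j ∈ J := by
        rw [h2]
        exact J.sub_mem hJx (Ideal.sum_mem _ (fun k _ => J.mul_mem_left _ (hJg k)))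
      have h4 : g j = (↑u⁻¹ : S) * (a j * g j) := by
        rw [← hu, ← mul_assoc, Units.inv_mul, one_mul]
      show g j ∈ J
      rw [h4]
      exact J.mul_mem_left _ h3
    · obtain ⟨k, rfl⟩ := Fin.exists_succAbove_eq hj
      exact hJg k

theorem dim_pos_max {S : Type u} [CommRing S] [IsLocalRing S] {d : ℕ}
    (hd : ringKrullDim S = (d + 1 : ℕ)) : maximalIdeal S ∉ minimalPrimes S := by
  intro h
  have h1 := IsLocalRing.maximalIdeal_height_eq_ringKrullDim (R := S)
  have h2 : (maximalIdeal S).height = 0 := by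
    have h3 := (PrimeSpectrum.height_eq_orderHeight
      (⟨maximalIdeal S, (maximalIdeal.isMaximal S).isPrime⟩ : PrimeSpectrum S))
    show (maximalIdeal S).height = 0
    refine h3.trans ?_
    rw [Order.height_eq_zero]
    intro q hq
    exact h.2 ⟨q.2, bot_le⟩ hq
  rw [h2, hd] at h1
  have h3 : (0 : ℕ) = d + 1 := by exact_mod_cast h1
  omega

theorem exists_good {S : Type u} [CommRing S] [IsLocalRing S] [IsNoetherianRing S] {d : ℕ}
    (hd : ringKrullDim S = (d + 1 : ℕ)) :
    ∃ x ∈ maximalIdeal S, x ∉ maximalIdeal S ^ 2 ∧ ∀ P ∈ minimalPrimes S, x ∉ P := by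
  by_contra hc
  push Not at hc
  have hfin : (insert (maximalIdeal S ^ 2) (minimalPrimes S)).Finite :=
    (minimalPrimes.finite_of_isNoetherianRing S).insert _
  have hsub : ((maximalIdeal S : Ideal S) : Set S) ⊆
      ⋃ i ∈ insert (maximalIdeal S ^ 2) (minimalPrimes S), ((i : Ideal S) : Set S) := by
    intro x hx
    simp only [Set.mem_iUnion]
    by_cases h : x ∈ maximalIdeal S ^ 2
    · exact ⟨_, Set.mem_insert _ _, h⟩
    · obtain ⟨P, hP, hxP⟩ := hc x hx h
      exact ⟨P, Set.mem_insert_of_mem _ hP, hxP⟩
  have := (Ideal.subset_union_prime_finite hfin (f := fun I : Ideal S => I)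
    (maximalIdeal S ^ 2) (maximalIdeal S ^ 2) (by
      intro i hi h1 _
      rcases hi with rfl | hi
      · exact absurd rfl h1
      · exact hi.1.1)).1 hsub
  obtain ⟨I, hI, hle⟩ := this
  rcases hI with rfl | hI
  · have h0 : maximalIdeal S = ⊥ := by
      apply Submodule.eq_bot_of_le_smul_of_le_jacobson_bot (maximalIdeal S) _
        (IsNoetherian.noetherian _)
      · rw [smul_eq_mul, ← pow_two]; exact hle
      · exact IsLocalRing.maximalIdeal_le_jacobson _
    apply dim_pos_max hd
    rw [h0]
    refine ⟨⟨h0 ▸ (maximalIdeal.isMaximal S).isPrime, bot_le⟩, fun q _ _ => bot_le⟩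
  · have hP : I.IsPrime := hI.1.1
    have h1 : maximalIdeal S = I :=
      (maximalIdeal.isMaximal S).eq_of_le hP.ne_top hle
    exact dim_pos_max hd (h1 ▸ hI)

theorem isDomain_of_quot {S : Type u} [CommRing S] [IsLocalRing S] [IsNoetherianRing S] {x : S}
    (hx : x ∈ maximalIdeal S) (hmin : ∀ P ∈ minimalPrimes S, x ∉ P)
    (hdom : IsDomain (S ⧸ Ideal.span {x})) : IsDomain S := by
  have hp : (Ideal.span {x}).IsPrime := (Ideal.Quotient.isDomain_iff_prime _).1 hdom
  obtain ⟨P, hP, hPx⟩ := Ideal.exists_minimalPrimes_le (I := (⊥ : Ideal S)) (J := Ideal.span {x})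
    bot_le
  have hP' : P.IsPrime := hP.1.1
  have hxP : x ∉ P := hmin P hP
  have h0 : P = ⊥ := by
    apply Submodule.eq_bot_of_le_smul_of_le_jacobson_bot (maximalIdeal S) _
      (IsNoetherian.noetherian _)
    · intro p hpP
      obtain ⟨a, ha⟩ := Ideal.mem_span_singleton'.1 (hPx hpP)
      rw [← ha] at hpP ⊢
      have haP : a ∈ P := (hP'.mem_or_mem hpP).resolve_right hxP
      rw [smul_eq_mul, mul_comm a x]
      exact Ideal.mul_mem_mul hx haP
    · exact IsLocalRing.maximalIdeal_le_jacobson _
  rw [h0] at hP'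
  exact IsDomain.of_bot_isPrime S

theorem reg_main (d : ℕ) : ∀ (S : Type u) [CommRing S] [IsLocalRing S] [IsNoetherianRing S],
    ringKrullDim S = d → ∀ g : Fin d → S, Ideal.span (Set.range g) = maximalIdeal S →
      IsDomain S ∧ RingTheory.Sequence.IsWeaklyRegular S (List.ofFn g) := by
  induction d with
  | zero =>
    intro S _ _ _ hd g hg
    have h0 : maximalIdeal S = ⊥ := by
      rw [← hg, Set.range_eq_empty, Ideal.span_empty]
    refine ⟨?_, by simp⟩
    have : (⊥ : Ideal S).IsPrime := h0 ▸ (maximalIdeal.isMaximal S).isPrime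
    exact IsDomain.of_bot_isPrime S
  | succ d ih =>
    intro S _ _ _ hd g hg
    have hdom : IsDomain S := by
      obtain ⟨x, hx, hx2, hxP⟩ := exists_good hd
      obtain ⟨g', hg'⟩ := exchange hg hx hx2
      have := quot_local hx
      exact isDomain_of_quot hx hxP
        (ih (S ⧸ Ideal.span {x}) (quot_dim hg' hd) _ (quot_gens hg')).1
    refine ⟨hdom, ?_⟩
    set x := g 0 with hxdef
    have hg' : Ideal.span (insert x (Set.range fun j : Fin d => g j.succ)) = maximalIdeal S := by
      rw [← hg]
      congr 1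
      ext y
      simp only [Set.mem_insert_iff, Set.mem_range, Fin.exists_fin_succ]
      constructor
      · rintro (rfl | ⟨j, rfl⟩)
        · left; rfl
        · right; exact ⟨j, rfl⟩
      · rintro (rfl | ⟨j, rfl⟩)
        · left; rfl
        · right; exact ⟨j, rfl⟩
    have hxm : x ∈ maximalIdeal S := by
      rw [← hg']; exact Ideal.subset_span (Set.mem_insert _ _)
    have := quot_local hxm
    have hx0 : x ≠ 0 := by
      intro h0
      rw [h0, Ideal.span_insert_zero] at hg'
      have := dim_le_card _ hg'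
      rw [hd] at this
      have h2 : d + 1 ≤ d := by exact_mod_cast this
      omega
    have hih := (ih (S ⧸ Ideal.span {x}) (quot_dim hg' hd) _ (quot_gens hg')).2
    rw [List.ofFn_succ, RingTheory.Sequence.isWeaklyRegular_cons_iff]
    refine ⟨?_, ?_⟩
    · intro a b hab
      exact mul_left_cancel₀ hx0 hab
    · have h1 : RingTheory.Sequence.IsWeaklyRegular (S ⧸ Ideal.span {x})
          (List.ofFn fun j : Fin d => g j.succ) := by
        rw [← RingTheory.Sequence.isWeaklyRegular_map_algebraMap_iff (S ⧸ Ideal.span {x})]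
        rw [List.map_ofFn]
        exact hih
      have e : (S ⧸ Ideal.span {x}) ≃ₗ[S] QuotSMulTop x S :=
        Submodule.quotEquivOfEq _ _ (by
          ext y
          rw [Submodule.mem_smul_pointwise_iff_exists, Ideal.mem_span_singleton']
          constructor
          · rintro ⟨a, rfl⟩
            exact ⟨a, trivial, by rw [smul_eq_mul, mul_comm]⟩
          · rintro ⟨a, _, rfl⟩
            exact ⟨a, by rw [smul_eq_mul, mul_comm]⟩)
      exact (e.isWeaklyRegular_congr _).1 h1

theorem regular_dim_three {S : Type u} [CommRing S] [IsRegularLocalRing S]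
    (h : ringKrullDim S = 3) :
    IsDomain S ∧ ∃ s₁ s₂ s₃ : S, RingTheory.Sequence.IsWeaklyRegular S [s₁, s₂, s₃] ∧
      Ideal.span {s₁, s₂, s₃} = maximalIdeal S := by
  have h1 := IsRegularLocalRing.spanFinrank_maximalIdeal (R := S)
  rw [h] at h1
  have h2 : (maximalIdeal S).spanFinrank = 3 := by exact_mod_cast h1
  have hfg : (maximalIdeal S).FG := IsNoetherian.noetherian _
  have h3 := Submodule.FG.generators_ncard hfg
  rw [h2] at h3
  obtain ⟨a, b, c, _, _, _, habc⟩ := Set.ncard_eq_three.1 h3
  have h4 : Ideal.span {a, b, c} = maximalIdeal S := by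
    rw [← habc]; exact Submodule.span_generators _
  have h5 : Set.range (![a, b, c] : Fin 3 → S) = {a, b, c} := by
    ext y
    simp only [Set.mem_range, Set.mem_insert_iff, Set.mem_singleton_iff, Fin.exists_fin_succ,
      Matrix.cons_val_zero, Matrix.cons_val_succ, IsEmpty.exists_iff, or_false]
    constructor
    · rintro (h | h | h) <;> simp [h.symm]
    · rintro (h | h | h) <;> simp [h]
  obtain ⟨d1, d2⟩ := reg_main 3 S (by rw [h]; rfl) ![a, b, c] (by rw [h5, h4])
  refine ⟨d1, a, b, c, ?_, h4⟩
  simpa using d2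

end Pool.Agent.H27.NT
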